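import Mathlib

/-!
[H67 VT LSB]  From additive to primitive multiplicative characters.

Proof.  `e(t) = exp(2 π i t)`, `S(b) = ∑_{n ∈ s} a_n e(n b/q)`, `τ(χ) = ∑_{b mod q} χ(b) e(b/q)`
(`gaussSum χ (ZMod.stdAddChar)`).  For primitive `χ` and all `n`:
`∑_b χ⁻¹(b) e(b n/q) = χ(n) τ(χ⁻¹)` (`gaussSum_mulShift_of_isPrimitive` in
`Mathlib/NumberTheory/DirichletCharacter/GaussSum.lean`; `χ⁻¹` is primitive too), and `‖τ(χ⁻¹)‖^2 = q`:
sum `‖∑_b χ⁻¹(b) e(b n/q)‖^2` over `n mod q`: by orthogonality of the additive characters it is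
`q ∑_b ‖χ⁻¹(b)‖^2 = q φ(q)`, and also `φ(q) ‖τ‖^2`.  (Or any norm formula in Mathlib.)
So `q ‖∑_n a_n χ(n)‖^2 = ‖∑_b χ⁻¹(b) S(b)‖^2`.  Sum over the primitive `χ`, extend to all `χ mod q`
(nonnegative terms), orthogonality of the characters: `= φ(q) ∑_{(b,q)=1} ‖S(b)‖^2 ≤ q ∑ ‖S(b)‖^2`.
-/

namespace Pool.Agent.H67.VT

open Finset

open ComplexConjugate in
/-- conjugate of a character value -/
theorem lsb_conj {q : ℕ} [NeZero q] (χ : DirichletCharacter ℂ q) (x : ZMod q) :
    conj (χ x) = χ⁻¹ x := MulChar.star_apply' χ x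

open ComplexConjugate in
/-- the number of units, as a sum over a character -/
theorem lsb_units {q : ℕ} [NeZero q] (χ : DirichletCharacter ℂ q) :
    ∑ x : ZMod q, χ x * χ⁻¹ x = (q.totient : ℂ) := by
  classical
  have h : ∀ x : ZMod q, χ x * χ⁻¹ x = if IsUnit x then 1 else 0 := by
    intro x
    split_ifs with hx
    · have : (χ * χ⁻¹) x = 1 := by
        rw [mul_inv_cancel, MulChar.one_apply hx]
      rwa [MulChar.mul_apply] at this
    · rw [MulChar.map_nonunit _ hx, zero_mul]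
  simp_rw [h]
  rw [Finset.sum_boole, ← ZMod.card_units_eq_totient, ← Finset.card_univ]
  congr 1
  symm
  refine Finset.card_bij (fun (u : (ZMod q)ˣ) _ => (u : ZMod q)) ?_ ?_ ?_
  · intro u _
    rw [mem_filter]
    exact ⟨mem_univ _, u.isUnit⟩
  · intro u _ v _ h
    exact Units.ext h
  · intro x hx
    rw [mem_filter] at hx
    exact ⟨hx.2.unit, mem_univ _, rfl⟩

open ComplexConjugate in
theorem lsb_gauss {q : ℕ} [NeZero q] (χ : DirichletCharacter ℂ q) (hχ : χ.IsPrimitive) :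
    gaussSum χ (ZMod.stdAddChar (N := q)) * conj (gaussSum χ (ZMod.stdAddChar (N := q))) = q := by
  classical
  set e : AddChar (ZMod q) ℂ := ZMod.stdAddChar (N := q) with he
  have h1 : ∑ x : ZMod q, gaussSum χ (e.mulShift x) * conj (gaussSum χ (e.mulShift x)) =
      (q : ℂ) * q.totient := by
    have h2 : ∀ x : ZMod q, gaussSum χ (e.mulShift x) * conj (gaussSum χ (e.mulShift x)) =
        ∑ b : ZMod q, ∑ b' : ZMod q, χ b * χ⁻¹ b' * e (x * (b - b')) := by
      intro x
      unfold gaussSum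
      rw [map_sum, Finset.sum_mul_sum]
      refine Finset.sum_congr rfl fun b _ => Finset.sum_congr rfl fun b' _ => ?_
      rw [map_mul, lsb_conj, AddChar.mulShift_apply, AddChar.mulShift_apply]
      have : x * (b - b') = x * b + -(x * b') := by ring
      rw [this, AddChar.map_add_eq_mul, AddChar.map_neg_eq_conj]
      ring
    simp_rw [h2]
    rw [Finset.sum_comm]
    have h3 : ∀ b : ZMod q, ∑ x : ZMod q, ∑ b' : ZMod q, χ b * χ⁻¹ b' * e (x * (b - b')) =
        (q : ℂ) * (χ b * χ⁻¹ b) := by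
      intro b
      rw [Finset.sum_comm]
      have h4 : ∀ b' : ZMod q, ∑ x : ZMod q, χ b * χ⁻¹ b' * e (x * (b - b')) =
          if b' = b then (q : ℂ) * (χ b * χ⁻¹ b) else 0 := by
        intro b'
        rw [← Finset.mul_sum, AddChar.sum_mulShift _ (ZMod.isPrimitive_stdAddChar q)]
        by_cases h : b' = b
        · subst h
          rw [if_pos (sub_self _), if_pos rfl, ZMod.card]
          ring
        · rw [if_neg h, if_neg (fun h' => h (sub_eq_zero.1 h').symm)]
          simp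
      simp_rw [h4]
      rw [Finset.sum_ite_eq' Finset.univ b, if_pos (Finset.mem_univ _)]
    simp_rw [h3]
    rw [← Finset.mul_sum, lsb_units]
  have h5 : ∑ x : ZMod q, gaussSum χ (e.mulShift x) * conj (gaussSum χ (e.mulShift x)) =
      (q.totient : ℂ) * (gaussSum χ e * conj (gaussSum χ e)) := by
    have h6 : ∀ x : ZMod q, gaussSum χ (e.mulShift x) * conj (gaussSum χ (e.mulShift x)) =
        (χ x * χ⁻¹ x) * (gaussSum χ e * conj (gaussSum χ e)) := by
      intro x
      rw [gaussSum_mulShift_of_isPrimitive e hχ, map_mul, lsb_conj, inv_inv]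
      ring
    simp_rw [h6]
    rw [← Finset.sum_mul, lsb_units]
  have h7 : (q.totient : ℂ) ≠ 0 := by
    have : 0 < q.totient := Nat.totient_pos.mpr (Nat.pos_of_ne_zero (NeZero.ne q))
    exact_mod_cast this.ne'
  have h8 : (q.totient : ℂ) * (gaussSum χ e * conj (gaussSum χ e)) = (q.totient : ℂ) * q := by
    rw [← h5, h1, mul_comm]
  exact mul_left_cancel₀ h7 h8

open ComplexConjugate in
/-- Parseval for the multiplicative characters -/
theorem lsb_parseval {q : ℕ} [NeZero q] (S : ZMod q → ℂ) :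
    ∑ χ : DirichletCharacter ℂ q, (∑ b, χ⁻¹ b * S b) * conj (∑ b, χ⁻¹ b * S b) =
      (q.totient : ℂ) * ∑ b ∈ (univ : Finset (ZMod q)).filter (fun b => IsUnit b),
        S b * conj (S b) := by
  classical
  have h1 : ∀ χ : DirichletCharacter ℂ q, (∑ b, χ⁻¹ b * S b) * conj (∑ b, χ⁻¹ b * S b) =
      ∑ b : ZMod q, ∑ b' : ZMod q, (χ⁻¹ b * χ b') * (S b * conj (S b')) := by
    intro χ
    rw [map_sum, Finset.sum_mul_sum]
    refine Finset.sum_congr rfl fun b _ => Finset.sum_congr rfl fun b' _ => ?_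
    rw [map_mul, lsb_conj, inv_inv]
    ring
  simp_rw [h1]
  rw [Finset.sum_comm]
  have h2 : ∀ b : ZMod q, ∑ χ : DirichletCharacter ℂ q, ∑ b' : ZMod q,
      (χ⁻¹ b * χ b') * (S b * conj (S b')) =
      if IsUnit b then (q.totient : ℂ) * (S b * conj (S b)) else 0 := by
    intro b
    rw [Finset.sum_comm]
    by_cases hb : IsUnit b
    · rw [if_pos hb]
      have hinv : ∀ χ : DirichletCharacter ℂ q, χ⁻¹ b = χ (b⁻¹) := by
        intro χ
        rw [MulChar.inv_apply_eq_inv']
        refine (eq_inv_of_mul_eq_one_left ?_).symm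
        rw [← map_mul, ZMod.inv_mul_of_unit _ hb, map_one]
      have h3 : ∀ b' : ZMod q, ∑ χ : DirichletCharacter ℂ q, (χ⁻¹ b * χ b') * (S b * conj (S b')) =
          if b' = b then (q.totient : ℂ) * (S b * conj (S b)) else 0 := by
        intro b'
        rw [← Finset.sum_mul]
        simp_rw [hinv]
        rw [DirichletCharacter.sum_char_inv_mul_char_eq ℂ hb]
        by_cases h : b' = b
        · subst h
          simp
        · rw [if_neg h, if_neg (fun h' => h h'.symm), zero_mul]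
      simp_rw [h3]
      rw [Finset.sum_ite_eq' Finset.univ b, if_pos (Finset.mem_univ _)]
    · rw [if_neg hb]
      refine Finset.sum_eq_zero fun b' _ => Finset.sum_eq_zero fun χ _ => ?_
      rw [MulChar.map_nonunit _ hb, zero_mul, zero_mul]
  simp_rw [h2]
  rw [← Finset.sum_filter, Finset.mul_sum]

open ComplexConjugate in
/-- a character sum in terms of the additive characters -/
theorem lsb_expand {q : ℕ} [NeZero q] (s : Finset ℕ) (a : ℕ → ℂ) (χ : DirichletCharacter ℂ q)
    (hχ : χ.IsPrimitive) :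
    ∑ b : ZMod q, χ⁻¹ b * ∑ n ∈ s, a n * ZMod.stdAddChar (N := q) ((n : ZMod q) * b) =
      (∑ n ∈ s, a n * χ (n : ZMod q)) * gaussSum χ⁻¹ (ZMod.stdAddChar (N := q)) := by
  classical
  have hp : (χ⁻¹).IsPrimitive := by
    rw [DirichletCharacter.isPrimitive_def] at hχ ⊢
    rw [DirichletCharacter.conductor_inv, hχ]
  simp_rw [Finset.mul_sum]
  rw [Finset.sum_comm, Finset.sum_mul]
  refine Finset.sum_congr rfl fun n _ => ?_
  have h1 := gaussSum_mulShift_of_isPrimitive (ZMod.stdAddChar (N := q)) hp (n : ZMod q)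
  rw [inv_inv] at h1
  rw [mul_assoc, ← h1]
  unfold gaussSum
  rw [Finset.mul_sum]
  refine Finset.sum_congr rfl fun b _ => ?_
  rw [AddChar.mulShift_apply]
  ring

open ComplexConjugate in
open Classical in
theorem prim_le (q : ℕ) [NeZero q] (s : Finset ℕ) (a : ℕ → ℂ) :
    ∑ χ ∈ (univ : Finset (DirichletCharacter ℂ q)).filter (fun χ => χ.IsPrimitive),
      ‖∑ n ∈ s, a n * χ (n : ZMod q)‖ ^ 2 ≤
    ∑ b ∈ (range q).filter (fun b => b.Coprime q),
      ‖∑ n ∈ s, a n * Complex.exp (2 * Real.pi * Complex.I * n * ((b : ℝ) / q : ℝ))‖ ^ 2 := by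
  set S : ZMod q → ℂ := fun b => ∑ n ∈ s, a n * ZMod.stdAddChar (N := q) ((n : ZMod q) * b) with hS
  have hq0 : 0 < q := Nat.pos_of_ne_zero (NeZero.ne q)
  have hq : (0 : ℝ) < q := by exact_mod_cast hq0
  have hsq : ∀ z : ℂ, z * conj z = ((‖z‖ ^ 2 : ℝ) : ℂ) := fun z => by
    rw [Complex.mul_conj']; push_cast; ring
  -- the right side
  have hR : ∑ b ∈ (range q).filter (fun b => b.Coprime q),
      ‖∑ n ∈ s, a n * Complex.exp (2 * Real.pi * Complex.I * n * ((b : ℝ) / q : ℝ))‖ ^ 2 =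
      ∑ b ∈ (univ : Finset (ZMod q)).filter (fun b => IsUnit b), ‖S b‖ ^ 2 := by
    refine Finset.sum_nbij' (fun b : ℕ => (b : ZMod q)) (fun x => x.val) ?_ ?_ ?_ ?_ ?_
    · intro b hb
      rw [mem_filter] at hb ⊢
      exact ⟨mem_univ _, (ZMod.isUnit_iff_coprime b q).2 hb.2⟩
    · intro x hx
      rw [mem_filter] at hx ⊢
      refine ⟨mem_range.2 (ZMod.val_lt x), ?_⟩
      have h1 := hx.2
      rw [← ZMod.natCast_zmod_val x] at h1
      exact (ZMod.isUnit_iff_coprime _ q).1 h1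
    · intro b hb
      rw [mem_filter, mem_range] at hb
      exact ZMod.val_cast_of_lt hb.1
    · intro x _
      exact ZMod.natCast_zmod_val x
    · intro b _
      rw [hS]
      congr 2
      refine Finset.sum_congr rfl fun n _ => ?_
      congr 1
      have h1 : ((n : ZMod q) * (b : ZMod q)) = (((n * b : ℕ) : ℤ) : ZMod q) := by
        push_cast
        ring
      rw [h1, ZMod.stdAddChar_coe]
      congr 1
      push_cast
      ring
  rw [hR]
  -- the left side
  have hL : ∀ χ ∈ (univ : Finset (DirichletCharacter ℂ q)).filter (fun χ => χ.IsPrimitive),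
      (q : ℝ) * ‖∑ n ∈ s, a n * χ (n : ZMod q)‖ ^ 2 = ‖∑ b, χ⁻¹ b * S b‖ ^ 2 := by
    intro χ hχ
    rw [mem_filter] at hχ
    have hp : (χ⁻¹).IsPrimitive := by
      have h := hχ.2
      rw [DirichletCharacter.isPrimitive_def] at h ⊢
      rw [DirichletCharacter.conductor_inv, h]
    have h1 := lsb_expand s a χ hχ.2
    have h2 := lsb_gauss χ⁻¹ hp
    rw [hsq] at h2
    have h3 : ‖gaussSum χ⁻¹ (ZMod.stdAddChar (N := q))‖ ^ 2 = (q : ℝ) := by exact_mod_cast h2
    rw [hS]
    simp only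
    rw [h1, norm_mul, mul_pow, h3]
    ring
  have hP := lsb_parseval S
  simp_rw [hsq] at hP
  have hP2 : ∑ χ : DirichletCharacter ℂ q, ‖∑ b, χ⁻¹ b * S b‖ ^ 2 =
      (q.totient : ℝ) * ∑ b ∈ (univ : Finset (ZMod q)).filter (fun b => IsUnit b), ‖S b‖ ^ 2 := by
    exact_mod_cast hP
  have h9 : (q : ℝ) * ∑ χ ∈ (univ : Finset (DirichletCharacter ℂ q)).filter
      (fun χ => χ.IsPrimitive), ‖∑ n ∈ s, a n * χ (n : ZMod q)‖ ^ 2 ≤
      (q : ℝ) * ∑ b ∈ (univ : Finset (ZMod q)).filter (fun b => IsUnit b), ‖S b‖ ^ 2 := by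
    rw [Finset.mul_sum, Finset.sum_congr rfl hL]
    calc _ ≤ ∑ χ : DirichletCharacter ℂ q, ‖∑ b, χ⁻¹ b * S b‖ ^ 2 :=
          Finset.sum_le_sum_of_subset_of_nonneg (filter_subset _ _) fun _ _ _ => by positivity
      _ = (q.totient : ℝ) * ∑ b ∈ (univ : Finset (ZMod q)).filter (fun b => IsUnit b),
            ‖S b‖ ^ 2 := hP2
      _ ≤ _ := by
          apply mul_le_mul_of_nonneg_right
          · exact_mod_cast Nat.totient_le q
          · exact Finset.sum_nonneg fun _ _ => by positivity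
  exact le_of_mul_le_mul_left h9 hq

end Pool.Agent.H67.VT
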