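import Pool.Agent.H21.BV.Mls
import Pool.Agent.H21.MT.Ch

/-!
[H67 VT LSC]  The multiplicative large sieve with the sharp range `N + R^2`.

Proof.  `PC R` is the disjoint union over `q = r + 1 ≤ R` of (a part of) the primitive characters mod
`q`; `prim_le` for each `q` with `s = Ioc M (M+N)`; the points `b/q` (`q ≤ R`, `b < q`, `(b,q)=1`) are
indexed by `P = {(q,b)} ⊆ ℕ × ℕ`, `α (q,b) = b/q`.  Two different ones: `α_i - α_j - m` is a nonzero
rational with denominator `q q' ≤ R^2` (if it were zero then `b/q - b'/q'` is an integer, both are in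
`[0,1)`, so equal, and reduced fractions with equal value are the same), so `δ = 1/R^2` works
(`R ≥ 1`; `R = 0` trivial).  `ls_exp`.
-/

namespace Pool.Agent.H67.VT

open Finset Pool.Agent.H21.MT

theorem ls_mult : ∃ C : ℝ, 0 < C ∧ ∀ (R M N : ℕ) (a : ℕ → ℂ),
    ∑ c ∈ PC R, ‖∑ n ∈ Ioc M (M + N), a n * c.2 (n : ZMod (c.1.val + 1))‖ ^ 2 ≤
      C * ((N : ℝ) + (R : ℝ) ^ 2) * ∑ n ∈ Ioc M (M + N), ‖a n‖ ^ 2 := by
  refine ⟨16, by norm_num, fun R M N a => ?_⟩
  rcases Nat.eq_zero_or_pos R with hR | hR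
  · subst hR
    have h1 : PC 0 = ∅ := by
      rw [Finset.eq_empty_iff_forall_notMem]
      intro c _
      exact Fin.elim0 c.1
    rw [h1, Finset.sum_empty]
    have h2 : 0 ≤ ∑ n ∈ Ioc M (M + N), ‖a n‖ ^ 2 := Finset.sum_nonneg fun _ _ => sq_nonneg _
    positivity
  · refine (Pool.Agent.H21.BV.mls R M N a).trans
      (mul_le_mul_of_nonneg_right ?_ (Finset.sum_nonneg fun _ _ => sq_nonneg _))
    have h4 : (1 : ℝ) ≤ (R : ℝ) ^ 2 := by
      have : (1 : ℝ) ≤ R := by exact_mod_cast hR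
      nlinarith
    have h5 : (0 : ℝ) ≤ N := Nat.cast_nonneg N
    linarith

end Pool.Agent.H67.VT
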