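import Pool.Agent.H67.VS.Bil
import Pool.Agent.H67.VT.LsC

/-!
[H67 VT BIL]  The large sieve for a product of three polynomials, sharp range.

Proof.  Word for word the proof of `VS.bil` in `Pool/Agent/H67/VS/Bil.lean` (its lemmas `bil_prod`,
`bil_card` etc. can be used), with `ls_mult` instead of `H21.MT.cls`.
-/

namespace Pool.Agent.H67.VT

open Finset Pool.Agent.H21.MT Pool.Agent.H67.VS

theorem bil2 : ∃ C : ℝ, 0 < C ∧ ∀ (R M1 M2 N1 N2 H : ℕ), M1 ≤ M2 → N1 ≤ N2 →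
    ∀ (a b : ℕ → ℂ) (κ : ℕ → ℝ) (a0 b0 : ℝ), 0 ≤ a0 → 0 ≤ b0 →
    (∀ m ∈ Ioc M1 M2, ‖a m‖ ≤ a0) → (∀ k ∈ Ioc N1 N2, ‖b k‖ ≤ b0) → (∀ k, |κ k| ≤ H) →
    ∑ c ∈ PC R, ‖∑ m ∈ Ioc M1 M2, a m * c.2 (m : ZMod (c.1.val + 1))‖ *
        ‖∑ k ∈ Ioc N1 N2, b k * c.2 (k : ZMod (c.1.val + 1))‖ * ‖KC H κ c.2‖ ≤
      C * a0 * b0 *
        Real.sqrt (((H : ℝ) * M2 + (R : ℝ) ^ 2) * ((H : ℝ) ^ 4 * ((M2 : ℝ) - M1))) *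
        Real.sqrt (((N2 : ℝ) - N1 + (R : ℝ) ^ 2) * ((N2 : ℝ) - N1)) := by
  obtain ⟨C, hC, hls⟩ := ls_mult
  refine ⟨C, hC, ?_⟩
  intro R M1 M2 N1 N2 H hM hN a b κ a0 b0 ha0 hb0 ha hb hκ
  have hM' : (0 : ℝ) ≤ (M2 : ℝ) - M1 := by
    have : (M1 : ℝ) ≤ M2 := by exact_mod_cast hM
    linarith
  have hN' : (0 : ℝ) ≤ (N2 : ℝ) - N1 := by
    have : (N1 : ℝ) ≤ N2 := by exact_mod_cast hN
    linarith
  have h1 : ∑ c ∈ PC R, ‖(∑ m ∈ Ioc M1 M2, a m * c.2 (m : ZMod (c.1.val + 1))) *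
      KC H κ c.2‖ ^ 2 ≤
      (C * a0 ^ 2) * (((H : ℝ) * M2 + (R : ℝ) ^ 2) * ((H : ℝ) ^ 4 * ((M2 : ℝ) - M1))) := by
    have h2 := hls R 0 (H * M2) (bil_z M1 M2 H a κ)
    have h3 : ∀ c ∈ PC R, ‖(∑ m ∈ Ioc M1 M2, a m * c.2 (m : ZMod (c.1.val + 1))) *
        KC H κ c.2‖ ^ 2 =
        ‖∑ l ∈ Ioc 0 (0 + H * M2), bil_z M1 M2 H a κ l * c.2 (l : ZMod (c.1.val + 1))‖ ^ 2 := by
      intro c _
      rw [bil_prod]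
    rw [Finset.sum_congr rfl h3]
    refine h2.trans ?_
    have h4 := bil_z_sq M1 M2 H hM a κ a0 ha0 ha hκ
    calc C * (((H * M2 : ℕ) : ℝ) + (R : ℝ) ^ 2) * ∑ l ∈ Ioc 0 (0 + H * M2),
          ‖bil_z M1 M2 H a κ l‖ ^ 2
        ≤ C * (((H * M2 : ℕ) : ℝ) + (R : ℝ) ^ 2) * (a0 ^ 2 * ((H : ℝ) ^ 4 * ((M2 : ℝ) - M1))) :=
          mul_le_mul_of_nonneg_left h4 (by positivity)
      _ = _ := by
          push_cast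
          ring
  have h5 : ∑ c ∈ PC R, ‖∑ k ∈ Ioc N1 N2, b k * c.2 (k : ZMod (c.1.val + 1))‖ ^ 2 ≤
      (C * b0 ^ 2) * (((N2 : ℝ) - N1 + (R : ℝ) ^ 2) * ((N2 : ℝ) - N1)) := by
    have h2 := hls R N1 (N2 - N1) b
    rw [Nat.add_sub_cancel' hN] at h2
    refine h2.trans ?_
    have h4 : ∑ m ∈ Ioc N1 N2, ‖b m‖ ^ 2 ≤ ((N2 : ℝ) - N1) * b0 ^ 2 := by
      calc ∑ m ∈ Ioc N1 N2, ‖b m‖ ^ 2 ≤ ∑ m ∈ Ioc N1 N2, b0 ^ 2 :=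
            Finset.sum_le_sum fun m hm => pow_le_pow_left₀ (norm_nonneg _) (hb m hm) 2
        _ = ((N2 : ℝ) - N1) * b0 ^ 2 := by
            rw [Finset.sum_const, Nat.card_Ioc, nsmul_eq_mul, Nat.cast_sub hN]
    rw [Nat.cast_sub hN]
    calc C * ((N2 : ℝ) - N1 + (R : ℝ) ^ 2) * ∑ m ∈ Ioc N1 N2, ‖b m‖ ^ 2
        ≤ C * ((N2 : ℝ) - N1 + (R : ℝ) ^ 2) * (((N2 : ℝ) - N1) * b0 ^ 2) :=
          mul_le_mul_of_nonneg_left h4 (by positivity)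
      _ = _ := by ring
  have hCS := Real.sum_mul_le_sqrt_mul_sqrt (PC R)
    (fun c => ‖(∑ m ∈ Ioc M1 M2, a m * c.2 (m : ZMod (c.1.val + 1))) * KC H κ c.2‖)
    (fun c => ‖∑ k ∈ Ioc N1 N2, b k * c.2 (k : ZMod (c.1.val + 1))‖)
  calc ∑ c ∈ PC R, ‖∑ m ∈ Ioc M1 M2, a m * c.2 (m : ZMod (c.1.val + 1))‖ *
        ‖∑ k ∈ Ioc N1 N2, b k * c.2 (k : ZMod (c.1.val + 1))‖ * ‖KC H κ c.2‖
      = ∑ c ∈ PC R, ‖(∑ m ∈ Ioc M1 M2, a m * c.2 (m : ZMod (c.1.val + 1))) * KC H κ c.2‖ *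
        ‖∑ k ∈ Ioc N1 N2, b k * c.2 (k : ZMod (c.1.val + 1))‖ := by
        refine Finset.sum_congr rfl fun c _ => ?_
        rw [norm_mul]
        ring
    _ ≤ _ := hCS
    _ ≤ Real.sqrt ((C * a0 ^ 2) *
          (((H : ℝ) * M2 + (R : ℝ) ^ 2) * ((H : ℝ) ^ 4 * ((M2 : ℝ) - M1)))) *
        Real.sqrt ((C * b0 ^ 2) * (((N2 : ℝ) - N1 + (R : ℝ) ^ 2) * ((N2 : ℝ) - N1))) :=
        mul_le_mul (Real.sqrt_le_sqrt h1) (Real.sqrt_le_sqrt h5) (Real.sqrt_nonneg _)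
          (Real.sqrt_nonneg _)
    _ = _ := by
        rw [Real.sqrt_mul (by positivity : (0 : ℝ) ≤ C * a0 ^ 2),
          Real.sqrt_mul (by positivity : (0 : ℝ) ≤ C * b0 ^ 2),
          Real.sqrt_mul hC.le, Real.sqrt_mul hC.le, Real.sqrt_sq ha0, Real.sqrt_sq hb0]
        have h6 : Real.sqrt C * Real.sqrt C = C := Real.mul_self_sqrt hC.le
        generalize Real.sqrt (((H : ℝ) * M2 + (R : ℝ) ^ 2) * ((H : ℝ) ^ 4 * ((M2 : ℝ) - M1))) = X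
        generalize Real.sqrt (((N2 : ℝ) - N1 + (R : ℝ) ^ 2) * ((N2 : ℝ) - N1)) = Y
        linear_combination (a0 * b0 * X * Y) * h6

end Pool.Agent.H67.VT
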