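import Pool.Agent.H67.VS.CharB

/-!
[H67 VT CHARB]  The characters behind the relative discrepancy, for `d` coprime to `q`.
(As `Pool/Agent/H67/VS/CharB.lean`, with the factor `φ(dq)` kept.)
-/

namespace Pool.Agent.H67.VT

open Finset Pool.Agent.H21.MT Pool.Agent.H67.VS

open Classical in
/-- the pointwise formula for the relative discrepancy -/
theorem charb_EE2 {A B : ℕ} {w : ℕ → ℝ} (d q H : ℕ) [NeZero (d * q)] (hd : 1 ≤ d) (hc : Nat.Coprime d q)
    (hq : q.Prime) (hHq : H ≤ q) (hA : d * q ≤ A) (p : ℕ × ℕ) (hp : p ∈ offd H) :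
    ((d * q).totient : ℂ) * ((EE A B w d q ((p.2 : ℤ) - (p.1 : ℤ)) : ℝ) : ℂ) =
      ∑ χ ∈ (univ : Finset (DirichletCharacter ℂ (d * q))).filter
        (fun χ => ∀ ψ : DirichletCharacter ℂ d,
          DirichletCharacter.changeLevel (dvd_mul_right d q) ψ ≠ χ),
        χ⁻¹ (((p.1 : ℤ) - (p.2 : ℤ) : ℤ) : ZMod (d * q)) * ThC A B w χ := by
  have hd0 : NeZero d := ⟨by omega⟩
  have hN : 0 < d * q := Nat.pos_of_ne_zero (NeZero.ne _)
  have hdN : d ∣ d * q := dvd_mul_right d q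
  have hdA : d ≤ A := le_trans (Nat.le_of_dvd hN hdN) hA
  have hneg : (p.2 : ℤ) - (p.1 : ℤ) = -((p.1 : ℤ) - (p.2 : ℤ)) := by ring
  set a : ℤ := (p.1 : ℤ) - (p.2 : ℤ) with ha
  rw [hneg]
  unfold EE
  by_cases hu : IsUnit ((a : ℤ) : ZMod (d * q))
  · have hud : IsUnit ((a : ℤ) : ZMod d) := by
      rw [ZMod.coe_int_isUnit_iff_isCoprime] at hu ⊢
      push_cast at hu
      exact hu.of_mul_left_left
    have h1 := charb_orth (A := A) (B := B) (w := w) (d * q) a hu
    have h2 := charb_orth (A := A) (B := B) (w := w) d a hud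
    have htot : ((d * q).totient : ℂ) = (d.totient : ℂ) * ((q : ℂ) - 1) := by
      rw [Nat.totient_mul hc, Nat.totient_prime hq]
      push_cast [Nat.cast_sub hq.one_lt.le]
      ring
    have hq1 : ((q : ℂ) - 1) ≠ 0 := by
      have : (1 : ℝ) < q := by exact_mod_cast hq.one_lt
      have h3 : ((q : ℝ) - 1) ≠ 0 := by linarith
      intro h4
      apply h3
      exact_mod_cast h4
    have hL : ((d * q).totient : ℂ) * ((th A B w (d * q) (-a) -
        th A B w d (-a) / ((q : ℝ) - 1) : ℝ) : ℂ) =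
        ((d * q).totient : ℂ) * ((th A B w (d * q) (-a) : ℝ) : ℂ) -
          (d.totient : ℂ) * ((th A B w d (-a) : ℝ) : ℂ) := by
      push_cast
      rw [mul_sub, htot]
      congr 1
      field_simp
    rw [hL, h1, h2]
    have himg : ∑ ψ : DirichletCharacter ℂ d, ψ⁻¹ ((a : ℤ) : ZMod d) * ThC A B w ψ =
        ∑ χ ∈ (univ : Finset (DirichletCharacter ℂ (d * q))).filter
          (fun χ => ¬ ∀ ψ : DirichletCharacter ℂ d,
            DirichletCharacter.changeLevel hdN ψ ≠ χ),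
          χ⁻¹ ((a : ℤ) : ZMod (d * q)) * ThC A B w χ := by
      have hset : (univ : Finset (DirichletCharacter ℂ (d * q))).filter
          (fun χ => ¬ ∀ ψ : DirichletCharacter ℂ d,
            DirichletCharacter.changeLevel hdN ψ ≠ χ) =
          (univ : Finset (DirichletCharacter ℂ d)).image
            (fun ψ => DirichletCharacter.changeLevel hdN ψ) := by
        ext χ
        simp only [mem_filter, mem_univ, true_and, mem_image, not_forall, ne_eq, not_not]
      rw [hset, Finset.sum_image]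
      · refine Finset.sum_congr rfl fun ψ _ => ?_
        rw [charb_ThC hdN hN hA ψ, ← map_inv, charb_lift_int hdN ψ⁻¹ a hu]
      · intro ψ _ ψ' _ h
        exact DirichletCharacter.changeLevel_injective hdN h
    rw [himg, ← Finset.sum_filter_add_sum_filter_not
      (univ : Finset (DirichletCharacter ℂ (d * q)))
      (fun χ => ∀ ψ : DirichletCharacter ℂ d, DirichletCharacter.changeLevel hdN ψ ≠ χ),
      add_sub_cancel_right]
  · obtain ⟨g, hg1, hg2, hg3⟩ := charb_nonunit d q H hq hHq p hp hu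
    have h1 := charb_th_zero (A := A) (B := B) (w := w) (d * q) g a hN hA hg1
      (hg2.trans hdN) hg3
    have h2 := charb_th_zero (A := A) (B := B) (w := w) d g a (by omega) hdA hg1 hg2 hg3
    rw [h1, h2]
    symm
    simp only [zero_div, sub_zero, Complex.ofReal_zero, mul_zero]
    refine Finset.sum_eq_zero fun χ _ => ?_
    rw [MulChar.map_nonunit _ hu, zero_mul]

open Classical in
theorem char_bound2 {A B : ℕ} {w : ℕ → ℝ} (d q R H : ℕ) (hd : 1 ≤ d) (hdq : Nat.Coprime d q)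
    (hq : q.Prime) (hHq : H ≤ q) (hR : d * q ≤ R) (hA : d * q ≤ A) :
    |∑ p ∈ offd H, EE A B w d q ((p.2 : ℤ) - (p.1 : ℤ))| ≤
      2 / ((d * q).totient : ℝ) * ∑ c ∈ (PC R).filter (fun c => c.md ∣ d * q ∧ q ∣ c.md),
        ‖ThC A B w c.2‖ * ‖KC H (kap H d) c.2‖ := by
  have hN : 0 < d * q := Nat.mul_pos hd hq.pos
  have hN0 : NeZero (d * q) := ⟨hN.ne'⟩
  have hdN : d ∣ d * q := dvd_mul_right d q
  set T := (univ : Finset (DirichletCharacter ℂ (d * q))).filter
        (fun χ => ∀ ψ : DirichletCharacter ℂ d,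
          DirichletCharacter.changeLevel (dvd_mul_right d q) ψ ≠ χ) with hT
  set S := (PC R).filter (fun c => c.md ∣ d * q ∧ q ∣ c.md) with hS
  set g : DirichletCharacter ℂ (d * q) → ℝ := fun χ =>
    (2 * ‖∑ k ∈ Ico 1 H, ((H : ℂ) - k) * χ (k : ZMod (d * q))‖) * ‖ThC A B w χ‖ with hg
  have hg0 : ∀ χ, 0 ≤ g χ := fun χ => by rw [hg]; positivity
  -- first step
  have h1 : ((d * q).totient : ℝ) * |∑ p ∈ offd H, EE A B w d q ((p.2 : ℤ) - (p.1 : ℤ))| ≤
      ∑ χ ∈ T, g χ := by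
    have h2 : ((d * q).totient : ℂ) *
        ((∑ p ∈ offd H, EE A B w d q ((p.2 : ℤ) - (p.1 : ℤ)) : ℝ) : ℂ) =
        ∑ χ ∈ T, (∑ p ∈ offd H, χ⁻¹ (((p.1 : ℤ) - (p.2 : ℤ) : ℤ) : ZMod (d * q))) *
          ThC A B w χ := by
      rw [Complex.ofReal_sum, Finset.mul_sum]
      simp_rw [Finset.sum_mul]
      rw [Finset.sum_comm]
      refine Finset.sum_congr rfl fun p hp => ?_
      exact charb_EE2 d q H hd hdq hq hHq hA p hp
    have h3 : ((d * q).totient : ℝ) * |∑ p ∈ offd H, EE A B w d q ((p.2 : ℤ) - (p.1 : ℤ))| =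
        ‖((d * q).totient : ℂ) *
        ((∑ p ∈ offd H, EE A B w d q ((p.2 : ℤ) - (p.1 : ℤ)) : ℝ) : ℂ)‖ := by
      rw [norm_mul, Complex.norm_natCast, Complex.norm_real, Real.norm_eq_abs]
    rw [h3, h2]
    refine (norm_sum_le _ _).trans (Finset.sum_le_sum fun χ _ => ?_)
    rw [norm_mul]
    exact mul_le_mul_of_nonneg_right (charb_pairs H (d * q) χ) (norm_nonneg _)
  -- second step
  let f : Ch R → DirichletCharacter ℂ (d * q) := fun c =>
    if h : c.md ∣ d * q then DirichletCharacter.changeLevel h c.2 else 1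
  have hsub : T ⊆ S.image f := by
    intro χ hχ
    rw [mem_image]
    have key : ∀ r (hr : r ∣ d * q) (χ' : DirichletCharacter ℂ r), χ'.IsPrimitive → q ∣ r →
        DirichletCharacter.changeLevel hr χ' = χ →
        ∃ c ∈ S, f c = χ := by
      intro r hr χ' hp h2 hch
      have hr0 : 0 < r := Nat.pos_of_dvd_of_pos hr hN
      have hqr := Nat.le_of_dvd hr0 h2
      have hq2 := hq.two_le
      obtain ⟨m, rfl⟩ : ∃ m, r = m + 1 := ⟨r - 1, by omega⟩
      have hmR : m < R := by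
        have := Nat.le_of_dvd hN hr
        omega
      refine ⟨⟨⟨m, hmR⟩, χ'⟩, ?_, ?_⟩
      · rw [hS, mem_filter, PC, mem_filter]
        refine ⟨⟨mem_univ _, hp, ?_⟩, hr, h2⟩
        show 2 ≤ m + 1
        omega
      · show (if h : (Ch.md (⟨⟨m, hmR⟩, χ'⟩ : Ch R)) ∣ d * q then
          DirichletCharacter.changeLevel h χ' else 1) = χ
        rw [dif_pos (show (Ch.md (⟨⟨m, hmR⟩, χ'⟩ : Ch R)) ∣ d * q from hr)]
        exact hch
    refine key χ.conductor χ.conductor_dvd_level χ.primitiveCharacter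
      χ.primitiveCharacter_isPrimitive ?_ χ.changeLevel_primitiveCharacter
    by_contra hqc
    rw [hT, mem_filter] at hχ
    have hc : Nat.Coprime χ.conductor q := ((Nat.Prime.coprime_iff_not_dvd hq).2 hqc).symm
    have hcd : χ.conductor ∣ d := hc.dvd_of_dvd_mul_right χ.conductor_dvd_level
    apply hχ.2 (DirichletCharacter.changeLevel hcd χ.primitiveCharacter)
    rw [← DirichletCharacter.changeLevel_trans]
    exact χ.changeLevel_primitiveCharacter
  have h4 : ∑ χ ∈ T, g χ ≤ ∑ c ∈ S, g (f c) :=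
    (sum_le_sum_of_subset_of_nonneg hsub fun _ _ _ => hg0 _).trans
      (sum_image_le_of_nonneg fun _ _ => hg0 _)
  have h5 : ∑ c ∈ S, g (f c) = 2 * ∑ c ∈ S, ‖ThC A B w c.2‖ * ‖KC H (kap H d) c.2‖ := by
    rw [Finset.mul_sum]
    refine Finset.sum_congr rfl fun c hc => ?_
    rw [hS, mem_filter] at hc
    have hfc : f c = DirichletCharacter.changeLevel hc.2.1 c.2 := dif_pos hc.2.1
    have e1 : ∑ k ∈ Ico 1 H, ((H : ℂ) - k) *
        (DirichletCharacter.changeLevel hc.2.1 c.2) (k : ZMod (d * q)) =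
        KC H (kap H d) c.2 := charb_KC d q H hq hHq hc.2.1 c.2
    have e2 : ThC A B w (DirichletCharacter.changeLevel hc.2.1 c.2) = ThC A B w c.2 :=
      charb_ThC (A := A) (B := B) (w := w) hc.2.1 hN hA c.2
    rw [hfc]
    have e3 : g (DirichletCharacter.changeLevel hc.2.1 c.2) =
        (2 * ‖KC H (kap H d) c.2‖) * ‖ThC A B w c.2‖ := by
      rw [← e1, ← e2]
    rw [e3, mul_assoc, mul_comm ‖KC H (kap H d) c.2‖]
  have hq1 : (0 : ℝ) < ((d * q).totient : ℝ) := by
    exact_mod_cast Nat.totient_pos.mpr hN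
  have h8 : ((d * q).totient : ℝ) * |∑ p ∈ offd H, EE A B w d q ((p.2 : ℤ) - (p.1 : ℤ))| ≤
      2 * ∑ c ∈ S, ‖ThC A B w c.2‖ * ‖KC H (kap H d) c.2‖ := by
    calc ((d * q).totient : ℝ) * |∑ p ∈ offd H, EE A B w d q ((p.2 : ℤ) - (p.1 : ℤ))|
        ≤ _ := h1
      _ ≤ _ := h4
      _ = _ := h5
  rw [div_mul_eq_mul_div, le_div_iff₀ hq1, mul_comm]
  exact h8

end Pool.Agent.H67.VT
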