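import Pool.Agent.H67.VS.Hat
import Pool.Agent.H67.VS.Ap

/-!
[H67 VT DEFS]  MP_31d0eb_nt, sharp form: for H ≤ X^ε the variance of the number of primes in
intervals of length H is at least (1/2 - C ε) X H/log X (Goldston's bound without GRH).

Everything as in `H67/VS`, but the divisors go up to `X^(1/2 - 15 ε)`: the test function is
`b(n) = ∑_{r ≤ D, P(r) > Z} μ(r) c_r(n)/φ(r)`, `P(r)` the largest prime factor, `c_r` the Ramanujan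
sum.  With `r = q m`, `q = P(r)`, this is
`b(n) = ∑_{q ∈ Q} (∑_{d ∣ n} ρ_q(d)) (1 - q [q ∣ n])/(q-1)`, `Q` the primes in `(Z, D]`,
`ρ_q(d) = μ(d) d ∑_{m ≤ D/q squarefree, all primes of m < q, d ∣ m} 1/φ(m)`.

Notation of the files: `A = Ax X`, `B = Bx X`, `w = hat y δ` as in `VS`.
-/

namespace Pool.Agent.H67.VT

open Finset Pool.Agent.H67.VS

/-- weights belonging to the prime `q`: level `L`, bound `K`, value `s` at `1` -/
structure SV (L q : ℕ) (K s : ℝ) (ρ : ℕ → ℝ) : Prop where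
  one : ρ 1 = s
  nn : 0 ≤ s
  bd : ∀ d, |ρ d| ≤ K
  zero : ∀ d, d ∉ Icc 1 L → ρ d = 0
  small : ∀ d, ρ d ≠ 0 → ∀ p ∈ d.primeFactors, p < q
  diag : ∑ d ∈ Icc 1 L, ∑ e ∈ Icc 1 L, ρ d * ρ e / (Nat.lcm d e : ℝ) ≤ s

/-- the part of the test function belonging to `q` -/
noncomputable def gk (ρ : ℕ → ℝ) (L q n : ℕ) (k : ℤ) : ℝ :=
  FF ρ L n k * ((1 - if (q : ℤ) ∣ (n : ℤ) + k then (q : ℝ) else 0) / ((q : ℝ) - 1))

/-- its sum over `h ≤ H` -/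
noncomputable def gz (ρ : ℕ → ℝ) (L H q x : ℕ) : ℝ := ∑ h ∈ Icc 1 H, gk ρ L q x (h : ℤ)

/-- the test function `b(n+k)` -/
noncomputable def bq (ρ : ℕ → ℕ → ℝ) (D : ℕ) (Q : Finset ℕ) (n : ℕ) (k : ℤ) : ℝ :=
  ∑ q ∈ Q, gk (ρ q) (D / q) q n k

/-- `g(x) = ∑_{h ≤ H} b(x+h)` -/
noncomputable def gg (ρ : ℕ → ℕ → ℝ) (D : ℕ) (Q : Finset ℕ) (H x : ℕ) : ℝ :=
  ∑ h ∈ Icc 1 H, bq ρ D Q x (h : ℤ)

/-- `∑_q s_q/(q-1)` -/
noncomputable def SS (s : ℕ → ℝ) (Q : Finset ℕ) : ℝ := ∑ q ∈ Q, s q / ((q : ℝ) - 1)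

/-- `∑_q ⌊D/q⌋` -/
noncomputable def LL (D : ℕ) (Q : Finset ℕ) : ℝ := ∑ q ∈ Q, ((D / q : ℕ) : ℝ)

/-- the numbers up to `D/q` without prime factors `≥ q` -/
def DD (D q : ℕ) : Finset ℕ := (Icc 1 (D / q)).filter (fun d => ∀ p ∈ d.primeFactors, p < q)

/-- the squarefree ones -/
def MM (D q : ℕ) : Finset ℕ := (DD D q).filter (fun m => Squarefree m)

/-- `s_q = ∑_m 1/φ(m)` -/
noncomputable def sv (D q : ℕ) : ℝ := ∑ m ∈ MM D q, 1 / (m.totient : ℝ)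

/-- the weights `ρ_q(d)` -/
noncomputable def rv (D q d : ℕ) : ℝ :=
  ((ArithmeticFunction.moebius d : ℤ) : ℝ) * d *
    ∑ m ∈ (MM D q).filter (fun m => d ∣ m), 1 / (m.totient : ℝ)

/-- bound of the weights -/
noncomputable def KK (D : ℕ) : ℝ := (2 + 2 * Real.log D) ^ 3

/-- bound of the divisors -/
noncomputable def Dv (ε X : ℝ) : ℕ := ⌊X ^ (1 / 2 - 15 * ε)⌋₊
/-- lower bound of the large primes -/
noncomputable def Zv (ε X : ℝ) : ℕ := ⌊X ^ (6 * ε)⌋₊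
/-- the large primes -/
noncomputable def Qv (ε X : ℝ) : Finset ℕ := (Ioc (Zv ε X) (Dv ε X)).filter Nat.Prime
/-- parameter of Vaughan's identity -/
noncomputable def uv (ε X : ℝ) : ℕ := ⌊X ^ (12 * ε)⌋₊

/-- the sum `S` of the final choice -/
noncomputable def Sv (ε X : ℝ) : ℝ := SS (sv (Dv ε X)) (Qv ε X)

end Pool.Agent.H67.VT
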