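import Pool.Agent.H67.VT.CharB
import Pool.Agent.H67.VT.Defs

/-!
[H67 VT CHARS]  Sum of the discrepancies over `q` and `d`.

Proof.  `char_bound2` (with `R = D`) for each `q ∈ Q`, `d ∈ DD D q` (`d` is coprime to `q`, `dq ≤ D ≤ A`).
For `c` with `c.md ∣ dq`, `q ∣ c.md` put `f = dq/c.md ∈ [1,D]`.
(1) `KC H (kap H d) c = KC H (kap H f) c`: for `1 ≤ k < H ≤ q` with `c(k) ≠ 0` one has `(k, c.md) = 1`, and
`(k,d) = 1` iff `(k,dq) = 1` (`k < q` prime) iff `(k, c.md f) = 1` iff `(k,f) = 1`.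
(2) `φ(dq) = φ(c.md f) ≥ φ(c.md) φ(f)` (`Nat.totient_super_multiplicative`).
(3) For fixed `c` the map `(q,d) ↦ f` is injective: `dq = c.md f`, and `q` is the largest prime factor of
`dq` (all primes of `d` are `< q`).  (4) `q ∣ c.md` gives `c.md ≥ q > Z`.
So exchanging the sums gives the bound.
-/

namespace Pool.Agent.H67.VT

open Finset Pool.Agent.H21.MT Pool.Agent.H67.VS

theorem chars_DD {D q d : ℕ} (hq : q.Prime) (h : d ∈ DD D q) :
    1 ≤ d ∧ d * q ≤ D ∧ d.Coprime q ∧ ∀ p : ℕ, p.Prime → p ∣ d → p < q := by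
  unfold DD at h
  rw [mem_filter, mem_Icc] at h
  obtain ⟨⟨h1, h2⟩, h3⟩ := h
  have h4 : ∀ p : ℕ, p.Prime → p ∣ d → p < q := fun p hp hpd =>
    h3 p (Nat.mem_primeFactors.2 ⟨hp, hpd, by omega⟩)
  refine ⟨h1, ?_, ?_, h4⟩
  · exact (Nat.le_div_iff_mul_le hq.pos).1 h2
  · rw [Nat.coprime_comm]
    rw [Nat.Prime.coprime_iff_not_dvd hq]
    intro hqd
    exact lt_irrefl _ (h4 q hq hqd)

/-- the coprimality condition may be moved to the cofactor -/
theorem chars_KC {H d q f r : ℕ} (hq : q.Prime) (hHq : H ≤ q) (hr : r * f = d * q)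
    (χ : DirichletCharacter ℂ r) : KC H (kap H d) χ = KC H (kap H f) χ := by
  unfold KC
  refine Finset.sum_congr rfl fun k hk => ?_
  rw [mem_Ico] at hk
  by_cases hu : IsUnit ((k : ℕ) : ZMod r)
  · have hkr : k.Coprime r := (ZMod.isUnit_iff_coprime k r).1 hu
    have hkq : k.Coprime q := by
      rw [Nat.coprime_comm, Nat.Prime.coprime_iff_not_dvd hq]
      intro h
      have := Nat.le_of_dvd (by omega) h
      omega
    have hiff : k.Coprime d ↔ k.Coprime f := by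
      constructor
      · intro h
        have h1 : k.Coprime (d * q) := Nat.Coprime.mul_right h hkq
        rw [← hr] at h1
        exact Nat.Coprime.coprime_mul_left_right h1
      · intro h
        have h1 : k.Coprime (r * f) := Nat.Coprime.mul_right hkr h
        rw [hr] at h1
        exact Nat.Coprime.coprime_mul_right_right h1
    unfold kap
    by_cases h : k.Coprime d
    · rw [if_pos h, if_pos (hiff.1 h)]
    · rw [if_neg h, if_neg (fun h' => h (hiff.2 h'))]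
  · rw [MulChar.map_nonunit _ hu, mul_zero, mul_zero]

/-- the majorant of one term -/
noncomputable def charsG (A B : ℕ) (w : ℕ → ℝ) (H : ℕ) {D : ℕ} (c : Ch D) (f : ℕ) : ℝ :=
  2 * (1 / (f.totient : ℝ) * (1 / (c.md.totient : ℝ) *
    (‖ThC A B w c.2‖ * ‖KC H (kap H f) c.2‖)))

theorem charsG_nonneg (A B : ℕ) (w : ℕ → ℝ) (H : ℕ) {D : ℕ} (c : Ch D) (f : ℕ) :
    0 ≤ charsG A B w H c f := by
  unfold charsG
  positivity

open Classical in
theorem chars_one {A B D H : ℕ} {w : ℕ → ℝ} (hDA : D ≤ A) {q : ℕ} (hq : q.Prime) (hHq : H ≤ q)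
    {d : ℕ} (hd : d ∈ DD D q) :
    |∑ p ∈ offd H, EE A B w d q ((p.2 : ℤ) - (p.1 : ℤ))| ≤
      ∑ c ∈ PC D, if (c.md ∣ d * q ∧ q ∣ c.md) then charsG A B w H c (d * q / c.md) else 0 := by
  obtain ⟨h1, h2, h3, h4⟩ := chars_DD hq hd
  refine (char_bound2 (A := A) (B := B) (w := w) d q D H h1 h3 hq hHq h2 (h2.trans hDA)).trans ?_
  rw [Finset.mul_sum, ← Finset.sum_filter]
  refine Finset.sum_le_sum fun c hc => ?_
  rw [mem_filter] at hc
  obtain ⟨_, hc1, hc2⟩ := hc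
  have hdq : 0 < d * q := Nat.mul_pos h1 hq.pos
  have hmul : c.md * (d * q / c.md) = d * q := Nat.mul_div_cancel' hc1
  have hf0 : 0 < d * q / c.md := by
    rcases Nat.eq_zero_or_pos (d * q / c.md) with h | h
    · rw [h, mul_zero] at hmul
      omega
    · exact h
  have hmd0 : 0 < c.md := Nat.succ_pos _
  unfold charsG
  have hKC : KC H (kap H d) c.2 = KC H (kap H (d * q / c.md)) c.2 :=
    chars_KC hq hHq hmul c.2
  rw [hKC]
  have ht1 : (0 : ℝ) < (c.md.totient : ℝ) := by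
    exact_mod_cast Nat.totient_pos.mpr hmd0
  have ht2 : (0 : ℝ) < ((d * q / c.md).totient : ℝ) := by
    exact_mod_cast Nat.totient_pos.mpr hf0
  have ht3 : ((d * q / c.md).totient : ℝ) * (c.md.totient : ℝ) ≤ ((d * q).totient : ℝ) := by
    have := Nat.totient_super_multiplicative (d * q / c.md) c.md
    rw [mul_comm (d * q / c.md) c.md, hmul] at this
    exact_mod_cast this
  have hX : 0 ≤ ‖ThC A B w c.2‖ * ‖KC H (kap H (d * q / c.md)) c.2‖ := by positivity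
  have h5 : 2 / ((d * q).totient : ℝ) ≤
      2 * (1 / ((d * q / c.md).totient : ℝ) * (1 / (c.md.totient : ℝ))) := by
    have h6 : 2 * (1 / ((d * q / c.md).totient : ℝ) * (1 / (c.md.totient : ℝ))) =
        2 / (((d * q / c.md).totient : ℝ) * (c.md.totient : ℝ)) := by
      field_simp
    rw [h6]
    exact div_le_div_of_nonneg_left (by norm_num) (mul_pos ht2 ht1) ht3
  calc 2 / ((d * q).totient : ℝ) * (‖ThC A B w c.2‖ * ‖KC H (kap H (d * q / c.md)) c.2‖)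
      ≤ 2 * (1 / ((d * q / c.md).totient : ℝ) * (1 / (c.md.totient : ℝ))) *
        (‖ThC A B w c.2‖ * ‖KC H (kap H (d * q / c.md)) c.2‖) :=
        mul_le_mul_of_nonneg_right h5 hX
    _ = _ := by ring

/-- for a fixed character the pair is determined by the cofactor -/
theorem chars_inj {Q : Finset ℕ} {D r : ℕ} (hQ : ∀ q ∈ Q, q.Prime) {q d q' d' : ℕ}
    (hq : q ∈ Q) (hd : d ∈ DD D q) (hq' : q' ∈ Q) (hd' : d' ∈ DD D q')
    (hr : r ∣ d * q) (hr' : r ∣ d' * q') (h : d * q / r = d' * q' / r) : q = q' ∧ d = d' := by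
  obtain ⟨h1, h2, h3, h4⟩ := chars_DD (hQ q hq) hd
  obtain ⟨h1', h2', h3', h4'⟩ := chars_DD (hQ q' hq') hd'
  have he : d * q = d' * q' := by
    rw [← Nat.mul_div_cancel' hr, ← Nat.mul_div_cancel' hr', h]
  have hqq : q = q' := by
    by_contra hne
    have a1 : q ∣ d' * q' := he ▸ dvd_mul_left q d
    have a2 : q' ∣ d * q := he ▸ dvd_mul_left q' d'
    have b1 : q ∣ d' := by
      rcases (Nat.Prime.dvd_mul (hQ q hq)).1 a1 with hh | hh
      · exact hh
      · exact absurd ((Nat.prime_dvd_prime_iff_eq (hQ q hq) (hQ q' hq')).1 hh) hne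
    have b2 : q' ∣ d := by
      rcases (Nat.Prime.dvd_mul (hQ q' hq')).1 a2 with hh | hh
      · exact hh
      · exact absurd ((Nat.prime_dvd_prime_iff_eq (hQ q' hq') (hQ q hq)).1 hh).symm hne
    have c1 := h4' q (hQ q hq) b1
    have c2 := h4 q' (hQ q' hq') b2
    omega
  subst hqq
  exact ⟨rfl, Nat.eq_of_mul_eq_mul_right (hQ q hq).pos he⟩

open Classical in
theorem char_sum2 {A B D Z H : ℕ} {w : ℕ → ℝ} {Q : Finset ℕ} (hDA : D ≤ A)
    (hQ : ∀ q ∈ Q, q.Prime ∧ Z < q ∧ H ≤ q ∧ q ≤ D) :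
    ∑ q ∈ Q, ∑ d ∈ DD D q, |∑ p ∈ offd H, EE A B w d q ((p.2 : ℤ) - (p.1 : ℤ))| ≤
      2 * ∑ f ∈ Icc 1 D, 1 / (f.totient : ℝ) *
        ∑ c ∈ (PC D).filter (fun c => Z < c.md), 1 / (c.md.totient : ℝ) *
          (‖ThC A B w c.2‖ * ‖KC H (kap H f) c.2‖) := by
  have hR : 2 * ∑ f ∈ Icc 1 D, 1 / (f.totient : ℝ) *
        ∑ c ∈ (PC D).filter (fun c => Z < c.md), 1 / (c.md.totient : ℝ) *
          (‖ThC A B w c.2‖ * ‖KC H (kap H f) c.2‖) =
      ∑ c ∈ (PC D).filter (fun c => Z < c.md), ∑ f ∈ Icc 1 D, charsG A B w H c f := by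
    rw [Finset.sum_comm, Finset.mul_sum]
    refine Finset.sum_congr rfl fun f _ => ?_
    rw [Finset.mul_sum, Finset.mul_sum]
    rfl
  rw [hR]
  have h1 : ∑ q ∈ Q, ∑ d ∈ DD D q, |∑ p ∈ offd H, EE A B w d q ((p.2 : ℤ) - (p.1 : ℤ))| ≤
      ∑ x ∈ Q.sigma (DD D), ∑ c ∈ PC D, if (c.md ∣ x.2 * x.1 ∧ x.1 ∣ c.md) then
        charsG A B w H c (x.2 * x.1 / c.md) else 0 := by
    rw [Finset.sum_sigma]
    refine Finset.sum_le_sum fun q hq => Finset.sum_le_sum fun d hd => ?_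
    obtain ⟨a1, a2, a3, a4⟩ := hQ q hq
    exact chars_one hDA a1 a3 hd
  refine h1.trans ?_
  rw [Finset.sum_comm]
  rw [Finset.sum_filter]
  refine Finset.sum_le_sum fun c hc => ?_
  rw [← Finset.sum_filter]
  by_cases hZ : Z < c.md
  · rw [if_pos hZ]
    have hinj : Set.InjOn (fun x : (Σ _ : ℕ, ℕ) => x.2 * x.1 / c.md)
        (((Q.sigma (DD D)).filter (fun x => c.md ∣ x.2 * x.1 ∧ x.1 ∣ c.md) : Finset _) :
          Set (Σ _ : ℕ, ℕ)) := by
      rintro ⟨q, d⟩ hx ⟨q', d'⟩ hx' h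
      rw [Finset.mem_coe, mem_filter, Finset.mem_sigma] at hx hx'
      obtain ⟨⟨b1, b2⟩, b3, b4⟩ := hx
      obtain ⟨⟨b1', b2'⟩, b3', b4'⟩ := hx'
      obtain ⟨e1, e2⟩ := chars_inj (fun q hq => (hQ q hq).1) b1 b2 b1' b2' b3 b3' h
      subst e1
      subst e2
      rfl
    rw [← Finset.sum_image (f := fun f => charsG A B w H c f) hinj]
    refine Finset.sum_le_sum_of_subset_of_nonneg ?_ fun f _ _ => charsG_nonneg A B w H c f
    intro f hf
    rw [mem_image] at hf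
    obtain ⟨⟨q, d⟩, hx, rfl⟩ := hf
    rw [mem_filter, Finset.mem_sigma] at hx
    obtain ⟨⟨b1, b2⟩, b3, b4⟩ := hx
    obtain ⟨c1, c2, c3, c4⟩ := chars_DD (hQ q b1).1 b2
    have hdq : 0 < d * q := Nat.mul_pos c1 (hQ q b1).1.pos
    rw [mem_Icc]
    refine ⟨Nat.div_pos (Nat.le_of_dvd hdq b3) (Nat.succ_pos _), ?_⟩
    exact (Nat.div_le_self _ _).trans c2
  · rw [if_neg hZ]
    apply le_of_eq
    apply Finset.sum_eq_zero
    rintro ⟨q, d⟩ hx
    rw [mem_filter, Finset.mem_sigma] at hx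
    obtain ⟨⟨b1, b2⟩, b3, b4⟩ := hx
    exfalso
    apply hZ
    exact lt_of_lt_of_le (hQ q b1).2.1 (Nat.le_of_dvd (Nat.succ_pos _) b4)

end Pool.Agent.H67.VT
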