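import Pool.Agent.H67.VS.Cov
import Pool.Agent.H67.VT.Defs

/-!
[H67 VT COV]  The covariance: diagonal term and shifts.

Proof.  As in `Pool/Agent/H67/VS/Cov.lean` (lemmas `cov_pl_nonneg`, `cov_pl_le`, `cov_tv` there).
`PH H x * gg x = ∑_{h,h'} pl(x+h) bq(x, h')`, `bq(x,h') = bq(x+h, h'-h)`.  Shift: error
`∑_n |w(n-h) - w(n)| pl(n) |bq(n, .)| ≤ 3 h log(B+H) sup |bq|`, `|FF| ≤ (D/q) K`,
`|(1 - q[..])/(q-1)| ≤ 3`, so `|bq| ≤ 3 K LL`; `H^2` pairs.
Diagonal: for a prime `n > A ≥ D` the only divisor `≤ D/q` is `1`, so `FF = ρ_q(1) = s q`, and no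
`q ∈ Q` (`q ≤ D ≤ A < n`) divides `n`: `bq(n,0) = SS s Q`.
-/

namespace Pool.Agent.H67.VT

open Finset Pool.Agent.H67.VS

theorem cov_FF_le2 {L q : ℕ} {K s : ℝ} {ρ : ℕ → ℝ} (hρ : SV L q K s ρ) (hK : 0 ≤ K) (n : ℕ)
    (k : ℤ) : |FF ρ L n k| ≤ (L : ℝ) * K := by
  unfold FF
  refine (Finset.abs_sum_le_sum_abs _ _).trans ?_
  refine (Finset.sum_le_card_nsmul _ _ K ?_).trans ?_
  · intro d _
    split_ifs
    · exact hρ.bd d
    · rw [abs_zero]
      exact hK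
  · rw [Nat.card_Icc, nsmul_eq_mul, Nat.add_sub_cancel]

theorem cov_gk_le {L q : ℕ} {K s : ℝ} {ρ : ℕ → ℝ} (hρ : SV L q K s ρ) (hK : 0 ≤ K)
    (hq : q.Prime) (n : ℕ) (k : ℤ) : |gk ρ L q n k| ≤ (L : ℝ) * K := by
  unfold gk
  rw [abs_mul]
  have h2 : (2 : ℝ) ≤ q := by exact_mod_cast hq.two_le
  have h1 : |(1 - if (q : ℤ) ∣ (n : ℤ) + k then (q : ℝ) else 0) / ((q : ℝ) - 1)| ≤ 1 := by
    rw [abs_div, abs_of_pos (by linarith : (0 : ℝ) < (q : ℝ) - 1), div_le_one (by linarith)]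
    split_ifs
    · rw [abs_sub_comm, abs_of_nonneg (by linarith)]
    · rw [sub_zero, abs_one]
      linarith
  have h3 := cov_FF_le2 hρ hK n k
  calc |FF ρ L n k| * |(1 - if (q : ℤ) ∣ (n : ℤ) + k then (q : ℝ) else 0) / ((q : ℝ) - 1)|
      ≤ (L : ℝ) * K * 1 := mul_le_mul h3 h1 (abs_nonneg _) (by positivity)
    _ = (L : ℝ) * K := mul_one _

theorem cov_bq_le {D : ℕ} {ρ : ℕ → ℕ → ℝ} {s : ℕ → ℝ} {K : ℝ} {Q : Finset ℕ}
    (hK : 0 ≤ K) (hρ : ∀ q ∈ Q, SV (D / q) q K (s q) (ρ q)) (hQ : ∀ q ∈ Q, q.Prime)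
    (n : ℕ) (k : ℤ) : |bq ρ D Q n k| ≤ K * LL D Q := by
  unfold bq LL
  refine (Finset.abs_sum_le_sum_abs _ _).trans ?_
  rw [Finset.mul_sum]
  refine Finset.sum_le_sum fun q hq => ?_
  rw [mul_comm]
  exact cov_gk_le (hρ q hq) hK (hQ q hq) n k

theorem cov_LL_nonneg (D : ℕ) (Q : Finset ℕ) : 0 ≤ LL D Q := by
  unfold LL
  positivity

theorem cov_bq_shift (ρ : ℕ → ℕ → ℝ) (D : ℕ) (Q : Finset ℕ) (x h : ℕ) (h' : ℤ) :
    bq ρ D Q x h' = bq ρ D Q (x + h) (h' - (h : ℤ)) := by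
  have e : (x : ℤ) + h' = ((x + h : ℕ) : ℤ) + (h' - (h : ℤ)) := by push_cast; ring
  unfold bq gk FF
  rw [e]

theorem cov_one2 {A B D H : ℕ} {w : ℕ → ℝ} {ρ : ℕ → ℕ → ℝ} {s : ℕ → ℝ} {K : ℝ} {Q : Finset ℕ}
    (hw : Wt A B w) (hK : 0 ≤ K)
    (hρ : ∀ q ∈ Q, SV (D / q) q K (s q) (ρ q)) (hHA : H ≤ A) (hQ : ∀ q ∈ Q, q.Prime) (h : ℕ)
    (hh : h ∈ Icc 1 H) (h' : ℤ) :
    |∑ x ∈ Ioc A B, w x * (pl (x + h) * bq ρ D Q x h') -
      ∑ n ∈ Ioc A B, w n * pl n * bq ρ D Q n (h' - (h : ℤ))| ≤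
      3 * H * (Real.log (B + H) * (K * LL D Q)) := by
  rw [mem_Icc] at hh
  have hS : ∑ x ∈ Ioc A B, w x * (pl (x + h) * bq ρ D Q x h') =
      ∑ n ∈ Ioc A (B + h), w (n - h) * (pl n * bq ρ D Q n (h' - (h : ℤ))) := by
    have e1 : ∑ x ∈ Ioc A B, w x * (pl (x + h) * bq ρ D Q x h') =
        ∑ n ∈ Ioc (A + h) (B + h), w (n - h) * (pl n * bq ρ D Q n (h' - (h : ℤ))) := by
      refine Finset.sum_nbij' (fun n => n + h) (fun k => k - h) ?_ ?_ ?_ ?_ ?_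
      · intro n hn
        rw [mem_Ioc] at hn ⊢
        omega
      · intro n hn
        rw [mem_Ioc] at hn ⊢
        omega
      · intro n hn
        rw [mem_Ioc] at hn
        omega
      · intro n hn
        rw [mem_Ioc] at hn
        omega
      · intro n hn
        rw [Nat.add_sub_cancel, cov_bq_shift ρ D Q n h h']
    rw [e1]
    refine Finset.sum_subset ?_ ?_
    · intro n hn
      rw [mem_Ioc] at hn ⊢
      omega
    · intro n hn hn'
      rw [mem_Ioc] at hn hn'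
      rw [hw.zero (n - h) (by rw [mem_Ioc]; omega), zero_mul]
  have hT : ∑ n ∈ Ioc A B, w n * pl n * bq ρ D Q n (h' - (h : ℤ)) =
      ∑ n ∈ Ioc A (B + h), w n * (pl n * bq ρ D Q n (h' - (h : ℤ))) := by
    rw [← Finset.sum_subset (s₁ := Ioc A B) (s₂ := Ioc A (B + h))]
    · exact Finset.sum_congr rfl (fun n _ => mul_assoc _ _ _)
    · intro n hn
      rw [mem_Ioc] at hn ⊢
      omega
    · intro n hn hn'
      rw [hw.zero n hn', zero_mul]
  rw [hS, hT, ← Finset.sum_sub_distrib]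
  have hBH : (1 : ℝ) ≤ (B : ℝ) + H := by
    have : 1 ≤ B + H := by omega
    exact_mod_cast this
  have hlog : 0 ≤ Real.log ((B : ℝ) + H) := Real.log_nonneg hBH
  have hLL := cov_LL_nonneg D Q
  have hC : 0 ≤ Real.log ((B : ℝ) + H) * (K * LL D Q) := by positivity
  refine (Finset.abs_sum_le_sum_abs _ _).trans ?_
  calc ∑ n ∈ Ioc A (B + h), |w (n - h) * (pl n * bq ρ D Q n (h' - (h : ℤ))) -
        w n * (pl n * bq ρ D Q n (h' - (h : ℤ)))|
      ≤ ∑ n ∈ Ioc A (B + h), |w (n - h) - w n| *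
        (Real.log ((B : ℝ) + H) * (K * LL D Q)) := by
        refine Finset.sum_le_sum (fun n hn => ?_)
        rw [mem_Ioc] at hn
        rw [← sub_mul, abs_mul, abs_mul, abs_of_nonneg (cov_pl_nonneg n)]
        apply mul_le_mul_of_nonneg_left _ (abs_nonneg _)
        apply mul_le_mul
        · apply cov_pl_le _ hBH
          have : n ≤ B + H := by omega
          exact_mod_cast this
        · exact cov_bq_le hK hρ hQ _ _
        · exact abs_nonneg _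
        · exact hlog
    _ = (∑ n ∈ Ioc A (B + h), |w (n - h) - w n|) *
        (Real.log ((B : ℝ) + H) * (K * LL D Q)) := by rw [Finset.sum_mul]
    _ ≤ 3 * H * (Real.log ((B : ℝ) + H) * (K * LL D Q)) := by
        apply mul_le_mul_of_nonneg_right _ hC
        refine (cov_tv hw (B + h) h (by omega)).trans ?_
        have : (h : ℝ) ≤ H := by exact_mod_cast hh.2
        linarith

theorem cov_diag2 {A B D : ℕ} {w : ℕ → ℝ} {ρ : ℕ → ℕ → ℝ} {s : ℕ → ℝ} {K : ℝ} {Q : Finset ℕ}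
    (hA : 1 ≤ A) (hDA : D ≤ A) (hρ : ∀ q ∈ Q, SV (D / q) q K (s q) (ρ q))
    (hQ : ∀ q ∈ Q, q.Prime ∧ q ≤ D) :
    ∑ n ∈ Ioc A B, w n * pl n * bq ρ D Q n 0 = SS s Q * theta A B w := by
  unfold theta
  rw [Finset.mul_sum]
  refine Finset.sum_congr rfl (fun n hn => ?_)
  rw [mem_Ioc] at hn
  by_cases hp : n.Prime
  · have e0 : bq ρ D Q n 0 = SS s Q := by
      unfold bq SS
      refine Finset.sum_congr rfl (fun q hq => ?_)
      obtain ⟨h1, h2⟩ := hQ q hq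
      have e1 : FF (ρ q) (D / q) n 0 = s q := by
        unfold FF
        have h3 : 1 ≤ D / q := (Nat.one_le_div_iff h1.pos).2 h2
        rw [Finset.sum_eq_single_of_mem 1 (by rw [mem_Icc]; omega)]
        · rw [if_pos (by simp), (hρ q hq).one]
        · intro d hd hd1
          rw [mem_Icc] at hd
          rw [if_neg]
          intro hdn
          rw [add_zero, Int.natCast_dvd_natCast] at hdn
          have h4 : D / q ≤ D := Nat.div_le_self _ _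
          rcases (Nat.dvd_prime hp).1 hdn with h | h
          · exact hd1 h
          · omega
      unfold gk
      rw [e1, if_neg, sub_zero, mul_one_div]
      intro hqn
      rw [add_zero, Int.natCast_dvd_natCast] at hqn
      rcases (Nat.dvd_prime hp).1 hqn with h | h
      · exact h1.one_lt.ne' h
      · omega
    rw [e0]
    ring
  · have : pl n = 0 := by unfold pl; rw [if_neg hp]
    rw [this]
    ring

theorem cov_split2 {A B D H : ℕ} {w : ℕ → ℝ} {ρ : ℕ → ℕ → ℝ} {s : ℕ → ℝ} {K : ℝ} {Q : Finset ℕ}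
    (hw : Wt A B w) (hAB : A ≤ B) (hA : 1 ≤ A) (hDA : D ≤ A) (hHA : H ≤ A) (hK : 0 ≤ K)
    (hρ : ∀ q ∈ Q, SV (D / q) q K (s q) (ρ q)) (hQ : ∀ q ∈ Q, q.Prime ∧ q ≤ D) :
    |∑ x ∈ Ioc A B, w x * (PH H x * gg ρ D Q H x) -
      (H * SS s Q * theta A B w +
        ∑ p ∈ offd H, ∑ n ∈ Ioc A B, w n * pl n * bq ρ D Q n ((p.2 : ℤ) - (p.1 : ℤ)))| ≤
      9 * (H : ℝ) ^ 3 * K * LL D Q * Real.log (B + H) := by
  have hQ' : ∀ q ∈ Q, q.Prime := fun q hq => (hQ q hq).1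
  rcases Nat.eq_zero_or_pos H with hH | hH
  · subst hH
    simp [PH, offd]
  have hS : ∑ x ∈ Ioc A B, w x * (PH H x * gg ρ D Q H x) =
      ∑ p ∈ (Icc 1 H) ×ˢ (Icc 1 H), ∑ x ∈ Ioc A B,
        w x * (pl (x + p.1) * bq ρ D Q x ((p.2 : ℕ) : ℤ)) := by
    rw [Finset.sum_comm]
    refine Finset.sum_congr rfl (fun x _ => ?_)
    unfold PH gg
    rw [Finset.sum_mul_sum, ← Finset.sum_product', Finset.mul_sum]
  have hT : H * SS s Q * theta A B w +
        ∑ p ∈ offd H, ∑ n ∈ Ioc A B, w n * pl n * bq ρ D Q n ((p.2 : ℤ) - (p.1 : ℤ)) =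
      ∑ p ∈ (Icc 1 H) ×ˢ (Icc 1 H), ∑ n ∈ Ioc A B,
        w n * pl n * bq ρ D Q n ((p.2 : ℤ) - (p.1 : ℤ)) := by
    rw [← Finset.sum_filter_add_sum_filter_not ((Icc 1 H) ×ˢ (Icc 1 H)) (fun p => p.1 ≠ p.2),
      add_comm]
    unfold offd
    congr 1
    have e1 : ((Icc 1 H) ×ˢ (Icc 1 H)).filter (fun p : ℕ × ℕ => ¬ p.1 ≠ p.2) =
        (Icc 1 H).image (fun h => (h, h)) := by
      ext ⟨u, v⟩
      simp only [mem_filter, mem_product, mem_image, not_not, Prod.mk.injEq]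
      constructor
      · rintro ⟨⟨h1, h2⟩, h3⟩
        exact ⟨u, h1, rfl, h3⟩
      · rintro ⟨y, hy, rfl, rfl⟩
        exact ⟨⟨hy, hy⟩, rfl⟩
    rw [e1, Finset.sum_image (by intro a _ b _ h; exact (Prod.mk.inj h).1)]
    rw [Finset.sum_congr rfl (g := fun _ => SS s Q * theta A B w)]
    · rw [Finset.sum_const, Nat.card_Icc, nsmul_eq_mul, Nat.add_sub_cancel]
      ring
    · intro h _
      rw [← cov_diag2 hA hDA hρ hQ]
      refine Finset.sum_congr rfl (fun n _ => ?_)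
      rw [sub_self]
  rw [hS, hT, ← Finset.sum_sub_distrib]
  have hBH : (1 : ℝ) ≤ (B : ℝ) + H := by
    have : 1 ≤ B + H := by omega
    exact_mod_cast this
  have hlog : 0 ≤ Real.log ((B : ℝ) + H) := Real.log_nonneg hBH
  have hLL := cov_LL_nonneg D Q
  refine (Finset.abs_sum_le_sum_abs _ _).trans ?_
  refine (Finset.sum_le_card_nsmul _ _ (3 * H * (Real.log (B + H) * (K * LL D Q))) ?_).trans ?_
  · intro p hp
    rw [mem_product] at hp
    exact cov_one2 hw hK hρ hHA hQ' p.1 hp.1 (p.2 : ℤ)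
  · rw [card_product, Nat.card_Icc, nsmul_eq_mul, Nat.add_sub_cancel]
    push_cast
    have : 0 ≤ (H : ℝ) ^ 3 * K * LL D Q * Real.log ((B : ℝ) + H) := by positivity
    nlinarith

end Pool.Agent.H67.VT
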