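import Pool.Agent.H67.VT.Defs

/-!
[H67 VT PHI]  Elementary estimates.

Proofs.
* `phi_low`: `n/φ(n) = ∏_{p ∣ n} p/(p-1)`; if the primes dividing `n` are `p_1 < ... < p_k` then
  `p_i ≥ i+1`, so the product is `≤ ∏ (i+1)/i = k+1`, and `2^k ≤ n`.
  (Induction on a finite set of primes, removing the largest one, is convenient:
  `∏_{p ∈ T} p/(p-1) ≤ |T| + 1`, the largest element of `T` is `≥ |T| + 1`.)
* `sum_phi`: `1/φ(m) ≤ (2 + 2 log D)/m`, `∑_{m ≤ D} 1/m ≤ 1 + log D`.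
* `LL_le`: `⌊D/q⌋ ≤ D/q`.
* `sum_inv`: `∑_{q > Z} 1/(q-1)^2 ≤ 1/Z^2 + 1/Z`.
-/

namespace Pool.Agent.H67.VT

open Finset

private theorem phi_prod (T : Finset ℕ) (hT : ∀ p ∈ T, 2 ≤ p) :
    ∏ p ∈ T, ((p : ℝ) / ((p : ℝ) - 1)) ≤ T.card + 1 := by
  induction T using Finset.induction_on_max with
  | empty => simp
  | insert a s hlt ih =>
    have ha : a ∉ s := fun h => lt_irrefl _ (hlt a h)
    have ha2 : 2 ≤ a := hT a (mem_insert_self a s)
    have ih' := ih (fun p hp => hT p (mem_insert_of_mem hp))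
    have hcard : s.card + 2 ≤ a := by
      have h1 : s ⊆ Ico 2 a := by
        intro x hx
        rw [mem_Ico]
        exact ⟨hT x (mem_insert_of_mem hx), hlt x hx⟩
      have h2 := card_le_card h1
      rw [Nat.card_Ico] at h2
      omega
    rw [prod_insert ha, card_insert_of_notMem ha]
    have hcR : (s.card : ℝ) + 2 ≤ a := by exact_mod_cast hcard
    have hc0 : (0 : ℝ) ≤ s.card := by positivity
    have h3 : (0 : ℝ) < (a : ℝ) - 1 := by linarith
    have h4 : (a : ℝ) / ((a : ℝ) - 1) ≤ ((s.card : ℝ) + 2) / ((s.card : ℝ) + 1) := by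
      rw [div_le_div_iff₀ h3 (by linarith)]
      nlinarith
    calc (a : ℝ) / ((a : ℝ) - 1) * ∏ p ∈ s, ((p : ℝ) / ((p : ℝ) - 1))
        ≤ ((s.card : ℝ) + 2) / ((s.card : ℝ) + 1) * ((s.card : ℝ) + 1) := by
          apply mul_le_mul h4 ih'
          · apply prod_nonneg
            intro p hp
            have h5 : (2 : ℝ) ≤ p := by exact_mod_cast hT p (mem_insert_of_mem hp)
            exact div_nonneg (by linarith) (by linarith)
          · positivity
      _ = ((s.card + 1 : ℕ) : ℝ) + 1 := by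
          rw [div_mul_cancel₀ _ (by positivity)]
          push_cast
          ring

private theorem phi_card (n : ℕ) (hn : 1 ≤ n) : (n.primeFactors.card : ℝ) ≤ 2 * Real.log n := by
  have h1 : 2 ^ n.primeFactors.card ≤ n := by
    calc 2 ^ n.primeFactors.card ≤ ∏ p ∈ n.primeFactors, p := by
          apply Finset.pow_card_le_prod
          intro p hp
          exact (Nat.prime_of_mem_primeFactors hp).two_le
      _ ≤ n := Nat.le_of_dvd hn (Nat.prod_primeFactors_dvd n)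
  have h2 : Real.log ((2 : ℝ) ^ n.primeFactors.card) ≤ Real.log n := by
    apply Real.log_le_log (by positivity)
    exact_mod_cast h1
  rw [Real.log_pow] at h2
  have h3 := Real.log_two_gt_d9
  have h4 : (0 : ℝ) ≤ n.primeFactors.card := by positivity
  nlinarith

theorem phi_low (n : ℕ) (hn : 1 ≤ n) : (n : ℝ) ≤ (2 + 2 * Real.log n) * n.totient := by
  have h1 : (n.totient : ℝ) = n * ∏ p ∈ n.primeFactors, (1 - (p : ℝ)⁻¹) := by
    have h := Nat.totient_eq_mul_prod_factors n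
    have h' : ((n.totient : ℚ) : ℝ) = ((n * ∏ p ∈ n.primeFactors, (1 - (p : ℚ)⁻¹) : ℚ) : ℝ) := by
      rw [h]
    push_cast at h'
    exact h'
  have h2 : (∏ p ∈ n.primeFactors, ((p : ℝ) / ((p : ℝ) - 1))) *
      ∏ p ∈ n.primeFactors, (1 - (p : ℝ)⁻¹) = 1 := by
    rw [← Finset.prod_mul_distrib]
    apply Finset.prod_eq_one
    intro p hp
    have h3 : (2 : ℝ) ≤ p := by exact_mod_cast (Nat.prime_of_mem_primeFactors hp).two_le
    have h4 : (p : ℝ) ≠ 0 := by linarith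
    have h5 : (p : ℝ) - 1 ≠ 0 := by linarith
    field_simp
  have h3 : (n : ℝ) = (∏ p ∈ n.primeFactors, ((p : ℝ) / ((p : ℝ) - 1))) * n.totient := by
    rw [h1, mul_comm (n : ℝ), ← mul_assoc, h2, one_mul]
  have h4 := phi_prod n.primeFactors (fun p hp => (Nat.prime_of_mem_primeFactors hp).two_le)
  have h5 := phi_card n hn
  calc (n : ℝ) = (∏ p ∈ n.primeFactors, ((p : ℝ) / ((p : ℝ) - 1))) * n.totient := h3
    _ ≤ (2 + 2 * Real.log n) * n.totient := by
      apply mul_le_mul_of_nonneg_right _ (by positivity)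
      linarith

private theorem phi_harm (D : ℕ) : ∑ m ∈ Icc 1 D, (1 : ℝ) / (m : ℝ) ≤ 1 + Real.log D := by
  have h := harmonic_le_one_add_log D
  have h2 : ((harmonic D : ℚ) : ℝ) = ∑ m ∈ Icc 1 D, (1 : ℝ) / (m : ℝ) := by
    rw [harmonic_eq_sum_Icc]
    push_cast
    simp [one_div]
  rw [← h2]
  exact h

theorem sum_phi (D : ℕ) (hD : 1 ≤ D) :
    ∑ m ∈ Icc 1 D, 1 / (m.totient : ℝ) ≤ (2 + 2 * Real.log D) ^ 2 := by
  have hlD : 0 ≤ Real.log D := Real.log_natCast_nonneg D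
  have h1 : ∀ m ∈ Icc 1 D, 1 / (m.totient : ℝ) ≤ (2 + 2 * Real.log D) * (1 / (m : ℝ)) := by
    intro m hm
    rw [mem_Icc] at hm
    have h2 := phi_low m hm.1
    have hm0 : (0 : ℝ) < m := by exact_mod_cast hm.1
    have ht : (0 : ℝ) < m.totient := by exact_mod_cast Nat.totient_pos.2 hm.1
    have h3 : Real.log m ≤ Real.log D := Real.log_le_log hm0 (by exact_mod_cast hm.2)
    rw [mul_one_div, div_le_div_iff₀ ht hm0, one_mul]
    refine le_trans h2 ?_
    apply mul_le_mul_of_nonneg_right _ ht.le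
    linarith
  calc ∑ m ∈ Icc 1 D, 1 / (m.totient : ℝ)
      ≤ ∑ m ∈ Icc 1 D, (2 + 2 * Real.log D) * (1 / (m : ℝ)) := sum_le_sum h1
    _ = (2 + 2 * Real.log D) * ∑ m ∈ Icc 1 D, (1 / (m : ℝ)) := by rw [mul_sum]
    _ ≤ (2 + 2 * Real.log D) * (1 + Real.log D) :=
        mul_le_mul_of_nonneg_left (phi_harm D) (by linarith)
    _ ≤ (2 + 2 * Real.log D) ^ 2 := by nlinarith

theorem LL_le (D : ℕ) (hD : 1 ≤ D) (Q : Finset ℕ) (hQ : Q ⊆ Icc 1 D) :
    LL D Q ≤ D * (1 + Real.log D) := by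
  unfold LL
  calc ∑ q ∈ Q, ((D / q : ℕ) : ℝ) ≤ ∑ q ∈ Icc 1 D, ((D / q : ℕ) : ℝ) := by
        apply sum_le_sum_of_subset_of_nonneg hQ
        intro i _ _
        positivity
    _ ≤ ∑ q ∈ Icc 1 D, (D : ℝ) * (1 / (q : ℝ)) := by
        apply sum_le_sum
        intro q _
        rw [mul_one_div]
        exact Nat.cast_div_le
    _ = D * ∑ q ∈ Icc 1 D, (1 / (q : ℝ)) := by rw [mul_sum]
    _ ≤ D * (1 + Real.log D) := mul_le_mul_of_nonneg_left (phi_harm D) (by positivity)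

private theorem phi_tail (Z : ℕ) (hZ : 1 ≤ Z) (k : ℕ) :
    ∑ q ∈ Ioc Z (Z + 1 + k), (1 : ℝ) / ((q : ℝ) - 1) ^ 2 ≤ 2 / (Z : ℝ) - 1 / ((Z : ℝ) + k) := by
  have hZ1 : (1 : ℝ) ≤ Z := by exact_mod_cast hZ
  induction k with
  | zero =>
    rw [Nat.add_zero, Nat.Ioc_succ_singleton, sum_singleton]
    push_cast
    rw [add_sub_cancel_right, add_zero, div_sub_div_same, div_le_div_iff₀ (by positivity) (by positivity)]
    nlinarith
  | succ k ih =>
    rw [show Z + 1 + (k + 1) = (Z + 1 + k) + 1 by ring, sum_Ioc_succ_top (by omega)]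
    have h1 : (1 : ℝ) / ((((Z + 1 + k + 1 : ℕ) : ℝ)) - 1) ^ 2 ≤
        1 / ((Z : ℝ) + k) - 1 / ((Z : ℝ) + (k + 1 : ℕ)) := by
      push_cast
      have hk : (0 : ℝ) ≤ k := by positivity
      have h2 : (0 : ℝ) < (Z : ℝ) + k := by linarith
      have h3 : (0 : ℝ) < (Z : ℝ) + (k + 1) := by linarith
      rw [div_sub_div _ _ h2.ne' h3.ne', div_le_div_iff₀ (by nlinarith) (by positivity)]
      nlinarith
    linarith

theorem sum_inv (Z D : ℕ) (hZ : 1 ≤ Z) :
    ∑ q ∈ (Ioc Z D).filter Nat.Prime, (1 : ℝ) / ((q : ℝ) - 1) ^ 2 ≤ 2 / (Z : ℝ) := by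
  have hZ1 : (1 : ℝ) ≤ Z := by exact_mod_cast hZ
  calc ∑ q ∈ (Ioc Z D).filter Nat.Prime, (1 : ℝ) / ((q : ℝ) - 1) ^ 2
      ≤ ∑ q ∈ Ioc Z (Z + 1 + D), (1 : ℝ) / ((q : ℝ) - 1) ^ 2 := by
        apply sum_le_sum_of_subset_of_nonneg
        · intro q hq
          rw [mem_filter, mem_Ioc] at hq
          rw [mem_Ioc]
          omega
        · intro i _ _
          positivity
    _ ≤ 2 / (Z : ℝ) - 1 / ((Z : ℝ) + D) := phi_tail Z hZ D
    _ ≤ 2 / (Z : ℝ) := by
        have : (0 : ℝ) ≤ 1 / ((Z : ℝ) + D) := by positivity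
        linarith

end Pool.Agent.H67.VT
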