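import Pool.Agent.H67.VT.Ls
import Pool.Agent.H67.VT.Phi

/-!
[H67 VT DY]  Dyadic decomposition.

Proof.  `D = Dv ε X`, `Z = Zv ε X`, `F c = ‖ThC ..‖ ‖KC ..‖ ≥ 0`.  Let `R_i = 2^i (Z+1)`.  Every `c` with
`Z < md ≤ D` has `R_i ≤ md < 2 R_i` for exactly one `i ≥ 0` with `R_i ≤ D`, so `2^i ≤ D`,
`i ≤ 2 log X`.  By `phi_low`, `1/φ(md) ≤ (2 + 2 log D)/md ≤ (2 + 2 log X)/R_i`.  The sum of `F` over the
`c ∈ PC D` with `md ≤ 2 R_i` is at most the sum over `PC (2 R_i)` (transport the characters from `Ch D`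
to `Ch (2 R_i)`: same modulus), which is `≤ 2 R_i X^(1-3ε)` by `ls2` (`2 R_i ≤ 2 D ≤ 2 X^(1/2-15ε)`,
`2 R_i ≥ X^(6ε) ≥ X^(6ε)/2`).  Total: `(2 log X + 1)(2 + 2 log X) 2 X^(1-3ε) ≤ X^(1 - 29ε/10)`.
-/

namespace Pool.Agent.H67.VT

open Finset Filter Pool.Agent.H21.MT Pool.Agent.H67.VS

private theorem dy_transport (R R' : ℕ) (f : (q : ℕ) → DirichletCharacter ℂ q → ℝ)
    (hf : ∀ q χ, 0 ≤ f q χ) (s : Finset (Ch R)) (hs : ∀ c ∈ s, c ∈ PC R ∧ c.md ≤ R') :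
    ∑ c ∈ s, f (c.1.val + 1) c.2 ≤ ∑ c ∈ PC R', f (c.1.val + 1) c.2 := by
  classical
  have hlt : ∀ c : {x // x ∈ s}, c.1.1.val < R' := fun c => (hs c.1 c.2).2
  let g : {x // x ∈ s} → Ch R' := fun c => ⟨⟨c.1.1.val, hlt c⟩, c.1.2⟩
  have hg : ∀ x ∈ s.attach, ∀ y ∈ s.attach, g x = g y → x = y := by
    rintro ⟨⟨⟨r, hr⟩, χ⟩, hx⟩ _ ⟨⟨⟨r', hr'⟩, χ'⟩, hy⟩ _ h
    have h1 : (⟨⟨r, hlt ⟨⟨⟨r, hr⟩, χ⟩, hx⟩⟩, χ⟩ : Ch R') =
        ⟨⟨r', hlt ⟨⟨⟨r', hr'⟩, χ'⟩, hy⟩⟩, χ'⟩ := h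
    have h2 := congrArg (fun c : Ch R' => c.1.val) h1
    simp only at h2
    subst h2
    have h3 : χ = χ' := by
      have := (Sigma.mk.inj_iff.1 h1).2
      exact eq_of_heq this
    subst h3
    rfl
  calc ∑ c ∈ s, f (c.1.val + 1) c.2 = ∑ c ∈ s.attach, f (c.1.1.val + 1) c.1.2 :=
        (sum_attach s fun c => f (c.1.val + 1) c.2).symm
    _ = ∑ c ∈ s.attach.image g, f (c.1.val + 1) c.2 := by
        rw [sum_image hg]
    _ ≤ ∑ c ∈ PC R', f (c.1.val + 1) c.2 := by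
        refine sum_le_sum_of_subset_of_nonneg ?_ fun c _ _ => hf _ _
        intro c hc
        rw [mem_image] at hc
        obtain ⟨x, _, rfl⟩ := hc
        have h1 := (hs x.1 x.2).1
        rw [PC, mem_filter] at h1 ⊢
        exact ⟨mem_univ _, h1.2.1, h1.2.2⟩

private theorem dy_ev (ε : ℝ) (hε : 0 < ε) : ∀ᶠ X : ℝ in atTop,
    (2 * Real.log X + 1) * ((2 + 2 * Real.log X) * 2) ≤ X ^ (ε / 10) := by
  have h1 := (isLittleO_log_rpow_atTop (show (0 : ℝ) < ε / 30 by positivity)).bound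
    (show (0 : ℝ) < 1 by norm_num)
  have h2 := (tendsto_rpow_atTop (show (0 : ℝ) < ε / 30 by positivity)).eventually_ge_atTop 24
  filter_upwards [h1, h2, eventually_ge_atTop (Real.exp 1)] with X hX1 hX2 hX3
  have hX0 : 0 < X := lt_of_lt_of_le (Real.exp_pos 1) hX3
  have hL : 1 ≤ Real.log X := by
    rw [Real.le_log_iff_exp_le hX0]
    exact hX3
  have h3 : Real.log X ≤ X ^ (ε / 30) := by
    rw [one_mul, Real.norm_of_nonneg (by linarith),
      Real.norm_of_nonneg (Real.rpow_nonneg hX0.le _)] at hX1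
    exact hX1
  have e : X ^ (ε / 10) = X ^ (ε / 30) * (X ^ (ε / 30) * X ^ (ε / 30)) := by
    rw [← Real.rpow_add hX0, ← Real.rpow_add hX0]
    congr 1
    ring
  rw [e]
  generalize X ^ (ε / 30) = a at *
  generalize Real.log X = L at *
  calc (2 * L + 1) * ((2 + 2 * L) * 2) ≤ (3 * L) * ((4 * L) * 2) := by
        gcongr
        · linarith
        · linarith
    _ = 24 * (L * L) := by ring
    _ ≤ a * (a * a) := by gcongr

open Classical in
theorem dyad (ε : ℝ) (hε : 0 < ε) (hε2 : ε ≤ 1 / 50) :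
    ∀ᶠ X : ℝ in atTop, ∀ y δ : ℝ, X ≤ y → y ≤ 2 * X → X ^ (-2 * ε) ≤ δ → δ ≤ 1 / 2 →
    ∀ H : ℕ, 1 ≤ H → (H : ℝ) ≤ X ^ ε → ∀ κ : ℕ → ℝ, (∀ k, |κ k| ≤ H) →
    ∑ c ∈ (PC (Dv ε X)).filter (fun c => Zv ε X < c.md), 1 / (c.md.totient : ℝ) *
      (‖ThC (Ax X) (Bx X) (hat y δ) c.2‖ * ‖KC H κ c.2‖) ≤ X ^ (1 - 29 / 10 * ε) := by
  filter_upwards [ls2 ε hε hε2, dy_ev ε hε, eventually_ge_atTop (1 : ℝ)] with X hls hev hX1
  intro y δ hy1 hy2 hδ1 hδ2 H hH1 hHX κ hκ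
  have hX0 : 0 < X := by linarith
  have hL0 : 0 ≤ Real.log X := Real.log_nonneg hX1
  set D := Dv ε X with hD
  set Z := Zv ε X with hZ
  set f : (q : ℕ) → DirichletCharacter ℂ q → ℝ := fun q χ =>
    ‖ThC (Ax X) (Bx X) (hat y δ) χ‖ * ‖KC H κ χ‖ with hfdef
  have hf : ∀ q χ, 0 ≤ f q χ := fun q χ => mul_nonneg (norm_nonneg _) (norm_nonneg _)
  have hDX : (D : ℝ) ≤ X ^ (1 / 2 - 15 * ε) := Nat.floor_le (Real.rpow_nonneg hX0.le _)
  have hDX' : (D : ℝ) ≤ X := by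
    refine hDX.trans ?_
    calc X ^ (1 / 2 - 15 * ε) ≤ X ^ (1 : ℝ) :=
          Real.rpow_le_rpow_of_exponent_le hX1 (by linarith)
      _ = X := Real.rpow_one X
  have hZX : X ^ (6 * ε) ≤ (Z : ℝ) + 1 := (Nat.lt_floor_add_one _).le
  set s := (PC D).filter (fun c => Z < c.md) with hs
  set idx : Ch D → ℕ := fun c => Nat.log 2 (c.md / (Z + 1)) with hidx
  set I : ℕ := ⌊2 * Real.log X⌋₊ + 1 with hI
  have hmdD : ∀ c : Ch D, c.md ≤ D := fun c => c.1.2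
  have hq : ∀ c ∈ s, 2 ^ idx c * (Z + 1) ≤ c.md ∧ c.md < 2 ^ (idx c + 1) * (Z + 1) := by
    intro c hc
    have h1 : Z < c.md := (mem_filter.1 hc).2
    have h2 : 0 < c.md / (Z + 1) := Nat.div_pos h1 (Nat.succ_pos Z)
    constructor
    · rw [← Nat.le_div_iff_mul_le (Nat.succ_pos Z)]
      exact Nat.pow_log_le_self 2 h2.ne'
    · rw [← Nat.div_lt_iff_lt_mul (Nat.succ_pos Z)]
      exact Nat.lt_pow_succ_log_self (by norm_num) _
  have hmaps : ∀ c ∈ s, idx c ∈ range I := by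
    intro c hc
    have h1 := (hq c hc).1
    have h2 : 2 ^ idx c ≤ D := by
      calc 2 ^ idx c = 2 ^ idx c * 1 := (mul_one _).symm
        _ ≤ 2 ^ idx c * (Z + 1) := Nat.mul_le_mul_left _ (Nat.succ_pos Z)
        _ ≤ c.md := h1
        _ ≤ D := hmdD c
    have h3 : ((2 : ℝ)) ^ idx c ≤ X := by
      calc ((2 : ℝ)) ^ idx c = ((2 ^ idx c : ℕ) : ℝ) := by push_cast; rfl
        _ ≤ (D : ℝ) := by exact_mod_cast h2
        _ ≤ X := hDX'
    have h4 : (idx c : ℝ) * Real.log 2 ≤ Real.log X := by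
      rw [← Real.log_pow]
      exact Real.log_le_log (by positivity) h3
    have h5 : (idx c : ℝ) ≤ 2 * Real.log X := by
      have := Real.log_two_gt_d9
      have h6 : (0 : ℝ) ≤ (idx c : ℝ) := Nat.cast_nonneg _
      nlinarith
    rw [mem_range, hI]
    exact Nat.lt_succ_of_le (Nat.le_floor h5)
  have hfib : ∀ i ∈ range I, ∑ c ∈ s.filter (fun c => idx c = i), 1 / (c.md.totient : ℝ) *
      (‖ThC (Ax X) (Bx X) (hat y δ) c.2‖ * ‖KC H κ c.2‖) ≤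
      (2 + 2 * Real.log X) * 2 * X ^ (1 - 3 * ε) := by
    intro i _
    rcases (s.filter (fun c => idx c = i)).eq_empty_or_nonempty with he | ⟨c0, hc0⟩
    · rw [he, sum_empty]
      positivity
    set Ri : ℕ := 2 ^ i * (Z + 1) with hRi
    have hRi0 : 0 < Ri := by positivity
    have hRiD : Ri ≤ D := by
      have h1 := (mem_filter.1 hc0)
      have h2 := (hq c0 h1.1).1
      rw [h1.2] at h2
      exact h2.trans (hmdD c0)
    have hRi1 : (0 : ℝ) < Ri := by exact_mod_cast hRi0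
    have hZRi : X ^ (6 * ε) ≤ (Ri : ℝ) := by
      refine hZX.trans ?_
      have h1 : Z + 1 ≤ Ri := Nat.le_mul_of_pos_left _ (by positivity)
      exact_mod_cast h1
    have hphi : ∀ c ∈ s.filter (fun c => idx c = i), 1 / (c.md.totient : ℝ) ≤
        (2 + 2 * Real.log X) / Ri := by
      intro c hc
      have h1 := mem_filter.1 hc
      have h2 := (hq c h1.1).1
      rw [h1.2] at h2
      have h3 : 1 ≤ c.md := Nat.succ_pos _
      have h4 := phi_low c.md h3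
      have h5 : (0 : ℝ) < c.md.totient := by
        exact_mod_cast Nat.totient_pos.2 h3
      have h6 : (c.md : ℝ) ≤ X := by
        calc (c.md : ℝ) ≤ (D : ℝ) := by exact_mod_cast hmdD c
          _ ≤ X := hDX'
      have h7 : Real.log c.md ≤ Real.log X :=
        Real.log_le_log (by exact_mod_cast h3) h6
      have h8 : (Ri : ℝ) ≤ c.md := by exact_mod_cast h2
      rw [div_le_div_iff₀ h5 hRi1, one_mul]
      calc (Ri : ℝ) ≤ c.md := h8
        _ ≤ (2 + 2 * Real.log c.md) * c.md.totient := h4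
        _ ≤ _ := by gcongr
    have htr := dy_transport D (2 * Ri) f hf (s.filter (fun c => idx c = i)) (by
      intro c hc
      have h1 := mem_filter.1 hc
      have h2 := (hq c h1.1).2
      rw [h1.2] at h2
      refine ⟨(mem_filter.1 h1.1).1, ?_⟩
      rw [hRi]
      have h3 : 2 ^ (i + 1) * (Z + 1) = 2 * (2 ^ i * (Z + 1)) := by ring
      omega)
    have hl := hls y δ hy1 hy2 hδ1 hδ2 H hH1 hHX κ hκ (2 * Ri) (by
      push_cast
      linarith) (by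
      push_cast
      have : (Ri : ℝ) ≤ D := by exact_mod_cast hRiD
      linarith)
    have hl' : ∑ c ∈ PC (2 * Ri), f (c.1.val + 1) c.2 ≤ ((2 * Ri : ℕ) : ℝ) * X ^ (1 - 3 * ε) := hl
    calc ∑ c ∈ s.filter (fun c => idx c = i), 1 / (c.md.totient : ℝ) *
          (‖ThC (Ax X) (Bx X) (hat y δ) c.2‖ * ‖KC H κ c.2‖)
        ≤ ∑ c ∈ s.filter (fun c => idx c = i), (2 + 2 * Real.log X) / Ri *
          f (c.1.val + 1) c.2 := by
          refine sum_le_sum fun c hc => ?_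
          exact mul_le_mul_of_nonneg_right (hphi c hc) (hf _ _)
      _ = (2 + 2 * Real.log X) / Ri *
          ∑ c ∈ s.filter (fun c => idx c = i), f (c.1.val + 1) c.2 := by rw [mul_sum]
      _ ≤ (2 + 2 * Real.log X) / Ri * (((2 * Ri : ℕ) : ℝ) * X ^ (1 - 3 * ε)) := by
          refine mul_le_mul_of_nonneg_left (htr.trans hl') (by positivity)
      _ = (2 + 2 * Real.log X) * 2 * X ^ (1 - 3 * ε) := by
          push_cast
          field_simp
  have e1 : ∑ c ∈ s, 1 / (c.md.totient : ℝ) *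
      (‖ThC (Ax X) (Bx X) (hat y δ) c.2‖ * ‖KC H κ c.2‖) =
      ∑ i ∈ range I, ∑ c ∈ s.filter (fun c => idx c = i), 1 / (c.md.totient : ℝ) *
      (‖ThC (Ax X) (Bx X) (hat y δ) c.2‖ * ‖KC H κ c.2‖) :=
    (sum_fiberwise_of_maps_to hmaps _).symm
  rw [e1]
  have e2 : X ^ (1 - 29 / 10 * ε) = X ^ (ε / 10) * X ^ (1 - 3 * ε) := by
    rw [← Real.rpow_add hX0]
    congr 1
    ring
  have hI2 : (I : ℝ) ≤ 2 * Real.log X + 1 := by
    rw [hI]
    push_cast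
    have := Nat.floor_le (show 0 ≤ 2 * Real.log X by positivity)
    linarith
  calc ∑ i ∈ range I, ∑ c ∈ s.filter (fun c => idx c = i), 1 / (c.md.totient : ℝ) *
        (‖ThC (Ax X) (Bx X) (hat y δ) c.2‖ * ‖KC H κ c.2‖)
      ≤ ∑ i ∈ range I, (2 + 2 * Real.log X) * 2 * X ^ (1 - 3 * ε) := sum_le_sum hfib
    _ = I * ((2 + 2 * Real.log X) * 2 * X ^ (1 - 3 * ε)) := by
        rw [sum_const, card_range, nsmul_eq_mul]
    _ ≤ (2 * Real.log X + 1) * ((2 + 2 * Real.log X) * 2 * X ^ (1 - 3 * ε)) := by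
        gcongr
    _ = (2 * Real.log X + 1) * ((2 + 2 * Real.log X) * 2) * X ^ (1 - 3 * ε) := by ring
    _ ≤ X ^ (ε / 10) * X ^ (1 - 3 * ε) := by gcongr
    _ = X ^ (1 - 29 / 10 * ε) := e2.symm

end Pool.Agent.H67.VT
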