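import Pool.Agent.H67.VS.FinA
import Pool.Agent.H5.PNT.PNT

/-!
[H67 VT FINA]  Auxiliary facts for the final assembly.

Proofs.
* `theta_total2`: prime number theorem (`Pool/Agent/H5/PNT/PNT.lean`, `theta_tendsto`):
  `θ((2-η)X) - θ((1+η)X) = (1 - 2η) X + o(X)`.
* `clip_tv`: `cl n = max X (min n (2X))` is a monotone map onto `[X,2X]` with steps `0` or `1`, so the sum over
  `Ico m n` is at most the sum over `Ico X (2X)` for `clip (M .)`.  Monotone (antitone) case: `clip ∘ M ∘ cl`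
  is monotone (antitone) with values in `[0,G]`: variation `≤ G`.  Last case: `clip` is 1-Lipschitz: `≤ T`.
* `prod_tv`: `|f g(k+1) - f g(k)| ≤ F |Δ g| + G |Δ f|`.
-/

namespace Pool.Agent.H67.VT

open Finset Filter Pool.Agent.H67.VS

private theorem h58_theta_eq (a b : ℝ) (hab : a ≤ b) :
    Chebyshev.theta b - Chebyshev.theta a = ∑ n ∈ Ioc ⌊a⌋₊ ⌊b⌋₊, pl n := by
  have h1 : ∀ x : ℝ, Chebyshev.theta x = ∑ n ∈ Ioc 0 ⌊x⌋₊, pl n := by
    intro x
    unfold Chebyshev.theta pl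
    rw [sum_filter]
  rw [h1, h1]
  have h2 : ⌊a⌋₊ ≤ ⌊b⌋₊ := Nat.floor_le_floor hab
  have h3 : Ioc 0 ⌊b⌋₊ = Ioc 0 ⌊a⌋₊ ∪ Ioc ⌊a⌋₊ ⌊b⌋₊ :=
    (Ioc_union_Ioc_eq_Ioc (Nat.zero_le _) h2).symm
  rw [h3, sum_union]
  · ring
  · rw [disjoint_left]
    intro n hn hn'
    rw [mem_Ioc] at hn hn'
    omega

theorem theta_total2 (η : ℝ) (hη : 0 < η) (hη2 : η ≤ 1 / 4) : ∀ᶠ X : ℝ in atTop,
    (1 - 3 * η) * X ≤ ∑ n ∈ Ioc ⌊(1 + η) * X⌋₊ ⌊(2 - η) * X⌋₊, pl n := by
  have key : ∀ c : ℝ, 0 < c → Tendsto (fun X : ℝ => Chebyshev.theta (c * X) / X) atTop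
      (nhds c) := by
    intro c hc
    have h1 := Pool.Agent.H5.PNT.theta_tendsto.comp (tendsto_id.const_mul_atTop hc)
    have h2 := h1.const_mul c
    rw [mul_one] at h2
    refine h2.congr' ?_
    filter_upwards [eventually_gt_atTop 0] with X hX
    simp only [Function.comp_apply, id_eq]
    field_simp
  have h1 := (key (2 - η) (by linarith)).sub (key (1 + η) (by linarith))
  have h2 : (2 - η) - (1 + η) = 1 - 2 * η := by ring
  rw [h2] at h1
  have h3 := h1.eventually (eventually_gt_nhds (show 1 - 3 * η < 1 - 2 * η by linarith))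
  filter_upwards [h3, eventually_gt_atTop 0] with X hX hX0
  rw [← h58_theta_eq _ _ (mul_le_mul_of_nonneg_right (by linarith) hX0.le)]
  rw [← sub_div, lt_div_iff₀ hX0] at hX
  exact hX.le

theorem clip_tv (X : ℕ) (M : ℕ → ℝ) (G T : ℝ) (hG : 0 ≤ G) (hT : 0 ≤ T)
    (hM : MonotoneOn M (Set.Icc X (2 * X)) ∨ AntitoneOn M (Set.Icc X (2 * X)) ∨
      ∑ n ∈ Ico X (2 * X), |M (n + 1) - M n| ≤ T) (m n : ℕ) :
    ∑ k ∈ Ico m n, |max 0 (min (M (max X (min (k + 1) (2 * X)))) G) -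
      max 0 (min (M (max X (min k (2 * X)))) G)| ≤ G + T := by
  let cl : ℕ → ℕ := fun k => max X (min k (2 * X))
  let h : ℕ → ℝ := fun k => max 0 (min (M (cl k)) G)
  have hcl : ∀ k, cl k ∈ Set.Icc X (2 * X) := by
    intro k
    simp only [cl, Set.mem_Icc]
    omega
  have hclm : ∀ k, cl k ≤ cl (k + 1) := by
    intro k
    simp only [cl]
    omega
  have hclip : ∀ a b : ℝ, a ≤ b → max 0 (min a G) ≤ max 0 (min b G) := fun a b hab =>
    max_le_max le_rfl (min_le_min hab le_rfl)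
  have h0 : ∀ k, 0 ≤ h k := fun k => le_max_left _ _
  have hG' : ∀ k, h k ≤ G := fun k => max_le hG (min_le_right _ _)
  show ∑ k ∈ Ico m n, |h (k + 1) - h k| ≤ G + T
  rcases Nat.lt_or_ge n m with hnm | hmn
  · rw [Ico_eq_empty_of_le hnm.le, sum_empty]
    linarith
  rcases hM with hM | hM | hM
  · have h1 : ∀ k ∈ Ico m n, |h (k + 1) - h k| = h (k + 1) - h k := by
      intro k _
      exact abs_of_nonneg (sub_nonneg.2 (hclip _ _ (hM (hcl k) (hcl (k + 1)) (hclm k))))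
    rw [sum_congr rfl h1, sum_Ico_sub h hmn]
    linarith [hG' n, h0 m]
  · have h1 : ∀ k ∈ Ico m n, |h (k + 1) - h k| = -(h (k + 1) - h k) := by
      intro k _
      exact abs_of_nonpos (sub_nonpos.2 (hclip _ _ (hM (hcl k) (hcl (k + 1)) (hclm k))))
    rw [sum_congr rfl h1, sum_neg_distrib, sum_Ico_sub h hmn]
    linarith [hG' m, h0 n]
  · have h1 : ∀ k ∈ Ico m n, |h (k + 1) - h k| ≤
        if k ∈ Ico X (2 * X) then |M (k + 1) - M k| else 0 := by
      intro k _
      by_cases hk : k ∈ Ico X (2 * X)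
      · rw [if_pos hk]
        rw [mem_Ico] at hk
        have e1 : cl k = k := by simp only [cl]; omega
        have e2 : cl (k + 1) = k + 1 := by simp only [cl]; omega
        simp only [h, e1, e2]
        refine (abs_max_sub_max_le_max _ _ _ _).trans ?_
        refine max_le (by simp) ?_
        refine (abs_min_sub_min_le_max _ _ _ _).trans ?_
        exact max_le le_rfl (by simp)
      · rw [if_neg hk]
        rw [mem_Ico] at hk
        have e1 : cl (k + 1) = cl k := by simp only [cl]; omega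
        simp only [h, e1, sub_self, abs_zero, le_refl]
    refine (sum_le_sum h1).trans ?_
    rw [← sum_filter]
    have h2 : ∑ k ∈ (Ico m n).filter (fun k => k ∈ Ico X (2 * X)), |M (k + 1) - M k| ≤
        ∑ k ∈ Ico X (2 * X), |M (k + 1) - M k| := by
      apply sum_le_sum_of_subset_of_nonneg
      · intro k hk
        exact (mem_filter.1 hk).2
      · intro k _ _
        exact abs_nonneg _
    linarith

theorem prod_tv (f g : ℕ → ℝ) (F G a b : ℝ) (hf : ∀ n, |f n| ≤ F) (hg : ∀ n, |g n| ≤ G) (m n : ℕ)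
    (hfa : ∑ k ∈ Ico m n, |f (k + 1) - f k| ≤ a) (hgb : ∑ k ∈ Ico m n, |g (k + 1) - g k| ≤ b) :
    ∑ k ∈ Ico m n, |f (k + 1) * g (k + 1) - f k * g k| ≤ F * b + G * a := by
  have hF : 0 ≤ F := (abs_nonneg _).trans (hf 0)
  have hG : 0 ≤ G := (abs_nonneg _).trans (hg 0)
  have h1 : ∀ k ∈ Ico m n, |f (k + 1) * g (k + 1) - f k * g k| ≤
      F * |g (k + 1) - g k| + G * |f (k + 1) - f k| := by
    intro k _
    have : f (k + 1) * g (k + 1) - f k * g k =
        f (k + 1) * (g (k + 1) - g k) + g k * (f (k + 1) - f k) := by ring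
    rw [this]
    refine (abs_add_le _ _).trans ?_
    rw [abs_mul, abs_mul]
    exact add_le_add (mul_le_mul_of_nonneg_right (hf _) (abs_nonneg _))
      (mul_le_mul_of_nonneg_right (hg _) (abs_nonneg _))
  refine (sum_le_sum h1).trans ?_
  rw [sum_add_distrib, ← mul_sum, ← mul_sum]
  exact add_le_add (mul_le_mul_of_nonneg_left hgb hF) (mul_le_mul_of_nonneg_left hfa hG)

end Pool.Agent.H67.VT
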