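import Pool.Agent.H67.VT.Win
import Pool.Agent.H67.VT.FinA

/-!
[H67 VT FIN]  Final assembly, sharp constant.  (The assembly of the weaker theorem is
`Pool/Agent/H67/VS/Fin.lean`; most of it can be copied.)

Proof.  `c0, C0` from `Sv_lower`; `c = c0/2`, `C = C0 + 2`.  Let `0 < ε ≤ 1/50`, `η = ε/20`, `X` a large natural
number, `S = Sv ε X > 0`, `G = H(2X) ≤ X^ε`.
`J = ⌊X^(3ε/2) log 2⌋₊`, `δ = log 2/J`, so `X^(-2ε) ≤ X^(-3ε/2) ≤ δ ≤ 2 X^(-3ε/2)`; `y_j = X exp(jδ)`,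
`w_j = hat y_j δ`, `1 ≤ j < J`; the support of `w_j` lies in `(X exp((j-1)δ), X exp((j+1)δ)) ⊆ (X, 2X)`.
`j` is good if `H` is constant (`= H_j ≥ H(X)`) on the integers of this interval; at most
`2 (H(2X) - H(X)) ≤ 2 X^ε` of the `j` are bad (`VS.jumps`).
`f n = log(cl n) * clip(M (cl n))`, `cl n = max X (min n (2X))`, `clip t = max 0 (min t G)`:
`|f| ≤ log(2X) X^ε ≤ X^(1/10)`; `clip_tv` with `T = X^(1/3)` and `prod_tv`: variation
`≤ log(2X) (X^ε + X^(1/3)) + X^ε log(2X) ≤ X^(2/5)`.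
`window2` for the good `j`: `H(X) S (Θ_j - e)_+^2 ≤ (1+2η)(W_j + e) V_j`, `e = X^(1-5ε/2)`.
Cauchy-Schwarz: `(∑_good (Θ_j - e)_+)^2 ≤ (∑ (W_j + e)) (1+2η)/(H(X) S) ∑_good V_j`.
`∑ W_j ≤ X` (`hat_sum_le`, all supports in `(X,2X)`), `J e ≤ X^(1-ε) ≤ η X`.
`∑_{1 ≤ j < J} Θ_j ≥ ∑_{n ∈ ((1+η)X, (2-η)X]} pl n ≥ (1-3η) X` (`hat_sum_eq`; the terms `j = 0, J` vanish there
for large `X`; `theta_total2`); bad `j` contribute `≤ 2 X^ε log(4X)(6 δ X + 1) ≤ η X` (`VS.theta_le`), `J e ≤ η X`.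
So `(1-5η)^2 X^2 ≤ (1+η)(1+2η) X ∑_good V_j/(H(X) S)`.
`∑_good V_j ≤ V := ∑_{n ∈ (X,2X]} (PH (H n) n - f n)^2` (`H_j = H n` on the support, `∑_j w_j ≤ 1`).
For `X < n ≤ 2X`: `0 ≤ π ≤ H n ≤ G`, so `|π - clip(M n)| ≤ |π - M n|`, and by `VS.PH_near`
`|PH (H n) n - f n| ≤ log(2X) |π - M n| + (H n)^2/n`,
`(..)^2 ≤ (1+η) log(2X)^2 (π - M n)^2 + (1+1/η) X^(4ε)/X^2`.  So
`(1+η) log(2X)^2 ∑ (π-M)^2 + 1 ≥ V ≥ (1-5η)^2/((1+η)(1+2η)) H(X) S X`, and with `S ≥ max c0 (1/2 - C0 ε) log X`,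
`log(2X)^2 ≤ (1+η) log(X)^2`:
`∑ (π-M)^2 ≥ (1 - 20η) max c0 (1/2 - C0 ε) X H(X)/log X ≥ max c (1/2 - C ε) X H(X)/log X`
(`1 - 20η = 1 - ε ≥ 1/2`; `(1-ε)(1/2 - C0 ε) ≥ 1/2 - (C0+1) ε`; the term `1` costs less than another `ε`; if
`1/2 - C ε < c` only the bound `c` is needed).
-/

namespace Pool.Agent.H67.VT

open Finset Filter Pool.Agent.H67.VS

private theorem fin_cs {ι : Type*} (s : Finset ι) (K : ℝ) (hK : 0 ≤ K) (a W V : ι → ℝ)
    (ha : ∀ i ∈ s, 0 ≤ a i) (hW : ∀ i ∈ s, 0 ≤ W i) (hV : ∀ i ∈ s, 0 ≤ V i)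
    (h : ∀ i ∈ s, K * a i ^ 2 ≤ W i * V i) :
    K * (∑ i ∈ s, a i) ^ 2 ≤ (∑ i ∈ s, W i) * ∑ i ∈ s, V i := by
  have h1 := Finset.sum_sq_le_sum_mul_sum_of_sq_le_mul s (r := fun i => √(W i * V i)) hW hV
    (fun i hi => (Real.sq_sqrt (mul_nonneg (hW i hi) (hV i hi))).le)
  have h2 : ∀ i ∈ s, √K * a i ≤ √(W i * V i) := by
    intro i hi
    apply Real.le_sqrt_of_sq_le
    rw [mul_pow, Real.sq_sqrt hK]
    exact h i hi
  have h3 : √K * ∑ i ∈ s, a i ≤ ∑ i ∈ s, √(W i * V i) := by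
    rw [Finset.mul_sum]; exact Finset.sum_le_sum h2
  have h4 : 0 ≤ √K * ∑ i ∈ s, a i := mul_nonneg (Real.sqrt_nonneg _) (Finset.sum_nonneg ha)
  calc K * (∑ i ∈ s, a i) ^ 2 = (√K * ∑ i ∈ s, a i) ^ 2 := by rw [mul_pow, Real.sq_sqrt hK]
    _ ≤ (∑ i ∈ s, √(W i * V i)) ^ 2 := pow_le_pow_left₀ h4 h3 2
    _ ≤ _ := h1

private theorem fin_hat_nonneg (y δ : ℝ) (n : ℕ) : 0 ≤ hat y δ n := by
  unfold hat
  split_ifs
  · exact le_rfl
  · exact le_max_left _ _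

private theorem fin_pl_nonneg (n : ℕ) : 0 ≤ pl n := by
  unfold pl
  split_ifs with h
  · exact Real.log_nonneg (by exact_mod_cast h.one_lt.le)
  · exact le_rfl

private theorem fin2_T (X : ℕ) (ε η S : ℝ) (hS : 0 ≤ S) (hη : 0 < η) (hη1 : η ≤ 1 / 8)
    (hX : 2 ≤ X) (J : ℕ) (δ : ℝ)
    (hJ : 1 ≤ J) (hJδ : J * δ = Real.log 2) (hδ0 : 0 < δ) (hδ1 : (X : ℝ) ^ (-2 * ε) ≤ δ)
    (hδ8 : δ ≤ η / 2) (hXδ : 4 ≤ (X : ℝ) * δ)
    (hwin : ∀ y δ : ℝ, (X : ℝ) ≤ y → y ≤ 2 * X →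
      (X : ℝ) ^ (-2 * ε) ≤ δ → δ ≤ 1 / 2 → ∀ H : ℕ, 1 ≤ H →
      (H : ℝ) ≤ (X : ℝ) ^ ε →
      ∀ f : ℕ → ℝ, (∀ n, |f n| ≤ (X : ℝ) ^ (1 / 10 : ℝ)) →
      (∀ m n : ℕ, ∑ k ∈ Ico m n, |f (k + 1) - f k| ≤ (X : ℝ) ^ (2 / 5 : ℝ)) →
      H * S *
          (max 0 (theta (Ax X) (Bx X) (hat y δ) - (X : ℝ) ^ (1 - 5 / 2 * ε))) ^ 2 ≤
        (1 + 2 * η) * (mass (Ax X) (Bx X) (hat y δ) + (X : ℝ) ^ (1 - 5 / 2 * ε)) *
          ∑ n ∈ Ioc (Ax X) (Bx X), hat y δ n * (PH H n - f n) ^ 2)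
    (htot : (1 - 3 * η) * X ≤ ∑ n ∈ Ioc ⌊(1 + η) * (X : ℝ)⌋₊ ⌊(2 - η) * (X : ℝ)⌋₊, pl n)
    (hnum1 : 2 * (X : ℝ) ^ ε * (Real.log (4 * X) * (6 * δ * X + 1)) ≤ η * X)
    (hnum2 : J * (X : ℝ) ^ (1 - 5 / 2 * ε) ≤ η * X)
    (H : ℕ → ℕ) (hH : MonotoneOn H (Set.Icc X (2 * X))) (hH1 : 1 ≤ H X)
    (hH3 : (H (2 * X) : ℝ) ≤ (X : ℝ) ^ ε) (f : ℕ → ℝ)
    (hf : ∀ n, |f n| ≤ (X : ℝ) ^ (1 / 10 : ℝ))
    (hftv : ∀ m n : ℕ, ∑ k ∈ Ico m n, |f (k + 1) - f k| ≤ (X : ℝ) ^ (2 / 5 : ℝ)) :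
    H X * S * ((1 - 5 * η) * X) ^ 2 ≤
      (1 + 2 * η) * ((1 + η) * X) * ∑ n ∈ Ioc X (2 * X), (PH (H n) n - f n) ^ 2 := by
  classical
  have hx : (2 : ℝ) ≤ X := by exact_mod_cast hX
  have hx0 : (0 : ℝ) < X := by linarith
  have hexp : Real.exp (J * δ) = 2 := by rw [hJδ, Real.exp_log (by norm_num)]
  set y : ℕ → ℝ := fun j => (X : ℝ) * Real.exp (j * δ) with hy
  have hy1 : ∀ j, (X : ℝ) ≤ y j := by
    intro j
    have h1 : 1 ≤ Real.exp (j * δ) := Real.one_le_exp (by positivity)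
    have : (X : ℝ) * 1 ≤ X * Real.exp (j * δ) := mul_le_mul_of_nonneg_left h1 hx0.le
    simpa [hy] using this
  have hexpmono : ∀ s t : ℝ, s ≤ t → (X : ℝ) * Real.exp (s * δ) ≤ X * Real.exp (t * δ) := by
    intro s t hst
    exact mul_le_mul_of_nonneg_left
      (Real.exp_le_exp.2 (mul_le_mul_of_nonneg_right hst hδ0.le)) hx0.le
  have hyJ : (X : ℝ) * Real.exp (J * δ) = 2 * X := by rw [hexp]; ring
  have hy2 : ∀ j, j ≤ J → y j ≤ 2 * X := by
    intro j hj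
    rw [← hyJ]
    exact hexpmono _ _ (by exact_mod_cast hj)
  set P : ℕ → Prop := fun j : ℕ => ∃ n n' : ℕ,
      ((X : ℝ) * Real.exp ((j - 1) * δ) < n ∧ (n : ℝ) < X * Real.exp ((j + 1) * δ)) ∧
      ((X : ℝ) * Real.exp ((j - 1) * δ) < n' ∧ (n' : ℝ) < X * Real.exp ((j + 1) * δ)) ∧
      H n ≠ H n' with hP
  have hbad : ((Ico 1 J).filter P).card ≤ 2 * (H (2 * X) - H X) :=
    jumps X J (by omega) hJ δ hJδ H hH
  have hsupp : ∀ j n : ℕ, hat (y j) δ n ≠ 0 →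
      (X : ℝ) * Real.exp ((j - 1) * δ) < n ∧ (n : ℝ) < X * Real.exp ((j + 1) * δ) := by
    intro j n hn
    have hyj : 0 < y j := lt_of_lt_of_le hx0 (hy1 j)
    obtain ⟨h1, h2⟩ := hat_supp (y j) δ hyj hδ0 n hn
    have e1 : y j * Real.exp (-δ) = (X : ℝ) * Real.exp ((j - 1) * δ) := by
      simp only [hy]
      rw [mul_assoc, ← Real.exp_add]
      congr 2
      ring
    have e2 : y j * Real.exp δ = (X : ℝ) * Real.exp ((j + 1) * δ) := by
      simp only [hy]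
      rw [mul_assoc, ← Real.exp_add]
      congr 2
      ring
    rw [e1] at h1
    rw [e2] at h2
    exact ⟨h1, h2⟩
  have hrange : ∀ j ∈ Ico 1 J, ∀ n : ℕ, hat (y j) δ n ≠ 0 → n ∈ Ioc X (2 * X) := by
    intro j hj n hn
    rw [mem_Ico] at hj
    obtain ⟨h1, h2⟩ := hsupp j n hn
    have hj1 : (1 : ℝ) ≤ j := by exact_mod_cast hj.1
    have hj2 : (j : ℝ) + 1 ≤ J := by exact_mod_cast hj.2
    have h3 : (X : ℝ) ≤ X * Real.exp ((j - 1) * δ) := by
      have := hexpmono 0 ((j : ℝ) - 1) (by linarith)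
      simpa using this
    have h4 : (X : ℝ) * Real.exp ((j + 1) * δ) ≤ 2 * X := by
      rw [← hyJ]
      exact hexpmono _ _ hj2
    rw [mem_Ioc]
    constructor
    · have : (X : ℝ) < n := lt_of_le_of_lt h3 h1
      exact_mod_cast this
    · have : (n : ℝ) < 2 * X := lt_of_lt_of_le h2 h4
      have h5 : (n : ℝ) < ((2 * X : ℕ) : ℝ) := by push_cast; exact this
      exact (Nat.cast_lt.1 h5).le
  -- the floor of y j
  have hfl : ∀ j ∈ Ico 1 J, ⌊y j⌋₊ ∈ Set.Icc X (2 * X) ∧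
      (X : ℝ) * Real.exp ((j - 1) * δ) < (⌊y j⌋₊ : ℕ) ∧
      ((⌊y j⌋₊ : ℕ) : ℝ) < X * Real.exp ((j + 1) * δ) := by
    intro j hj
    rw [mem_Ico] at hj
    have hyj0 : 0 ≤ y j := hx0.le.trans (hy1 j)
    have hfle : ((⌊y j⌋₊ : ℕ) : ℝ) ≤ y j := Nat.floor_le hyj0
    refine ⟨⟨Nat.le_floor (hy1 j), ?_⟩, ?_, ?_⟩
    · have h1 := hy2 j hj.2.le
      have h2 : ((⌊y j⌋₊ : ℕ) : ℝ) ≤ ((2 * X : ℕ) : ℝ) := by push_cast; linarith
      exact_mod_cast h2
    · have e1 : (X : ℝ) * Real.exp ((j - 1) * δ) = y j * Real.exp (-δ) := by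
        simp only [hy]
        rw [mul_assoc, ← Real.exp_add]
        congr 2
        ring
      rw [e1]
      have h3 := Nat.lt_floor_add_one (y j)
      have h4 : Real.exp (-δ) ≤ 1 - δ / 2 := by
        have h5 := Real.add_one_le_exp δ
        have h6 : Real.exp (-δ) * Real.exp δ = 1 := by rw [← Real.exp_add]; simp
        have h7 : 0 < Real.exp (-δ) := Real.exp_pos _
        have h8 : Real.exp (-δ) * (δ + 1) ≤ 1 := by
          have h11 := mul_le_mul_of_nonneg_left h5 h7.le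
          rw [h6] at h11
          exact h11
        nlinarith
      have h9 : y j * Real.exp (-δ) ≤ y j * (1 - δ / 2) := mul_le_mul_of_nonneg_left h4 hyj0
      have h10 : (4 : ℝ) ≤ y j * δ := hXδ.trans (mul_le_mul_of_nonneg_right (hy1 j) hδ0.le)
      nlinarith
    · refine lt_of_le_of_lt hfle ?_
      simp only [hy]
      apply mul_lt_mul_of_pos_left _ hx0
      apply Real.exp_lt_exp.2
      nlinarith
  -- good windows
  set good := (Ico 1 J).filter (fun j => ¬ P j) with hgood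
  have hgoodsub : good ⊆ Ico 1 J := filter_subset _ _
  have hconst : ∀ j ∈ good, ∀ n : ℕ, hat (y j) δ n ≠ 0 → H n = H ⌊y j⌋₊ := by
    intro j hj n hn
    rw [hgood, mem_filter] at hj
    by_contra hne
    apply hj.2
    exact ⟨n, ⌊y j⌋₊, hsupp j n hn, (hfl j hj.1).2, hne⟩
  have hHj1 : ∀ j ∈ good, H X ≤ H ⌊y j⌋₊ ∧ H ⌊y j⌋₊ ≤ H (2 * X) := by
    intro j hj
    have h1 := (hfl j (hgoodsub hj)).1
    have hXX : X ≤ 2 * X := by omega
    exact ⟨hH ⟨le_rfl, hXX⟩ h1 h1.1, hH h1 ⟨hXX, le_rfl⟩ h1.2⟩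
  set D : ℕ → ℝ := fun n => (PH (H n) n - f n) ^ 2 with hD
  have hD0 : ∀ n, 0 ≤ D n := fun n => sq_nonneg _
  set Θ : ℕ → ℝ := fun j => theta (Ax X) (Bx X) (hat (y j) δ) with hΘ
  set W : ℕ → ℝ := fun j => mass (Ax X) (Bx X) (hat (y j) δ) with hW
  set V : ℕ → ℝ := fun j => ∑ n ∈ Ioc (Ax X) (Bx X),
    hat (y j) δ n * (PH (H ⌊y j⌋₊) n - f n) ^ 2 with hV
  set E : ℝ := (X : ℝ) ^ (1 - 5 / 2 * ε) with hE
  have hE0 : 0 ≤ E := by positivity
  have hHX : (0 : ℝ) < H X := by exact_mod_cast hH1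
  -- window inequality
  have hw1 : ∀ j ∈ good, H X * S * (max 0 (Θ j - E)) ^ 2 ≤
      ((1 + 2 * η) * (W j + E)) * V j := by
    intro j hj
    have hj' := mem_Ico.1 (hgoodsub hj)
    obtain ⟨h1, h2⟩ := hHj1 j hj
    have h3 : (H ⌊y j⌋₊ : ℝ) ≤ (X : ℝ) ^ ε := by
      refine le_trans ?_ hH3
      exact_mod_cast h2
    have h4 := hwin (y j) δ (hy1 j) (hy2 j hj'.2.le) hδ1 (by linarith) (H ⌊y j⌋₊)
      (hH1.trans h1) h3 f hf hftv
    refine le_trans ?_ h4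
    have h5 : (H X : ℝ) ≤ H ⌊y j⌋₊ := by exact_mod_cast h1
    gcongr
  have hWnn : ∀ j, 0 ≤ W j := fun j => Finset.sum_nonneg fun n _ => fin_hat_nonneg _ _ _
  have hVnn : ∀ j, 0 ≤ V j := fun j => Finset.sum_nonneg fun n _ =>
    mul_nonneg (fin_hat_nonneg _ _ _) (sq_nonneg _)
  have hcs := fin_cs good (H X * S) (by positivity)
    (fun j => max 0 (Θ j - E)) (fun j => (1 + 2 * η) * (W j + E)) V
    (fun j _ => le_max_left _ _)
    (fun j _ => mul_nonneg (by linarith) (add_nonneg (hWnn j) hE0))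
    (fun j _ => hVnn j) hw1
  have hgoodcard : (good.card : ℝ) ≤ J := by
    have h1 : good.card ≤ (Ico 1 J).card := Finset.card_le_card hgoodsub
    rw [Nat.card_Ico] at h1
    exact_mod_cast h1.trans (Nat.sub_le _ _)
  -- sum of hats over good
  have hhat1 : ∀ n : ℕ, ∑ j ∈ good, hat (y j) δ n ≤ 1 := by
    intro n
    refine le_trans ?_ (hat_sum_le (X : ℝ) δ hx0 hδ0 J n)
    refine Finset.sum_le_sum_of_subset_of_nonneg ?_ (fun j _ _ => fin_hat_nonneg _ _ _)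
    intro j hj
    have := mem_Ico.1 (hgoodsub hj)
    exact mem_range.2 this.2
  -- total mass
  have hWsum : ∑ j ∈ good, W j ≤ X := by
    have h1 : ∀ j ∈ good, W j ≤ ∑ n ∈ Ioc X (2 * X), hat (y j) δ n := by
      intro j hj
      have h2 : W j = ∑ n ∈ (Ioc (Ax X) (Bx X)).filter (fun n => n ∈ Ioc X (2 * X)),
          hat (y j) δ n := by
        rw [Finset.sum_filter]
        simp only [hW]
        unfold mass
        refine Finset.sum_congr rfl fun n _ => ?_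
        by_cases h3 : hat (y j) δ n = 0
        · rw [h3, ite_self]
        · rw [if_pos (hrange j (hgoodsub hj) n h3)]
      rw [h2]
      refine Finset.sum_le_sum_of_subset_of_nonneg ?_ (fun n _ _ => fin_hat_nonneg _ _ _)
      intro n hn
      exact (mem_filter.1 hn).2
    calc ∑ j ∈ good, W j ≤ ∑ j ∈ good, ∑ n ∈ Ioc X (2 * X), hat (y j) δ n :=
          Finset.sum_le_sum h1
      _ = ∑ n ∈ Ioc X (2 * X), ∑ j ∈ good, hat (y j) δ n := Finset.sum_comm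
      _ ≤ ∑ n ∈ Ioc X (2 * X), (1 : ℝ) := Finset.sum_le_sum fun n _ => hhat1 n
      _ = X := by
          rw [Finset.sum_const, Nat.card_Ioc, nsmul_eq_mul, mul_one]
          have : 2 * X - X = X := by omega
          rw [this]
  have hWE : ∑ j ∈ good, (1 + 2 * η) * (W j + E) ≤ (1 + 2 * η) * ((1 + η) * X) := by
    rw [← Finset.mul_sum]
    refine mul_le_mul_of_nonneg_left ?_ (by linarith)
    rw [Finset.sum_add_distrib, Finset.sum_const, nsmul_eq_mul]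
    have h2 : (good.card : ℝ) * E ≤ J * E := mul_le_mul_of_nonneg_right hgoodcard hE0
    linarith
  -- total V
  have hVsum : ∑ j ∈ good, V j ≤ ∑ n ∈ Ioc X (2 * X), D n := by
    have h1 : ∀ j ∈ good, V j ≤ ∑ n ∈ Ioc X (2 * X), hat (y j) δ n * D n := by
      intro j hj
      have h2 : V j = ∑ n ∈ (Ioc (Ax X) (Bx X)).filter (fun n => n ∈ Ioc X (2 * X)),
          hat (y j) δ n * D n := by
        rw [Finset.sum_filter]
        simp only [hV]
        refine Finset.sum_congr rfl fun n _ => ?_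
        by_cases h3 : hat (y j) δ n = 0
        · rw [h3, zero_mul, zero_mul, ite_self]
        · rw [if_pos (hrange j (hgoodsub hj) n h3)]
          simp only [hD]
          rw [hconst j hj n h3]
      rw [h2]
      refine Finset.sum_le_sum_of_subset_of_nonneg ?_
        (fun n _ _ => mul_nonneg (fin_hat_nonneg _ _ _) (hD0 n))
      intro n hn
      exact (mem_filter.1 hn).2
    calc ∑ j ∈ good, V j ≤ ∑ j ∈ good, ∑ n ∈ Ioc X (2 * X), hat (y j) δ n * D n :=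
          Finset.sum_le_sum h1
      _ = ∑ n ∈ Ioc X (2 * X), (∑ j ∈ good, hat (y j) δ n) * D n := by
          rw [Finset.sum_comm]
          refine Finset.sum_congr rfl fun n _ => ?_
          rw [Finset.sum_mul]
      _ ≤ ∑ n ∈ Ioc X (2 * X), 1 * D n :=
          Finset.sum_le_sum fun n _ => mul_le_mul_of_nonneg_right (hhat1 n) (hD0 n)
      _ = _ := by simp
  have hVsum0 : 0 ≤ ∑ j ∈ good, V j := Finset.sum_nonneg fun j _ => hVnn j
  have hcs2 : H X * S * (∑ j ∈ good, max 0 (Θ j - E)) ^ 2 ≤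
      (1 + 2 * η) * ((1 + η) * X) * ∑ n ∈ Ioc X (2 * X), D n := by
    refine hcs.trans ?_
    exact mul_le_mul hWE hVsum hVsum0 (by positivity)
  refine le_trans ?_ hcs2
  -- lower bound for the sum of theta
  have hΘnn : ∀ j, 0 ≤ Θ j := fun j => Finset.sum_nonneg fun n _ =>
    mul_nonneg (fin_hat_nonneg _ _ _) (fin_pl_nonneg n)
  have hexpη : Real.exp δ ≤ 1 + η := by
    have h1 := Real.add_one_le_exp (-δ)
    have h2 : Real.exp (-δ) * Real.exp δ = 1 := by rw [← Real.exp_add]; simp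
    have h3 : 0 < Real.exp δ := Real.exp_pos _
    have h4 : (1 - δ) * Real.exp δ ≤ 1 := by
      rw [← h2]
      exact mul_le_mul_of_nonneg_right (by linarith) h3.le
    have h5 : 1 ≤ (1 - δ) * (1 + η) := by nlinarith
    have h6 : 0 < 1 - δ := by linarith
    exact le_of_mul_le_mul_left (h4.trans h5) h6
  have hone : ∀ n ∈ Ioc ⌊(1 + η) * (X : ℝ)⌋₊ ⌊(2 - η) * (X : ℝ)⌋₊,
      ∑ j ∈ Ico 1 J, hat (y j) δ n = 1 := by
    intro n hn
    rw [mem_Ioc] at hn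
    have h1 : (1 + η) * (X : ℝ) < n := (Nat.floor_lt (by positivity)).1 hn.1
    have h2 : (n : ℝ) ≤ (2 - η) * (X : ℝ) :=
      (Nat.le_floor_iff (mul_nonneg (by linarith) hx0.le)).1 hn.2
    have hηX : 0 < η * X := by positivity
    have h3 := hat_sum_eq (X : ℝ) δ hx0 hδ0 J n (by linarith) (by rw [hyJ]; linarith)
    have h4 : hat (y 0) δ n = 0 := by
      by_contra hne
      have h5 := (hat_supp (y 0) δ (lt_of_lt_of_le hx0 (hy1 0)) hδ0 n hne).2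
      have h6 : y 0 = X := by simp [hy]
      rw [h6] at h5
      have h13 : (X : ℝ) * Real.exp δ ≤ X * (1 + η) := mul_le_mul_of_nonneg_left hexpη hx0.le
      linarith
    have h5 : hat (y J) δ n = 0 := by
      by_contra hne
      have h6 := (hat_supp (y J) δ (lt_of_lt_of_le hx0 (hy1 J)) hδ0 n hne).1
      have h7 : y J = 2 * X := hyJ
      rw [h7] at h6
      have h8 : 1 - η / 2 ≤ Real.exp (-δ) := by
        have := Real.add_one_le_exp (-δ)
        linarith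
      have h9 : 2 * (X : ℝ) * (1 - η / 2) ≤ 2 * X * Real.exp (-δ) :=
        mul_le_mul_of_nonneg_left h8 (by positivity)
      linarith
    rw [Finset.sum_range_succ, Finset.range_eq_Ico, Finset.sum_eq_sum_Ico_succ_bot (by omega)] at h3
    have h4' : hat ((X : ℝ) * Real.exp (((0 : ℕ) : ℝ) * δ)) δ n = 0 := h4
    have h5' : hat ((X : ℝ) * Real.exp ((J : ℝ) * δ)) δ n = 0 := h5
    rw [h4', h5', zero_add, add_zero] at h3
    exact h3
  have hsub : Ioc ⌊(1 + η) * (X : ℝ)⌋₊ ⌊(2 - η) * (X : ℝ)⌋₊ ⊆ Ioc (Ax X) (Bx X) := by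
    intro n hn
    rw [mem_Ioc] at hn ⊢
    have h1 : (1 + η) * (X : ℝ) < n := (Nat.floor_lt (by positivity)).1 hn.1
    have h2 : (n : ℝ) ≤ (2 - η) * (X : ℝ) :=
      (Nat.le_floor_iff (mul_nonneg (by linarith) hx0.le)).1 hn.2
    have hηX : 0 < η * X := by positivity
    constructor
    · exact (Nat.floor_lt (by positivity)).2 (by linarith)
    · exact (Nat.le_floor_iff (by positivity)).2 (by linarith)
  have hΘsum : (1 - 3 * η) * X ≤ ∑ j ∈ Ico 1 J, Θ j := by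
    refine htot.trans ?_
    simp only [hΘ]
    unfold theta
    rw [Finset.sum_comm]
    calc ∑ n ∈ Ioc ⌊(1 + η) * (X : ℝ)⌋₊ ⌊(2 - η) * (X : ℝ)⌋₊, pl n
        = ∑ n ∈ Ioc ⌊(1 + η) * (X : ℝ)⌋₊ ⌊(2 - η) * (X : ℝ)⌋₊,
            ∑ j ∈ Ico 1 J, hat (y j) δ n * pl n := by
          refine Finset.sum_congr rfl fun n hn => ?_
          rw [← Finset.sum_mul, hone n hn, one_mul]
      _ ≤ _ := Finset.sum_le_sum_of_subset_of_nonneg hsub fun n _ _ =>
          Finset.sum_nonneg fun j _ => mul_nonneg (fin_hat_nonneg _ _ _) (fin_pl_nonneg n)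
  -- the bad windows
  have hlog4 : 0 ≤ Real.log (4 * X) * (6 * δ * X + 1) :=
    mul_nonneg (Real.log_nonneg (by linarith)) (by positivity)
  have hbadsum : ∑ j ∈ (Ico 1 J).filter P, Θ j ≤
      2 * (X : ℝ) ^ ε * (Real.log (4 * X) * (6 * δ * X + 1)) := by
    have h1 : ∀ j ∈ (Ico 1 J).filter P, Θ j ≤ Real.log (4 * X) * (6 * δ * X + 1) := by
      intro j hj
      have hj' := mem_Ico.1 (mem_filter.1 hj).1
      exact theta_le (X : ℝ) (y j) δ hx (hy1 j) (hy2 j hj'.2.le) hδ0 (by linarith)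
    calc ∑ j ∈ (Ico 1 J).filter P, Θ j
        ≤ ∑ j ∈ (Ico 1 J).filter P, Real.log (4 * X) * (6 * δ * X + 1) :=
          Finset.sum_le_sum h1
      _ = (((Ico 1 J).filter P).card : ℝ) * (Real.log (4 * X) * (6 * δ * X + 1)) := by
          rw [Finset.sum_const, nsmul_eq_mul]
      _ ≤ _ := by
          refine mul_le_mul_of_nonneg_right ?_ hlog4
          have h2 : ((Ico 1 J).filter P).card ≤ 2 * H (2 * X) :=
            hbad.trans (Nat.mul_le_mul_left 2 (Nat.sub_le _ _))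
          have h3 : ((((Ico 1 J).filter P).card : ℕ) : ℝ) ≤ 2 * H (2 * X) := by
            exact_mod_cast h2
          linarith
  have hsplit : ∑ j ∈ (Ico 1 J).filter P, Θ j + ∑ j ∈ good, Θ j = ∑ j ∈ Ico 1 J, Θ j :=
    Finset.sum_filter_add_sum_filter_not _ _ _
  have hlow : (1 - 5 * η) * X ≤ ∑ j ∈ good, max 0 (Θ j - E) := by
    have h1 : ∑ j ∈ good, (Θ j - E) ≤ ∑ j ∈ good, max 0 (Θ j - E) :=
      Finset.sum_le_sum fun j _ => le_max_right _ _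
    rw [Finset.sum_sub_distrib, Finset.sum_const, nsmul_eq_mul] at h1
    have h2 : (good.card : ℝ) * E ≤ J * E := mul_le_mul_of_nonneg_right hgoodcard hE0
    linarith
  have h0 : 0 ≤ (1 - 5 * η) * X := mul_nonneg (by linarith) hx0.le
  have h1 := pow_le_pow_left₀ h0 hlow 2
  exact mul_le_mul_of_nonneg_left h1 (by positivity)

/-- number of windows -/
private noncomputable def fin2J (ε x : ℝ) : ℕ := ⌊x ^ (3 / 2 * ε) * Real.log 2⌋₊

private theorem fin2_par (ε η : ℝ) (hε : 0 < ε) (hε2 : ε ≤ 1 / 50) (hη : 0 < η) :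
    ∀ᶠ x : ℝ in atTop, 1 ≤ fin2J ε x ∧ (fin2J ε x : ℝ) ≤ x ^ (3 / 2 * ε) ∧
    x ^ (-2 * ε) ≤ Real.log 2 / fin2J ε x ∧
    Real.log 2 / fin2J ε x ≤ 2 * x ^ (-(3 / 2 * ε)) ∧
    Real.log 2 / fin2J ε x ≤ η / 2 ∧ 4 ≤ x * (Real.log 2 / fin2J ε x) := by
  have h1 : Tendsto (fun x : ℝ => x ^ (3 / 2 * ε)) atTop atTop :=
    tendsto_rpow_atTop (by linarith)
  have h2 : Tendsto (fun x : ℝ => x ^ (1 - 2 * ε)) atTop atTop :=
    tendsto_rpow_atTop (by linarith)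
  filter_upwards [h1.eventually_ge_atTop 100, h1.eventually_ge_atTop (4 / η),
    eventually_ge_atTop 4, h2.eventually_ge_atTop 4] with x hx hxη hx4 hx5
  have hx0 : 0 < x := by linarith
  have hl1 := Real.log_two_gt_d9
  have hl2 := Real.log_two_lt_d9
  obtain ⟨s, hs⟩ : ∃ s : ℝ, s = x ^ (3 / 2 * ε) := ⟨_, rfl⟩
  rw [← hs] at hx hxη
  have hs0 : 0 < s := by linarith
  have ht : 69 ≤ s * Real.log 2 := by nlinarith
  have hJle : (fin2J ε x : ℝ) ≤ s * Real.log 2 := by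
    rw [hs]
    apply Nat.floor_le
    rw [← hs]
    linarith
  have hJgt : s * Real.log 2 < fin2J ε x + 1 := by
    rw [hs]
    exact Nat.lt_floor_add_one _
  have hJhalf : s * Real.log 2 / 2 ≤ fin2J ε x := by linarith
  have hJpos : 0 < (fin2J ε x : ℝ) := by linarith
  have hl0 : 0 < Real.log 2 := by linarith
  have hsinv : x ^ (-(3 / 2 * ε)) = s⁻¹ := by rw [Real.rpow_neg hx0.le, hs]
  have hlow : s⁻¹ ≤ Real.log 2 / fin2J ε x := by
    rw [le_div_iff₀ hJpos, inv_mul_le_iff₀ hs0]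
    exact hJle
  have hup : Real.log 2 / fin2J ε x ≤ 2 * s⁻¹ := by
    rw [div_le_iff₀ hJpos]
    have h3 : 2 * s⁻¹ * (s * Real.log 2 / 2) = Real.log 2 := by field_simp
    have h4 : 0 ≤ 2 * s⁻¹ := by positivity
    nlinarith [mul_le_mul_of_nonneg_left hJhalf h4]
  have hpow : x ^ (-2 * ε) ≤ s⁻¹ := by
    rw [← hsinv]
    exact Real.rpow_le_rpow_of_exponent_le (by linarith) (by linarith)
  refine ⟨?_, ?_, hpow.trans hlow, ?_, ?_, ?_⟩
  · have : (1 : ℝ) ≤ fin2J ε x := by linarith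
    exact_mod_cast this
  · rw [← hs]
    refine hJle.trans ?_
    nlinarith
  · rw [hsinv]; exact hup
  · refine hup.trans ?_
    rw [div_le_iff₀ hη] at hxη
    have h5 : 2 * s⁻¹ = 2 / s := by ring
    rw [h5, div_le_iff₀ hs0]
    linarith
  · have h6 : x * x ^ (-2 * ε) = x ^ (1 - 2 * ε) := by
      nth_rewrite 1 [← Real.rpow_one x]
      rw [← Real.rpow_add hx0]
      congr 1
      ring
    have h7 : x * x ^ (-2 * ε) ≤ x * (Real.log 2 / fin2J ε x) :=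
      mul_le_mul_of_nonneg_left (hpow.trans hlow) hx0.le
    linarith

private theorem fin2_log (k a κ : ℝ) (hk : 1 ≤ k) (ha : 0 < a) (hκ : 0 < κ) :
    ∀ᶠ x : ℝ in atTop, Real.log (k * x) ≤ κ * x ^ a := by
  have h1 := (isLittleO_log_rpow_atTop ha).bound (show (0 : ℝ) < κ / 2 by positivity)
  have h2 := (tendsto_rpow_atTop ha).eventually_ge_atTop (2 * Real.log k / κ)
  filter_upwards [h1, h2, eventually_ge_atTop (1 : ℝ)] with x h1 h2 hx
  have hx0 : 0 < x := by linarith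
  rw [Real.norm_eq_abs, Real.norm_eq_abs, abs_of_nonneg (Real.log_nonneg hx),
    abs_of_nonneg (Real.rpow_nonneg hx0.le _)] at h1
  rw [div_le_iff₀ hκ] at h2
  rw [Real.log_mul (by linarith) hx0.ne']
  linarith

private theorem fin2_num (ε η : ℝ) (hε : 0 < ε) (hε2 : ε ≤ 1 / 50) (hη : 0 < η) :
    ∀ᶠ x : ℝ in atTop, ∀ δ J : ℝ, 0 ≤ δ → δ ≤ 2 * x ^ (-(3 / 2 * ε)) → J ≤ x ^ (3 / 2 * ε) →
    2 * x ^ ε * (Real.log (4 * x) * (6 * δ * x + 1)) ≤ η * x ∧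
      J * x ^ (1 - 5 / 2 * ε) ≤ η * x := by
  have h1 := fin2_log 4 (ε / 2) (η / 26) (by norm_num) (by positivity) (by positivity)
  have h2 := (tendsto_rpow_atTop hε).eventually_ge_atTop (1 / η)
  filter_upwards [h1, h2, eventually_ge_atTop 1] with x h1 h2 hx1
  intro δ J hδ0 hδ hJ
  have hx0 : 0 < x := by linarith
  constructor
  · have e1 : x ^ (-(3 / 2 * ε)) * x = x ^ (1 - 3 / 2 * ε) := by
      nth_rewrite 2 [← Real.rpow_one x]
      rw [← Real.rpow_add hx0]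
      congr 1
      ring
    have h3 : 6 * δ * x + 1 ≤ 13 * x ^ (1 - 3 / 2 * ε) := by
      have h3 : δ * x ≤ 2 * x ^ (1 - 3 / 2 * ε) := by
        rw [← e1]
        calc δ * x ≤ 2 * x ^ (-(3 / 2 * ε)) * x := mul_le_mul_of_nonneg_right hδ hx0.le
          _ = _ := by ring
      have h4 : 1 ≤ x ^ (1 - 3 / 2 * ε) := Real.one_le_rpow hx1 (by linarith)
      linarith
    have h6 : Real.log (4 * x) * (6 * δ * x + 1) ≤
        η / 26 * x ^ (ε / 2) * (13 * x ^ (1 - 3 / 2 * ε)) :=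
      mul_le_mul h1 h3 (by positivity) (by positivity)
    calc 2 * x ^ ε * (Real.log (4 * x) * (6 * δ * x + 1))
        ≤ 2 * x ^ ε * (η / 26 * x ^ (ε / 2) * (13 * x ^ (1 - 3 / 2 * ε))) :=
          mul_le_mul_of_nonneg_left h6 (by positivity)
      _ = η * (x ^ ε * x ^ (ε / 2) * x ^ (1 - 3 / 2 * ε)) := by ring
      _ = η * x := by
          rw [← Real.rpow_add hx0, ← Real.rpow_add hx0]
          have : ε + ε / 2 + (1 - 3 / 2 * ε) = 1 := by ring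
          rw [this, Real.rpow_one]
  · calc J * x ^ (1 - 5 / 2 * ε) ≤ x ^ (3 / 2 * ε) * x ^ (1 - 5 / 2 * ε) :=
          mul_le_mul_of_nonneg_right hJ (by positivity)
      _ = x ^ (1 - ε) := by
          rw [← Real.rpow_add hx0]
          congr 1
          ring
      _ ≤ η * x := by
          rw [Real.rpow_sub hx0, Real.rpow_one, div_le_iff₀ (Real.rpow_pos_of_pos hx0 _)]
          rw [div_le_iff₀ hη] at h2
          nlinarith

private theorem fin2_num2 (ε : ℝ) (hε : 0 < ε) (hε2 : ε ≤ 1 / 50) :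
    ∀ᶠ x : ℝ in atTop, ∀ h : ℝ, 0 ≤ h → h ≤ x ^ ε →
    Real.log (2 * x) * h ≤ x ^ (1 / 10 : ℝ) ∧
      Real.log (2 * x) * (h + x ^ (1 / 3 : ℝ)) + h * Real.log (2 * x) ≤ x ^ (2 / 5 : ℝ) := by
  have h1 := fin2_log 2 (1 / 60) (1 / 3) (by norm_num) (by norm_num) (by norm_num)
  filter_upwards [h1, eventually_ge_atTop 1] with x h1 hx1
  intro h hh0 hh
  have hx0 : 0 < x := by linarith
  have hmono : ∀ a b : ℝ, a ≤ b → x ^ a ≤ x ^ b := fun a b hab =>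
    Real.rpow_le_rpow_of_exponent_le hx1 hab
  have hl0 : 0 ≤ Real.log (2 * x) := Real.log_nonneg (by linarith)
  have h3 : h ≤ x ^ (1 / 50 : ℝ) := hh.trans (hmono _ _ hε2)
  have h4 : h ≤ x ^ (1 / 3 : ℝ) := h3.trans (hmono _ _ (by norm_num))
  constructor
  · calc Real.log (2 * x) * h ≤ (1 / 3 * x ^ (1 / 60 : ℝ)) * x ^ (1 / 50 : ℝ) :=
          mul_le_mul h1 h3 hh0 (by positivity)
      _ = 1 / 3 * x ^ (1 / 60 + 1 / 50 : ℝ) := by
          rw [Real.rpow_add hx0]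
          ring
      _ ≤ 1 * x ^ (1 / 10 : ℝ) :=
          mul_le_mul (by norm_num) (hmono _ _ (by norm_num)) (by positivity) (by norm_num)
      _ = _ := one_mul _
  · calc Real.log (2 * x) * (h + x ^ (1 / 3 : ℝ)) + h * Real.log (2 * x)
        = Real.log (2 * x) * (2 * h + x ^ (1 / 3 : ℝ)) := by ring
      _ ≤ (1 / 3 * x ^ (1 / 60 : ℝ)) * (3 * x ^ (1 / 3 : ℝ)) :=
          mul_le_mul h1 (by linarith) (by positivity) (by positivity)
      _ = x ^ (1 / 60 + 1 / 3 : ℝ) := by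
          rw [Real.rpow_add hx0]
          ring
      _ ≤ x ^ (2 / 5 : ℝ) := hmono _ _ (by norm_num)

private theorem fin2_num3 (ε η c : ℝ) (hε2 : ε ≤ 1 / 50) (hη : 0 < η) (hη1 : η ≤ 1)
    (hc : 0 < c) :
    ∀ᶠ x : ℝ in atTop, 1 ≤ Real.log x ∧ Real.log (2 * x) ^ 2 ≤ (1 + η) * Real.log x ^ 2 ∧
      (1 + 1 / η) * x ^ (4 * ε) ≤ x ∧ 1 ≤ η * (c * x) := by
  have h1 := Real.tendsto_log_atTop.eventually_ge_atTop (3 * Real.log 2 / η)
  have h2 := (tendsto_rpow_atTop (show (0 : ℝ) < 1 / 2 by norm_num)).eventually_ge_atTop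
    (1 + 1 / η)
  have h3 := Real.tendsto_log_atTop.eventually_ge_atTop 1
  filter_upwards [h1, h2, h3, eventually_ge_atTop (1 / (η * c)), eventually_ge_atTop 1] with
    x h1 h2 h3 h4 hx1
  have hx0 : 0 < x := by linarith
  refine ⟨h3, ?_, ?_, ?_⟩
  · rw [div_le_iff₀ hη] at h1
    rw [Real.log_mul (by norm_num) hx0.ne']
    have hl2 : 0 ≤ Real.log 2 := Real.log_nonneg (by norm_num)
    have h5 : Real.log 2 + Real.log x ≤ (1 + η / 3) * Real.log x := by linarith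
    calc (Real.log 2 + Real.log x) ^ 2 ≤ ((1 + η / 3) * Real.log x) ^ 2 :=
          pow_le_pow_left₀ (by linarith) h5 2
      _ = (1 + η / 3) ^ 2 * Real.log x ^ 2 := by ring
      _ ≤ (1 + η) * Real.log x ^ 2 := by
          refine mul_le_mul_of_nonneg_right ?_ (sq_nonneg _)
          nlinarith
  · have h5 : x ^ (4 * ε) ≤ x ^ (1 / 2 : ℝ) :=
      Real.rpow_le_rpow_of_exponent_le hx1 (by linarith)
    calc (1 + 1 / η) * x ^ (4 * ε) ≤ x ^ (1 / 2 : ℝ) * x ^ (1 / 2 : ℝ) :=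
          mul_le_mul h2 h5 (by positivity) (by positivity)
      _ = x := by
          rw [← Real.rpow_add hx0]
          norm_num
  · rw [div_le_iff₀ (by positivity)] at h4
    linarith

private theorem fin2_clip (p q t : ℝ) (hp0 : 0 ≤ p) (hp : p ≤ q) :
    |p - max 0 (min t q)| ≤ |p - t| := by
  rcases le_total t 0 with h | h
  · have h1 : min t q = t := min_eq_left (h.trans (hp0.trans hp))
    rw [h1, max_eq_left h, sub_zero, abs_of_nonneg hp0, abs_of_nonneg (by linarith)]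
    linarith
  · rcases le_total t q with h2 | h2
    · rw [min_eq_left h2, max_eq_right h]
    · rw [min_eq_right h2, max_eq_right (hp0.trans hp),
        abs_of_nonpos (by linarith), abs_of_nonpos (by linarith)]
      linarith

private theorem fin2_term {ε η x G : ℝ} {n h : ℕ} {Mn fn : ℝ} (hη0 : 0 < η) (hx1 : 1 ≤ x)
    (hXn : x < n) (hn2 : (n : ℝ) ≤ 2 * x) (hhG : (h : ℝ) ≤ G) (hG : G ≤ x ^ ε)
    (hx4 : (1 + 1 / η) * x ^ (4 * ε) ≤ x) (hfn : fn = Real.log n * max 0 (min Mn G)) :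
    (PH h n - fn) ^ 2 ≤ 1 / x + (1 + η) * Real.log (2 * x) ^ 2 *
      ((((Finset.Ioc n (n + h)).filter Nat.Prime).card : ℝ) - Mn) ^ 2 := by
  have hx0 : 0 < x := by linarith
  have hn0 : (0 : ℝ) < n := by linarith
  have hn1 : 1 ≤ n := by
    have : 0 < n := by exact_mod_cast hn0
    exact this
  have hlog2x : 0 ≤ Real.log (2 * x) := Real.log_nonneg (by linarith)
  obtain ⟨π, hπ⟩ : ∃ π : ℝ, π = (((Finset.Ioc n (n + h)).filter Nat.Prime).card : ℝ) :=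
    ⟨_, rfl⟩
  rw [← hπ]
  have hπ0 : 0 ≤ π := by
    rw [hπ]
    exact Nat.cast_nonneg _
  have hπH : π ≤ G := by
    have h1 : ((Finset.Ioc n (n + h)).filter Nat.Prime).card ≤ h := by
      refine (Finset.card_filter_le _ _).trans ?_
      rw [Nat.card_Ioc]
      omega
    rw [hπ]
    refine le_trans ?_ hhG
    exact_mod_cast h1
  have h1 := PH_near h n hn1
  rw [← hπ] at h1
  have h2 := fin2_clip π G Mn hπ0 hπH
  have hlogn0 : 0 ≤ Real.log n := Real.log_nonneg (by linarith)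
  have hlogn : Real.log n ≤ Real.log (2 * x) := Real.log_le_log hn0 hn2
  have h3 : |PH h n - fn| ≤ (h : ℝ) ^ 2 / n + Real.log (2 * x) * |π - Mn| := by
    have e : PH h n - fn = (PH h n - Real.log n * π) +
        Real.log n * (π - max 0 (min Mn G)) := by
      rw [hfn]; ring
    rw [e]
    refine (abs_add_le _ _).trans ?_
    rw [abs_mul, abs_of_nonneg hlogn0]
    refine add_le_add h1 ?_
    exact mul_le_mul hlogn h2 (abs_nonneg _) hlog2x
  have h4 : (1 + 1 / η) * ((h : ℝ) ^ 2 / n) ^ 2 ≤ 1 / x := by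
    have h5 : (h : ℝ) ≤ x ^ ε := hhG.trans hG
    have h6 : (h : ℝ) ^ 4 ≤ x ^ (4 * ε) := by
      calc (h : ℝ) ^ 4 ≤ (x ^ ε) ^ 4 :=
            pow_le_pow_left₀ (Nat.cast_nonneg _) h5 4
        _ = x ^ (4 * ε) := by
            rw [← Real.rpow_natCast, ← Real.rpow_mul hx0.le]
            congr 1
            push_cast
            ring
    have h7 : (1 + 1 / η) * ((h : ℝ) ^ 2 / n) ^ 2 =
        (1 + 1 / η) * (h : ℝ) ^ 4 / (n : ℝ) ^ 2 := by
      rw [div_pow]; ring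
    rw [h7, div_le_div_iff₀ (by positivity) hx0, one_mul]
    have h8 : x ^ 2 ≤ (n : ℝ) ^ 2 := pow_le_pow_left₀ hx0.le hXn.le 2
    have h9 : (1 + 1 / η) * (h : ℝ) ^ 4 ≤ x :=
      (mul_le_mul_of_nonneg_left h6 (by positivity)).trans hx4
    have h10 : (1 + 1 / η) * (h : ℝ) ^ 4 * x ≤ x * x :=
      mul_le_mul_of_nonneg_right h9 hx0.le
    linarith [sq x]
  obtain ⟨a, ha⟩ : ∃ a : ℝ, a = (h : ℝ) ^ 2 / n := ⟨_, rfl⟩
  obtain ⟨b, hb⟩ : ∃ b : ℝ, b = Real.log (2 * x) * |π - Mn| := ⟨_, rfl⟩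
  rw [← ha] at h3 h4
  rw [← hb] at h3
  have h5 : (PH h n - fn) ^ 2 ≤ (a + b) ^ 2 := by
    rw [← sq_abs]
    exact pow_le_pow_left₀ (abs_nonneg _) h3 2
  have h6 : (a + b) ^ 2 ≤ (1 + 1 / η) * a ^ 2 + (1 + η) * b ^ 2 := by
    have h7 : (1 + 1 / η) * a ^ 2 + (1 + η) * b ^ 2 - (a + b) ^ 2 =
        (a - η * b) ^ 2 / η := by
      field_simp
      ring
    have h8 : 0 ≤ (a - η * b) ^ 2 / η := by positivity
    linarith
  have h7 : b ^ 2 = Real.log (2 * x) ^ 2 * (π - Mn) ^ 2 := by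
    rw [hb, mul_pow, sq_abs]
  rw [h7] at h6
  linarith

private theorem fin2_alg (η a b : ℝ) (hη : 0 < η) (ha : 1 ≤ η * a)
    (h : (1 - 5 * η) ^ 2 * a ≤ (1 + 2 * η) * (1 + η) * (1 + (1 + η) ^ 2 * b)) :
    (1 - 20 * η) * a ≤ b := by
  by_contra hlt
  push Not at hlt
  have ha0 : 0 < a := by
    by_contra h0
    push Not at h0
    nlinarith
  have h1 : (1 + η) ^ 2 * b < (1 + η) ^ 2 * ((1 - 20 * η) * a) :=
    mul_lt_mul_of_pos_left hlt (by positivity)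
  have h2 : 1 + (1 + η) ^ 2 * b < (η + (1 + η) ^ 2 * (1 - 20 * η)) * a := by
    have : (η + (1 + η) ^ 2 * (1 - 20 * η)) * a =
        η * a + (1 + η) ^ 2 * ((1 - 20 * η) * a) := by ring
    rw [this]
    linarith
  have h3 : (1 + 2 * η) * (1 + η) * (1 + (1 + η) ^ 2 * b) <
      (1 + 2 * η) * (1 + η) * ((η + (1 + η) ^ 2 * (1 - 20 * η)) * a) :=
    mul_lt_mul_of_pos_left h2 (by positivity)
  have h4 : (1 + 2 * η) * (1 + η) * (η + (1 + η) ^ 2 * (1 - 20 * η)) ≤ (1 - 5 * η) ^ 2 := by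
    have : (1 - 5 * η) ^ 2 - (1 + 2 * η) * (1 + η) * (η + (1 + η) ^ 2 * (1 - 20 * η)) =
        4 * η + 113 * η ^ 2 + 171 * η ^ 3 + 138 * η ^ 4 + 40 * η ^ 5 := by ring
    have h5 : 0 ≤ 4 * η + 113 * η ^ 2 + 171 * η ^ 3 + 138 * η ^ 4 + 40 * η ^ 5 := by positivity
    linarith
  have h5 := mul_le_mul_of_nonneg_right h4 ha0.le
  linarith

private theorem fin2_mono_tv (f : ℕ → ℝ) (F : ℝ) (hf : Monotone f) (hf0 : ∀ n, 0 ≤ f n)
    (hF : ∀ n, f n ≤ F) (m n : ℕ) : ∑ k ∈ Ico m n, |f (k + 1) - f k| ≤ F := by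
  rcases Nat.lt_or_ge n m with hnm | hmn
  · rw [Ico_eq_empty_of_le hnm.le, sum_empty]
    exact (hf0 0).trans (hF 0)
  have h1 : ∑ k ∈ Ico m n, |f (k + 1) - f k| = ∑ k ∈ Ico m n, (f (k + 1) - f k) := by
    refine Finset.sum_congr rfl fun k _ => ?_
    exact abs_of_nonneg (sub_nonneg.2 (hf (Nat.le_succ k)))
  rw [h1, Finset.sum_Ico_sub f hmn]
  linarith [hf0 m, hF n]

theorem final2 : ∃ c C : ℝ, 0 < c ∧ 0 < C ∧ ∀ ε : ℝ, 0 < ε → ε ≤ 1 / 50 →
    ∃ X₀ : ℕ, ∀ X : ℕ, X₀ ≤ X → ∀ H : ℕ → ℕ,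
    MonotoneOn H (Set.Icc X (2 * X)) → 1 ≤ H X → (H (2 * X) : ℝ) ≤ (X : ℝ) ^ ε → ∀ M : ℕ → ℝ,
    (MonotoneOn M (Set.Icc X (2 * X)) ∨ AntitoneOn M (Set.Icc X (2 * X)) ∨
      ∑ n ∈ Finset.Ico X (2 * X), |M (n + 1) - M n| ≤ (X : ℝ) ^ (1 / 3 : ℝ)) →
    max c (1 / 2 - C * ε) * X * H X / Real.log X ≤ ∑ n ∈ Finset.Ioc X (2 * X),
      ((((Finset.Ioc n (n + H n)).filter Nat.Prime).card : ℝ) - M n) ^ 2 := by
  obtain ⟨c0, C0, hc0, hC0, hSv⟩ := Sv_lower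
  refine ⟨c0 / 2, C0 + 1, by positivity, by positivity, fun ε hε hε2 => ?_⟩
  obtain ⟨η, hη⟩ : ∃ η : ℝ, η = ε / 20 := ⟨_, rfl⟩
  have hη0 : 0 < η := by
    rw [hη]
    positivity
  have hη1 : η ≤ 1 / 1000 := by
    rw [hη]
    linarith
  obtain ⟨μ, hμ⟩ : ∃ μ : ℝ, μ = max c0 (1 / 2 - C0 * ε) := ⟨_, rfl⟩
  have hμ0 : c0 ≤ μ := by
    rw [hμ]
    exact le_max_left _ _
  have hμpos : 0 < μ := hc0.trans_le hμ0
  have hcC : max (c0 / 2) (1 / 2 - (C0 + 1) * ε) ≤ (1 - 20 * η) * μ := by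
    have e1 : 1 - 20 * η = 1 - ε := by
      rw [hη]
      ring
    rw [e1]
    apply max_le
    · nlinarith
    · have h1 : 1 / 2 - C0 * ε ≤ μ := by
        rw [hμ]
        exact le_max_right _ _
      have h2 : (1 - ε) * (1 / 2 - C0 * ε) ≤ (1 - ε) * μ :=
        mul_le_mul_of_nonneg_left h1 (by linarith)
      have h3 : (1 - ε) * (1 / 2 - C0 * ε) = 1 / 2 - C0 * ε - ε / 2 + C0 * ε ^ 2 := by ring
      have h4 : 0 ≤ C0 * ε ^ 2 := by positivity
      linarith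
  have hev : ∀ᶠ X : ℕ in atTop, ∀ H : ℕ → ℕ,
      MonotoneOn H (Set.Icc X (2 * X)) → 1 ≤ H X → (H (2 * X) : ℝ) ≤ (X : ℝ) ^ ε → ∀ M : ℕ → ℝ,
      (MonotoneOn M (Set.Icc X (2 * X)) ∨ AntitoneOn M (Set.Icc X (2 * X)) ∨
        ∑ n ∈ Finset.Ico X (2 * X), |M (n + 1) - M n| ≤ (X : ℝ) ^ (1 / 3 : ℝ)) →
      max (c0 / 2) (1 / 2 - (C0 + 1) * ε) * X * H X / Real.log X ≤ ∑ n ∈ Finset.Ioc X (2 * X),
        ((((Finset.Ioc n (n + H n)).filter Nat.Prime).card : ℝ) - M n) ^ 2 := by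
    have hnat := tendsto_natCast_atTop_atTop (R := ℝ)
    filter_upwards [hnat.eventually (window2 ε η hε hε2 hη0 (by linarith)),
      hnat.eventually (theta_total2 η hη0 (by linarith)), hnat.eventually (hSv ε hε hε2),
      hnat.eventually (fin2_par ε η hε hε2 hη0),
      hnat.eventually (fin2_num ε η hε hε2 hη0), hnat.eventually (fin2_num2 ε hε hε2),
      hnat.eventually (fin2_num3 ε η c0 hε2 hη0 (by linarith) hc0), eventually_ge_atTop 10] with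
      X hwX htX hSX hpX hnX hn2X hn3X hX10
    intro H hH hH1 hH3 M hM
    obtain ⟨hJ1, hJ2, hd1, hd2, hd3, hd4⟩ := hpX
    obtain ⟨x, hx⟩ : ∃ x : ℝ, x = (X : ℝ) := ⟨_, rfl⟩
    rw [← hx] at hJ1 hJ2 hd1 hd2 hd3 hd4 hSX hnX hn2X hn3X
    have hx10 : (10 : ℝ) ≤ x := by rw [hx]; exact_mod_cast hX10
    have hx0 : 0 < x := by linarith
    obtain ⟨J, hJ⟩ : ∃ J : ℕ, J = fin2J ε x := ⟨_, rfl⟩
    rw [← hJ] at hJ1 hJ2 hd1 hd2 hd3 hd4
    obtain ⟨δ, hδ⟩ : ∃ δ : ℝ, δ = Real.log 2 / J := ⟨_, rfl⟩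
    rw [← hδ] at hd1 hd2 hd3 hd4
    have hJpos : (0 : ℝ) < J := by exact_mod_cast hJ1
    have hJδ : (J : ℝ) * δ = Real.log 2 := by rw [hδ]; field_simp
    have hδ0 : 0 < δ := by
      rw [hδ]
      exact div_pos (Real.log_pos (by norm_num)) hJpos
    obtain ⟨hnu1, hnu2⟩ := hnX δ J hδ0.le hd2 hJ2
    obtain ⟨hlogpos, hlog2, hx4, hcx⟩ := hn3X
    rw [← hμ] at hSX
    have hS0 : 0 ≤ Sv ε x := le_trans (by positivity) hSX
    -- the clipped function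
    obtain ⟨G, hG⟩ : ∃ G : ℝ, G = (H (2 * X) : ℝ) := ⟨_, rfl⟩
    rw [← hG] at hH3
    have hG0 : 0 ≤ G := by
      rw [hG]
      exact Nat.cast_nonneg _
    rw [← hx] at hH3
    have hclmem : ∀ n : ℕ, max X (min n (2 * X)) ∈ Set.Icc X (2 * X) := by
      intro n
      refine ⟨le_max_left _ _, max_le (by omega) (min_le_right _ _)⟩
    have hclid : ∀ n ∈ Ioc X (2 * X), max X (min n (2 * X)) = n := by
      intro n hn
      rw [mem_Ioc] at hn
      rw [min_eq_left hn.2, max_eq_right hn.1.le]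
    obtain ⟨fl, hfl⟩ : ∃ fl : ℕ → ℝ, ∀ n, fl n =
        Real.log ((max X (min n (2 * X)) : ℕ) : ℝ) := ⟨_, fun _ => rfl⟩
    obtain ⟨fg, hfg⟩ : ∃ fg : ℕ → ℝ, ∀ n, fg n =
        max 0 (min (M (max X (min n (2 * X)))) G) := ⟨_, fun _ => rfl⟩
    have hclx : ∀ n : ℕ, x ≤ ((max X (min n (2 * X)) : ℕ) : ℝ) ∧
        ((max X (min n (2 * X)) : ℕ) : ℝ) ≤ 2 * x := by
      intro n
      obtain ⟨h1, h2⟩ := hclmem n
      constructor
      · rw [hx]; exact_mod_cast h1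
      · rw [hx]; exact_mod_cast h2
    have hflmono : Monotone fl := by
      intro m n hmn
      rw [hfl, hfl]
      apply Real.log_le_log
      · exact lt_of_lt_of_le hx0 (hclx m).1
      · have h1 : max X (min m (2 * X)) ≤ max X (min n (2 * X)) :=
          max_le_max le_rfl (min_le_min hmn le_rfl)
        exact_mod_cast h1
    have hfl0 : ∀ n, 0 ≤ fl n := fun n => by
      rw [hfl]
      exact Real.log_nonneg (by linarith [(hclx n).1])
    have hflF : ∀ n, fl n ≤ Real.log (2 * x) := fun n => by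
      rw [hfl]
      exact Real.log_le_log (lt_of_lt_of_le hx0 (hclx n).1) (hclx n).2
    have hfg0 : ∀ n, 0 ≤ fg n := fun n => by
      rw [hfg]
      exact le_max_left _ _
    have hfgG : ∀ n, fg n ≤ G := fun n => by
      rw [hfg]
      exact max_le hG0 (min_le_right _ _)
    have hlog2x : 0 ≤ Real.log (2 * x) := Real.log_nonneg (by linarith)
    obtain ⟨hFG1, hFG2⟩ := hn2X G hG0 hH3
    obtain ⟨f, hf⟩ : ∃ f : ℕ → ℝ, ∀ n, f n = fl n * fg n := ⟨_, fun _ => rfl⟩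
    have hfbd : ∀ n, |f n| ≤ x ^ (1 / 10 : ℝ) := by
      intro n
      rw [hf, abs_of_nonneg (mul_nonneg (hfl0 n) (hfg0 n))]
      exact (mul_le_mul (hflF n) (hfgG n) (hfg0 n) hlog2x).trans hFG1
    have hftv : ∀ m n : ℕ, ∑ k ∈ Ico m n, |f (k + 1) - f k| ≤ x ^ (2 / 5 : ℝ) := by
      intro m n
      have h1 := fin2_mono_tv fl (Real.log (2 * x)) hflmono hfl0 hflF m n
      have hT : 0 ≤ (X : ℝ) ^ (1 / 3 : ℝ) := by positivity
      have h2 := clip_tv X M G ((X : ℝ) ^ (1 / 3 : ℝ)) hG0 hT hM m n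
      have h3 : ∑ k ∈ Ico m n, |fg (k + 1) - fg k| ≤ G + x ^ (1 / 3 : ℝ) := by
        rw [hx]
        refine le_trans (le_of_eq ?_) h2
        refine Finset.sum_congr rfl fun k _ => ?_
        rw [hfg, hfg]
      have h4 := prod_tv fl fg (Real.log (2 * x)) G (Real.log (2 * x)) (G + x ^ (1 / 3 : ℝ))
        (fun n => by rw [abs_of_nonneg (hfl0 n)]; exact hflF n)
        (fun n => by rw [abs_of_nonneg (hfg0 n)]; exact hfgG n) m n h1 h3
      refine le_trans (le_of_eq ?_) (h4.trans hFG2)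
      refine Finset.sum_congr rfl fun k _ => ?_
      rw [hf, hf]
    have hH3' := hH3
    rw [hx] at hd1 hd4 hS0 hnu1 hnu2 hH3 hfbd hftv
    rw [hG] at hH3
    have hT := fin2_T X ε η (Sv ε X) hS0 hη0 (by linarith) (by omega) J δ hJ1 hJδ hδ0 hd1 hd3 hd4
      hwX htX hnu1 hnu2 H hH hH1 hH3 f hfbd hftv
    rw [← hx] at hT
    obtain ⟨T, hTdef⟩ : ∃ T : ℝ, T = ∑ n ∈ Ioc X (2 * X), (PH (H n) n - f n) ^ 2 := ⟨_, rfl⟩
    obtain ⟨S, hS⟩ : ∃ S : ℝ, S = ∑ n ∈ Finset.Ioc X (2 * X),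
        ((((Finset.Ioc n (n + H n)).filter Nat.Prime).card : ℝ) - M n) ^ 2 := ⟨_, rfl⟩
    rw [← hTdef] at hT
    rw [← hS, ← hx]
    have hHX1 : (1 : ℝ) ≤ H X := by exact_mod_cast hH1
    obtain ⟨u, hu⟩ : ∃ u : ℝ, u = Real.log x := ⟨_, rfl⟩
    rw [← hu] at hlogpos hSX hlog2 ⊢
    -- T against S
    have hterm : ∀ n ∈ Ioc X (2 * X), (PH (H n) n - f n) ^ 2 ≤
        1 / x + (1 + η) * Real.log (2 * x) ^ 2 *
          ((((Finset.Ioc n (n + H n)).filter Nat.Prime).card : ℝ) - M n) ^ 2 := by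
      intro n hn
      have hn' := mem_Ioc.1 hn
      have hXn : x < n := by rw [hx]; exact_mod_cast hn'.1
      have hn2 : (n : ℝ) ≤ 2 * x := by rw [hx]; exact_mod_cast hn'.2
      have hnIcc : n ∈ Set.Icc X (2 * X) := ⟨hn'.1.le, hn'.2⟩
      have hHn : H n ≤ H (2 * X) := hH hnIcc ⟨by omega, le_rfl⟩ hn'.2
      have hfn : f n = Real.log n * max 0 (min (M n) G) := by
        rw [hf, hfl, hfg, hclid n hn]
      refine fin2_term hη0 (by linarith) hXn hn2 ?_ hH3' hx4 hfn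
      rw [hG]
      exact_mod_cast hHn
    have hT3 : T ≤ 1 + (1 + η) * Real.log (2 * x) ^ 2 * S := by
      rw [hTdef, hS]
      refine (Finset.sum_le_sum hterm).trans ?_
      rw [Finset.sum_add_distrib, Finset.sum_const, Nat.card_Ioc, nsmul_eq_mul, ← Finset.mul_sum]
      have h1 : ((2 * X - X : ℕ) : ℝ) * (1 / x) = 1 := by
        have : 2 * X - X = X := by omega
        rw [this, ← hx]
        field_simp
      rw [h1]
    have hS0' : 0 ≤ S := by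
      rw [hS]
      exact Finset.sum_nonneg fun n _ => sq_nonneg _
    have hT4 : T ≤ 1 + (1 + η) ^ 2 * (u ^ 2 * S) := by
      have h1 : (1 + η) * Real.log (2 * x) ^ 2 * S ≤ (1 + η) * ((1 + η) * u ^ 2) * S := by
        refine mul_le_mul_of_nonneg_right ?_ hS0'
        exact mul_le_mul_of_nonneg_left hlog2 (by linarith)
      calc T ≤ _ := hT3
        _ ≤ 1 + (1 + η) * ((1 + η) * u ^ 2) * S := by linarith
        _ = _ := by ring
    have hu0 : 0 < u := by linarith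
    obtain ⟨a, ha⟩ : ∃ a : ℝ, a = H X * μ * x * u := ⟨_, rfl⟩
    have hmain : (1 - 5 * η) ^ 2 * a ≤ (1 + 2 * η) * (1 + η) * (1 + (1 + η) ^ 2 * (u ^ 2 * S)) := by
      have h1 : x * ((1 - 5 * η) ^ 2 * a) ≤ x * ((1 + 2 * η) * (1 + η) * T) := by
        calc x * ((1 - 5 * η) ^ 2 * a) = H X * (μ * u) * ((1 - 5 * η) * x) ^ 2 := by
              rw [ha]; ring
          _ ≤ H X * Sv ε x * ((1 - 5 * η) * x) ^ 2 := by
              refine mul_le_mul_of_nonneg_right ?_ (sq_nonneg _)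
              exact mul_le_mul_of_nonneg_left hSX (by linarith)
          _ ≤ _ := hT
          _ = _ := by ring
      have h2 := le_of_mul_le_mul_left h1 hx0
      refine h2.trans ?_
      exact mul_le_mul_of_nonneg_left hT4 (by positivity)
    have ha1 : 1 ≤ η * a := by
      refine hcx.trans ?_
      refine mul_le_mul_of_nonneg_left ?_ hη0.le
      rw [ha]
      have h1 : c0 * x ≤ μ * x := mul_le_mul_of_nonneg_right hμ0 hx0.le
      have h2 : 1 ≤ (H X : ℝ) * u := by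
        calc (1 : ℝ) = 1 * 1 := (one_mul 1).symm
          _ ≤ H X * u := mul_le_mul hHX1 hlogpos zero_le_one (by linarith)
      have h3 : μ * x * 1 ≤ μ * x * (H X * u) :=
        mul_le_mul_of_nonneg_left h2 (by positivity)
      calc c0 * x ≤ μ * x * 1 := by linarith
        _ ≤ μ * x * (H X * u) := h3
        _ = _ := by ring
    have hfin := fin2_alg η a (u ^ 2 * S) hη0 ha1 hmain
    rw [div_le_iff₀ hu0]
    have h1 : u * (max (c0 / 2) (1 / 2 - (C0 + 1) * ε) * x * H X) ≤ u * (S * u) := by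
      calc u * (max (c0 / 2) (1 / 2 - (C0 + 1) * ε) * x * H X)
          = max (c0 / 2) (1 / 2 - (C0 + 1) * ε) * (u * x * H X) := by ring
        _ ≤ ((1 - 20 * η) * μ) * (u * x * H X) :=
            mul_le_mul_of_nonneg_right hcC (by positivity)
        _ = (1 - 20 * η) * a := by rw [ha]; ring
        _ ≤ u ^ 2 * S := hfin
        _ = _ := by ring
    exact le_of_mul_le_mul_left h1 hu0
  obtain ⟨X₀, hX₀⟩ := eventually_atTop.1 hev
  exact ⟨X₀, hX₀⟩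

end Pool.Agent.H67.VT
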