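import Pool.Agent.H67.VT.Defs
import Pool.Agent.H21.MT.Abel

/-!
[H67 VT FP]  Functions of bounded variation do not see the test function.

Proof.  As in `Pool/Agent/H67/VS/Fp.lean`.  Abel summation (`H21.MT.abel_le` with `a = gg`, `g = v`): it is
enough that `|∑_{A < x ≤ t} gg x| ≤ 3 H K LL` for all `t`.  Expand: `∑_h ∑_q ∑_{d ≤ D/q} ρ_q(d)/(q-1) ∑_x
[d ∣ x+h] (1 - q [q ∣ x+h])`; `d` is coprime to `q` when `ρ_q(d) ≠ 0`, so `[d ∣ .][q ∣ .] = [dq ∣ .]` and the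
inner sum is `N_d - q N_{dq}`, `|N_m - N/m| ≤ 1` (`H21.MT.ap_count`): absolute value
`≤ 1 + q ≤ 3 (q-1)`.  `∑_d |ρ_q(d)| ≤ (D/q) K`.
-/

namespace Pool.Agent.H67.VT

open Finset Pool.Agent.H67.VS

private theorem fp_count (A t m h : ℕ) (hm : 0 < m) :
    |(∑ x ∈ Ioc A t, if (m : ℤ) ∣ (x : ℤ) + (h : ℤ) then (1 : ℝ) else 0) -
      ((Ioc A t).card : ℝ) / m| ≤ 1 := by
  have h1 := Pool.Agent.H21.MT.ap_count A t m ((m - 1) * h) hm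
  have h2 : (∑ x ∈ Ioc A t, if (m : ℤ) ∣ (x : ℤ) + (h : ℤ) then (1 : ℝ) else 0) =
      (((Ioc A t).filter (fun j => j % m = ((m - 1) * h) % m)).card : ℝ) := by
    rw [← sum_filter, sum_const, nsmul_eq_mul, mul_one]
    congr 2
    ext x
    rw [mem_filter, mem_filter]
    refine and_congr_right fun _ => ?_
    have h3 : (m : ℤ) ∣ (x : ℤ) + (h : ℤ) ↔ m ∣ x + h := by
      rw [← Nat.cast_add]
      exact Int.natCast_dvd_natCast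
    rw [h3]
    have h4 : (m - 1) * h + h = m * h := by
      obtain ⟨m', rfl⟩ := Nat.exists_eq_succ_of_ne_zero hm.ne'
      simp
      ring
    constructor
    · intro h5
      have h6 : x + h ≡ (m - 1) * h + h [MOD m] := by
        rw [h4]
        exact ((Nat.modEq_zero_iff_dvd.2 h5).trans
          (Nat.modEq_zero_iff_dvd.2 (Dvd.intro _ rfl)).symm)
      exact Nat.ModEq.add_right_cancel' h h6
    · intro h5
      have h6 : x + h ≡ (m - 1) * h + h [MOD m] := Nat.ModEq.add_right h h5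
      rw [h4] at h6
      exact Nat.modEq_zero_iff_dvd.1 (h6.trans (Nat.modEq_zero_iff_dvd.2 (Dvd.intro _ rfl)))
  rw [h2]
  exact h1

private theorem fp_inner (A t h d q : ℕ) (hd : 0 < d) (hq : 2 ≤ q) :
    |∑ x ∈ Ioc A t, ((if (d : ℤ) ∣ (x : ℤ) + (h : ℤ) then (1 : ℝ) else 0) -
        (q : ℝ) * (if ((d * q : ℕ) : ℤ) ∣ (x : ℤ) + (h : ℤ) then (1 : ℝ) else 0))| ≤
      3 * ((q : ℝ) - 1) := by
  have hq0 : 0 < q := by omega
  have h1 := fp_count A t d h hd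
  have h2 := fp_count A t (d * q) h (Nat.mul_pos hd hq0)
  have hq' : (2 : ℝ) ≤ q := by exact_mod_cast hq
  have hd' : (0 : ℝ) < d := by exact_mod_cast hd
  rw [sum_sub_distrib, ← mul_sum]
  obtain ⟨N₁, hN₁⟩ : ∃ N : ℝ, N = ∑ x ∈ Ioc A t, if (d : ℤ) ∣ (x : ℤ) + (h : ℤ) then (1 : ℝ) else 0 :=
    ⟨_, rfl⟩
  obtain ⟨N₂, hN₂⟩ : ∃ N : ℝ, N = ∑ x ∈ Ioc A t,
    if ((d * q : ℕ) : ℤ) ∣ (x : ℤ) + (h : ℤ) then (1 : ℝ) else 0 := ⟨_, rfl⟩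
  rw [← hN₁] at h1 ⊢
  rw [← hN₂] at h2 ⊢
  obtain ⟨c, hc⟩ : ∃ c : ℝ, c = ((Ioc A t).card : ℝ) / d := ⟨_, rfl⟩
  have h3 : ((Ioc A t).card : ℝ) / ((d * q : ℕ) : ℝ) = c / q := by
    rw [hc]
    push_cast
    rw [div_div]
  rw [h3] at h2
  rw [← hc] at h1
  have h4 : N₁ - q * N₂ = (N₁ - c) - q * (N₂ - c / q) := by
    have : (q : ℝ) ≠ 0 := by linarith
    field_simp
    ring
  rw [h4]
  rw [abs_le] at h1 h2 ⊢
  constructor <;> nlinarith [h1.1, h1.2, h2.1, h2.2]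

private theorem fp_dvd {d q : ℕ} (hcop : Nat.Coprime d q) (m : ℤ) :
    (((d * q : ℕ) : ℤ) ∣ m) ↔ ((d : ℤ) ∣ m ∧ (q : ℤ) ∣ m) := by
  constructor
  · intro h
    rw [Nat.cast_mul] at h
    exact ⟨(Dvd.intro _ rfl).trans h, (Dvd.intro_left _ rfl).trans h⟩
  · rintro ⟨h1, h2⟩
    rw [Nat.cast_mul]
    exact IsCoprime.mul_dvd (Nat.isCoprime_iff_coprime.2 hcop) h1 h2

private theorem fp_gk {L q : ℕ} {K s : ℝ} {ρ : ℕ → ℝ} (hρ : SV L q K s ρ) (hq : q.Prime)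
    (n : ℕ) (k : ℤ) :
    gk ρ L q n k = ∑ d ∈ Icc 1 L, ρ d / ((q : ℝ) - 1) *
      ((if (d : ℤ) ∣ (n : ℤ) + k then (1 : ℝ) else 0) -
        (q : ℝ) * (if ((d * q : ℕ) : ℤ) ∣ (n : ℤ) + k then (1 : ℝ) else 0)) := by
  unfold gk FF
  rw [sum_mul]
  refine sum_congr rfl fun d hd => ?_
  rw [mem_Icc] at hd
  by_cases h0 : ρ d = 0
  · rw [h0]
    simp
  have hcop : Nat.Coprime d q := by
    rw [Nat.coprime_comm, Nat.Prime.coprime_iff_not_dvd hq]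
    intro h
    have h2 := hρ.small d h0 q (Nat.mem_primeFactors.2 ⟨hq, h, by omega⟩)
    omega
  have h1 := fp_dvd hcop ((n : ℤ) + k)
  by_cases hA : (d : ℤ) ∣ (n : ℤ) + k
  · by_cases hB : (q : ℤ) ∣ (n : ℤ) + k
    · rw [if_pos hA, if_pos hB, if_pos hA, if_pos (h1.2 ⟨hA, hB⟩)]
      ring
    · rw [if_pos hA, if_neg hB, if_pos hA, if_neg (fun h => hB (h1.1 h).2)]
      ring
  · rw [if_neg hA, if_neg hA, if_neg (fun h => hA (h1.1 h).1)]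
    ring

private theorem fp_partial {D H : ℕ} {ρ : ℕ → ℕ → ℝ} {s : ℕ → ℝ} {K : ℝ} {Q : Finset ℕ}
    (A t : ℕ) (hK : 0 ≤ K) (hρ : ∀ q ∈ Q, SV (D / q) q K (s q) (ρ q))
    (hQ : ∀ q ∈ Q, q.Prime) :
    |∑ x ∈ Ioc A t, gg ρ D Q H x| ≤ 3 * H * K * LL D Q := by
  have h1 : ∑ x ∈ Ioc A t, gg ρ D Q H x = ∑ h ∈ Icc 1 H, ∑ q ∈ Q, ∑ d ∈ Icc 1 (D / q),
      ρ q d / ((q : ℝ) - 1) * ∑ x ∈ Ioc A t, ((if (d : ℤ) ∣ (x : ℤ) + (h : ℤ) then (1 : ℝ) else 0) -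
        (q : ℝ) * (if ((d * q : ℕ) : ℤ) ∣ (x : ℤ) + (h : ℤ) then (1 : ℝ) else 0)) := by
    unfold gg bq
    rw [sum_comm]
    refine sum_congr rfl fun h _ => ?_
    rw [sum_comm]
    refine sum_congr rfl fun q hq => ?_
    rw [sum_congr rfl (fun x _ => fp_gk (hρ q hq) (hQ q hq) x (h : ℤ)), sum_comm]
    refine sum_congr rfl fun d _ => ?_
    rw [mul_sum]
  rw [h1]
  refine (abs_sum_le_sum_abs _ _).trans ?_
  have h2 : ∀ h ∈ Icc 1 H, |∑ q ∈ Q, ∑ d ∈ Icc 1 (D / q),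
      ρ q d / ((q : ℝ) - 1) * ∑ x ∈ Ioc A t, ((if (d : ℤ) ∣ (x : ℤ) + (h : ℤ) then (1 : ℝ) else 0) -
        (q : ℝ) * (if ((d * q : ℕ) : ℤ) ∣ (x : ℤ) + (h : ℤ) then (1 : ℝ) else 0))| ≤
      3 * K * LL D Q := by
    intro h _
    refine (abs_sum_le_sum_abs _ _).trans ?_
    have h3 : ∀ q ∈ Q, |∑ d ∈ Icc 1 (D / q),
      ρ q d / ((q : ℝ) - 1) * ∑ x ∈ Ioc A t, ((if (d : ℤ) ∣ (x : ℤ) + (h : ℤ) then (1 : ℝ) else 0) -
        (q : ℝ) * (if ((d * q : ℕ) : ℤ) ∣ (x : ℤ) + (h : ℤ) then (1 : ℝ) else 0))| ≤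
      3 * K * ((D / q : ℕ) : ℝ) := by
      intro q hq
      refine (abs_sum_le_sum_abs _ _).trans ?_
      have hq2 : 2 ≤ q := (hQ q hq).two_le
      have hq' : (2 : ℝ) ≤ q := by exact_mod_cast hq2
      have hq1 : (0 : ℝ) < (q : ℝ) - 1 := by linarith
      have h4 : ∀ d ∈ Icc 1 (D / q), |ρ q d / ((q : ℝ) - 1) *
          ∑ x ∈ Ioc A t, ((if (d : ℤ) ∣ (x : ℤ) + (h : ℤ) then (1 : ℝ) else 0) -
        (q : ℝ) * (if ((d * q : ℕ) : ℤ) ∣ (x : ℤ) + (h : ℤ) then (1 : ℝ) else 0))| ≤ 3 * K := by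
        intro d hd
        have hd1 : 0 < d := (mem_Icc.1 hd).1
        rw [abs_mul, abs_div, abs_of_pos hq1]
        have h5 := fp_inner A t h d q hd1 hq2
        calc |ρ q d| / ((q : ℝ) - 1) * _ ≤ |ρ q d| / ((q : ℝ) - 1) * (3 * ((q : ℝ) - 1)) :=
              mul_le_mul_of_nonneg_left h5 (by positivity)
          _ = 3 * |ρ q d| := by field_simp
          _ ≤ 3 * K := mul_le_mul_of_nonneg_left ((hρ q hq).bd d) (by norm_num)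
      refine (sum_le_sum h4).trans ?_
      rw [sum_const, Nat.card_Icc, nsmul_eq_mul, Nat.add_sub_cancel]
      exact le_of_eq (by ring)
    refine (sum_le_sum h3).trans ?_
    unfold LL
    rw [mul_sum]
  refine (sum_le_sum h2).trans ?_
  rw [sum_const, Nat.card_Icc, nsmul_eq_mul, Nat.add_sub_cancel]
  exact le_of_eq (by ring)

theorem f_part2 {A B D H : ℕ} {ρ : ℕ → ℕ → ℝ} {s : ℕ → ℝ} {K : ℝ} {Q : Finset ℕ} (v : ℕ → ℝ)
    (hAB : A ≤ B) (hK : 0 ≤ K) (hρ : ∀ q ∈ Q, SV (D / q) q K (s q) (ρ q))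
    (hQ : ∀ q ∈ Q, q.Prime) :
    |∑ x ∈ Ioc A B, v x * gg ρ D Q H x| ≤
      3 * H * K * LL D Q * (|v B| + ∑ k ∈ Ioo A B, |v (k + 1) - v k|) := by
  have hLL : 0 ≤ LL D Q := sum_nonneg fun q _ => Nat.cast_nonneg _
  have h1 := Pool.Agent.H21.MT.abel_le (fun x => ((gg ρ D Q H x : ℝ) : ℂ)) v
    (3 * H * K * LL D Q) A B ?_ (by positivity) hAB
  · refine le_trans (le_of_eq ?_) h1
    have h2 : ∑ k ∈ Ioc A B, ((gg ρ D Q H k : ℝ) : ℂ) * (v k : ℂ) =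
        ((∑ x ∈ Ioc A B, v x * gg ρ D Q H x : ℝ) : ℂ) := by
      push_cast
      exact sum_congr rfl fun x _ => mul_comm _ _
    rw [h2, Complex.norm_real, Real.norm_eq_abs]
  · intro k _
    rw [← Complex.ofReal_sum, Complex.norm_real, Real.norm_eq_abs]
    exact fp_partial A k hK hρ hQ

end Pool.Agent.H67.VT
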