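import Pool.Agent.H67.VT.GsqA

/-!
[H67 VT GSQ]  The mean square of the test function, sharp constant.

Proof.  As in `Pool/Agent/H67/VS/Gsq.lean`.  `gg = ∑_q gz q`.  Off-diagonal pairs: `gz_orth2`.
Diagonal: `gz q x = (Φ - q Φ_q)/(q-1)`, `Φ = ∑_h F(x+h)`, `Φ_q = ∑_h F(x+h)[q ∣ x+h]`;
`(Φ - qΦ_q)^2 ≤ (1 + 1/η) Φ^2 + (1 + η) q^2 Φ_q^2`; `Φ^2 ≤ H ∑_h F(x+h)^2`; as `H < q` at most one `h ≤ H` has
`q ∣ x+h`, so `Φ_q^2 = ∑_h F(x+h)^2 [q ∣ x+h]`.  With `E_q = 4 (L_q K)^2`, `W = mass`: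
`∑ w gz^2 ≤ ((1+1/η) H^2 (W s + E) + (1+η) q^2 H (W s/q + E))/(q-1)^2
 = (H W s/(q-1)) ((1+1/η) H/(q-1) + (1+η) q/(q-1)) + ...`.
The hypothesis gives `(1+1/η) H/(q-1) ≤ η/2` and (as `H ≥ 1`, `η ≤ 1`) `q - 1 ≥ 4/η`, so
`(1+η) q/(q-1) = (1+η)(1 + 1/(q-1)) ≤ 1 + η + η/2`; the bracket is `≤ 1 + 2η`.  The `E` terms are
`≤ H E (1 + 2 (5/4)^2) ≤ 5 H E = 20 H (L_q K)^2`.
Total: `(1+2η) H W SS + 20 H ∑ (L_q K)^2 + 36 H^2 ∑_{q ≠ q'} (L_q K)(L_q' K) ≤ ... + 100 (H K LL)^2`.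
-/

namespace Pool.Agent.H67.VT

open Finset Pool.Agent.H67.VS

/-- pointwise bound for `gz` -/
private theorem gsq2_pt (ρ : ℕ → ℝ) (L H q x : ℕ) {η : ℝ} (hη : 0 < η) (hq : 2 ≤ q) (hHq : H < q) :
    gz ρ L H q x ^ 2 ≤ 1 / ((q : ℝ) - 1) ^ 2 *
      ((1 + 1 / η) * (H * ∑ h ∈ Icc 1 H, FF ρ L x (h : ℤ) ^ 2) +
      (1 + η) * ((q : ℝ) ^ 2 * ∑ h ∈ Icc 1 H,
        (if (q : ℤ) ∣ (x : ℤ) + (h : ℤ) then FF ρ L x (h : ℤ) ^ 2 else 0))) := by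
  have hq2 : (2 : ℝ) ≤ q := by exact_mod_cast hq
  have hq1 : (0 : ℝ) < (q : ℝ) - 1 := by linarith
  set Φ : ℝ := ∑ h ∈ Icc 1 H, FF ρ L x (h : ℤ) with hΦ
  set Φq : ℝ := ∑ h ∈ Icc 1 H, (if (q : ℤ) ∣ (x : ℤ) + (h : ℤ) then FF ρ L x (h : ℤ) else 0)
    with hΦq
  have e1 : gz ρ L H q x = (Φ - q * Φq) / ((q : ℝ) - 1) := by
    unfold gz gk
    rw [hΦ, hΦq, mul_sum, ← sum_sub_distrib, sum_div]
    refine sum_congr rfl fun h _ => ?_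
    split_ifs
    · field_simp
    · rw [sub_zero, mul_zero, sub_zero, mul_one_div]
  have e2 : Φ ^ 2 ≤ H * ∑ h ∈ Icc 1 H, FF ρ L x (h : ℤ) ^ 2 := by
    have := sq_sum_le_card_mul_sum_sq (s := Icc 1 H) (f := fun h : ℕ => FF ρ L x (h : ℤ))
    rw [Nat.card_Icc, Nat.add_sub_cancel] at this
    exact this
  have e3 : Φq ^ 2 = ∑ h ∈ Icc 1 H,
      (if (q : ℤ) ∣ (x : ℤ) + (h : ℤ) then FF ρ L x (h : ℤ) ^ 2 else 0) := by
    by_cases hex : ∃ h₀ ∈ Icc 1 H, (q : ℤ) ∣ (x : ℤ) + (h₀ : ℤ)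
    · obtain ⟨h₀, hh₀, hd₀⟩ := hex
      have huniq : ∀ h ∈ Icc 1 H, h ≠ h₀ → ¬ (q : ℤ) ∣ (x : ℤ) + (h : ℤ) := by
        intro h hh hne hd
        have h1 : (q : ℤ) ∣ (h : ℤ) - (h₀ : ℤ) := by
          have := dvd_sub hd hd₀
          have e : (x : ℤ) + (h : ℤ) - ((x : ℤ) + (h₀ : ℤ)) = (h : ℤ) - (h₀ : ℤ) := by ring
          rwa [e] at this
        rw [mem_Icc] at hh hh₀
        have h2 : (h : ℤ) - (h₀ : ℤ) = 0 := by
          apply Int.eq_zero_of_abs_lt_dvd h1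
          rw [abs_lt]
          constructor <;> omega
        apply hne
        omega
      rw [hΦq, sum_eq_single h₀, sum_eq_single h₀]
      · rw [if_pos hd₀, if_pos hd₀]
      · intro h hh hne
        rw [if_neg (huniq h hh hne)]
      · intro hh
        exact absurd hh₀ hh
      · intro h hh hne
        rw [if_neg (huniq h hh hne)]
      · intro hh
        exact absurd hh₀ hh
    · push Not at hex
      rw [hΦq, sum_eq_zero, sum_eq_zero]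
      · norm_num
      · intro h hh
        rw [if_neg (hex h hh)]
      · intro h hh
        rw [if_neg (hex h hh)]
  rw [e1, div_pow, ← e3, one_div_mul_eq_div]
  refine div_le_div_of_nonneg_right ?_ (by positivity)
  have e4 : (Φ - q * Φq) ^ 2 ≤ (1 + 1 / η) * Φ ^ 2 + (1 + η) * ((q : ℝ) ^ 2 * Φq ^ 2) := by
    have h5 : (1 + 1 / η) * Φ ^ 2 + (1 + η) * ((q : ℝ) ^ 2 * Φq ^ 2) - (Φ - q * Φq) ^ 2 =
        1 / η * (Φ + η * (q * Φq)) ^ 2 := by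
      field_simp
      ring
    have h6 : 0 ≤ 1 / η * (Φ + η * (q * Φq)) ^ 2 := by positivity
    linarith
  have h7 : 0 ≤ 1 + 1 / η := by positivity
  have h8 := mul_le_mul_of_nonneg_left e2 h7
  linarith

/-- diagonal terms -/
private theorem gsq2_diag {A B L H q : ℕ} {w ρ : ℕ → ℝ} {K s η : ℝ} (hw : Wt A B w)
    (hAB : A ≤ B) (hρ : SV L q K s ρ) (hH : 1 ≤ H) (hη : 0 < η) (hη1 : η ≤ 1) (hq : q.Prime)
    (hHq : H < q) (hb : 2 * (1 + 1 / η) * H ≤ η * ((q : ℝ) - 1)) :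
    ∑ x ∈ Ioc A B, w x * gz ρ L H q x ^ 2 ≤
      (1 + 2 * η) * (H * (s / ((q : ℝ) - 1)) * mass A B w) + 20 * H * ((L : ℝ) * K) ^ 2 := by
  have hq2 : (2 : ℝ) ≤ q := by exact_mod_cast hq.two_le
  have hq1 : (0 : ℝ) < (q : ℝ) - 1 := by linarith
  have hH1 : (1 : ℝ) ≤ H := by exact_mod_cast hH
  have hW : 0 ≤ mass A B w := sum_nonneg fun n _ => hw.nonneg n
  have hs : 0 ≤ s := hρ.nn
  have hη' : 0 < 1 / η := by positivity
  have hη1' : 1 ≤ 1 / η := by rw [le_div_iff₀ hη]; linarith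
  have h1 : ∑ x ∈ Ioc A B, w x * gz ρ L H q x ^ 2 ≤
      1 / ((q : ℝ) - 1) ^ 2 *
        ((1 + 1 / η) * (H * ∑ h ∈ Icc 1 H, ∑ x ∈ Ioc A B, w x * FF ρ L x (h : ℤ) ^ 2) +
        (1 + η) * ((q : ℝ) ^ 2 * ∑ h ∈ Icc 1 H, ∑ x ∈ Ioc A B,
        (if (q : ℤ) ∣ (x : ℤ) + (h : ℤ) then w x * FF ρ L x (h : ℤ) ^ 2 else 0))) := by
    have h2 : ∀ x ∈ Ioc A B, w x * gz ρ L H q x ^ 2 ≤
        w x * (1 / ((q : ℝ) - 1) ^ 2 *
          ((1 + 1 / η) * (H * ∑ h ∈ Icc 1 H, FF ρ L x (h : ℤ) ^ 2) +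
          (1 + η) * ((q : ℝ) ^ 2 * ∑ h ∈ Icc 1 H,
            (if (q : ℤ) ∣ (x : ℤ) + (h : ℤ) then FF ρ L x (h : ℤ) ^ 2 else 0)))) := by
      intro x _
      exact mul_le_mul_of_nonneg_left (gsq2_pt ρ L H q x hη hq.two_le hHq) (hw.nonneg x)
    refine (sum_le_sum h2).trans (le_of_eq ?_)
    rw [sum_comm (s := Icc 1 H), sum_comm (s := Icc 1 H) (t := Ioc A B)
      (f := fun h x => if (q : ℤ) ∣ (x : ℤ) + (h : ℤ) then w x * FF ρ L x (h : ℤ) ^ 2 else 0),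
      mul_sum, mul_sum, mul_sum, mul_sum, ← sum_add_distrib, mul_sum]
    refine sum_congr rfl fun x _ => ?_
    have e1 : ∑ h ∈ Icc 1 H, w x * FF ρ L x (h : ℤ) ^ 2 =
        w x * ∑ h ∈ Icc 1 H, FF ρ L x (h : ℤ) ^ 2 := by rw [mul_sum]
    have e2 : ∑ h ∈ Icc 1 H,
        (if (q : ℤ) ∣ (x : ℤ) + (h : ℤ) then w x * FF ρ L x (h : ℤ) ^ 2 else 0) =
        w x * ∑ h ∈ Icc 1 H,
          (if (q : ℤ) ∣ (x : ℤ) + (h : ℤ) then FF ρ L x (h : ℤ) ^ 2 else 0) := by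
      rw [mul_sum]
      refine sum_congr rfl fun h _ => ?_
      split_ifs
      · rfl
      · rw [mul_zero]
    rw [e1, e2]
    ring
  have h2 : ∑ h ∈ Icc 1 H, ∑ x ∈ Ioc A B, w x * FF ρ L x (h : ℤ) ^ 2 ≤
      H * (mass A B w * s + 4 * ((L : ℝ) * K) ^ 2) := by
    have h0 : ∀ h ∈ Icc 1 H, ∑ x ∈ Ioc A B, w x * FF ρ L x (h : ℤ) ^ 2 ≤
        mass A B w * s + 4 * ((L : ℝ) * K) ^ 2 := fun h _ => F_sq2 hw hAB hρ (h : ℤ)
    refine (sum_le_sum h0).trans (le_of_eq ?_)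
    rw [sum_const, Nat.card_Icc, Nat.add_sub_cancel, nsmul_eq_mul]
  have h3 : ∑ h ∈ Icc 1 H, ∑ x ∈ Ioc A B,
        (if (q : ℤ) ∣ (x : ℤ) + (h : ℤ) then w x * FF ρ L x (h : ℤ) ^ 2 else 0) ≤
      H * (mass A B w * s / q + 4 * ((L : ℝ) * K) ^ 2) := by
    have h0 : ∀ h ∈ Icc 1 H, ∑ x ∈ Ioc A B,
        (if (q : ℤ) ∣ (x : ℤ) + (h : ℤ) then w x * FF ρ L x (h : ℤ) ^ 2 else 0) ≤
        mass A B w * s / q + 4 * ((L : ℝ) * K) ^ 2 :=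
      fun h _ => F_sq_q2 hw hAB hρ hq (h : ℤ)
    refine (sum_le_sum h0).trans (le_of_eq ?_)
    rw [sum_const, Nat.card_Icc, Nat.add_sub_cancel, nsmul_eq_mul]
  refine h1.trans ?_
  set W : ℝ := mass A B w * s with hWd
  have hW0 : 0 ≤ W := mul_nonneg hW hs
  set E : ℝ := 4 * ((L : ℝ) * K) ^ 2 with hE
  have hE0 : 0 ≤ E := by positivity
  have h4 : 1 / ((q : ℝ) - 1) ^ 2 *
        ((1 + 1 / η) * (H * ∑ h ∈ Icc 1 H, ∑ x ∈ Ioc A B, w x * FF ρ L x (h : ℤ) ^ 2) +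
        (1 + η) * ((q : ℝ) ^ 2 * ∑ h ∈ Icc 1 H, ∑ x ∈ Ioc A B,
        (if (q : ℤ) ∣ (x : ℤ) + (h : ℤ) then w x * FF ρ L x (h : ℤ) ^ 2 else 0))) ≤
      1 / ((q : ℝ) - 1) ^ 2 * ((1 + 1 / η) * (H * (H * (W + E))) +
        (1 + η) * ((q : ℝ) ^ 2 * (H * (W / q + E)))) := by
    gcongr
  refine h4.trans ?_
  set u : ℝ := 1 / ((q : ℝ) - 1) with hu
  have hu0 : 0 < u := by positivity
  have huq : u * ((q : ℝ) - 1) = 1 := by rw [hu]; field_simp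
  have hv : (q : ℝ) * u = 1 + u := by
    have : (q : ℝ) * u = u * ((q : ℝ) - 1) + u := by ring
    rw [this, huq]
  have hu2 : 1 / ((q : ℝ) - 1) ^ 2 = u ^ 2 := by rw [hu, div_pow, one_pow]
  have hc1 : (1 + 1 / η) * (H * u) ≤ η / 2 := by
    have h5 : 2 * (1 + 1 / η) * H * u ≤ η * ((q : ℝ) - 1) * u :=
      mul_le_mul_of_nonneg_right hb hu0.le
    have h6 : η * ((q : ℝ) - 1) * u = η := by
      have : η * ((q : ℝ) - 1) * u = η * (u * ((q : ℝ) - 1)) := by ring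
      rw [this, huq, mul_one]
    nlinarith
  have hu4 : u ≤ η / 4 := by
    have h5 : 2 * u ≤ (1 + 1 / η) * (H * u) := by
      have h6 : u ≤ H * u := by nlinarith
      have h7 : 2 * (H * u) ≤ (1 + 1 / η) * (H * u) := by
        apply mul_le_mul_of_nonneg_right _ (by positivity)
        linarith
      linarith
    linarith
  have e3 : 1 / ((q : ℝ) - 1) ^ 2 * ((1 + 1 / η) * (H * (H * (W + E))) +
        (1 + η) * ((q : ℝ) ^ 2 * (H * (W / q + E)))) =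
      H * W * u * ((1 + 1 / η) * (H * u) + (1 + η) * (q * u)) +
      H * E * (u * ((1 + 1 / η) * (H * u)) + (1 + η) * (q * u) ^ 2) := by
    rw [hu2]
    have hq0 : (q : ℝ) ≠ 0 := by linarith
    field_simp
    ring
  have e4 : (1 + 2 * η) * (H * (s / ((q : ℝ) - 1)) * mass A B w) + 20 * H * ((L : ℝ) * K) ^ 2 =
      H * W * u * (1 + 2 * η) + H * E * 5 := by
    rw [hWd, hE, hu]
    ring
  rw [e3, e4, hv]
  have f1 : (1 + 1 / η) * (H * u) + (1 + η) * (1 + u) ≤ 1 + 2 * η := by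
    nlinarith
  have f2 : u * ((1 + 1 / η) * (H * u)) + (1 + η) * (1 + u) ^ 2 ≤ 5 := by
    have g1 : u ≤ 1 / 4 := by linarith
    have g2 : u * ((1 + 1 / η) * (H * u)) ≤ 1 / 4 * (1 / 2) := by
      have : (1 + 1 / η) * (H * u) ≤ 1 / 2 := by linarith
      exact mul_le_mul g1 this (by positivity) (by norm_num)
    have g3 : (1 + u) ^ 2 ≤ (5 / 4) ^ 2 := by
      apply pow_le_pow_left₀ (by linarith)
      linarith
    have g4 : (1 + η) * (1 + u) ^ 2 ≤ 2 * (5 / 4) ^ 2 :=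
      mul_le_mul (by linarith) g3 (by positivity) (by norm_num)
    linarith
  have g5 : 0 ≤ H * W * u := by positivity
  have g6 : 0 ≤ H * E := by positivity
  have g7 := mul_le_mul_of_nonneg_left f1 g5
  have g8 := mul_le_mul_of_nonneg_left f2 g6
  linarith

theorem g_sq2 {A B D H : ℕ} {w : ℕ → ℝ} {ρ : ℕ → ℕ → ℝ} {s : ℕ → ℝ} {K η : ℝ} {Q : Finset ℕ}
    (hw : Wt A B w) (hAB : A ≤ B) (hH : 1 ≤ H) (hη : 0 < η) (hη1 : η ≤ 1)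
    (hρ : ∀ q ∈ Q, SV (D / q) q K (s q) (ρ q))
    (hQ : ∀ q ∈ Q, q.Prime ∧ H < q ∧ 2 * (1 + 1 / η) * H ≤ η * ((q : ℝ) - 1)) :
    ∑ x ∈ Ioc A B, w x * gg ρ D Q H x ^ 2 ≤
      (1 + 2 * η) * (H * SS s Q * mass A B w) + 100 * ((H : ℝ) * K * LL D Q) ^ 2 := by
  have hH1 : (1 : ℝ) ≤ H := by exact_mod_cast hH
  have e1 : ∑ x ∈ Ioc A B, w x * gg ρ D Q H x ^ 2 =
      ∑ q ∈ Q, ∑ q' ∈ Q, ∑ x ∈ Ioc A B,
        w x * (gz (ρ q) (D / q) H q x * gz (ρ q') (D / q') H q' x) := by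
    have e2 : ∀ x ∈ Ioc A B, w x * gg ρ D Q H x ^ 2 =
        ∑ q ∈ Q, ∑ q' ∈ Q, w x * (gz (ρ q) (D / q) H q x * gz (ρ q') (D / q') H q' x) := by
      intro x _
      rw [gg_eq, sq, sum_mul_sum, mul_sum]
      refine sum_congr rfl fun q _ => ?_
      rw [mul_sum]
    rw [sum_congr rfl e2, sum_comm]
    refine sum_congr rfl fun q _ => ?_
    rw [sum_comm]
  have e2 : ∀ q ∈ Q, ∀ q' ∈ Q, ∑ x ∈ Ioc A B,
        w x * (gz (ρ q) (D / q) H q x * gz (ρ q') (D / q') H q' x) ≤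
      (if q = q' then (1 + 2 * η) * (H * (s q / ((q : ℝ) - 1)) * mass A B w) +
        20 * H * (((D / q : ℕ) : ℝ) * K) ^ 2 else 0) +
        36 * (H : ℝ) ^ 2 * (((D / q : ℕ) : ℝ) * K) * (((D / q' : ℕ) : ℝ) * K) := by
    intro q hq q' hq'
    by_cases hqq : q = q'
    · subst hqq
      rw [if_pos rfl]
      have h1 := gsq2_diag hw hAB (hρ q hq) hH hη hη1 (hQ q hq).1 (hQ q hq).2.1 (hQ q hq).2.2
      have h2 : ∑ x ∈ Ioc A B, w x * (gz (ρ q) (D / q) H q x * gz (ρ q) (D / q) H q x) =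
          ∑ x ∈ Ioc A B, w x * gz (ρ q) (D / q) H q x ^ 2 := by
        refine sum_congr rfl fun x _ => ?_
        rw [sq]
      rw [h2]
      have h3 : 0 ≤ 36 * (H : ℝ) ^ 2 * (((D / q : ℕ) : ℝ) * K) * (((D / q : ℕ) : ℝ) * K) := by
        have : 36 * (H : ℝ) ^ 2 * (((D / q : ℕ) : ℝ) * K) * (((D / q : ℕ) : ℝ) * K) =
            36 * (H : ℝ) ^ 2 * (((D / q : ℕ) : ℝ) * K) ^ 2 := by ring
        rw [this]
        positivity
      linarith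
    · rw [if_neg hqq, zero_add]
      exact (le_abs_self _).trans (gz_orth2 hw hAB (hρ q hq) (hρ q' hq') (hQ q hq).1
        (hQ q' hq').1 hqq)
  rw [e1]
  refine (sum_le_sum fun q hq => sum_le_sum fun q' hq' => e2 q hq q' hq').trans ?_
  have e3 : ∑ q ∈ Q, ∑ q' ∈ Q,
      ((if q = q' then (1 + 2 * η) * (H * (s q / ((q : ℝ) - 1)) * mass A B w) +
        20 * H * (((D / q : ℕ) : ℝ) * K) ^ 2 else 0) +
        36 * (H : ℝ) ^ 2 * (((D / q : ℕ) : ℝ) * K) * (((D / q' : ℕ) : ℝ) * K)) =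
      (1 + 2 * η) * (H * SS s Q * mass A B w) +
        20 * H * K ^ 2 * (∑ q ∈ Q, ((D / q : ℕ) : ℝ) ^ 2) +
        36 * (H : ℝ) ^ 2 * K ^ 2 * LL D Q ^ 2 := by
    have h1 : ∀ q ∈ Q, ∑ q' ∈ Q,
        ((if q = q' then (1 + 2 * η) * (H * (s q / ((q : ℝ) - 1)) * mass A B w) +
          20 * H * (((D / q : ℕ) : ℝ) * K) ^ 2 else 0) +
          36 * (H : ℝ) ^ 2 * (((D / q : ℕ) : ℝ) * K) * (((D / q' : ℕ) : ℝ) * K)) =
        (1 + 2 * η) * H * mass A B w * (s q / ((q : ℝ) - 1)) +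
          20 * H * K ^ 2 * ((D / q : ℕ) : ℝ) ^ 2 +
            36 * (H : ℝ) ^ 2 * K ^ 2 * LL D Q * ((D / q : ℕ) : ℝ) := by
      intro q hq
      rw [sum_add_distrib, sum_ite_eq, if_pos hq, ← mul_sum, ← sum_mul]
      unfold LL
      ring
    rw [sum_congr rfl h1, sum_add_distrib, sum_add_distrib, ← mul_sum, ← mul_sum, ← mul_sum]
    unfold SS LL
    ring
  rw [e3]
  have h1 : ∑ q ∈ Q, ((D / q : ℕ) : ℝ) ^ 2 ≤ LL D Q ^ 2 := by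
    unfold LL
    rw [sq (∑ q ∈ Q, ((D / q : ℕ) : ℝ)), sum_mul]
    refine sum_le_sum fun q hq => ?_
    rw [sq]
    refine mul_le_mul_of_nonneg_left ?_ (Nat.cast_nonneg _)
    exact single_le_sum (f := fun q => ((D / q : ℕ) : ℝ)) (fun i _ => Nat.cast_nonneg _) hq
  have h2 : (0 : ℝ) ≤ 20 * H * K ^ 2 := by positivity
  have h3 := mul_le_mul_of_nonneg_left h1 h2
  have h4 : (H : ℝ) ≤ (H : ℝ) ^ 2 := by nlinarith
  have h5 : 0 ≤ K ^ 2 * LL D Q ^ 2 := by positivity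
  have h6 := mul_le_mul_of_nonneg_right h4 h5
  have h7 : 0 ≤ (H : ℝ) ^ 2 * (K ^ 2 * LL D Q ^ 2) := by positivity
  have e5 : 100 * ((H : ℝ) * K * LL D Q) ^ 2 = 100 * ((H : ℝ) ^ 2 * (K ^ 2 * LL D Q ^ 2)) := by
    ring
  rw [e5]
  nlinarith

end Pool.Agent.H67.VT
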