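import Pool.Agent.H67.VT.Defs
import Pool.Agent.H67.VS.GsqA

/-!
[H67 VT GSQA]  Second moments of `F` and orthogonality of different primes.

Proofs.  As in `Pool/Agent/H67/VS/GsqA.lean`, where `L < q`; here instead `ρ d ≠ 0` implies that all primes of
`d` are `< q`, so `d` is coprime to `q`; and `∑_{d ≤ L} |ρ d| ≤ L K` (`K ≥ 0`).
* `F_sq2`: `F(x+h)^2 = ∑_{d,e} ρ_d ρ_e [lcm(d,e) ∣ x+h]`; `F_sq_q2`: with `[q ∣ x+h]` in addition: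
  `[q lcm ∣ x+h]`.  `ap_wt`: main term `mass/lcm` resp. `mass/(q lcm)`, error `≤ 4`; `SV.diag`.
* `gz_orth2`: by symmetry `q' < q`; then `q` is coprime to `q'` and to all `d, d'` with nonzero weights.
  For fixed `h,h',d,d'`: `∑ w [d ∣ x+h][d' ∣ x+h'] (1 - q[q ∣ x+h])(1 - q'[q' ∣ x+h'])`; `ap_wt2` (for the pair
  `(d, d')` resp. `(d, d' q')`, `d'` coprime to `q'`, and `m = 1` or `q`): main terms
  `(t mass/lcm(d,d')) (1 - 1) - q' (t' mass/lcm(d,d'q')) (1 - 1) = 0`; error `≤ 4 (1+q)(1+q')`;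
  `(1+q)/(q-1) ≤ 3`, `∑_{h,h'} ∑_{d,d'} |ρ_d ρ'_d'| ≤ H^2 (LK)(L'K)`.
-/

namespace Pool.Agent.H67.VT

open Finset Pool.Agent.H67.VS

theorem gg_eq (ρ : ℕ → ℕ → ℝ) (D : ℕ) (Q : Finset ℕ) (H x : ℕ) :
    gg ρ D Q H x = ∑ q ∈ Q, gz (ρ q) (D / q) H q x := by
  simp only [gg, bq, gz]
  rw [Finset.sum_comm]

theorem gsqA2_K {L q : ℕ} {ρ : ℕ → ℝ} {K s : ℝ} (hρ : SV L q K s ρ) : 0 ≤ K :=
  (abs_nonneg _).trans (hρ.bd 1)

theorem gsqA2_sum {L q : ℕ} {ρ : ℕ → ℝ} {K s : ℝ} (hρ : SV L q K s ρ) :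
    ∑ d ∈ Icc 1 L, |ρ d| ≤ (L : ℝ) * K := by
  refine (Finset.sum_le_sum (fun d _ => hρ.bd d)).trans (le_of_eq ?_)
  rw [Finset.sum_const, Nat.card_Icc, nsmul_eq_mul]
  simp only [Nat.add_sub_cancel]

theorem gsqA2_sum2 {L q L' q' : ℕ} {ρ ρ' : ℕ → ℝ} {K s s' : ℝ} (hρ : SV L q K s ρ)
    (hρ' : SV L' q' K s' ρ') :
    ∑ d ∈ Icc 1 L, ∑ e ∈ Icc 1 L', |ρ d| * |ρ' e| ≤ ((L : ℝ) * K) * ((L' : ℝ) * K) := by
  have h := gsqA2_sum hρ
  have h' := gsqA2_sum hρ'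
  have hK := gsqA2_K hρ
  have h0 : 0 ≤ ∑ e ∈ Icc 1 L', |ρ' e| := Finset.sum_nonneg (fun d _ => abs_nonneg _)
  rw [← Finset.sum_mul_sum]
  exact mul_le_mul h h' h0 (by positivity)

theorem gsqA2_cop {L q : ℕ} {ρ : ℕ → ℝ} {K s : ℝ} (hρ : SV L q K s ρ) {p : ℕ} (hp : p.Prime)
    (hqp : q ≤ p) {d : ℕ} (hd : 0 < d) (h : ρ d ≠ 0) : p.Coprime d := by
  rw [Nat.Prime.coprime_iff_not_dvd hp]
  intro h1
  have h2 := hρ.small d h p (Nat.mem_primeFactors.2 ⟨hp, h1, hd.ne'⟩)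
  omega

theorem gsqA2_gen {A B L q m₀ : ℕ} {w ρ : ℕ → ℝ} {K s : ℝ} (hw : Wt A B w) (hAB : A ≤ B)
    (hρ : SV L q K s ρ) (hm₀ : 0 < m₀)
    (hcop : ∀ d ∈ Icc 1 L, ∀ e ∈ Icc 1 L, ρ d ≠ 0 → ρ e ≠ 0 → m₀.Coprime (Nat.lcm d e)) (h : ℤ) :
    ∑ x ∈ Ioc A B, (if (m₀ : ℤ) ∣ (x : ℤ) + h then w x * FF ρ L x h ^ 2 else 0) ≤
      mass A B w * s / m₀ + 4 * ((L : ℝ) * K) ^ 2 := by
  have hm₀' : (0 : ℝ) < m₀ := by exact_mod_cast hm₀
  have hmass := gsqA_mass_nonneg hw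
  have e1 : ∑ x ∈ Ioc A B, (if (m₀ : ℤ) ∣ (x : ℤ) + h then w x * FF ρ L x h ^ 2 else 0) =
      ∑ d ∈ Icc 1 L, ∑ e ∈ Icc 1 L, ρ d * ρ e * ∑ x ∈ Ioc A B,
        (if ((m₀ * Nat.lcm d e : ℕ) : ℤ) ∣ (x : ℤ) + h then w x else 0) := by
    have e2 : ∀ x ∈ Ioc A B, (if (m₀ : ℤ) ∣ (x : ℤ) + h then w x * FF ρ L x h ^ 2 else 0) =
        ∑ d ∈ Icc 1 L, ∑ e ∈ Icc 1 L, ρ d * ρ e *
          (if ((m₀ * Nat.lcm d e : ℕ) : ℤ) ∣ (x : ℤ) + h then w x else 0) := by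
      intro x _
      by_cases hx : (m₀ : ℤ) ∣ (x : ℤ) + h
      · rw [if_pos hx, gsqA_sq_expand, Finset.mul_sum]
        refine Finset.sum_congr rfl (fun d hd => ?_)
        rw [Finset.mul_sum]
        refine Finset.sum_congr rfl (fun e he => ?_)
        by_cases hd0 : ρ d = 0
        · rw [hd0]
          simp
        by_cases he0 : ρ e = 0
        · rw [he0]
          simp
        by_cases hl : ((Nat.lcm d e : ℕ) : ℤ) ∣ (x : ℤ) + h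
        · rw [if_pos hl, if_pos ((gsqA_mul_iff _ _ (hcop d hd e he hd0 he0) _).2 ⟨hx, hl⟩)]
          ring
        · rw [if_neg hl,
            if_neg (fun h' => hl ((gsqA_mul_iff _ _ (hcop d hd e he hd0 he0) _).1 h').2)]
          ring
      · rw [if_neg hx]
        symm
        refine Finset.sum_eq_zero (fun d hd => Finset.sum_eq_zero (fun e he => ?_))
        by_cases hd0 : ρ d = 0
        · rw [hd0]
          simp
        by_cases he0 : ρ e = 0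
        · rw [he0]
          simp
        rw [if_neg (fun h' => hx ((gsqA_mul_iff _ _ (hcop d hd e he hd0 he0) _).1 h').1), mul_zero]
    rw [Finset.sum_congr rfl e2, Finset.sum_comm]
    refine Finset.sum_congr rfl (fun d _ => ?_)
    rw [Finset.sum_comm]
    refine Finset.sum_congr rfl (fun e _ => ?_)
    rw [Finset.mul_sum]
  rw [e1]
  have e3 : ∀ d ∈ Icc 1 L, ∀ e ∈ Icc 1 L, ρ d * ρ e * ∑ x ∈ Ioc A B,
        (if ((m₀ * Nat.lcm d e : ℕ) : ℤ) ∣ (x : ℤ) + h then w x else 0) ≤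
      mass A B w / m₀ * (ρ d * ρ e / (Nat.lcm d e : ℝ)) + 4 * (|ρ d| * |ρ e|) := by
    intro d hd e he
    have hd0 : 0 < d := (Finset.mem_Icc.1 hd).1
    have he0 : 0 < e := (Finset.mem_Icc.1 he).1
    have hl0 : 0 < Nat.lcm d e := Nat.lcm_pos hd0 he0
    have hl0' : (0 : ℝ) < (Nat.lcm d e : ℝ) := by exact_mod_cast hl0
    have h1 := ap_wt hw hAB (m₀ * Nat.lcm d e) (Nat.mul_pos hm₀ hl0) h
    set Sx := ∑ x ∈ Ioc A B,
        (if ((m₀ * Nat.lcm d e : ℕ) : ℤ) ∣ (x : ℤ) + h then w x else 0) with hSx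
    have h2 : ρ d * ρ e * Sx = ρ d * ρ e * (mass A B w / ((m₀ * Nat.lcm d e : ℕ) : ℝ)) +
        ρ d * ρ e * (Sx - mass A B w / ((m₀ * Nat.lcm d e : ℕ) : ℝ)) := by ring
    have h3 : ρ d * ρ e * (Sx - mass A B w / ((m₀ * Nat.lcm d e : ℕ) : ℝ)) ≤
        4 * (|ρ d| * |ρ e|) := by
      refine (le_abs_self _).trans ?_
      rw [abs_mul, abs_mul]
      have := mul_le_mul_of_nonneg_left h1 (mul_nonneg (abs_nonneg (ρ d)) (abs_nonneg (ρ e)))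
      linarith
    have h4 : ρ d * ρ e * (mass A B w / ((m₀ * Nat.lcm d e : ℕ) : ℝ)) =
        mass A B w / m₀ * (ρ d * ρ e / (Nat.lcm d e : ℝ)) := by
      push_cast
      field_simp
    rw [h2, h4]
    linarith
  refine (Finset.sum_le_sum (fun d hd => Finset.sum_le_sum (fun e he => e3 d hd e he))).trans ?_
  have e4 : ∑ d ∈ Icc 1 L, ∑ e ∈ Icc 1 L, (mass A B w / m₀ * (ρ d * ρ e / (Nat.lcm d e : ℝ)) +
      4 * (|ρ d| * |ρ e|)) = mass A B w / m₀ * (∑ d ∈ Icc 1 L, ∑ e ∈ Icc 1 L,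
        ρ d * ρ e / (Nat.lcm d e : ℝ)) + 4 * ∑ d ∈ Icc 1 L, ∑ e ∈ Icc 1 L, |ρ d| * |ρ e| := by
    simp only [Finset.sum_add_distrib, Finset.mul_sum]
  rw [e4]
  have h5 := gsqA2_sum2 hρ hρ
  have h6 : mass A B w / m₀ * (∑ d ∈ Icc 1 L, ∑ e ∈ Icc 1 L,
        ρ d * ρ e / (Nat.lcm d e : ℝ)) ≤ mass A B w / m₀ * s :=
    mul_le_mul_of_nonneg_left hρ.diag (div_nonneg hmass hm₀'.le)
  have h7 : mass A B w / m₀ * s = mass A B w * s / m₀ := by ring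
  rw [h7] at h6
  have h8 : ((L : ℝ) * K) ^ 2 = ((L : ℝ) * K) * ((L : ℝ) * K) := sq _
  rw [h8]
  linarith

theorem F_sq2 {A B L q : ℕ} {w ρ : ℕ → ℝ} {K s : ℝ} (hw : Wt A B w) (hAB : A ≤ B)
    (hρ : SV L q K s ρ) (h : ℤ) :
    ∑ x ∈ Ioc A B, w x * FF ρ L x h ^ 2 ≤ mass A B w * s + 4 * ((L : ℝ) * K) ^ 2 := by
  have h1 := gsqA2_gen (m₀ := 1) hw hAB hρ one_pos (fun d _ e _ _ _ => Nat.coprime_one_left _) h
  simpa using h1

theorem F_sq_q2 {A B L q : ℕ} {w ρ : ℕ → ℝ} {K s : ℝ} (hw : Wt A B w) (hAB : A ≤ B)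
    (hρ : SV L q K s ρ) (hq : q.Prime) (h : ℤ) :
    ∑ x ∈ Ioc A B, (if (q : ℤ) ∣ (x : ℤ) + h then w x * FF ρ L x h ^ 2 else 0) ≤
      mass A B w * s / q + 4 * ((L : ℝ) * K) ^ 2 := by
  refine gsqA2_gen hw hAB hρ hq.pos (fun d hd e he h1 h2 => ?_) h
  rw [Finset.mem_Icc] at hd he
  exact (Nat.Coprime.mul_right (gsqA2_cop hρ hq le_rfl hd.1 h1)
    (gsqA2_cop hρ hq le_rfl he.1 h2)).coprime_dvd_right (Nat.lcm_dvd_mul d e)

/-- the inner sum for fixed `h, h', d, e` -/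
theorem gsqA2_inner {A B q q' d e : ℕ} {w : ℕ → ℝ} (hw : Wt A B w) (hAB : A ≤ B)
    (hq : q.Prime) (hq' : q'.Prime) (hd0 : 0 < d) (he0 : 0 < e)
    (h1 : q.Coprime d) (h2 : q.Coprime e) (h3 : q.Coprime q') (h4 : e.Coprime q') (c c' : ℤ) :
    |∑ x ∈ Ioc A B, w x * ((if (d : ℤ) ∣ (x : ℤ) + c then (1 : ℝ) else 0) *
        (1 - if (q : ℤ) ∣ (x : ℤ) + c then (q : ℝ) else 0)) *
        ((if (e : ℤ) ∣ (x : ℤ) + c' then (1 : ℝ) else 0) *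
        (1 - if (q' : ℤ) ∣ (x : ℤ) + c' then (q' : ℝ) else 0))| ≤
      4 * ((1 + q) * (1 + q')) := by
  have heq0 : 0 < e * q' := Nat.mul_pos he0 hq'.pos
  obtain ⟨t, ht0, ht1, ht⟩ := ap_wt2 hw hAB d e hd0 he0 c c'
  obtain ⟨u, hu0, hu1, hu⟩ := ap_wt2 hw hAB d (e * q') hd0 heq0 c c'
  have hcq : q.Coprime (Nat.lcm d e) :=
    (Nat.Coprime.mul_right h1 h2).coprime_dvd_right (Nat.lcm_dvd_mul d e)
  have hcq' : q.Coprime (Nat.lcm d (e * q')) :=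
    (Nat.Coprime.mul_right h1 (Nat.Coprime.mul_right h2 h3)).coprime_dvd_right
      (Nat.lcm_dvd_mul d (e * q'))
  set Λ : ℝ := (Nat.lcm d e : ℝ) with hΛ
  have hΛ0 : 0 < Λ := by
    rw [hΛ]
    exact_mod_cast Nat.lcm_pos hd0 he0
  set Λ' : ℝ := (Nat.lcm d (e * q') : ℝ) with hΛ'
  have hΛ0' : 0 < Λ' := by
    rw [hΛ']
    exact_mod_cast Nat.lcm_pos hd0 heq0
  have hq0 : (0 : ℝ) < q := by exact_mod_cast hq.pos
  have hq0' : (0 : ℝ) < q' := by exact_mod_cast hq'.pos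
  have t1 := ht 1 one_pos (Nat.coprime_one_left _) 0
  have t2 := ht q hq.pos hcq c
  have t3 := hu 1 one_pos (Nat.coprime_one_left _) 0
  have t4 := hu q hq.pos hcq' c
  set s1 := ∑ n ∈ Ioc A B, (if (d : ℤ) ∣ (n : ℤ) + c ∧ (e : ℤ) ∣ (n : ℤ) + c' ∧
        ((1 : ℕ) : ℤ) ∣ (n : ℤ) + 0 then w n else 0) with hs1
  set s2 := ∑ n ∈ Ioc A B, (if (d : ℤ) ∣ (n : ℤ) + c ∧ (e : ℤ) ∣ (n : ℤ) + c' ∧
        (q : ℤ) ∣ (n : ℤ) + c then w n else 0) with hs2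
  set s3 := ∑ n ∈ Ioc A B, (if (d : ℤ) ∣ (n : ℤ) + c ∧ ((e * q' : ℕ) : ℤ) ∣ (n : ℤ) + c' ∧
        ((1 : ℕ) : ℤ) ∣ (n : ℤ) + 0 then w n else 0) with hs3
  set s4 := ∑ n ∈ Ioc A B, (if (d : ℤ) ∣ (n : ℤ) + c ∧ ((e * q' : ℕ) : ℤ) ∣ (n : ℤ) + c' ∧
        (q : ℤ) ∣ (n : ℤ) + c then w n else 0) with hs4
  have hsum : ∑ x ∈ Ioc A B, w x * ((if (d : ℤ) ∣ (x : ℤ) + c then (1 : ℝ) else 0) *
        (1 - if (q : ℤ) ∣ (x : ℤ) + c then (q : ℝ) else 0)) *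
        ((if (e : ℤ) ∣ (x : ℤ) + c' then (1 : ℝ) else 0) *
        (1 - if (q' : ℤ) ∣ (x : ℤ) + c' then (q' : ℝ) else 0)) =
      s1 - q * s2 - q' * s3 + q * q' * s4 := by
    rw [hs1, hs2, hs3, hs4, Finset.mul_sum, Finset.mul_sum, Finset.mul_sum,
      ← Finset.sum_sub_distrib, ← Finset.sum_sub_distrib, ← Finset.sum_add_distrib]
    refine Finset.sum_congr rfl (fun x _ => ?_)
    have h6 := gsqA_mul_iff e q' h4 ((x : ℤ) + c')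
    have h5 : ((1 : ℕ) : ℤ) ∣ (x : ℤ) + 0 := by simp
    simp only [h6, h5, and_true]
    by_cases hdx : (d : ℤ) ∣ (x : ℤ) + c
    · by_cases hex : (e : ℤ) ∣ (x : ℤ) + c'
      · by_cases hqx : (q : ℤ) ∣ (x : ℤ) + c
        · by_cases hqx' : (q' : ℤ) ∣ (x : ℤ) + c'
          · simp only [hdx, hex, hqx, hqx', and_true, if_true]
            ring
          · simp only [hdx, hex, hqx, hqx', and_true, and_false, if_true, if_false]
            ring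
        · by_cases hqx' : (q' : ℤ) ∣ (x : ℤ) + c'
          · simp only [hdx, hex, hqx, hqx', and_true, and_false, if_true, if_false]
            ring
          · simp only [hdx, hex, hqx, hqx', and_true, and_false, if_true, if_false]
            ring
      · simp only [hex, false_and, and_false, if_false]
        ring
    · simp only [hdx, false_and, if_false]
      ring
  rw [hsum]
  set W := mass A B w with hWdef
  have hmain : s1 - q * s2 - q' * s3 + q * q' * s4 =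
      (s1 - t * W / (Λ * ((1 : ℕ) : ℝ))) - q * (s2 - t * W / (Λ * q)) -
        q' * (s3 - u * W / (Λ' * ((1 : ℕ) : ℝ))) + q * q' * (s4 - u * W / (Λ' * q)) := by
    push_cast
    field_simp
    ring
  rw [hmain]
  have a1 := abs_le.1 t1
  have b2 : |(q : ℝ) * (s2 - t * W / (Λ * q))| ≤ q * 4 := by
    rw [abs_mul, abs_of_pos hq0]
    exact mul_le_mul_of_nonneg_left t2 hq0.le
  have b3 : |(q' : ℝ) * (s3 - u * W / (Λ' * ((1 : ℕ) : ℝ)))| ≤ q' * 4 := by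
    rw [abs_mul, abs_of_pos hq0']
    exact mul_le_mul_of_nonneg_left t3 hq0'.le
  have b4 : |(q : ℝ) * q' * (s4 - u * W / (Λ' * q))| ≤ q * q' * 4 := by
    rw [abs_mul, abs_of_pos (mul_pos hq0 hq0')]
    exact mul_le_mul_of_nonneg_left t4 (mul_pos hq0 hq0').le
  have c2 := abs_le.1 b2
  have c3 := abs_le.1 b3
  have c4 := abs_le.1 b4
  rw [abs_le]
  constructor
  · linarith [a1.1, c2.2, c3.2, c4.1]
  · linarith [a1.2, c2.1, c3.1, c4.2]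

theorem gsqA2_expand (ρ : ℕ → ℝ) (L H q x : ℕ) :
    gz ρ L H q x = ∑ h ∈ Icc 1 H, ∑ d ∈ Icc 1 L, ρ d / ((q : ℝ) - 1) *
      ((if (d : ℤ) ∣ (x : ℤ) + (h : ℤ) then (1 : ℝ) else 0) *
        (1 - if (q : ℤ) ∣ (x : ℤ) + (h : ℤ) then (q : ℝ) else 0)) := by
  unfold gz gk
  refine Finset.sum_congr rfl (fun h _ => ?_)
  rw [FF, Finset.sum_mul]
  refine Finset.sum_congr rfl (fun d _ => ?_)
  by_cases hd : (d : ℤ) ∣ (x : ℤ) + (h : ℤ)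
  · rw [if_pos hd, if_pos hd]
    ring
  · rw [if_neg hd, if_neg hd]
    ring

private theorem gsqA2_orth {A B L L' H q q' : ℕ} {w ρ ρ' : ℕ → ℝ} {K s s' : ℝ} (hw : Wt A B w)
    (hAB : A ≤ B) (hρ : SV L q K s ρ) (hρ' : SV L' q' K s' ρ') (hq : q.Prime) (hq' : q'.Prime)
    (hne : q' < q) :
    |∑ x ∈ Ioc A B, w x * (gz ρ L H q x * gz ρ' L' H q' x)| ≤
      36 * (H : ℝ) ^ 2 * ((L : ℝ) * K) * ((L' : ℝ) * K) := by
  have hq2 : (2 : ℝ) ≤ q := by exact_mod_cast hq.two_le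
  have hq2' : (2 : ℝ) ≤ q' := by exact_mod_cast hq'.two_le
  have hexp : ∑ x ∈ Ioc A B, w x * (gz ρ L H q x * gz ρ' L' H q' x) =
      ∑ h ∈ Icc 1 H, ∑ h' ∈ Icc 1 H, ∑ d ∈ Icc 1 L, ∑ e ∈ Icc 1 L',
        (ρ d / ((q : ℝ) - 1)) * (ρ' e / ((q' : ℝ) - 1)) *
        ∑ x ∈ Ioc A B, w x * ((if (d : ℤ) ∣ (x : ℤ) + (h : ℤ) then (1 : ℝ) else 0) *
        (1 - if (q : ℤ) ∣ (x : ℤ) + (h : ℤ) then (q : ℝ) else 0)) *
        ((if (e : ℤ) ∣ (x : ℤ) + (h' : ℤ) then (1 : ℝ) else 0) *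
        (1 - if (q' : ℤ) ∣ (x : ℤ) + (h' : ℤ) then (q' : ℝ) else 0)) := by
    have e1 : ∀ x ∈ Ioc A B, w x * (gz ρ L H q x * gz ρ' L' H q' x) =
        ∑ h ∈ Icc 1 H, ∑ h' ∈ Icc 1 H, ∑ d ∈ Icc 1 L, ∑ e ∈ Icc 1 L',
        (ρ d / ((q : ℝ) - 1)) * (ρ' e / ((q' : ℝ) - 1)) *
        (w x * ((if (d : ℤ) ∣ (x : ℤ) + (h : ℤ) then (1 : ℝ) else 0) *
        (1 - if (q : ℤ) ∣ (x : ℤ) + (h : ℤ) then (q : ℝ) else 0)) *
        ((if (e : ℤ) ∣ (x : ℤ) + (h' : ℤ) then (1 : ℝ) else 0) *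
        (1 - if (q' : ℤ) ∣ (x : ℤ) + (h' : ℤ) then (q' : ℝ) else 0))) := by
      intro x _
      rw [gsqA2_expand, gsqA2_expand, Finset.sum_mul_sum, Finset.mul_sum]
      refine Finset.sum_congr rfl (fun h _ => ?_)
      rw [Finset.mul_sum]
      refine Finset.sum_congr rfl (fun h' _ => ?_)
      rw [Finset.sum_mul_sum, Finset.mul_sum]
      refine Finset.sum_congr rfl (fun d _ => ?_)
      rw [Finset.mul_sum]
      refine Finset.sum_congr rfl (fun e _ => ?_)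
      ring
    rw [Finset.sum_congr rfl e1, Finset.sum_comm]
    refine Finset.sum_congr rfl (fun h _ => ?_)
    rw [Finset.sum_comm]
    refine Finset.sum_congr rfl (fun h' _ => ?_)
    rw [Finset.sum_comm]
    refine Finset.sum_congr rfl (fun d _ => ?_)
    rw [Finset.sum_comm]
    refine Finset.sum_congr rfl (fun e _ => ?_)
    rw [Finset.mul_sum]
  rw [hexp]
  have hterm : ∀ h h' : ℕ, |∑ d ∈ Icc 1 L, ∑ e ∈ Icc 1 L',
        (ρ d / ((q : ℝ) - 1)) * (ρ' e / ((q' : ℝ) - 1)) *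
        ∑ x ∈ Ioc A B, w x * ((if (d : ℤ) ∣ (x : ℤ) + (h : ℤ) then (1 : ℝ) else 0) *
        (1 - if (q : ℤ) ∣ (x : ℤ) + (h : ℤ) then (q : ℝ) else 0)) *
        ((if (e : ℤ) ∣ (x : ℤ) + (h' : ℤ) then (1 : ℝ) else 0) *
        (1 - if (q' : ℤ) ∣ (x : ℤ) + (h' : ℤ) then (q' : ℝ) else 0))| ≤
        36 * (((L : ℝ) * K) * ((L' : ℝ) * K)) := by
    intro h h'
    have h5 := gsqA2_sum2 hρ hρ'
    have h6 : ∀ d ∈ Icc 1 L, ∀ e ∈ Icc 1 L', |(ρ d / ((q : ℝ) - 1)) * (ρ' e / ((q' : ℝ) - 1)) *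
        ∑ x ∈ Ioc A B, w x * ((if (d : ℤ) ∣ (x : ℤ) + (h : ℤ) then (1 : ℝ) else 0) *
        (1 - if (q : ℤ) ∣ (x : ℤ) + (h : ℤ) then (q : ℝ) else 0)) *
        ((if (e : ℤ) ∣ (x : ℤ) + (h' : ℤ) then (1 : ℝ) else 0) *
        (1 - if (q' : ℤ) ∣ (x : ℤ) + (h' : ℤ) then (q' : ℝ) else 0))| ≤
          36 * (|ρ d| * |ρ' e|) := by
      intro d hd e he
      rw [Finset.mem_Icc] at hd he
      by_cases hd0 : ρ d = 0
      · rw [hd0]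
        simp
      by_cases he0 : ρ' e = 0
      · rw [he0]
        simp
      have h7 := gsqA2_inner hw hAB hq hq' hd.1 he.1 (gsqA2_cop hρ hq le_rfl hd.1 hd0)
        (gsqA2_cop hρ' hq hne.le he.1 he0) ((Nat.coprime_primes hq hq').2 hne.ne')
        (gsqA2_cop hρ' hq' le_rfl he.1 he0).symm (h : ℤ) (h' : ℤ)
      rw [abs_mul, abs_mul, abs_div, abs_div, abs_of_pos (show (0 : ℝ) < (q : ℝ) - 1 by linarith),
        abs_of_pos (show (0 : ℝ) < (q' : ℝ) - 1 by linarith)]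
      have h8 : 0 ≤ |ρ d| / ((q : ℝ) - 1) * (|ρ' e| / ((q' : ℝ) - 1)) := by
        apply mul_nonneg <;> apply div_nonneg (abs_nonneg _) <;> linarith
      refine (mul_le_mul_of_nonneg_left h7 h8).trans ?_
      have h9 : |ρ d| / ((q : ℝ) - 1) * (|ρ' e| / ((q' : ℝ) - 1)) * (4 * ((1 + q) * (1 + q'))) =
          4 * (|ρ d| * |ρ' e|) * (((1 + q) / ((q : ℝ) - 1)) * ((1 + q') / ((q' : ℝ) - 1))) := by
        ring
      rw [h9]
      have h10 : (1 + (q : ℝ)) / ((q : ℝ) - 1) ≤ 3 := by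
        rw [div_le_iff₀ (by linarith)]
        linarith
      have h11 : (1 + (q' : ℝ)) / ((q' : ℝ) - 1) ≤ 3 := by
        rw [div_le_iff₀ (by linarith)]
        linarith
      have h12 : ((1 + (q : ℝ)) / ((q : ℝ) - 1)) * ((1 + (q' : ℝ)) / ((q' : ℝ) - 1)) ≤ 3 * 3 := by
        refine mul_le_mul h10 h11 ?_ (by norm_num)
        apply div_nonneg <;> linarith
      have h13 : 0 ≤ 4 * (|ρ d| * |ρ' e|) := by positivity
      have := mul_le_mul_of_nonneg_left h12 h13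
      linarith
    refine (Finset.abs_sum_le_sum_abs _ _).trans ?_
    refine (Finset.sum_le_sum (fun d hd => (Finset.abs_sum_le_sum_abs _ _).trans
      (Finset.sum_le_sum (fun e he => h6 d hd e he)))).trans ?_
    calc ∑ d ∈ Icc 1 L, ∑ e ∈ Icc 1 L', 36 * (|ρ d| * |ρ' e|)
        = 36 * ∑ d ∈ Icc 1 L, ∑ e ∈ Icc 1 L', |ρ d| * |ρ' e| := by
          simp only [Finset.mul_sum]
      _ ≤ 36 * (((L : ℝ) * K) * ((L' : ℝ) * K)) := by linarith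
  refine (Finset.abs_sum_le_sum_abs _ _).trans ?_
  refine (Finset.sum_le_sum (fun h _ => (Finset.abs_sum_le_sum_abs _ _).trans
      (Finset.sum_le_sum (fun h' _ => hterm h h')))).trans ?_
  simp only [Finset.sum_const, Nat.card_Icc, nsmul_eq_mul, Nat.add_sub_cancel]
  apply le_of_eq
  ring

theorem gz_orth2 {A B L L' H q q' : ℕ} {w ρ ρ' : ℕ → ℝ} {K s s' : ℝ} (hw : Wt A B w)
    (hAB : A ≤ B) (hρ : SV L q K s ρ) (hρ' : SV L' q' K s' ρ') (hq : q.Prime) (hq' : q'.Prime)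
    (hne : q ≠ q') :
    |∑ x ∈ Ioc A B, w x * (gz ρ L H q x * gz ρ' L' H q' x)| ≤
      36 * (H : ℝ) ^ 2 * ((L : ℝ) * K) * ((L' : ℝ) * K) := by
  rcases Nat.lt_or_gt_of_ne hne with h | h
  · have h1 := gsqA2_orth (H := H) hw hAB hρ' hρ hq' hq h
    have h2 : ∑ x ∈ Ioc A B, w x * (gz ρ L H q x * gz ρ' L' H q' x) =
        ∑ x ∈ Ioc A B, w x * (gz ρ' L' H q' x * gz ρ L H q x) :=
      Finset.sum_congr rfl fun x _ => by ring
    rw [h2]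
    refine h1.trans (le_of_eq (by ring))
  · exact gsqA2_orth hw hAB hρ hρ' hq hq' h

end Pool.Agent.H67.VT
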