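import Pool.Agent.H67.VS.Sel
import Pool.Agent.H67.VT.Phi

/-!
[H67 VT SEL]  Properties of the weights `rv D q`.

Proof.  `M = MM D q` (squarefree, closed under divisors, contains `1` as `q ≤ D`), `g m = 1/φ(m)`.
* `one`: `μ(1) = 1`.  `zero`, `small`: if `d` divides no element of `M` then `rv = 0`; a divisor of an
  element of `M` is in `M ⊆ DD D q` (`d = 0`: `rv = 0` because of the factor `d`).
* `bd`: for squarefree `d` and `m = d m' ∈ M`, `φ(m) = φ(d) φ(m')`, so
  `|rv d| ≤ (d/φ(d)) ∑_{m' ≤ D} 1/φ(m') ≤ (2 + 2 log D)(2 + 2 log D)^2` (`phi_low`, `sum_phi`).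
* `diag`: diagonalisation as in `Pool/Agent/H67/VS/Sel.lean` (there for `M` = all squarefree numbers `≤ L`,
  normalised by `S`; here with `M`, not normalised):
  `∑_{d,e} ρ_d ρ_e/lcm(d,e) = ∑_l φ(l) (∑_{l ∣ d} ρ_d/d)^2`, and
  `∑_{l ∣ d} ρ_d/d = ∑_{m ∈ M} g m ∑_{l ∣ d ∣ m} μ(d) = μ(l) g(l)` for `l ∈ M`, `0` otherwise; total
  `∑_{l ∈ M} φ(l) g(l)^2 = ∑_{l ∈ M} g(l) = sv D q` (equality).
-/

namespace Pool.Agent.H67.VT

open Finset Pool.Agent.H67.VS ArithmeticFunction

/-- membership in `MM` -/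
theorem mem_MM {D q m : ℕ} : m ∈ MM D q ↔
    (1 ≤ m ∧ m ≤ D / q) ∧ (∀ p ∈ m.primeFactors, p < q) ∧ Squarefree m := by
  unfold MM DD
  rw [mem_filter, mem_filter, mem_Icc]
  tauto

/-- the function `1_M/φ` -/
noncomputable def sgM (D q m : ℕ) : ℝ := if m ∈ MM D q then 1 / (m.totient : ℝ) else 0

theorem sgM_nonneg (D q m : ℕ) : 0 ≤ sgM D q m := by
  unfold sgM
  split_ifs <;> positivity

theorem rv_eq (D q d : ℕ) :
    rv D q d = (moebius d : ℝ) * d * ∑ m ∈ Icc 1 (D / q), if d ∣ m then sgM D q m else 0 := by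
  unfold rv
  congr 1
  have h1 : (MM D q).filter (fun m => d ∣ m) =
      ((Icc 1 (D / q)).filter (fun m => d ∣ m)).filter (fun m => m ∈ MM D q) := by
    ext m
    simp only [mem_filter, mem_Icc]
    constructor
    · rintro ⟨h1, h2⟩
      exact ⟨⟨(mem_MM.1 h1).1, h2⟩, h1⟩
    · rintro ⟨⟨_, h2⟩, h1⟩
      exact ⟨h1, h2⟩
  rw [h1, Finset.sum_filter, Finset.sum_filter]
  refine Finset.sum_congr rfl fun m _ => ?_
  unfold sgM
  rfl

theorem sv_eq (D q : ℕ) : sv D q = ∑ m ∈ Icc 1 (D / q), sgM D q m := by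
  unfold sv sgM
  rw [← Finset.sum_filter]
  refine Finset.sum_congr ?_ fun _ _ => rfl
  ext m
  rw [mem_filter, mem_Icc]
  constructor
  · intro h
    exact ⟨(mem_MM.1 h).1, h⟩
  · rintro ⟨_, h⟩
    exact h

/-- a nonzero value of `rv` gives a multiple in `MM` -/
theorem rv_ne {D q d : ℕ} (h : rv D q d ≠ 0) : d ≠ 0 ∧ Squarefree d ∧ ∃ m ∈ MM D q, d ∣ m := by
  refine ⟨?_, ?_, ?_⟩
  · rintro rfl
    apply h
    unfold rv
    simp
  · by_contra h1
    apply h
    unfold rv
    rw [moebius_eq_zero_of_not_squarefree h1]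
    simp
  · by_contra h1
    apply h
    unfold rv
    have h2 : (MM D q).filter (fun m => d ∣ m) = ∅ := by
      rw [Finset.filter_eq_empty_iff]
      intro m hm h3
      exact h1 ⟨m, hm, h3⟩
    rw [h2, Finset.sum_empty, mul_zero]

theorem rv_bd (D q d : ℕ) (hq : q.Prime) (hqD : q ≤ D) : |rv D q d| ≤ KK D := by
  have hD1 : 1 ≤ D := hq.one_le.trans hqD
  have hlog : 0 ≤ Real.log D := Real.log_nonneg (by exact_mod_cast hD1)
  have hK : 0 ≤ KK D := by
    unfold KK
    positivity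
  by_cases h : rv D q d = 0
  · rw [h, abs_zero]
    exact hK
  obtain ⟨hd0, hsq, m0, hm0, hdm0⟩ := rv_ne h
  have hm0' := mem_MM.1 hm0
  have hdD : d ≤ D := (Nat.le_of_dvd (by omega) hdm0).trans (hm0'.1.2.trans (Nat.div_le_self _ _))
  have hφ : (0 : ℝ) < (d.totient : ℝ) := by
    exact_mod_cast Nat.totient_pos.2 (Nat.pos_of_ne_zero hd0)
  have hdpos : (0 : ℝ) < (d : ℝ) := by exact_mod_cast Nat.pos_of_ne_zero hd0
  -- the inner sum
  have hS : ∑ m ∈ (MM D q).filter (fun m => d ∣ m), 1 / (m.totient : ℝ) ≤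
      1 / (d.totient : ℝ) * (2 + 2 * Real.log D) ^ 2 := by
    have h1 : ∀ m ∈ (MM D q).filter (fun m => d ∣ m), 1 / (m.totient : ℝ) =
        1 / (d.totient : ℝ) * (1 / ((m / d).totient : ℝ)) := by
      intro m hm
      rw [mem_filter] at hm
      obtain ⟨hm1, k, rfl⟩ := hm
      have h2 := mem_MM.1 hm1
      have h3 := Nat.squarefree_mul_iff.mp h2.2.2
      rw [Nat.mul_div_cancel_left k (Nat.pos_of_ne_zero hd0), Nat.totient_mul h3.1, Nat.cast_mul,
        one_div_mul_one_div]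
    rw [Finset.sum_congr rfl h1, ← Finset.mul_sum]
    have h4 : ∑ m ∈ (MM D q).filter (fun m => d ∣ m), 1 / ((m / d).totient : ℝ) ≤
        ∑ m ∈ Icc 1 D, 1 / (m.totient : ℝ) := by
      have hinj : Set.InjOn (fun m : ℕ => m / d) ((MM D q).filter (fun m => d ∣ m) : Finset ℕ) := by
        intro a ha b hb hab
        rw [mem_coe, mem_filter] at ha hb
        obtain ⟨_, k, rfl⟩ := ha
        obtain ⟨_, l, rfl⟩ := hb
        simp only at hab
        rw [Nat.mul_div_cancel_left k (Nat.pos_of_ne_zero hd0),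
          Nat.mul_div_cancel_left l (Nat.pos_of_ne_zero hd0)] at hab
        rw [hab]
      rw [← Finset.sum_image (f := fun k : ℕ => 1 / (k.totient : ℝ)) hinj]
      apply Finset.sum_le_sum_of_subset_of_nonneg
      · intro k hk
        rw [mem_image] at hk
        obtain ⟨m, hm, rfl⟩ := hk
        rw [mem_filter] at hm
        have h5 := mem_MM.1 hm.1
        rw [mem_Icc]
        constructor
        · exact Nat.div_pos (Nat.le_of_dvd (by omega) hm.2) (Nat.pos_of_ne_zero hd0)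
        · exact (Nat.div_le_self _ _).trans (h5.1.2.trans (Nat.div_le_self _ _))
      · intros
        positivity
    have h5 := h4.trans (sum_phi D hD1)
    exact mul_le_mul_of_nonneg_left h5 (by positivity)
  have hμ : |(moebius d : ℝ)| ≤ 1 := by
    have := abs_moebius_le_one (n := d)
    exact_mod_cast this
  have hS0 : 0 ≤ ∑ m ∈ (MM D q).filter (fun m => d ∣ m), 1 / (m.totient : ℝ) :=
    Finset.sum_nonneg fun _ _ => by positivity
  have hd1 : (d : ℝ) ≤ (2 + 2 * Real.log D) * d.totient := by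
    refine (phi_low d (Nat.pos_of_ne_zero hd0)).trans ?_
    apply mul_le_mul_of_nonneg_right _ hφ.le
    have h6 : Real.log d ≤ Real.log D := Real.log_le_log hdpos (by exact_mod_cast hdD)
    linarith
  unfold rv
  rw [abs_mul, abs_mul, abs_of_nonneg hdpos.le, abs_of_nonneg hS0]
  calc |((moebius d : ℤ) : ℝ)| * (d : ℝ) *
        ∑ m ∈ (MM D q).filter (fun m => d ∣ m), 1 / (m.totient : ℝ)
      ≤ 1 * (d : ℝ) * (1 / (d.totient : ℝ) * (2 + 2 * Real.log D) ^ 2) := by
        apply mul_le_mul _ hS hS0 (by positivity)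
        exact mul_le_mul_of_nonneg_right hμ hdpos.le
    _ ≤ 1 * ((2 + 2 * Real.log D) * d.totient) *
          (1 / (d.totient : ℝ) * (2 + 2 * Real.log D) ^ 2) := by
        apply mul_le_mul_of_nonneg_right _ (by positivity)
        linarith
    _ = KK D := by
        unfold KK
        field_simp

theorem rv_diag (D q : ℕ) :
    ∑ d ∈ Icc 1 (D / q), ∑ e ∈ Icc 1 (D / q), rv D q d * rv D q e / (Nat.lcm d e : ℝ) =
      sv D q := by
  classical
  set L : ℕ := D / q with hL
  set ρ : ℕ → ℝ := rv D q with hρ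
  -- y_k
  have hy : ∀ k ∈ Icc 1 L, ∑ d ∈ Icc 1 L, (if k ∣ d then ρ d / (d : ℝ) else 0) =
      (moebius k : ℝ) * sgM D q k := by
    intro k hk
    have h1 : ∀ d ∈ Icc 1 L, (if k ∣ d then ρ d / (d : ℝ) else 0) =
        ∑ m ∈ Icc 1 L, sgM D q m * (if d ∣ m then (if k ∣ d then (moebius d : ℝ) else 0) else 0) := by
      intro d hd
      have hd0 : (d : ℝ) ≠ 0 := by
        rw [mem_Icc] at hd
        exact_mod_cast (by omega : d ≠ 0)
      by_cases hkd : k ∣ d
      · simp only [hkd, if_true]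
        rw [hρ, rv_eq, ← hL]
        have e1 : (moebius d : ℝ) * d * (∑ m ∈ Icc 1 L, if d ∣ m then sgM D q m else 0) / d =
            (∑ m ∈ Icc 1 L, if d ∣ m then sgM D q m else 0) * (moebius d : ℝ) := by
          field_simp
        rw [e1, Finset.sum_mul]
        refine Finset.sum_congr rfl fun m _ => ?_
        split_ifs <;> ring
      · simp [hkd]
    rw [Finset.sum_congr rfl h1, Finset.sum_comm]
    have h2 : ∀ m ∈ Icc 1 L, ∑ d ∈ Icc 1 L, sgM D q m *
        (if d ∣ m then (if k ∣ d then (moebius d : ℝ) else 0) else 0) =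
        if m = k then (moebius k : ℝ) * sgM D q k else 0 := by
      intro m hm
      rw [mem_Icc] at hm
      rw [← Finset.mul_sum]
      by_cases hsq : Squarefree m
      · have h3 : ∑ d ∈ Icc 1 L, (if d ∣ m then (if k ∣ d then (moebius d : ℝ) else 0) else 0) =
            ∑ d ∈ m.divisors, (if k ∣ d then (moebius d : ℝ) else 0) := by
          rw [← Finset.sum_filter]
          refine Finset.sum_congr ?_ fun _ _ => rfl
          ext d
          rw [mem_filter, mem_Icc, Nat.mem_divisors]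
          constructor
          · rintro ⟨_, h⟩
            exact ⟨h, by omega⟩
          · rintro ⟨h, _⟩
            exact ⟨⟨Nat.pos_of_dvd_of_pos h (by omega), (Nat.le_of_dvd (by omega) h).trans hm.2⟩, h⟩
        rw [h3, sel_moebius hsq]
        split_ifs with h4
        · subst h4
          ring
        · ring
      · have h5 : sgM D q m = 0 := by
          unfold sgM
          rw [if_neg]
          intro h6
          exact hsq (mem_MM.1 h6).2.2
        rw [h5]
        split_ifs with h4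
        · subst h4
          rw [h5]
          ring
        · ring
    rw [Finset.sum_congr rfl h2, Finset.sum_ite_eq' _ _ _, if_pos hk]
  -- the quadratic form
  have h1 : ∀ d ∈ Icc 1 L, ∀ e ∈ Icc 1 L, ρ d * ρ e / (Nat.lcm d e : ℝ) =
      ∑ k ∈ Icc 1 L, (k.totient : ℝ) * ((if k ∣ d then ρ d / (d : ℝ) else 0) *
        (if k ∣ e then ρ e / (e : ℝ) else 0)) := by
    intro d hd e he
    rw [mem_Icc] at hd he
    have hd0 : (d : ℝ) ≠ 0 := by exact_mod_cast (by omega : d ≠ 0)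
    have he0 : (e : ℝ) ≠ 0 := by exact_mod_cast (by omega : e ≠ 0)
    have hg0 : 0 < d.gcd e := Nat.gcd_pos_of_pos_left _ (by omega)
    have h2 : (Nat.lcm d e : ℝ) * (Nat.gcd d e : ℝ) = (d : ℝ) * e := by
      have := Nat.gcd_mul_lcm d e
      rw [mul_comm] at this
      exact_mod_cast this
    have hl0 : (Nat.lcm d e : ℝ) ≠ 0 := by
      exact_mod_cast (Nat.lcm_pos (by omega) (by omega)).ne'
    have h3 : ((d.gcd e : ℕ) : ℝ) = ∑ k ∈ (d.gcd e).divisors, (k.totient : ℝ) := by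
      exact_mod_cast (Nat.sum_totient (d.gcd e)).symm
    have h4 : ρ d * ρ e / (Nat.lcm d e : ℝ) =
        ((d.gcd e : ℕ) : ℝ) * (ρ d / d * (ρ e / e)) := by
      field_simp
      linear_combination (-(ρ d * ρ e)) * h2
    rw [h4, h3, Finset.sum_mul]
    have h5 : (d.gcd e).divisors = (Icc 1 L).filter (fun k => k ∣ d ∧ k ∣ e) := by
      ext k
      rw [Nat.mem_divisors, mem_filter, mem_Icc, Nat.dvd_gcd_iff]
      constructor
      · rintro ⟨⟨h6, h7⟩, _⟩
        exact ⟨⟨Nat.pos_of_dvd_of_pos h6 (by omega), (Nat.le_of_dvd (by omega) h6).trans hd.2⟩,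
          h6, h7⟩
      · rintro ⟨_, h6, h7⟩
        exact ⟨⟨h6, h7⟩, hg0.ne'⟩
    rw [h5, Finset.sum_filter]
    refine Finset.sum_congr rfl fun k _ => ?_
    by_cases h6 : k ∣ d
    · by_cases h7 : k ∣ e
      · simp [h6, h7]
      · simp [h6, h7]
    · simp [h6]
  have h2 : ∑ d ∈ Icc 1 L, ∑ e ∈ Icc 1 L, ρ d * ρ e / (Nat.lcm d e : ℝ) =
      ∑ k ∈ Icc 1 L, (k.totient : ℝ) *
        (∑ d ∈ Icc 1 L, (if k ∣ d then ρ d / (d : ℝ) else 0)) ^ 2 := by
    calc ∑ d ∈ Icc 1 L, ∑ e ∈ Icc 1 L, ρ d * ρ e / (Nat.lcm d e : ℝ)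
        = ∑ d ∈ Icc 1 L, ∑ e ∈ Icc 1 L, ∑ k ∈ Icc 1 L, (k.totient : ℝ) *
          ((if k ∣ d then ρ d / (d : ℝ) else 0) * (if k ∣ e then ρ e / (e : ℝ) else 0)) :=
          Finset.sum_congr rfl fun d hd => Finset.sum_congr rfl fun e he => h1 d hd e he
      _ = ∑ k ∈ Icc 1 L, ∑ d ∈ Icc 1 L, ∑ e ∈ Icc 1 L, (k.totient : ℝ) *
          ((if k ∣ d then ρ d / (d : ℝ) else 0) * (if k ∣ e then ρ e / (e : ℝ) else 0)) := by
          have : ∀ d ∈ Icc 1 L, ∑ e ∈ Icc 1 L, ∑ k ∈ Icc 1 L, (k.totient : ℝ) *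
            ((if k ∣ d then ρ d / (d : ℝ) else 0) * (if k ∣ e then ρ e / (e : ℝ) else 0)) =
            ∑ k ∈ Icc 1 L, ∑ e ∈ Icc 1 L, (k.totient : ℝ) *
            ((if k ∣ d then ρ d / (d : ℝ) else 0) * (if k ∣ e then ρ e / (e : ℝ) else 0)) :=
            fun d _ => Finset.sum_comm
          rw [Finset.sum_congr rfl this, Finset.sum_comm]
      _ = _ := by
          refine Finset.sum_congr rfl fun k _ => ?_
          rw [sq, Finset.sum_mul_sum, Finset.mul_sum]
          refine Finset.sum_congr rfl fun d _ => ?_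
          rw [Finset.mul_sum]
  rw [h2, sv_eq, ← hL]
  refine Finset.sum_congr rfl fun k hk => ?_
  rw [hy k hk]
  unfold sgM
  split_ifs with hkM
  · have hsq : Squarefree k := (mem_MM.1 hkM).2.2
    have h4 : (moebius k : ℝ) ^ 2 = 1 := by
      have := moebius_sq_eq_one_of_squarefree hsq
      exact_mod_cast this
    have h5 : (k.totient : ℝ) ≠ 0 := by
      rw [mem_Icc] at hk
      exact_mod_cast (Nat.totient_pos.2 (by omega)).ne'
    rw [mul_pow, h4]
    field_simp
  · ring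

theorem rv_SV (D q : ℕ) (hq : q.Prime) (hqD : q ≤ D) :
    SV (D / q) q (KK D) (sv D q) (rv D q) := by
  refine ⟨?_, ?_, ?_, ?_, ?_, ?_⟩
  · unfold rv sv
    have h1 : (MM D q).filter (fun m => 1 ∣ m) = MM D q := by
      apply Finset.filter_true_of_mem
      intro m _
      exact one_dvd m
    rw [h1]
    simp
  · unfold sv
    exact Finset.sum_nonneg fun _ _ => by positivity
  · intro d
    exact rv_bd D q d hq hqD
  · intro d hd
    by_contra h
    obtain ⟨hd0, hsq, m0, hm0, hdm0⟩ := rv_ne h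
    have hm0' := mem_MM.1 hm0
    apply hd
    rw [mem_Icc]
    exact ⟨Nat.pos_of_ne_zero hd0, (Nat.le_of_dvd (by omega) hdm0).trans hm0'.1.2⟩
  · intro d h p hp
    obtain ⟨hd0, hsq, m0, hm0, hdm0⟩ := rv_ne h
    have hm0' := mem_MM.1 hm0
    exact hm0'.2.1 p (Nat.primeFactors_mono hdm0 (by omega) hp)
  · exact (rv_diag D q).le

end Pool.Agent.H67.VT
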