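import Pool.Agent.H67.VT.Defs
import Pool.Agent.H67.VS.Cov

/-!
[H67 VT SPLIT]  Off-diagonal terms: reduction to the relative discrepancies `EE`.

Proof.  As in `Pool/Agent/H67/VS/Split.lean`.
`bq(n,k) = ∑_q ∑_{d ≤ D/q} ρ_q(d)/(q-1) ([d ∣ n+k] - q [d ∣ n+k][q ∣ n+k])`, only `d ∈ DD D q` matter
(`SV.small`), they are coprime to `q`, `[d ∣ .][q ∣ .] = [dq ∣ .]`; so
`∑_n w pl bq(n,k) = - ∑_q ∑_d ρ_q(d)/(q-1)^2 th d k - ∑_q ∑_d ρ_q(d) q/(q-1) EE d q k`.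
Sum over the at most `H^2` pairs.  `0 ≤ th d k ≤ log B * #{n ∈ (A,B] : d ∣ n+k} ≤ log B (B/d + 1)`,
`∑_{d ≤ D/q} (B/d + 1) ≤ B (1 + log B) + D ≤ B (2 + log B)`, `|ρ| ≤ K`, `q/(q-1) ≤ 2`.
-/

namespace Pool.Agent.H67.VT

open Finset Pool.Agent.H67.VS

private theorem sp_dvd {D d q : ℕ} (hd : d ∈ DD D q) (hq : q.Prime)
    (m : ℤ) : (((d * q : ℕ) : ℤ) ∣ m) ↔ ((d : ℤ) ∣ m ∧ (q : ℤ) ∣ m) := by
  unfold DD at hd
  rw [mem_filter, mem_Icc] at hd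
  have hcop : Nat.Coprime d q := by
    rw [Nat.coprime_comm, Nat.Prime.coprime_iff_not_dvd hq]
    intro h
    have := hd.2 q (Nat.mem_primeFactors.2 ⟨hq, h, by omega⟩)
    omega
  constructor
  · intro h
    rw [Nat.cast_mul] at h
    exact ⟨(Dvd.intro _ rfl).trans h, (Dvd.intro_left _ rfl).trans h⟩
  · rintro ⟨h1, h2⟩
    rw [Nat.cast_mul]
    exact IsCoprime.mul_dvd (Nat.isCoprime_iff_coprime.2 hcop) h1 h2

private theorem sp_FF {D q : ℕ} {K s : ℝ} {ρ : ℕ → ℝ} (hρ : SV (D / q) q K s ρ) (n : ℕ) (k : ℤ) :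
    FF ρ (D / q) n k = ∑ d ∈ DD D q, if (d : ℤ) ∣ (n : ℤ) + k then ρ d else 0 := by
  unfold FF
  symm
  refine Finset.sum_subset ?_ ?_
  · unfold DD
    exact filter_subset _ _
  · intro d hd hd'
    have h0 : ρ d = 0 := by
      by_contra h
      apply hd'
      unfold DD
      rw [mem_filter]
      exact ⟨hd, fun p hp => hρ.small d h p hp⟩
    rw [h0, ite_self]

private theorem sp_bq {D : ℕ} {ρ : ℕ → ℕ → ℝ} {s : ℕ → ℝ} {K : ℝ} {Q : Finset ℕ}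
    (hρ : ∀ q ∈ Q, SV (D / q) q K (s q) (ρ q)) (hQ : ∀ q ∈ Q, q.Prime ∧ q ≤ D)
    (n : ℕ) (k : ℤ) :
    bq ρ D Q n k = ∑ q ∈ Q, ∑ d ∈ DD D q, ρ q d / ((q : ℝ) - 1) *
      ((if (d : ℤ) ∣ (n : ℤ) + k then (1 : ℝ) else 0) -
        (q : ℝ) * (if ((d * q : ℕ) : ℤ) ∣ (n : ℤ) + k then (1 : ℝ) else 0)) := by
  unfold bq gk
  refine sum_congr rfl fun q hq => ?_
  rw [sp_FF (hρ q hq), sum_mul]
  refine sum_congr rfl fun d hd => ?_
  have h1 := sp_dvd hd (hQ q hq).1 ((n : ℤ) + k)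
  by_cases hA : (d : ℤ) ∣ (n : ℤ) + k
  · by_cases hB : (q : ℤ) ∣ (n : ℤ) + k
    · rw [if_pos hA, if_pos hB, if_pos hA, if_pos (h1.2 ⟨hA, hB⟩)]
      ring
    · rw [if_pos hA, if_neg hB, if_pos hA, if_neg (fun h => hB (h1.1 h).2)]
      ring
  · rw [if_neg hA, if_neg hA, if_neg (fun h => hA (h1.1 h).1)]
    ring

private theorem sp_sum {A B D : ℕ} {w : ℕ → ℝ} {ρ : ℕ → ℕ → ℝ} {s : ℕ → ℝ} {K : ℝ} {Q : Finset ℕ}
    (hρ : ∀ q ∈ Q, SV (D / q) q K (s q) (ρ q)) (hQ : ∀ q ∈ Q, q.Prime ∧ q ≤ D) (k : ℤ) :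
    ∑ n ∈ Ioc A B, w n * pl n * bq ρ D Q n k =
      -(∑ q ∈ Q, ∑ d ∈ DD D q, ρ q d / ((q : ℝ) - 1) ^ 2 * th A B w d k) -
      ∑ q ∈ Q, ∑ d ∈ DD D q, ρ q d * ((q : ℝ) / ((q : ℝ) - 1)) * EE A B w d q k := by
  have h1 : ∑ n ∈ Ioc A B, w n * pl n * bq ρ D Q n k = ∑ q ∈ Q, ∑ d ∈ DD D q,
      ρ q d / ((q : ℝ) - 1) * (th A B w d k - (q : ℝ) * th A B w (d * q) k) := by
    simp only [sp_bq hρ hQ, mul_sum]
    rw [sum_comm]
    refine sum_congr rfl fun q _ => ?_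
    rw [sum_comm]
    refine sum_congr rfl fun d _ => ?_
    unfold th
    rw [mul_sum, ← sum_sub_distrib, mul_sum]
    refine sum_congr rfl fun n _ => ?_
    split_ifs <;> ring
  rw [h1, ← sum_neg_distrib, ← sum_sub_distrib]
  refine sum_congr rfl fun q hq => ?_
  rw [← sum_neg_distrib, ← sum_sub_distrib]
  refine sum_congr rfl fun d _ => ?_
  have hq' : (2 : ℝ) ≤ q := by exact_mod_cast (hQ q hq).1.two_le
  have hq1 : (q : ℝ) - 1 ≠ 0 := by linarith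
  unfold EE
  field_simp
  ring

/-- counting a residue class -/
private theorem sp_count {A B d : ℕ} (hAB : A ≤ B) (hd : 1 ≤ d) (k : ℤ) :
    (((Ioc A B).filter (fun n : ℕ => (d : ℤ) ∣ (n : ℤ) + k)).card : ℝ) ≤ (B : ℝ) / d + 1 := by
  have hd0 : (0 : ℤ) < d := by exact_mod_cast hd
  obtain ⟨v, hv⟩ : ∃ v : ℕ, (d : ℤ) ∣ (v : ℤ) + k := by
    refine ⟨((-k) % (d : ℤ)).toNat, ?_⟩
    rw [Int.toNat_of_nonneg (Int.emod_nonneg _ hd0.ne')]
    have h := Int.emod_add_mul_ediv (-k) d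
    exact ⟨-((-k) / d), by linarith⟩
  have h1 : (Ioc A B).filter (fun n : ℕ => (d : ℤ) ∣ (n : ℤ) + k) =
      (Ioc A B).filter (fun n : ℕ => n ≡ v [MOD d]) := by
    refine filter_congr fun n _ => ?_
    rw [Nat.modEq_iff_dvd]
    have e : (v : ℤ) - n = ((v : ℤ) + k) - ((n : ℤ) + k) := by ring
    rw [e]
    exact (dvd_sub_right hv).symm
  rw [h1]
  have h2 := Nat.Ioc_filter_modEq_card A B (show 0 < d by omega) v
  have h3 : (((Ioc A B).filter (fun n : ℕ => n ≡ v [MOD d])).card : ℚ) ≤ (B : ℚ) / d + 1 := by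
    have h4 : (((Ioc A B).filter (fun n : ℕ => n ≡ v [MOD d])).card : ℚ) =
        ((max (⌊((B : ℚ) - v) / d⌋ - ⌊((A : ℚ) - v) / d⌋) 0 : ℤ) : ℚ) := by
      rw [← h2]
      rfl
    rw [h4]
    push_cast
    have hdq : (0 : ℚ) < d := by exact_mod_cast hd
    have hA0 : (0 : ℚ) ≤ (A : ℚ) / d := by positivity
    refine max_le ?_ (by positivity)
    have h5 := Int.floor_le (((B : ℚ) - v) / d)
    have h6 := Int.lt_floor_add_one (((A : ℚ) - v) / d)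
    have h7 : ((B : ℚ) - v) / d - ((A : ℚ) - v) / d = (B : ℚ) / d - (A : ℚ) / d := by ring
    linarith
  have h8 : ((((Ioc A B).filter (fun n : ℕ => n ≡ v [MOD d])).card : ℚ) : ℝ) ≤
      (((B : ℚ) / d + 1 : ℚ) : ℝ) := by exact_mod_cast h3
  push_cast at h8
  exact h8

private theorem sp_th {A B : ℕ} {w : ℕ → ℝ} (hw : Wt A B w) (hAB : A ≤ B) (hA : 1 ≤ A) {d : ℕ}
    (hd : 1 ≤ d) (k : ℤ) :
    0 ≤ th A B w d k ∧ th A B w d k ≤ Real.log B * ((B : ℝ) / d + 1) := by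
  have h0 : ∀ n, 0 ≤ w n * pl n := fun n => mul_nonneg (hw.nonneg n) (cov_pl_nonneg n)
  have hB1 : (1 : ℝ) ≤ B := by exact_mod_cast (le_trans hA hAB)
  have hlog : 0 ≤ Real.log B := Real.log_nonneg hB1
  unfold th
  constructor
  · refine sum_nonneg fun n _ => ?_
    split_ifs
    · exact h0 n
    · exact le_rfl
  · rw [← sum_filter]
    calc ∑ n ∈ (Ioc A B).filter (fun n : ℕ => (d : ℤ) ∣ (n : ℤ) + k), w n * pl n
        ≤ ∑ n ∈ (Ioc A B).filter (fun n : ℕ => (d : ℤ) ∣ (n : ℤ) + k), Real.log B := by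
          refine sum_le_sum fun n hn => ?_
          rw [mem_filter, mem_Ioc] at hn
          have h1 : pl n ≤ Real.log B := cov_pl_le (by exact_mod_cast hn.1.2) hB1
          calc w n * pl n ≤ 1 * Real.log B :=
                mul_le_mul (hw.le_one n) h1 (cov_pl_nonneg n) zero_le_one
            _ = Real.log B := one_mul _
      _ = ((Ioc A B).filter (fun n : ℕ => (d : ℤ) ∣ (n : ℤ) + k)).card * Real.log B := by
          rw [sum_const, nsmul_eq_mul]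
      _ ≤ ((B : ℝ) / d + 1) * Real.log B := by
          have := sp_count hAB hd k
          gcongr
      _ = Real.log B * ((B : ℝ) / d + 1) := mul_comm _ _

private theorem sp_harm {B D q : ℕ} (hq : 1 ≤ q) (hDB : D ≤ B) (hD : 1 ≤ D / q) :
    ∑ d ∈ DD D q, ((B : ℝ) / d + 1) ≤ B * (2 + Real.log B) := by
  have h1 : ∑ d ∈ DD D q, ((B : ℝ) / d + 1) ≤ ∑ d ∈ Icc 1 (D / q), ((B : ℝ) / d + 1) := by
    refine sum_le_sum_of_subset_of_nonneg ?_ fun d _ _ => by positivity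
    unfold DD
    exact filter_subset _ _
  refine h1.trans ?_
  have hDq : D / q ≤ B := (Nat.div_le_self _ _).trans hDB
  have hDqR : ((D / q : ℕ) : ℝ) ≤ B := by exact_mod_cast hDq
  rw [sum_add_distrib, sum_const, Nat.card_Icc, Nat.add_sub_cancel, nsmul_eq_mul, mul_one]
  have h2 : ∑ d ∈ Icc 1 (D / q), (B : ℝ) / d = B * ((harmonic (D / q) : ℚ) : ℝ) := by
    rw [harmonic_eq_sum_Icc]
    push_cast
    rw [mul_sum]
    refine sum_congr rfl fun d _ => ?_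
    rw [div_eq_mul_inv]
  have h3 := harmonic_le_one_add_log (D / q)
  have h4 : Real.log ((D / q : ℕ) : ℝ) ≤ Real.log B :=
    Real.log_le_log (by exact_mod_cast hD) hDqR
  rw [h2]
  have hB0 : (0 : ℝ) ≤ B := Nat.cast_nonneg B
  nlinarith

theorem split_bound2 {A B D H : ℕ} {w : ℕ → ℝ} {ρ : ℕ → ℕ → ℝ} {s : ℕ → ℝ} {K : ℝ}
    {Q : Finset ℕ} (hw : Wt A B w) (hAB : A ≤ B) (hA : 1 ≤ A) (hDA : D ≤ A) (hK : 0 ≤ K)
    (hρ : ∀ q ∈ Q, SV (D / q) q K (s q) (ρ q)) (hQ : ∀ q ∈ Q, q.Prime ∧ q ≤ D) :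
    |∑ p ∈ offd H, ∑ n ∈ Ioc A B, w n * pl n * bq ρ D Q n ((p.2 : ℤ) - (p.1 : ℤ))| ≤
      (H : ℝ) ^ 2 * K * (Real.log B * (B * (2 + Real.log B))) * ∑ q ∈ Q, 1 / ((q : ℝ) - 1) ^ 2 +
      2 * K * ∑ q ∈ Q, ∑ d ∈ DD D q, |∑ p ∈ offd H, EE A B w d q ((p.2 : ℤ) - (p.1 : ℤ))| := by
  have hDB : D ≤ B := hDA.trans hAB
  have hB1 : (1 : ℝ) ≤ B := by exact_mod_cast (le_trans hA hAB)
  have hlog : 0 ≤ Real.log B := Real.log_nonneg hB1
  have hX : 0 ≤ Real.log B * (B * (2 + Real.log B)) := by positivity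
  have h1 : ∑ p ∈ offd H, ∑ n ∈ Ioc A B, w n * pl n * bq ρ D Q n ((p.2 : ℤ) - (p.1 : ℤ)) =
      -(∑ p ∈ offd H, ∑ q ∈ Q, ∑ d ∈ DD D q, ρ q d / ((q : ℝ) - 1) ^ 2 *
        th A B w d ((p.2 : ℤ) - (p.1 : ℤ))) -
      ∑ q ∈ Q, ∑ d ∈ DD D q, ρ q d * ((q : ℝ) / ((q : ℝ) - 1)) *
        ∑ p ∈ offd H, EE A B w d q ((p.2 : ℤ) - (p.1 : ℤ)) := by
    rw [sum_congr rfl fun p _ => sp_sum hρ hQ ((p.2 : ℤ) - (p.1 : ℤ)), sum_sub_distrib,
      sum_neg_distrib]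
    congr 1
    rw [sum_comm]
    refine sum_congr rfl fun q _ => ?_
    rw [sum_comm]
    refine sum_congr rfl fun d _ => ?_
    rw [mul_sum]
  rw [h1]
  refine (abs_sub _ _).trans ?_
  rw [abs_neg]
  refine add_le_add ?_ ?_
  · refine (abs_sum_le_sum_abs _ _).trans ?_
    have h2 : ∀ p ∈ offd H, |∑ q ∈ Q, ∑ d ∈ DD D q, ρ q d / ((q : ℝ) - 1) ^ 2 *
        th A B w d ((p.2 : ℤ) - (p.1 : ℤ))| ≤
        K * (Real.log B * (B * (2 + Real.log B))) * ∑ q ∈ Q, 1 / ((q : ℝ) - 1) ^ 2 := by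
      intro p _
      rw [mul_sum]
      refine (abs_sum_le_sum_abs _ _).trans (sum_le_sum fun q hq => ?_)
      refine (abs_sum_le_sum_abs _ _).trans ?_
      have hq1 : 1 ≤ q := (hQ q hq).1.one_le
      have hDq : 1 ≤ D / q := (Nat.one_le_div_iff (hQ q hq).1.pos).2 (hQ q hq).2
      have h3 : ∀ d ∈ DD D q, |ρ q d / ((q : ℝ) - 1) ^ 2 * th A B w d ((p.2 : ℤ) - (p.1 : ℤ))| ≤
          K * Real.log B * (1 / ((q : ℝ) - 1) ^ 2) * ((B : ℝ) / d + 1) := by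
        intro d hd
        have hd1 : 1 ≤ d := by
          unfold DD at hd
          rw [mem_filter, mem_Icc] at hd
          exact hd.1.1
        obtain ⟨h4, h5⟩ := sp_th hw hAB hA hd1 ((p.2 : ℤ) - (p.1 : ℤ))
        rw [abs_mul, abs_div, abs_of_nonneg h4, abs_of_nonneg (sq_nonneg ((q : ℝ) - 1))]
        calc |ρ q d| / ((q : ℝ) - 1) ^ 2 * th A B w d ((p.2 : ℤ) - (p.1 : ℤ))
            = |ρ q d| * (th A B w d ((p.2 : ℤ) - (p.1 : ℤ)) * (1 / ((q : ℝ) - 1) ^ 2)) := by ring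
          _ ≤ K * ((Real.log B * ((B : ℝ) / d + 1)) * (1 / ((q : ℝ) - 1) ^ 2)) := by
              refine mul_le_mul ((hρ q hq).bd d)
                (mul_le_mul_of_nonneg_right h5 (by positivity)) ?_ hK
              exact mul_nonneg h4 (by positivity)
          _ = _ := by ring
      refine (sum_le_sum h3).trans ?_
      rw [← mul_sum]
      have h6 := sp_harm hq1 hDB hDq
      have h7 : 0 ≤ K * Real.log B * (1 / ((q : ℝ) - 1) ^ 2) := by positivity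
      calc K * Real.log B * (1 / ((q : ℝ) - 1) ^ 2) * ∑ d ∈ DD D q, ((B : ℝ) / d + 1)
          ≤ K * Real.log B * (1 / ((q : ℝ) - 1) ^ 2) * (B * (2 + Real.log B)) :=
            mul_le_mul_of_nonneg_left h6 h7
        _ = _ := by ring
    refine (sum_le_sum h2).trans ?_
    rw [sum_const, nsmul_eq_mul]
    have h6 : ((offd H).card : ℝ) ≤ (H : ℝ) ^ 2 := by
      have h7 : (offd H).card ≤ H ^ 2 := by
        unfold offd
        refine (card_filter_le _ _).trans (le_of_eq ?_)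
        rw [card_product, Nat.card_Icc, Nat.add_sub_cancel, sq]
      exact_mod_cast h7
    have h8 : 0 ≤ K * (Real.log B * (B * (2 + Real.log B))) * ∑ q ∈ Q, 1 / ((q : ℝ) - 1) ^ 2 :=
      mul_nonneg (mul_nonneg hK hX) (sum_nonneg fun q _ => by positivity)
    refine (mul_le_mul_of_nonneg_right h6 h8).trans (le_of_eq (by ring))
  · refine (abs_sum_le_sum_abs _ _).trans ?_
    rw [mul_sum]
    refine sum_le_sum fun q hq => ?_
    refine (abs_sum_le_sum_abs _ _).trans ?_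
    rw [mul_sum]
    refine sum_le_sum fun d _ => ?_
    have hq' : (2 : ℝ) ≤ q := by exact_mod_cast (hQ q hq).1.two_le
    have hq1 : (0 : ℝ) < (q : ℝ) - 1 := by linarith
    rw [abs_mul]
    refine mul_le_mul_of_nonneg_right ?_ (abs_nonneg _)
    rw [abs_mul, abs_of_nonneg (div_nonneg (by linarith) hq1.le)]
    have h9 : (q : ℝ) / ((q : ℝ) - 1) ≤ 2 := by
      rw [div_le_iff₀ hq1]
      linarith
    calc |ρ q d| * ((q : ℝ) / ((q : ℝ) - 1)) ≤ K * 2 :=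
          mul_le_mul ((hρ q hq).bd d) h9 (div_nonneg (by linarith) hq1.le) hK
      _ = 2 * K := by ring

end Pool.Agent.H67.VT
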