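import Pool.Agent.H67.VT.Dy
import Pool.Agent.H67.VT.CharS
import Pool.Agent.H67.VT.Split
import Pool.Agent.H67.VT.Sel

/-!
[H67 VT KEY]  The off-diagonal part of the covariance is negligible.

Proof.  `split_bound2` with `ρ = rv D`, `s = sv D`, `K = KK D`, `D = Dv ε X`, `Q = Qv ε X` (`rv_SV`), then
`char_sum2` with `Z = Zv ε X` and `dyad` for each `f` (`κ = kap H f`, `|kap| ≤ H`), `∑_f 1/φ(f) ≤ (2 + 2 log D)^2`
(`sum_phi`).  First term: `∑ 1/(q-1)^2 ≤ 2/Z` (`sum_inv`), so it is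
`≤ X^(2ε) KK log B (B (2 + log B)) 4 X^(-6ε) ≤ X^(1 - 28ε/10)/2`; second: `4 KK (2+2 log D)^2 X^(1-29ε/10)
≤ X^(1-28ε/10)/2`.  (`D ≤ A`, `H ≤ q`: `H ≤ X^ε < q`, as `q > X^(6ε) - 1`.)
-/

namespace Pool.Agent.H67.VT

open Finset Filter Pool.Agent.H21.MT Pool.Agent.H67.VS

theorem key2_log (ε : ℝ) (hε : 0 < ε) :
    ∀ᶠ X : ℝ in atTop, 3 * (2 + 2 * Real.log X) ≤ X ^ (ε / 50) := by
  have hε' : 0 < ε / 50 := by positivity
  have h1 := (isLittleO_log_rpow_atTop hε').bound (show (0 : ℝ) < 1 / 12 by norm_num)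
  have h2 := (tendsto_rpow_atTop hε').eventually_ge_atTop 12
  filter_upwards [h1, h2, eventually_ge_atTop (1 : ℝ)] with X h1 h2 hX
  have hX0 : 0 < X := by linarith
  rw [Real.norm_eq_abs, Real.norm_eq_abs, abs_of_nonneg (Real.log_nonneg hX),
    abs_of_nonneg (Real.rpow_nonneg hX0.le _)] at h1
  linarith

theorem key2 (ε : ℝ) (hε : 0 < ε) (hε2 : ε ≤ 1 / 50) :
    ∀ᶠ X : ℝ in atTop, ∀ y δ : ℝ, X ≤ y → y ≤ 2 * X → X ^ (-2 * ε) ≤ δ → δ ≤ 1 / 2 →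
    ∀ H : ℕ, 1 ≤ H → (H : ℝ) ≤ X ^ ε →
    |∑ p ∈ offd H, ∑ n ∈ Ioc (Ax X) (Bx X), hat y δ n * pl n *
        bq (rv (Dv ε X)) (Dv ε X) (Qv ε X) n ((p.2 : ℤ) - (p.1 : ℤ))| ≤
      X ^ (1 - 28 / 10 * ε) := by
  classical
  have e1 := (tendsto_rpow_atTop (show (0 : ℝ) < 6 * ε by positivity)).eventually_ge_atTop 2
  filter_upwards [dyad ε hε hε2, key2_log ε hε, e1, eventually_ge_atTop (4 : ℝ)] with X hdy hlog he1 hX
  intro y δ hy1 hy2 hδ hδ2 H hH hHX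
  have hX0 : (0 : ℝ) < X := by linarith
  have hX1 : (1 : ℝ) ≤ X := by linarith
  have hδ0 : 0 < δ := lt_of_lt_of_le (Real.rpow_pos_of_pos hX0 _) hδ
  have hw := hat_wt X y δ (by linarith) hy1 hy2 hδ0 hδ2
  have hmono : ∀ a b : ℝ, a ≤ b → X ^ a ≤ X ^ b := fun a b hab =>
    Real.rpow_le_rpow_of_exponent_le hX1 hab
  set D := Dv ε X with hDdef
  set Z := Zv ε X with hZdef
  set Q := Qv ε X with hQdef
  -- sizes
  have hDle : (D : ℝ) ≤ X ^ (1 / 2 - 15 * ε) := Nat.floor_le (Real.rpow_nonneg hX0.le _)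
  have hhalf : X ^ (1 / 2 : ℝ) ≤ X / 2 := by
    have h1 : X ^ (1 / 2 : ℝ) * X ^ (1 / 2 : ℝ) = X := by
      rw [← Real.rpow_add hX0]
      norm_num
    have h2 : 0 ≤ X ^ (1 / 2 : ℝ) := Real.rpow_nonneg hX0.le _
    have h3 : 2 ≤ X ^ (1 / 2 : ℝ) := by nlinarith
    nlinarith
  have hDhalf : X ^ (1 / 2 - 15 * ε) ≤ X / 2 :=
    (hmono _ _ (by linarith)).trans hhalf
  have hDA : D ≤ Ax X := Nat.floor_le_floor hDhalf
  have hD1 : 1 ≤ D := by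
    rw [hDdef, Dv]
    refine Nat.le_floor ?_
    rw [Nat.cast_one]
    have := hmono 0 (1 / 2 - 15 * ε) (by linarith)
    rwa [Real.rpow_zero] at this
  have hA1 : 1 ≤ Ax X := hD1.trans hDA
  have hAB : Ax X ≤ Bx X := Nat.floor_le_floor (by linarith)
  have hDX : (D : ℝ) ≤ X := by
    have : X ^ (1 / 2 - 15 * ε) ≤ X / 2 := hDhalf
    linarith
  have hBle : ((Bx X : ℕ) : ℝ) ≤ 4 * X := Nat.floor_le (by linarith)
  have hB1 : (1 : ℝ) ≤ ((Bx X : ℕ) : ℝ) := by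
    have : 1 ≤ Bx X := hA1.trans hAB
    exact_mod_cast this
  have hZle : X ^ (6 * ε) / 2 ≤ (Z : ℝ) := by
    have := Nat.lt_floor_add_one (X ^ (6 * ε))
    rw [hZdef, Zv]
    linarith
  have hZ1 : 1 ≤ Z := by
    rw [hZdef, Zv]
    refine Nat.le_floor ?_
    rw [Nat.cast_one]
    linarith
  have hQ : ∀ q ∈ Q, q.Prime ∧ X ^ (6 * ε) < q ∧ Z < q ∧ q ≤ D := by
    intro q hq
    rw [hQdef, Qv, Finset.mem_filter, Finset.mem_Ioc] at hq
    exact ⟨hq.2, (Nat.floor_lt (Real.rpow_nonneg hX0.le _)).1 hq.1.1, hq.1.1, hq.1.2⟩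
  have hlX : 0 ≤ Real.log X := Real.log_nonneg hX1
  set ℓ : ℝ := 2 + 2 * Real.log X with hℓ
  have hℓ2 : 2 ≤ ℓ := by rw [hℓ]; linarith
  have hlD : 2 + 2 * Real.log D ≤ ℓ := by
    have : Real.log D ≤ Real.log X := Real.log_le_log (by exact_mod_cast hD1) hDX
    rw [hℓ]; linarith
  have hlD0 : 0 ≤ 2 + 2 * Real.log D := by
    have : 0 ≤ Real.log (D : ℝ) := Real.log_nonneg (by exact_mod_cast hD1)
    linarith
  have hK : KK D ≤ ℓ ^ 3 := by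
    unfold KK
    exact pow_le_pow_left₀ hlD0 hlD 3
  have hK0 : 0 ≤ KK D := by
    unfold KK
    positivity
  have hlB : Real.log (Bx X : ℝ) ≤ ℓ := by
    have h1 : Real.log (Bx X : ℝ) ≤ Real.log (4 * X) := Real.log_le_log (by linarith) hBle
    have h2 : Real.log (4 * X) = Real.log 4 + Real.log X :=
      Real.log_mul (by norm_num) hX0.ne'
    have h3 : Real.log 4 ≤ 2 := by
      have : Real.log 4 = 2 * Real.log 2 := by
        rw [show (4 : ℝ) = 2 ^ 2 by norm_num, Real.log_pow]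
        push_cast; ring
      rw [this]
      have := Real.log_two_lt_d9
      linarith
    rw [hℓ]
    linarith
  have hlB0 : 0 ≤ Real.log (Bx X : ℝ) := Real.log_nonneg hB1
  -- the two bounds
  have hsplit := split_bound2 (A := Ax X) (B := Bx X) (D := D) (H := H) (w := hat y δ)
    (ρ := rv D) (s := sv D) (K := KK D) (Q := Q) hw hAB hA1 hDA hK0
    (fun q hq => rv_SV D q (hQ q hq).1 (hQ q hq).2.2.2) (fun q hq => ⟨(hQ q hq).1, (hQ q hq).2.2.2⟩)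
  have hchar := char_sum2 (A := Ax X) (B := Bx X) (D := D) (Z := Z) (H := H) (w := hat y δ)
    (Q := Q) hDA (by
      intro q hq
      refine ⟨(hQ q hq).1, (hQ q hq).2.2.1, ?_, (hQ q hq).2.2.2⟩
      have h1 := (hQ q hq).2.1
      have h2 := hmono ε (6 * ε) (by linarith)
      have : (H : ℝ) ≤ q := by linarith
      exact_mod_cast this)
  have hd : ∀ f : ℕ, ∑ c ∈ (PC D).filter (fun c => Z < c.md), 1 / (c.md.totient : ℝ) *
      (‖ThC (Ax X) (Bx X) (hat y δ) c.2‖ * ‖KC H (kap H f) c.2‖) ≤ X ^ (1 - 29 / 10 * ε) := by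
    intro f
    have h1 := hdy y δ hy1 hy2 hδ hδ2 H hH hHX (fun k => if k < H then kap H f k else 0) (by
      intro k
      show |(if k < H then kap H f k else 0)| ≤ (H : ℝ)
      by_cases hk : k < H
      · rw [if_pos hk]
        unfold kap
        have hk' : (k : ℝ) < H := by exact_mod_cast hk
        have hk0 : (0 : ℝ) ≤ k := Nat.cast_nonneg k
        split_ifs
        · rw [abs_le]
          constructor <;> linarith
        · rw [abs_zero]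
          linarith
      · rw [if_neg hk, abs_zero]
        exact Nat.cast_nonneg H)
    refine le_trans (le_of_eq ?_) h1
    refine Finset.sum_congr rfl (fun c _ => ?_)
    congr 3
    unfold KC
    refine Finset.sum_congr rfl (fun k hk => ?_)
    simp only [if_pos (Finset.mem_Ico.1 hk).2]
  have hsum2 : ∑ f ∈ Icc 1 D, 1 / (f.totient : ℝ) *
      ∑ c ∈ (PC D).filter (fun c => Z < c.md), 1 / (c.md.totient : ℝ) *
      (‖ThC (Ax X) (Bx X) (hat y δ) c.2‖ * ‖KC H (kap H f) c.2‖) ≤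
      ℓ ^ 2 * X ^ (1 - 29 / 10 * ε) := by
    have h1 : ∑ f ∈ Icc 1 D, 1 / (f.totient : ℝ) *
        ∑ c ∈ (PC D).filter (fun c => Z < c.md), 1 / (c.md.totient : ℝ) *
        (‖ThC (Ax X) (Bx X) (hat y δ) c.2‖ * ‖KC H (kap H f) c.2‖) ≤
        ∑ f ∈ Icc 1 D, 1 / (f.totient : ℝ) * X ^ (1 - 29 / 10 * ε) :=
      Finset.sum_le_sum (fun f _ => mul_le_mul_of_nonneg_left (hd f) (by positivity))
    refine h1.trans ?_
    rw [← Finset.sum_mul]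
    refine mul_le_mul_of_nonneg_right ?_ (Real.rpow_nonneg hX0.le _)
    exact (sum_phi D hD1).trans (pow_le_pow_left₀ hlD0 hlD 2)
  have hsecond : 2 * KK D * ∑ q ∈ Q, ∑ d ∈ DD D q,
      |∑ p ∈ offd H, EE (Ax X) (Bx X) (hat y δ) d q ((p.2 : ℤ) - (p.1 : ℤ))| ≤
      4 * ℓ ^ 5 * X ^ (1 - 29 / 10 * ε) := by
    have h1 : ∑ q ∈ Q, ∑ d ∈ DD D q,
        |∑ p ∈ offd H, EE (Ax X) (Bx X) (hat y δ) d q ((p.2 : ℤ) - (p.1 : ℤ))| ≤
        2 * (ℓ ^ 2 * X ^ (1 - 29 / 10 * ε)) :=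
      hchar.trans (mul_le_mul_of_nonneg_left hsum2 (by norm_num))
    have h2 : 0 ≤ ℓ ^ 2 * X ^ (1 - 29 / 10 * ε) := by positivity
    calc _ ≤ 2 * KK D * (2 * (ℓ ^ 2 * X ^ (1 - 29 / 10 * ε))) :=
          mul_le_mul_of_nonneg_left h1 (by positivity)
      _ ≤ 2 * ℓ ^ 3 * (2 * (ℓ ^ 2 * X ^ (1 - 29 / 10 * ε))) :=
          mul_le_mul_of_nonneg_right (by linarith) (by positivity)
      _ = _ := by ring
  have hsq : ∑ q ∈ Q, (1 : ℝ) / ((q : ℝ) - 1) ^ 2 ≤ 4 * X ^ (-(6 * ε)) := by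
    have h1 : ∑ q ∈ Q, (1 : ℝ) / ((q : ℝ) - 1) ^ 2 ≤ 2 / (Z : ℝ) := sum_inv Z D hZ1
    refine h1.trans ?_
    rw [Real.rpow_neg hX0.le]
    have hp : 0 < X ^ (6 * ε) := Real.rpow_pos_of_pos hX0 _
    have h2 : 2 / (Z : ℝ) ≤ 2 / (X ^ (6 * ε) / 2) :=
      div_le_div_of_nonneg_left (by norm_num) (by positivity) hZle
    refine h2.trans (le_of_eq ?_)
    field_simp
    norm_num
  have hsq0 : 0 ≤ ∑ q ∈ Q, (1 : ℝ) / ((q : ℝ) - 1) ^ 2 :=
    Finset.sum_nonneg (fun q _ => by positivity)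
  have hHH : (H : ℝ) ^ 2 ≤ X ^ (2 * ε) := by
    have h1 : (H : ℝ) ^ 2 ≤ (X ^ ε) ^ 2 := pow_le_pow_left₀ (Nat.cast_nonneg _) hHX 2
    have h2 : (X ^ ε) ^ 2 = X ^ (2 * ε) := by
      rw [← Real.rpow_natCast, ← Real.rpow_mul hX0.le]
      congr 1
      push_cast; ring
    rwa [h2] at h1
  have hfirst : (H : ℝ) ^ 2 * KK D * (Real.log (Bx X) * (Bx X * (2 + Real.log (Bx X)))) *
      ∑ q ∈ Q, (1 : ℝ) / ((q : ℝ) - 1) ^ 2 ≤ 32 * ℓ ^ 5 * X ^ (1 - 29 / 10 * ε) := by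
    have hℓ0 : 0 ≤ ℓ := by linarith
    have h1 : (H : ℝ) ^ 2 * KK D ≤ X ^ (2 * ε) * ℓ ^ 3 :=
      mul_le_mul hHH hK hK0 (Real.rpow_nonneg hX0.le _)
    have h2 : Real.log (Bx X) * (Bx X * (2 + Real.log (Bx X))) ≤ ℓ * (4 * X * (2 * ℓ)) := by
      refine mul_le_mul hlB ?_ (by positivity) hℓ0
      exact mul_le_mul hBle (by linarith) (by positivity) (by positivity)
    have h3 : (H : ℝ) ^ 2 * KK D * (Real.log (Bx X) * (Bx X * (2 + Real.log (Bx X)))) ≤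
        X ^ (2 * ε) * ℓ ^ 3 * (ℓ * (4 * X * (2 * ℓ))) :=
      mul_le_mul h1 h2 (by positivity) (by positivity)
    calc _ ≤ X ^ (2 * ε) * ℓ ^ 3 * (ℓ * (4 * X * (2 * ℓ))) * (4 * X ^ (-(6 * ε))) :=
          mul_le_mul h3 hsq hsq0 (by positivity)
      _ = 32 * ℓ ^ 5 * (X ^ (2 * ε) * X ^ (1 : ℝ) * X ^ (-(6 * ε))) := by
          rw [Real.rpow_one]
          ring
      _ = 32 * ℓ ^ 5 * X ^ (1 - 4 * ε) := by
          rw [← Real.rpow_add hX0, ← Real.rpow_add hX0]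
          congr 2
          ring
      _ ≤ _ := mul_le_mul_of_nonneg_left (hmono _ _ (by linarith)) (by positivity)
  refine hsplit.trans ((add_le_add hfirst hsecond).trans ?_)
  have hℓ0 : 0 ≤ ℓ := by linarith
  have h5 : 36 * ℓ ^ 5 ≤ X ^ (ε / 10) := by
    have h1 : (3 * ℓ) ^ 5 ≤ (X ^ (ε / 50)) ^ 5 := pow_le_pow_left₀ (by positivity) hlog 5
    have h2 : (X ^ (ε / 50)) ^ 5 = X ^ (ε / 10) := by
      rw [← Real.rpow_natCast, ← Real.rpow_mul hX0.le]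
      congr 1
      push_cast; ring
    rw [h2] at h1
    have h3 : 0 ≤ ℓ ^ 5 := by positivity
    have h4 : (3 * ℓ) ^ 5 = 243 * ℓ ^ 5 := by ring
    rw [h4] at h1
    linarith
  have hfin : X ^ (1 - 28 / 10 * ε) = X ^ (ε / 10) * X ^ (1 - 29 / 10 * ε) := by
    rw [← Real.rpow_add hX0]
    congr 1
    ring
  rw [hfin]
  calc 32 * ℓ ^ 5 * X ^ (1 - 29 / 10 * ε) + 4 * ℓ ^ 5 * X ^ (1 - 29 / 10 * ε)
      = (36 * ℓ ^ 5) * X ^ (1 - 29 / 10 * ε) := by ring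
    _ ≤ _ := mul_le_mul_of_nonneg_right h5 (Real.rpow_nonneg hX0.le _)

end Pool.Agent.H67.VT
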