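import Pool.Agent.H67.VS.Ty2
import Pool.Agent.H67.VT.Defs
import Pool.Agent.H67.VT.Bil

/-!
[H67 VT TY2]  The type II sum over all primitive characters, sharp form.

Proof.  As in `Pool/Agent/H67/VS/Ty2.lean` (use its lemmas `ty2_mset`, `ty2_kset`, `ty2_mlen`,
`ty2_klen`, `ty2_shape`, and `VS.sep_sum`; replace `ty2_height`).
`ty2_hgt`: fix `s ∈ [log u, log(y/u) + δ]`, `E = exp s`, `z = y/E`.  The `m` form an interval with
`M2 ≤ E`, `M2 - M1 ≤ 2 δ E`, the `k` an interval with `N2 - N1 ≤ 4 δ z`, `4 δ ≤ 2`.  `bil2` with `a0 = 1`,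
`b0 = log B`: at most
`C log B sqrt((H E + R^2) H^4 2 δ E) sqrt((2 z + R^2) 4 δ z)
 ≤ C log B 3 δ H^2 sqrt(E z) sqrt(H (E + R^2)(2 z + R^2))`  (`H ≥ 1`),
`E z = y`, `(E + R^2)(2z + R^2) = 2y + R^2 E + 2 R^2 z + R^4 ≤ 2y + 6 R^2 y/u + R^4`
(`E ≤ (y/u) exp δ ≤ 2 y/u`, `z ≤ y/u`), its square root is `≤ 2 sqrt y + 3 R sqrt(y/u) + R^2`.  So
`≤ 9 C δ log B H^2 sqrt H (y + R y/sqrt u + R^2 sqrt y)`.
`ty22`: `sep_sum` with `S1 = log u`, `S2 = log(y/u) + δ`, `S2 - S1 ≤ 2 log X`; total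
`≤ 18 C log(4X) log X H^(5/2) (y + R y/sqrt u + R^2 sqrt y)`, `y ≤ 2X`, `sqrt u ≥ X^(6ε)/2`,
`H^(5/2) ≤ X^(5ε/2)`; compare with `(1/2) R X^(1-3ε)`:
`X^(1+5ε/2) ≤ X^(-ε/2) R 2 X^(1-3ε)` as `R ≥ X^(6ε)/2`; `R X^(1 - 6ε + 5ε/2) = R X^(1 - 7ε/2)`;
`R^2 X^(1/2 + 5ε/2) ≤ 2 R X^(1 - 25ε/2)`; the powers of `log` are absorbed by `X^(ε/4)`.
-/

namespace Pool.Agent.H67.VT

open Finset Filter Pool.Agent.H21.MT Pool.Agent.H67.VS

theorem ty2_hgt : ∃ C : ℝ, 0 < C ∧ ∀ (R u B H : ℕ) (y s δ : ℝ), 0 < y → 1 ≤ u → 0 < δ → δ ≤ 1 / 2 →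
    1 ≤ H → 1 ≤ B → 1 ≤ δ * u → Real.log u ≤ s → s ≤ Real.log (y / u) + δ →
    ∀ κ : ℕ → ℝ, (∀ k, |κ k| ≤ H) → ∀ a b : ℕ → ℝ, (∀ m, |a m| ≤ 1) →
    (∀ k : ℕ, |b k| ≤ Real.log k) →
    ∑ c ∈ PC R,
      ‖∑ m ∈ Ioc u B, if Real.log m ≤ s ∧ s < Real.log m + δ then
        ((a m : ℝ) : ℂ) * c.2 (m : ZMod (c.1.val + 1)) else 0‖ *
      ‖∑ k ∈ Ioc u B, if Real.log (y / k) ≤ s ∧ s < Real.log (y / k) + δ then
        ((b k : ℝ) : ℂ) * c.2 (k : ZMod (c.1.val + 1)) else 0‖ * ‖KC H κ c.2‖ ≤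
      9 * C * δ * Real.log B * ((H : ℝ) ^ 2 * Real.sqrt H) *
        (y + R * y / Real.sqrt u + (R : ℝ) ^ 2 * Real.sqrt y) := by
  obtain ⟨C, hC, hbil⟩ := bil2
  refine ⟨C, hC, ?_⟩
  intro R u B H y s δ hy hu hδ hδ2 hH hB hδu hs1 hs2 κ hκ a b ha hb
  set M1 := max u ⌊Real.exp (s - δ)⌋₊ with hM1
  set M2 := max M1 (min B ⌊Real.exp s⌋₊) with hM2
  set N1 := max u (⌈y * Real.exp (-s)⌉₊ - 1) with hN1
  set N2 := max N1 (min B (⌈y * Real.exp (-s) * Real.exp δ⌉₊ - 1)) with hN2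
  have e1 : (Ioc u B).filter (fun m : ℕ => Real.log m ≤ s ∧ s < Real.log m + δ) = Ioc M1 M2 :=
    ty2_mset u B s δ
  have e2 : (Ioc u B).filter
      (fun k : ℕ => Real.log (y / k) ≤ s ∧ s < Real.log (y / k) + δ) = Ioc N1 N2 :=
    ty2_kset u B y s δ hy
  have hM : M1 ≤ M2 := le_max_left _ _
  have hN : N1 ≤ N2 := le_max_left _ _
  have hlogB : 0 ≤ Real.log B := Real.log_nonneg (by exact_mod_cast hB)
  have hb2 : ∀ k ∈ Ioc N1 N2, ‖((b k : ℝ) : ℂ)‖ ≤ Real.log B := by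
    intro k hk
    rw [← e2, mem_filter, mem_Ioc] at hk
    rw [Complex.norm_real, Real.norm_eq_abs]
    refine (hb k).trans (Real.log_le_log ?_ ?_)
    · exact_mod_cast (by omega : 0 < k)
    · exact_mod_cast hk.1.2
  have ha2 : ∀ m ∈ Ioc M1 M2, ‖((a m : ℝ) : ℂ)‖ ≤ 1 := by
    intro m _
    rw [Complex.norm_real, Real.norm_eq_abs]
    exact ha m
  have key := hbil R M1 M2 N1 N2 H hM hN (fun m => ((a m : ℝ) : ℂ)) (fun k => ((b k : ℝ) : ℂ)) κ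
    1 (Real.log B) zero_le_one hlogB ha2 hb2 hκ
  obtain ⟨l1, l2⟩ := ty2_mlen u B s δ hu hδ hδu hs1
  obtain ⟨l3, l4⟩ := ty2_klen u B y s δ hy hu hδ hδ2 hδu hs2
  rw [← hM1] at l1 l2
  rw [← hM2] at l1 l2
  rw [← hN1] at l4
  rw [← hN2] at l4
  set E := Real.exp s with hE
  set z := y * Real.exp (-s) with hz
  have hu0 : (0 : ℝ) < u := by exact_mod_cast hu
  have huE : (u : ℝ) ≤ E := (Real.log_le_iff_le_exp hu0).1 hs1
  have hE0 : 0 < E := Real.exp_pos _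
  have hz0 : 0 < z := mul_pos hy (Real.exp_pos _)
  have hEz : E * z = y := by
    rw [hE, hz, mul_comm y, ← mul_assoc, ← Real.exp_add]
    simp
  have hH1 : (1 : ℝ) ≤ H := by exact_mod_cast hH
  have hMM : (0 : ℝ) ≤ (M2 : ℝ) - M1 := by
    have : (M1 : ℝ) ≤ M2 := by exact_mod_cast hM
    linarith
  have hNN : (0 : ℝ) ≤ (N2 : ℝ) - N1 := by
    have : (N1 : ℝ) ≤ N2 := by exact_mod_cast hN
    linarith
  have hR0 : (0 : ℝ) ≤ R := Nat.cast_nonneg R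
  have hzu : z ≤ y / u := by
    rw [le_div_iff₀ hu0, ← hEz, mul_comm E z]
    exact mul_le_mul_of_nonneg_left huE hz0.le
  have hEu : E ≤ 2 * (y / u) := by
    have h1 : E ≤ Real.exp (Real.log (y / u) + δ) := Real.exp_le_exp.2 hs2
    rw [Real.exp_add, Real.exp_log (div_pos hy hu0)] at h1
    have h2 : Real.exp δ ≤ 2 := by
      have h := Real.abs_exp_sub_one_sub_id_le (x := δ) (by rw [abs_of_pos hδ]; linarith)
      have h1 := (abs_le.1 h).2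
      nlinarith
    have h3 : 0 ≤ y / u := (div_pos hy hu0).le
    calc E ≤ y / u * Real.exp δ := h1
      _ ≤ y / u * 2 := mul_le_mul_of_nonneg_left h2 h3
      _ = _ := by ring
  have b1 : ((H : ℝ) * M2 + (R : ℝ) ^ 2) * ((H : ℝ) ^ 4 * ((M2 : ℝ) - M1)) ≤
      (H * (E + (R : ℝ) ^ 2)) * ((H : ℝ) ^ 4 * (2 * δ * E)) := by
    apply mul_le_mul
    · have h1 : (H : ℝ) * M2 ≤ H * E := mul_le_mul_of_nonneg_left l1 (by positivity)
      have h2 : (R : ℝ) ^ 2 ≤ H * (R : ℝ) ^ 2 := le_mul_of_one_le_left (by positivity) hH1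
      linarith
    · exact mul_le_mul_of_nonneg_left l2 (by positivity)
    · positivity
    · positivity
  have b2 : ((N2 : ℝ) - N1 + (R : ℝ) ^ 2) * ((N2 : ℝ) - N1) ≤
      (2 * z + (R : ℝ) ^ 2) * (4 * δ * z) := by
    apply mul_le_mul
    · have : 4 * δ * z ≤ 2 * z := by nlinarith
      linarith
    · exact l4
    · exact hNN
    · positivity
  have hsu : 0 < Real.sqrt u := Real.sqrt_pos.2 hu0
  have hsu2 : Real.sqrt u ^ 2 = u := Real.sq_sqrt hu0.le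
  have hsy2 : Real.sqrt y ^ 2 = y := Real.sq_sqrt hy.le
  have hsH2 : Real.sqrt H ^ 2 = H := Real.sq_sqrt (by linarith)
  have b3 : Real.sqrt ((H * (E + (R : ℝ) ^ 2)) * ((H : ℝ) ^ 4 * (2 * δ * E))) *
      Real.sqrt ((2 * z + (R : ℝ) ^ 2) * (4 * δ * z)) ≤
      9 * δ * ((H : ℝ) ^ 2 * Real.sqrt H) *
        (y + R * y / Real.sqrt u + (R : ℝ) ^ 2 * Real.sqrt y) := by
    rw [← Real.sqrt_mul (by positivity)]
    have hQ0 : 0 ≤ 9 * δ * ((H : ℝ) ^ 2 * Real.sqrt H) *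
        (y + R * y / Real.sqrt u + (R : ℝ) ^ 2 * Real.sqrt y) := by positivity
    rw [← Real.sqrt_sq hQ0]
    apply Real.sqrt_le_sqrt
    have h1 : (H * (E + (R : ℝ) ^ 2)) * ((H : ℝ) ^ 4 * (2 * δ * E)) *
        ((2 * z + (R : ℝ) ^ 2) * (4 * δ * z)) =
        (8 * δ ^ 2 * (H : ℝ) ^ 5 * (E * z)) * (2 * (E * z) + (R : ℝ) ^ 2 * E +
          2 * (R : ℝ) ^ 2 * z + (R : ℝ) ^ 4) := by ring
    have h2 : 2 * (E * z) + (R : ℝ) ^ 2 * E + 2 * (R : ℝ) ^ 2 * z + (R : ℝ) ^ 4 ≤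
        2 * y + 4 * (R : ℝ) ^ 2 * (y / u) + (R : ℝ) ^ 4 := by
      rw [hEz]
      have h3 : (R : ℝ) ^ 2 * E ≤ (R : ℝ) ^ 2 * (2 * (y / u)) :=
        mul_le_mul_of_nonneg_left hEu (by positivity)
      have h4 : 2 * (R : ℝ) ^ 2 * z ≤ 2 * (R : ℝ) ^ 2 * (y / u) :=
        mul_le_mul_of_nonneg_left hzu (by positivity)
      linarith
    have h5 : (9 * δ * ((H : ℝ) ^ 2 * Real.sqrt H) *
        (y + R * y / Real.sqrt u + (R : ℝ) ^ 2 * Real.sqrt y)) ^ 2 =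
        81 * δ ^ 2 * (H : ℝ) ^ 5 * (y + R * y / Real.sqrt u + (R : ℝ) ^ 2 * Real.sqrt y) ^ 2 := by
      rw [mul_pow, mul_pow, mul_pow, mul_pow, hsH2]
      ring
    have h6 : y * (2 * y + 4 * (R : ℝ) ^ 2 * (y / u) + (R : ℝ) ^ 4) ≤
        4 * (y + R * y / Real.sqrt u + (R : ℝ) ^ 2 * Real.sqrt y) ^ 2 := by
      have g1 : 0 ≤ R * y / Real.sqrt u := by positivity
      have g2 : 0 ≤ (R : ℝ) ^ 2 * Real.sqrt y := by positivity
      have g3 : (R * y / Real.sqrt u) ^ 2 = (R : ℝ) ^ 2 * y * (y / u) := by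
        rw [div_pow, hsu2]
        ring
      have g4 : ((R : ℝ) ^ 2 * Real.sqrt y) ^ 2 = (R : ℝ) ^ 4 * y := by
        rw [mul_pow, hsy2]
        ring
      have g5 : 0 ≤ y * (R * y / Real.sqrt u) := by positivity
      have g6 : 0 ≤ y * ((R : ℝ) ^ 2 * Real.sqrt y) := by positivity
      have g7 : 0 ≤ (R * y / Real.sqrt u) * ((R : ℝ) ^ 2 * Real.sqrt y) := by positivity
      have g8 : (y + R * y / Real.sqrt u + (R : ℝ) ^ 2 * Real.sqrt y) ^ 2 =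
          y ^ 2 + (R * y / Real.sqrt u) ^ 2 + ((R : ℝ) ^ 2 * Real.sqrt y) ^ 2 +
          2 * (y * (R * y / Real.sqrt u)) + 2 * (y * ((R : ℝ) ^ 2 * Real.sqrt y)) +
          2 * ((R * y / Real.sqrt u) * ((R : ℝ) ^ 2 * Real.sqrt y)) := by ring
      rw [g8, g3, g4]
      have g9 : 0 ≤ (R : ℝ) ^ 4 * y := by positivity
      have g10 : 0 ≤ y ^ 2 := sq_nonneg y
      have g11 : y * (2 * y + 4 * (R : ℝ) ^ 2 * (y / u) + (R : ℝ) ^ 4) =
        2 * y ^ 2 + 4 * ((R : ℝ) ^ 2 * y * (y / u)) + (R : ℝ) ^ 4 * y := by ring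
      rw [g11]
      linarith
    rw [h1, h5, hEz]
    rw [hEz] at h2
    calc 8 * δ ^ 2 * (H : ℝ) ^ 5 * y * (2 * y + (R : ℝ) ^ 2 * E + 2 * (R : ℝ) ^ 2 * z +
          (R : ℝ) ^ 4)
        ≤ 8 * δ ^ 2 * (H : ℝ) ^ 5 * y * (2 * y + 4 * (R : ℝ) ^ 2 * (y / u) + (R : ℝ) ^ 4) :=
          mul_le_mul_of_nonneg_left h2 (by positivity)
      _ = 8 * δ ^ 2 * (H : ℝ) ^ 5 * (y * (2 * y + 4 * (R : ℝ) ^ 2 * (y / u) + (R : ℝ) ^ 4)) := by
          ring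
      _ ≤ 8 * δ ^ 2 * (H : ℝ) ^ 5 *
          (4 * (y + R * y / Real.sqrt u + (R : ℝ) ^ 2 * Real.sqrt y) ^ 2) :=
          mul_le_mul_of_nonneg_left h6 (by positivity)
      _ = 32 * (δ ^ 2 * (H : ℝ) ^ 5 *
          (y + R * y / Real.sqrt u + (R : ℝ) ^ 2 * Real.sqrt y) ^ 2) := by ring
      _ ≤ 81 * (δ ^ 2 * (H : ℝ) ^ 5 *
          (y + R * y / Real.sqrt u + (R : ℝ) ^ 2 * Real.sqrt y) ^ 2) :=
          mul_le_mul_of_nonneg_right (by norm_num) (by positivity)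
      _ = _ := by ring
  have e3 : ∀ c : Ch R,
      (∑ m ∈ Ioc u B, if Real.log m ≤ s ∧ s < Real.log m + δ then
        ((a m : ℝ) : ℂ) * c.2 (m : ZMod (c.1.val + 1)) else 0) =
      ∑ m ∈ Ioc M1 M2, ((a m : ℝ) : ℂ) * c.2 (m : ZMod (c.1.val + 1)) := by
    intro c
    rw [← e1, Finset.sum_filter]
  have e4 : ∀ c : Ch R,
      (∑ k ∈ Ioc u B, if Real.log (y / k) ≤ s ∧ s < Real.log (y / k) + δ then
        ((b k : ℝ) : ℂ) * c.2 (k : ZMod (c.1.val + 1)) else 0) =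
      ∑ k ∈ Ioc N1 N2, ((b k : ℝ) : ℂ) * c.2 (k : ZMod (c.1.val + 1)) := by
    intro c
    rw [← e2, Finset.sum_filter]
  simp only [e3, e4]
  refine key.trans ?_
  calc C * 1 * Real.log B * Real.sqrt (((H : ℝ) * M2 + (R : ℝ) ^ 2) * ((H : ℝ) ^ 4 *
        ((M2 : ℝ) - M1))) * Real.sqrt (((N2 : ℝ) - N1 + (R : ℝ) ^ 2) * ((N2 : ℝ) - N1))
      ≤ C * 1 * Real.log B *
        Real.sqrt ((H * (E + (R : ℝ) ^ 2)) * ((H : ℝ) ^ 4 * (2 * δ * E))) *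
        Real.sqrt ((2 * z + (R : ℝ) ^ 2) * (4 * δ * z)) := by
        have s1 := Real.sqrt_le_sqrt b1
        have s2 := Real.sqrt_le_sqrt b2
        have t1 := Real.sqrt_nonneg
          (((H : ℝ) * M2 + (R : ℝ) ^ 2) * ((H : ℝ) ^ 4 * ((M2 : ℝ) - M1)))
        have t2 := Real.sqrt_nonneg (((N2 : ℝ) - N1 + (R : ℝ) ^ 2) * ((N2 : ℝ) - N1))
        gcongr
    _ = C * Real.log B * (Real.sqrt ((H * (E + (R : ℝ) ^ 2)) * ((H : ℝ) ^ 4 * (2 * δ * E))) *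
        Real.sqrt ((2 * z + (R : ℝ) ^ 2) * (4 * δ * z))) := by ring
    _ ≤ C * Real.log B * (9 * δ * ((H : ℝ) ^ 2 * Real.sqrt H) *
        (y + R * y / Real.sqrt u + (R : ℝ) ^ 2 * Real.sqrt y)) :=
        mul_le_mul_of_nonneg_left b3 (by positivity)
    _ = _ := by ring

theorem ty22 (ε : ℝ) (hε : 0 < ε) (hε2 : ε ≤ 1 / 50) :
    ∀ᶠ X : ℝ in atTop, ∀ y δ : ℝ, X ≤ y → y ≤ 2 * X → X ^ (-2 * ε) ≤ δ → δ ≤ 1 / 2 →
    ∀ H : ℕ, 1 ≤ H → (H : ℝ) ≤ X ^ ε → ∀ κ : ℕ → ℝ, (∀ k, |κ k| ≤ H) →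
    ∀ a b : ℕ → ℝ, (∀ m, |a m| ≤ 1) → (∀ k : ℕ, |b k| ≤ Real.log k) →
    ∀ R : ℕ, X ^ (6 * ε) / 2 ≤ R → (R : ℝ) ≤ 2 * X ^ (1 / 2 - 15 * ε) →
    ∑ c ∈ PC R, ‖∑ m ∈ Ioc (uv ε X) (Bx X), ((a m : ℝ) : ℂ) *
        ∑ k ∈ Ioc (uv ε X) (Bx X / m), ((b k : ℝ) : ℂ) *
          (((hat y δ (m * k) : ℝ) : ℂ) * c.2 ((m * k : ℕ) : ZMod (c.1.val + 1)))‖ *
        ‖KC H κ c.2‖ ≤ 1 / 2 * R * X ^ (1 - 3 * ε) := by
  obtain ⟨C, hC, hhgt⟩ := ty2_hgt
  have ev1 : ∀ᶠ X : ℝ in atTop, (4 : ℝ) ≤ X ^ (10 * ε) :=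
    (tendsto_rpow_atTop (by positivity)).eventually_ge_atTop 4
  have hc0 : (0 : ℝ) < 1 / (1944 * C + 1) := by positivity
  have ev2 := (isLittleO_log_rpow_atTop (show (0 : ℝ) < ε / 4 by positivity)).bound hc0
  filter_upwards [ev1, ev2, eventually_ge_atTop (2 : ℝ)] with X hX4 hXl hX2 y δ hy1 hy2 hδ1 hδ2 H
    hH hHX κ hκ a b ha hb R hR1 hR2
  have hX0 : 0 < X := by linarith
  have hX1 : 1 ≤ X := by linarith
  have hlogX : 0 ≤ Real.log X := Real.log_nonneg (by linarith)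
  rw [Real.norm_of_nonneg hlogX, Real.norm_of_nonneg (Real.rpow_nonneg hX0.le _)] at hXl
  have hXlog : 1944 * C * Real.log X ^ 2 ≤ X ^ (ε / 2) := by
    set c := 1 / (1944 * C + 1) with hc
    have hc1 : c ≤ 1 := by
      rw [hc, div_le_one (by positivity)]
      linarith
    have hcC : 1944 * C * c ≤ 1 := by
      rw [hc, mul_one_div, div_le_one (by positivity)]
      linarith
    have h1 : Real.log X ^ 2 ≤ (c * X ^ (ε / 4)) ^ 2 := pow_le_pow_left₀ hlogX hXl 2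
    have h2 : (X ^ (ε / 4)) ^ 2 = X ^ (ε / 2) := by
      rw [← Real.rpow_natCast, ← Real.rpow_mul hX0.le]
      congr 1
      push_cast
      ring
    rw [mul_pow, h2] at h1
    have h3 : c ^ 2 ≤ c := by nlinarith
    have hP : 0 ≤ X ^ (ε / 2) := Real.rpow_nonneg hX0.le _
    calc 1944 * C * Real.log X ^ 2 ≤ 1944 * C * (c ^ 2 * X ^ (ε / 2)) :=
          mul_le_mul_of_nonneg_left h1 (by positivity)
      _ ≤ 1944 * C * (c * X ^ (ε / 2)) := by gcongr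
      _ = (1944 * C * c) * X ^ (ε / 2) := by ring
      _ ≤ 1 * X ^ (ε / 2) := mul_le_mul_of_nonneg_right hcC hP
      _ = _ := one_mul _
  have hy : 0 < y := by linarith
  have hδ : 0 < δ := lt_of_lt_of_le (Real.rpow_pos_of_pos hX0 _) hδ1
  set u := uv ε X with hu
  set B := Bx X with hB
  -- sizes
  have hu_le : (u : ℝ) ≤ X ^ (12 * ε) := Nat.floor_le (Real.rpow_nonneg hX0.le _)
  have h12 : (4 : ℝ) ≤ X ^ (12 * ε) :=
    hX4.trans (Real.rpow_le_rpow_of_exponent_le hX1 (by linarith))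
  have hu_ge : X ^ (12 * ε) / 4 ≤ u := by
    have h1 : X ^ (12 * ε) - 1 < (u : ℝ) := Nat.sub_one_lt_floor _
    linarith
  have hu1 : 1 ≤ u := by
    have : (1 : ℝ) ≤ u := by linarith
    exact_mod_cast this
  have hu0 : (0 : ℝ) < u := by exact_mod_cast hu1
  have hδu : 1 ≤ δ * u := by
    have h1 : X ^ (-2 * ε) * (X ^ (12 * ε) / 4) ≤ δ * u :=
      mul_le_mul hδ1 hu_ge (by positivity) hδ.le
    have h2 : X ^ (-2 * ε) * (X ^ (12 * ε) / 4) = X ^ (10 * ε) / 4 := by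
      rw [← mul_div_assoc, ← Real.rpow_add hX0]
      congr 2
      ring
    linarith
  have hBle : (B : ℝ) ≤ 4 * X := Nat.floor_le (by linarith)
  have hB1 : 1 ≤ B := by
    have : (1 : ℝ) ≤ 4 * X := by linarith
    exact (Nat.one_le_floor_iff _).2 this
  have hS : Real.log u ≤ Real.log (y / u) + δ := by
    have h1 : Real.log u ≤ Real.log (y / u) := by
      apply Real.log_le_log hu0
      rw [le_div_iff₀ hu0]
      calc (u : ℝ) * u ≤ X ^ (12 * ε) * X ^ (12 * ε) :=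
            mul_le_mul hu_le hu_le hu0.le (Real.rpow_nonneg hX0.le _)
        _ = X ^ (12 * ε + 12 * ε) := by
            rw [← Real.rpow_add hX0]
        _ ≤ X ^ (1 : ℝ) := Real.rpow_le_rpow_of_exponent_le (by linarith) (by linarith)
        _ = X := Real.rpow_one X
        _ ≤ y := hy1
    linarith
  have key := sep_sum (PC R) y δ (Real.log u) (Real.log (y / u) + δ)
    (9 * C * δ * Real.log B * ((H : ℝ) ^ 2 * Real.sqrt H) *
        (y + R * y / Real.sqrt u + (R : ℝ) ^ 2 * Real.sqrt y)) hy hδ hS (Ioc u B) (Ioc u B)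
    (by
      intro m hm
      rw [mem_Ioc] at hm
      refine ⟨by omega, Real.log_le_log hu0 ?_⟩
      exact_mod_cast hm.1.le)
    (by
      intro k hk
      rw [mem_Ioc] at hk
      refine ⟨by omega, ?_⟩
      have hk0 : (0 : ℝ) < k := by exact_mod_cast (by omega : 0 < k)
      have h1 : Real.log (y / k) ≤ Real.log (y / u) := by
        apply Real.log_le_log (div_pos hy hk0)
        apply div_le_div_of_nonneg_left hy.le hu0
        exact_mod_cast hk.1.le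
      linarith)
    (fun c m => ((a m : ℝ) : ℂ) * c.2 (m : ZMod (c.1.val + 1)))
    (fun c k => ((b k : ℝ) : ℂ) * c.2 (k : ZMod (c.1.val + 1)))
    (fun c => ‖KC H κ c.2‖) (fun c _ => norm_nonneg _)
    (by
      intro s hs
      exact hhgt R u B H y s δ hy hu1 hδ hδ2 hH hB1 hδu hs.1 hs.2 κ hκ a b ha hb)
  have e1 : ∀ c ∈ PC R, ‖∑ m ∈ Ioc u B, ((a m : ℝ) : ℂ) *
        ∑ k ∈ Ioc u (B / m), ((b k : ℝ) : ℂ) *
          (((hat y δ (m * k) : ℝ) : ℂ) * c.2 ((m * k : ℕ) : ZMod (c.1.val + 1)))‖ *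
        ‖KC H κ c.2‖ =
      ‖∑ m ∈ Ioc u B, ∑ k ∈ Ioc u B, (((a m : ℝ) : ℂ) * c.2 (m : ZMod (c.1.val + 1))) *
      (((b k : ℝ) : ℂ) * c.2 (k : ZMod (c.1.val + 1))) * ((hat y δ (m * k) : ℝ) : ℂ)‖ *
        ‖KC H κ c.2‖ := by
    intro c _
    rw [hB, ty2_shape X y δ hX2 hy1 hy2 hδ hδ2 u a b c.2]
  rw [Finset.sum_congr rfl e1]
  refine key.trans ?_
  have hlog2 : Real.log 2 ≤ Real.log X := Real.log_le_log (by norm_num) hX2
  have hl2 : (0.6931471803 : ℝ) < Real.log 2 := Real.log_two_gt_d9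
  have hH0 : (0 : ℝ) ≤ H := Nat.cast_nonneg _
  have hlogB : Real.log B ≤ 3 * Real.log X := by
    have h1 : Real.log B ≤ Real.log (4 * X) := by
      apply Real.log_le_log _ hBle
      exact_mod_cast hB1
    have h2 : Real.log (4 * X) = 2 * Real.log 2 + Real.log X := by
      rw [Real.log_mul (by norm_num) hX0.ne', show (4 : ℝ) = 2 ^ 2 by norm_num, Real.log_pow]
      norm_num
    linarith
  have hlogB0 : 0 ≤ Real.log B := Real.log_nonneg (by exact_mod_cast hB1)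
  have hdiff : Real.log (y / u) + δ - Real.log u ≤ 3 * Real.log X := by
    have h1 : Real.log (y / u) ≤ Real.log (2 * X) := by
      apply Real.log_le_log (div_pos hy hu0)
      rw [div_le_iff₀ hu0]
      have : (1 : ℝ) ≤ u := by exact_mod_cast hu1
      nlinarith
    have h2 : Real.log (2 * X) = Real.log 2 + Real.log X := Real.log_mul (by norm_num) hX0.ne'
    have h3 : 0 ≤ Real.log u := Real.log_nonneg (by exact_mod_cast hu1)
    linarith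
  have hdiff0 : 0 ≤ Real.log (y / u) + δ - Real.log u := by linarith
  have hR0 : (0 : ℝ) ≤ R := Nat.cast_nonneg R
  have hp6 : 0 < X ^ (6 * ε) := Real.rpow_pos_of_pos hX0 _
  have hsu : X ^ (6 * ε) / 2 ≤ Real.sqrt u := by
    apply Real.le_sqrt_of_sq_le
    refine le_trans (le_of_eq ?_) hu_ge
    rw [div_pow, ← Real.rpow_natCast, ← Real.rpow_mul hX0.le]
    congr 1
    · congr 1
      push_cast
      ring
    · norm_num
  have hsu0 : 0 < Real.sqrt u := Real.sqrt_pos.2 hu0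
  have hsH : (H : ℝ) ^ 2 * Real.sqrt H ≤ X ^ (5 * ε / 2) := by
    have h1 : Real.sqrt H ≤ Real.sqrt (X ^ ε) := Real.sqrt_le_sqrt hHX
    rw [Real.sqrt_eq_rpow (X ^ ε), ← Real.rpow_mul hX0.le] at h1
    have h2 : (H : ℝ) ^ 2 ≤ (X ^ ε) ^ 2 := pow_le_pow_left₀ hH0 hHX 2
    calc (H : ℝ) ^ 2 * Real.sqrt H ≤ (X ^ ε) ^ 2 * X ^ (ε * (1 / 2)) :=
          mul_le_mul h2 h1 (Real.sqrt_nonneg _) (by positivity)
      _ = X ^ (5 * ε / 2) := by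
          rw [← Real.rpow_natCast, ← Real.rpow_mul hX0.le, ← Real.rpow_add hX0]
          congr 1
          push_cast
          ring
  have hW : y + R * y / Real.sqrt u + (R : ℝ) ^ 2 * Real.sqrt y ≤ 12 * R * X ^ (1 - 6 * ε) := by
    have hX6 : X = X ^ (1 - 6 * ε) * X ^ (6 * ε) := by
      rw [← Real.rpow_add hX0]
      rw [show 1 - 6 * ε + 6 * ε = 1 by ring, Real.rpow_one]
    have hq0 : 0 < X ^ (1 - 6 * ε) := Real.rpow_pos_of_pos hX0 _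
    have t1 : y ≤ 4 * R * X ^ (1 - 6 * ε) := by
      have h1 : X ^ (6 * ε) ≤ 2 * R := by linarith
      calc y ≤ 2 * X := hy2
        _ = 2 * (X ^ (1 - 6 * ε) * X ^ (6 * ε)) := by rw [← hX6]
        _ ≤ 2 * (X ^ (1 - 6 * ε) * (2 * R)) := by gcongr
        _ = _ := by ring
    have t2 : R * y / Real.sqrt u ≤ 4 * R * X ^ (1 - 6 * ε) := by
      rw [div_le_iff₀ hsu0]
      calc (R : ℝ) * y ≤ R * (2 * X) := by gcongr
        _ = R * (2 * (X ^ (1 - 6 * ε) * X ^ (6 * ε))) := by rw [← hX6]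
        _ = 4 * R * X ^ (1 - 6 * ε) * (X ^ (6 * ε) / 2) := by ring
        _ ≤ 4 * R * X ^ (1 - 6 * ε) * Real.sqrt u := by gcongr
    have t3 : (R : ℝ) ^ 2 * Real.sqrt y ≤ 4 * R * X ^ (1 - 6 * ε) := by
      have h1 : Real.sqrt y ≤ 2 * X ^ (1 / 2 : ℝ) := by
        calc Real.sqrt y ≤ Real.sqrt (2 ^ 2 * X) := Real.sqrt_le_sqrt (by linarith)
          _ = 2 * X ^ (1 / 2 : ℝ) := by
            rw [Real.sqrt_mul (by norm_num), Real.sqrt_sq (by norm_num), ← Real.sqrt_eq_rpow]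
      have h2 : X ^ (1 / 2 - 15 * ε) * X ^ (1 / 2 : ℝ) ≤ X ^ (1 - 6 * ε) := by
        rw [← Real.rpow_add hX0]
        exact Real.rpow_le_rpow_of_exponent_le hX1 (by linarith)
      have h3 : 0 ≤ X ^ (1 / 2 : ℝ) := Real.rpow_nonneg hX0.le _
      calc (R : ℝ) ^ 2 * Real.sqrt y = R * (R * Real.sqrt y) := by ring
        _ ≤ R * ((2 * X ^ (1 / 2 - 15 * ε)) * (2 * X ^ (1 / 2 : ℝ))) := by gcongr
        _ = 4 * R * (X ^ (1 / 2 - 15 * ε) * X ^ (1 / 2 : ℝ)) := by ring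
        _ ≤ 4 * R * X ^ (1 - 6 * ε) := by gcongr
    linarith
  have hW0 : 0 ≤ y + R * y / Real.sqrt u + (R : ℝ) ^ 2 * Real.sqrt y := by positivity
  have hq : X ^ (5 * ε / 2) * X ^ (1 - 6 * ε) * X ^ (ε / 2) = X ^ (1 - 3 * ε) := by
    rw [← Real.rpow_add hX0, ← Real.rpow_add hX0]
    congr 1
    ring
  have hHs0 : 0 ≤ (H : ℝ) ^ 2 * Real.sqrt H := by positivity
  have hA0 : 0 ≤ X ^ (5 * ε / 2) := Real.rpow_nonneg hX0.le _
  have hA1 : 0 ≤ X ^ (1 - 6 * ε) := Real.rpow_nonneg hX0.le _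
  calc 1 / δ * (Real.log (y / u) + δ - Real.log u) *
        (9 * C * δ * Real.log B * ((H : ℝ) ^ 2 * Real.sqrt H) *
        (y + R * y / Real.sqrt u + (R : ℝ) ^ 2 * Real.sqrt y))
      = (Real.log (y / u) + δ - Real.log u) * (9 * C * Real.log B * ((H : ℝ) ^ 2 * Real.sqrt H) *
        (y + R * y / Real.sqrt u + (R : ℝ) ^ 2 * Real.sqrt y)) := by
        field_simp
    _ ≤ (3 * Real.log X) * (9 * C * (3 * Real.log X) * X ^ (5 * ε / 2) *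
        (12 * R * X ^ (1 - 6 * ε))) := by
        gcongr
    _ = 1 / 2 * R * (X ^ (5 * ε / 2) * X ^ (1 - 6 * ε) * (1944 * C * Real.log X ^ 2)) := by ring
    _ ≤ 1 / 2 * R * (X ^ (5 * ε / 2) * X ^ (1 - 6 * ε) * X ^ (ε / 2)) := by
        gcongr
    _ = 1 / 2 * R * X ^ (1 - 3 * ε) := by rw [hq]

end Pool.Agent.H67.VT
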