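import Pool.Agent.H67.VT.Vc
import Pool.Agent.H67.VT.Ty2

/-!
[H67 VT LS]  The mean value over the primitive characters of modulus up to `R`.

Proof.  As in `Pool/Agent/H67/VS/Ls.lean`: `vau2` with `u = uv ε X`, `hat_wt`, `ty22` with `a = μ`; the rest
is `(13 u^2 R log B + 2 √B log B) ∑_c ‖KC H κ c‖`, `‖KC‖ ≤ H * H`, `card (PC R) ≤ R^2`: at most
`R (13 u^2 R^2 H^2 log B + 2 √B R H^2 log B)`, `u^2 R^2 H^2 ≤ 4 X^(24ε + 1 - 30ε + 2ε) = 4 X^(1-4ε)`,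
`√B R H^2 ≤ 4 X^(1 - 13ε)`, so it is `≤ (1/2) R X^(1-3ε)` for large `X`.
-/

namespace Pool.Agent.H67.VT

open Finset Filter Pool.Agent.H21.MT Pool.Agent.H67.VS

private theorem ls2_KC_le (H : ℕ) (κ : ℕ → ℝ) (hκ : ∀ k, |κ k| ≤ H) {q : ℕ}
    (χ : DirichletCharacter ℂ q) : ‖KC H κ χ‖ ≤ (H : ℝ) ^ 2 := by
  unfold KC
  calc ‖∑ k ∈ Ico 1 H, ((κ k : ℝ) : ℂ) * χ (k : ZMod q)‖
      ≤ ∑ k ∈ Ico 1 H, ‖((κ k : ℝ) : ℂ) * χ (k : ZMod q)‖ := norm_sum_le _ _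
    _ ≤ ∑ k ∈ Ico 1 H, (H : ℝ) := by
        apply sum_le_sum
        intro k _
        rw [norm_mul, Complex.norm_real, Real.norm_eq_abs]
        calc |κ k| * ‖χ (k : ZMod q)‖ ≤ H * 1 := by
              gcongr
              · exact hκ k
              · exact DirichletCharacter.norm_le_one χ _
          _ = H := mul_one _
    _ = ((H - 1 : ℕ) : ℝ) * H := by
        rw [sum_const, Nat.card_Ico, nsmul_eq_mul]
    _ ≤ (H : ℝ) * H := by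
        gcongr
        omega
    _ = (H : ℝ) ^ 2 := by ring

theorem ls2 (ε : ℝ) (hε : 0 < ε) (hε2 : ε ≤ 1 / 50) :
    ∀ᶠ X : ℝ in atTop, ∀ y δ : ℝ, X ≤ y → y ≤ 2 * X → X ^ (-2 * ε) ≤ δ → δ ≤ 1 / 2 →
    ∀ H : ℕ, 1 ≤ H → (H : ℝ) ≤ X ^ ε → ∀ κ : ℕ → ℝ, (∀ k, |κ k| ≤ H) →
    ∀ R : ℕ, X ^ (6 * ε) / 2 ≤ R → (R : ℝ) ≤ 2 * X ^ (1 / 2 - 15 * ε) →
    ∑ c ∈ PC R, ‖ThC (Ax X) (Bx X) (hat y δ) c.2‖ * ‖KC H κ c.2‖ ≤ R * X ^ (1 - 3 * ε) := by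
  have hlo := (isLittleO_log_rpow_atTop hε).bound (show (0 : ℝ) < 1 / 240 by norm_num)
  filter_upwards [hlo, eventually_ge_atTop (4 : ℝ), ty22 ε hε hε2] with X hlogX hX4 hty
  intro y δ hy1 hy2 hδ1 hδ2 H hH1 hHX κ hκ R hR1 hR2
  have hX0 : 0 < X := by linarith
  have hX1 : 1 ≤ X := by linarith
  have hX2 : 2 ≤ X := by linarith
  have hδ0 : 0 < δ := lt_of_lt_of_le (Real.rpow_pos_of_pos hX0 _) hδ1
  have hwt := hat_wt X y δ hX2 hy1 hy2 hδ0 hδ2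
  have hmu : ∀ m : ℕ, |((ArithmeticFunction.moebius m : ℤ) : ℝ)| ≤ 1 := by
    intro m
    have := ArithmeticFunction.abs_moebius_le_one (n := m)
    exact_mod_cast this
  have hu1 : 1 ≤ uv ε X := by
    unfold uv
    apply Nat.le_floor
    rw [Nat.cast_one]
    exact Real.one_le_rpow hX1 (by linarith)
  have hAB : Ax X ≤ Bx X := Nat.floor_le_floor (by linarith)
  have huA : uv ε X ≤ Ax X := by
    unfold uv Ax
    apply Nat.floor_le_floor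
    have h1 : X ^ (12 * ε) ≤ X ^ (1 / 2 : ℝ) :=
      Real.rpow_le_rpow_of_exponent_le hX1 (by linarith)
    have h2 : X ^ (1 / 2 : ℝ) * X ^ (1 / 2 : ℝ) = X := by
      rw [← Real.rpow_add hX0]
      norm_num
    have h3 : (0 : ℝ) < X ^ (1 / 2 : ℝ) := Real.rpow_pos_of_pos hX0 _
    nlinarith
  obtain ⟨b, hb, hvau⟩ := vau2 (uv ε X) hu1
  have e1 := hty y δ hy1 hy2 hδ1 hδ2 H hH1 hHX κ hκ
    (fun m => ((ArithmeticFunction.moebius m : ℤ) : ℝ)) b hmu hb R hR1 hR2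
  set u : ℕ := uv ε X with hu
  set B : ℕ := Bx X with hBdef
  set E : ℝ := 13 * (u : ℝ) ^ 2 * R * Real.log B + 2 * Real.sqrt B * Real.log B with hE
  have hB4 : (B : ℝ) ≤ 4 * X := Nat.floor_le (by linarith)
  have hB1 : (1 : ℝ) ≤ B := by
    have h1 : 1 ≤ ⌊4 * X⌋₊ := Nat.le_floor (by push_cast; linarith)
    exact_mod_cast h1
  have hlogB0 : 0 ≤ Real.log B := Real.log_nonneg hB1
  set L : ℝ := Real.log (4 * X) with hL
  have hlogB : Real.log B ≤ L := Real.log_le_log (by linarith) hB4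
  have hL0 : 0 ≤ L := hlogB0.trans hlogB
  have hE0 : 0 ≤ E := by positivity
  have e2 : ∑ c ∈ PC R, ‖ThC (Ax X) B (hat y δ) c.2‖ * ‖KC H κ c.2‖ ≤
      (∑ c ∈ PC R, ‖∑ m ∈ Ioc u B,
        (((ArithmeticFunction.moebius m : ℤ) : ℝ) : ℂ) *
        ∑ k ∈ Ioc u (B / m), ((b k : ℝ) : ℂ) *
          (((hat y δ (m * k) : ℝ) : ℂ) * c.2 ((m * k : ℕ) : ZMod (c.1.val + 1)))‖ *
        ‖KC H κ c.2‖) + ∑ c ∈ PC R, E * (H : ℝ) ^ 2 := by
    rw [← sum_add_distrib]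
    apply sum_le_sum
    intro c hc
    have h2 := hvau (Ax X) B R (hat y δ) hwt huA hAB c hc
    have h3 := ls2_KC_le H κ hκ c.2
    have h4 : 0 ≤ ‖KC H κ c.2‖ := norm_nonneg _
    refine (mul_le_mul_of_nonneg_right h2 h4).trans ?_
    rw [add_mul]
    have := mul_le_mul_of_nonneg_left h3 hE0
    linarith
  -- the elementary bounds
  have hR0 : (0 : ℝ) ≤ R := Nat.cast_nonneg R
  have hu2 : (u : ℝ) ^ 2 ≤ X ^ (24 * ε) := by
    have h1 : (u : ℝ) ≤ X ^ (12 * ε) := Nat.floor_le (Real.rpow_nonneg hX0.le _)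
    calc (u : ℝ) ^ 2 ≤ (X ^ (12 * ε)) ^ 2 := by gcongr
      _ = X ^ (24 * ε) := by
        rw [← Real.rpow_natCast, ← Real.rpow_mul hX0.le]
        congr 1
        push_cast
        ring
  have hRR : (R : ℝ) ^ 2 ≤ 4 * X ^ (1 - 30 * ε) := by
    calc (R : ℝ) ^ 2 ≤ (2 * X ^ (1 / 2 - 15 * ε)) ^ 2 := by gcongr
      _ = 4 * X ^ (1 - 30 * ε) := by
        rw [mul_pow, ← Real.rpow_natCast (X ^ (1 / 2 - 15 * ε)), ← Real.rpow_mul hX0.le]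
        norm_num
        congr 1
        ring
  have hH2 : (H : ℝ) ^ 2 ≤ X ^ (2 * ε) := by
    calc (H : ℝ) ^ 2 ≤ (X ^ ε) ^ 2 := by gcongr
      _ = X ^ (2 * ε) := by
        rw [← Real.rpow_natCast, ← Real.rpow_mul hX0.le]
        congr 1
        push_cast
        ring
  have hsB : Real.sqrt B ≤ 2 * X ^ (1 / 2 : ℝ) := by
    have h1 : Real.sqrt B ≤ Real.sqrt (4 * X) := Real.sqrt_le_sqrt hB4
    have h2 : Real.sqrt (4 * X) = 2 * X ^ (1 / 2 : ℝ) := by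
      rw [Real.sqrt_mul (by norm_num), ← Real.sqrt_eq_rpow]
      congr 1
      rw [show (4 : ℝ) = 2 ^ 2 by norm_num, Real.sqrt_sq (by norm_num)]
    rw [← h2]
    exact h1
  set P : ℝ := X ^ (1 - 4 * ε) with hP
  have hP0 : 0 ≤ P := Real.rpow_nonneg hX0.le _
  have f1 : (u : ℝ) ^ 2 * (R : ℝ) ^ 2 * (H : ℝ) ^ 2 ≤ 4 * P := by
    calc (u : ℝ) ^ 2 * (R : ℝ) ^ 2 * (H : ℝ) ^ 2
        ≤ X ^ (24 * ε) * (4 * X ^ (1 - 30 * ε)) * X ^ (2 * ε) := by gcongr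
      _ = 4 * (X ^ (24 * ε) * X ^ (1 - 30 * ε) * X ^ (2 * ε)) := by ring
      _ = 4 * P := by
        rw [hP, ← Real.rpow_add hX0, ← Real.rpow_add hX0]
        congr 2
        ring
  have f2 : Real.sqrt B * R * (H : ℝ) ^ 2 ≤ 4 * P := by
    calc Real.sqrt B * R * (H : ℝ) ^ 2
        ≤ (2 * X ^ (1 / 2 : ℝ)) * (2 * X ^ (1 / 2 - 15 * ε)) * X ^ (2 * ε) := by gcongr
      _ = 4 * (X ^ (1 / 2 : ℝ) * X ^ (1 / 2 - 15 * ε) * X ^ (2 * ε)) := by ring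
      _ = 4 * X ^ (1 - 13 * ε) := by
        rw [← Real.rpow_add hX0, ← Real.rpow_add hX0]
        congr 2
        ring
      _ ≤ 4 * P := by
        rw [hP]
        gcongr 4 * ?_
        exact Real.rpow_le_rpow_of_exponent_le hX1 (by linarith)
  have e3 : ∑ c ∈ PC R, E * (H : ℝ) ^ 2 ≤ R * (60 * P * L) := by
    rw [sum_const, nsmul_eq_mul]
    have h1 : ((PC R).card : ℝ) * (E * (H : ℝ) ^ 2) ≤ (R : ℝ) ^ 2 * (E * (H : ℝ) ^ 2) :=
      mul_le_mul_of_nonneg_right (card_PC R) (by positivity)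
    refine h1.trans ?_
    have h2 : (R : ℝ) ^ 2 * (E * (H : ℝ) ^ 2) = R * ((13 * ((u : ℝ) ^ 2 * (R : ℝ) ^ 2 * (H : ℝ) ^ 2)
        + 2 * (Real.sqrt B * R * (H : ℝ) ^ 2)) * Real.log B) := by
      rw [hE]
      ring
    rw [h2]
    apply mul_le_mul_of_nonneg_left _ hR0
    calc (13 * ((u : ℝ) ^ 2 * (R : ℝ) ^ 2 * (H : ℝ) ^ 2)
        + 2 * (Real.sqrt B * R * (H : ℝ) ^ 2)) * Real.log B
        ≤ (13 * (4 * P) + 2 * (4 * P)) * L := by gcongr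
      _ = 60 * P * L := by ring
  have e4 : 60 * P * L ≤ 1 / 2 * X ^ (1 - 3 * ε) := by
    have h1 : X ^ (1 - 3 * ε) = X ^ ε * P := by
      rw [hP, ← Real.rpow_add hX0]
      congr 1
      ring
    have h2 : L ≤ 2 * Real.log X := by
      rw [hL, Real.log_mul (by norm_num) hX0.ne']
      have := Real.log_le_log (by norm_num) hX4
      linarith
    have h3 : 240 * Real.log X ≤ X ^ ε := by
      rw [Real.norm_of_nonneg (Real.log_nonneg hX1),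
        Real.norm_of_nonneg (Real.rpow_nonneg hX0.le _)] at hlogX
      linarith
    rw [h1]
    nlinarith
  have e5 : (R : ℝ) * (60 * P * L) ≤ R * (1 / 2 * X ^ (1 - 3 * ε)) :=
    mul_le_mul_of_nonneg_left e4 hR0
  calc ∑ c ∈ PC R, ‖ThC (Ax X) B (hat y δ) c.2‖ * ‖KC H κ c.2‖
      ≤ 1 / 2 * R * X ^ (1 - 3 * ε) + R * (1 / 2 * X ^ (1 - 3 * ε)) := by linarith
    _ = R * X ^ (1 - 3 * ε) := by ring

end Pool.Agent.H67.VT
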