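import Pool.Agent.H67.VT.SpA
import Pool.Agent.H21.BV.Als

/-!
[H67 VT LSA]  The analytic large sieve inequality (with an absolute constant).

Proof.  `e t = exp(2 π i t)`.  We may assume `N ≥ 1`, `P` nonempty.  Put `N' = max N ⌈1/δ⌉₊`,
`L = 2 N'`, `n0 = M`, and the Fejer kernel
`F θ = ∑_{|m| < L} (1 - |m|/L) e(mθ) = (1/L) ‖∑_{j < L} e(jθ)‖^2 ≥ 0`.
(1) `F 0 = L`, and `F θ ≤ 1/(4 L t^2)` if `θ - t` is an integer and `0 < |t| ≤ 1/2`: geometric sum,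
`‖1 - e t‖ = 2 |sin π t| ≥ 4 |t|`.
(2) Dual inequality: for all `c : ι → ℂ`
`∑_{n ∈ (M, M+N]} ‖∑_i c_i e(n α_i)‖^2 ≤ 2 ∑_{n ∈ ℤ, |n-M| < L} (1 - |n-M|/L) ‖∑_i c_i e(n α_i)‖^2`
(`0 < n - M ≤ N ≤ L/2`, so the weight is `≥ 1/2`)
`= 2 ∑_{i,j} c_i conj(c_j) e(M(α_i-α_j)) F(α_i - α_j) ≤ 2 ∑_{i,j} (‖c_i‖^2+‖c_j‖^2)/2 F(α_i-α_j)
≤ 2 (max_i ∑_j F(α_i-α_j)) ∑ ‖c_i‖^2`, and by (1) and `spaced_sq` (`t j` = the representative of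
`α_j - α_i` mod 1 in `[-1/2,1/2]`; the hypothesis with the integers `m` gives the spacing)
`∑_j F(α_i-α_j) ≤ L + (1/(4L)) 4/δ^2 ≤ 2N' + 1/(2 N' δ^2) ≤ 2N' + 1/(2δ) ≤ 2(N + 1/δ + 1) + 1/(2δ)`.
(3) Duality: with `S_i = ∑_n a_n e(n α_i)`, `∑_i ‖S_i‖^2 = ∑_n a_n conj(∑_i S_i e(-n α_i))...`
`≤ (∑ ‖a_n‖^2)^{1/2} (∑_n ‖∑_i conj(S_i) e(n α_i)‖^2)^{1/2} ≤ (∑‖a‖^2)^{1/2} (Δ ∑‖S_i‖^2)^{1/2}`.
(A discrete duality argument of this type is in `Pool/Agent/H21/MT/Cls.lean`.)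
-/

namespace Pool.Agent.H67.VT

open Finset

theorem ls_exp : ∃ C : ℝ, 0 < C ∧ ∀ (P : Finset (ℕ × ℕ)) (α : ℕ × ℕ → ℝ) (δ : ℝ), 0 < δ → δ ≤ 1 →
    (∀ i ∈ P, ∀ j ∈ P, i ≠ j → ∀ m : ℤ, δ ≤ |α i - α j - m|) →
    ∀ (M N : ℕ) (a : ℕ → ℂ),
    ∑ i ∈ P, ‖∑ n ∈ Ioc M (M + N), a n * Complex.exp (2 * Real.pi * Complex.I * n * α i)‖ ^ 2 ≤
      C * (N + 1 / δ) * ∑ n ∈ Ioc M (M + N), ‖a n‖ ^ 2 := by
  refine ⟨16, by norm_num, fun P α δ hδ hδ1 hsp M N a => ?_⟩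
  have h1 := Pool.Agent.H21.BV.add_ls P α δ hδ hsp M N a
  have h2 : ∀ (n : ℕ) (t : ℝ), Complex.exp (2 * Real.pi * Complex.I * n * t) =
      Pool.Agent.H21.BV.ee (n * t) := by
    intro n t
    unfold Pool.Agent.H21.BV.ee
    congr 1
    push_cast
    ring
  have h3 : ∑ i ∈ P, ‖∑ n ∈ Ioc M (M + N),
      a n * Complex.exp (2 * Real.pi * Complex.I * n * α i)‖ ^ 2 =
      ∑ i ∈ P, ‖∑ n ∈ Ioc M (M + N), a n * Pool.Agent.H21.BV.ee (n * α i)‖ ^ 2 := by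
    refine Finset.sum_congr rfl fun i _ => ?_
    rw [Finset.sum_congr rfl fun n _ => by rw [h2 n (α i)]]
  rw [h3]
  refine h1.trans (mul_le_mul_of_nonneg_right ?_ (Finset.sum_nonneg fun _ _ => sq_nonneg _))
  have h4 : 1 ≤ 1 / δ := by
    rw [le_div_iff₀ hδ]
    linarith
  have h5 : (0 : ℝ) ≤ N := Nat.cast_nonneg N
  linarith

end Pool.Agent.H67.VT
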