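import Mathlib

/-!
[H67 VT SPA]  Sums over well spaced points.

Proof.  The points with `t i > 0`: the integers `⌊t i/δ⌋` are `≥ 1` and pairwise different (two points
with the same value would have distance `< δ`), and `t i ≥ δ ⌊t i/δ⌋`, so their sum is at most
`∑_{k ≥ 1} 1/(kδ)^2 ≤ 2/δ^2` (finite: `∑_{k=1}^K 1/k^2 ≤ 2`).  The same for the negative ones.
-/

namespace Pool.Agent.H67.VT

open Finset

private theorem spx_one {ι : Type*} (P : Finset ι) (t : ι → ℝ) (δ : ℝ) (hδ : 0 < δ)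
    (h0 : ∀ i ∈ P, δ ≤ t i) (h : ∀ i ∈ P, ∀ j ∈ P, i ≠ j → δ ≤ |t i - t j|) :
    ∑ i ∈ P, 1 / (t i) ^ 2 ≤ 2 / δ ^ 2 := by
  classical
  set k : ι → ℕ := fun i => ⌊t i / δ⌋₊ with hk
  have hk1 : ∀ i ∈ P, 1 ≤ k i := by
    intro i hi
    rw [hk]
    apply Nat.le_floor
    rw [Nat.cast_one, le_div_iff₀ hδ, one_mul]
    exact h0 i hi
  have hkle : ∀ i ∈ P, δ * k i ≤ t i := by
    intro i hi
    have h1 : (k i : ℝ) ≤ t i / δ := Nat.floor_le (div_nonneg (hδ.le.trans (h0 i hi)) hδ.le)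
    rw [le_div_iff₀ hδ] at h1
    linarith
  have hklt : ∀ i, t i < δ * (k i + 1) := by
    intro i
    have h1 : t i / δ < (k i : ℝ) + 1 := Nat.lt_floor_add_one _
    rw [div_lt_iff₀ hδ] at h1
    linarith
  have hinj : Set.InjOn k P := by
    intro i hi j hj hij
    by_contra hne
    have h1 := h i hi j hj hne
    have h2 := hkle i hi
    have h3 := hkle j hj
    have h4 := hklt i
    have h5 := hklt j
    have hij' : (k i : ℝ) = k j := by exact_mod_cast hij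
    rw [hij'] at h2 h4
    have h6 : |t i - t j| < δ := by
      rw [abs_lt]
      constructor <;> linarith
    linarith
  have h1 : ∑ i ∈ P, 1 / (t i) ^ 2 ≤ ∑ i ∈ P, (1 / δ ^ 2) * (((k i : ℕ) : ℝ) ^ 2)⁻¹ := by
    refine Finset.sum_le_sum fun i hi => ?_
    have h2 : (0 : ℝ) < k i := by exact_mod_cast hk1 i hi
    have h3 := hkle i hi
    rw [← one_div, one_div_mul_one_div, ← mul_pow]
    apply one_div_le_one_div_of_le (by positivity)
    apply pow_le_pow_left₀ (by positivity)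
    linarith
  have h2 : ∑ i ∈ P, (((k i : ℕ) : ℝ) ^ 2)⁻¹ ≤ 2 := by
    rw [← Finset.sum_image (f := fun n : ℕ => ((n : ℝ) ^ 2)⁻¹) (s := P) (g := k) hinj]
    have h3 : P.image k ⊆ Ioo 0 ((P.sup k) + 1) := by
      intro n hn
      rw [mem_image] at hn
      obtain ⟨i, hi, rfl⟩ := hn
      rw [mem_Ioo]
      exact ⟨hk1 i hi, Nat.lt_succ_of_le (Finset.le_sup hi)⟩
    have h4 := sum_Ioo_inv_sq_le (α := ℝ) 0 ((P.sup k) + 1)
    have h5 : ∑ n ∈ P.image k, ((n : ℝ) ^ 2)⁻¹ ≤ ∑ n ∈ Ioo 0 ((P.sup k) + 1), ((n : ℝ) ^ 2)⁻¹ :=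
      Finset.sum_le_sum_of_subset_of_nonneg h3 fun _ _ _ => by positivity
    have h6 : (2 : ℝ) / ((0 : ℕ) + 1) = 2 := by norm_num
    linarith
  rw [← Finset.mul_sum] at h1
  calc ∑ i ∈ P, 1 / (t i) ^ 2 ≤ 1 / δ ^ 2 * ∑ i ∈ P, (((k i : ℕ) : ℝ) ^ 2)⁻¹ := h1
    _ ≤ 1 / δ ^ 2 * 2 := mul_le_mul_of_nonneg_left h2 (by positivity)
    _ = 2 / δ ^ 2 := by ring

theorem spaced_sq {ι : Type*} (P : Finset ι) (t : ι → ℝ) (δ : ℝ) (hδ : 0 < δ)
    (h0 : ∀ i ∈ P, δ ≤ |t i|) (h : ∀ i ∈ P, ∀ j ∈ P, i ≠ j → δ ≤ |t i - t j|) :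
    ∑ i ∈ P, 1 / (t i) ^ 2 ≤ 4 / δ ^ 2 := by
  classical
  rw [← Finset.sum_filter_add_sum_filter_not P (fun i => 0 < t i)]
  have h1 : ∑ i ∈ P.filter (fun i => 0 < t i), 1 / (t i) ^ 2 ≤ 2 / δ ^ 2 := by
    refine spx_one _ t δ hδ (fun i hi => ?_) (fun i hi j hj hij => ?_)
    · rw [mem_filter] at hi
      have := h0 i hi.1
      rwa [abs_of_pos hi.2] at this
    · exact h i (mem_filter.1 hi).1 j (mem_filter.1 hj).1 hij
  have h2 : ∑ i ∈ P.filter (fun i => ¬ 0 < t i), 1 / (t i) ^ 2 ≤ 2 / δ ^ 2 := by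
    have h3 := spx_one (P.filter (fun i => ¬ 0 < t i)) (fun i => -t i) δ hδ (fun i hi => ?_)
      (fun i hi j hj hij => ?_)
    · simpa only [neg_sq] using h3
    · rw [mem_filter] at hi
      have := h0 i hi.1
      rwa [abs_of_nonpos (not_lt.1 hi.2)] at this
    · have h4 := h i (mem_filter.1 hi).1 j (mem_filter.1 hj).1 hij
      have h5 : -t i - -t j = -(t i - t j) := by ring
      show δ ≤ |-t i - -t j|
      rw [h5, abs_neg]
      exact h4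
  have h3 : 2 / δ ^ 2 + 2 / δ ^ 2 = 4 / δ ^ 2 := by ring
  linarith

end Pool.Agent.H67.VT
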