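import Pool.Agent.H67.VS.Sel
import Pool.Agent.H67.VT.Defs
import Pool.Agent.H75.AP.MertensB

/-!
[H67 VT SUMA]  The main constant, first lower bound.

Proof.  `(q, m) ↦ q m` (`q` prime in `(Z,D]`, `m ∈ MM D q`) is a bijection onto the squarefree `r ≤ D`
with a prime factor `> Z` (`q` = largest prime factor), and `φ(qm) = (q-1) φ(m)`.  So the left side is
`∑_{r ≤ D squarefree} 1/φ(r) - ∑_{r ≤ D squarefree, all primes ≤ Z} 1/φ(r)`.  The first sum is `≥ log D`
(`VS.sel_log`, `sel_g`), the second is `≤ ∏_{p ≤ Z} (1 + 1/(p-1)) = ∏_{p ≤ Z} (1 - 1/p)⁻¹ ≤ C log Z`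
(`prod_le`: Mertens: `∑_{p ≤ Z} 1/p ≤ log log Z + C`, from Mertens' first theorem
`Pool/Agent/H75/AP/MertensA.lean` by partial summation, or any such estimate already in the repository:
grep for mertens, loglog, primesBelow in `Pool/Agent`; `(1-1/p)⁻¹ ≤ exp(1/p + 2/p^2)`.  An alternative:
`∏_{p ≤ Z} (1-1/p)⁻¹ = ∑ 1/n` over all `n` with primes `≤ Z`, and Rankin's trick).
-/

namespace Pool.Agent.H67.VT

open Finset Pool.Agent.H67.VS

theorem sa_tele (N : ℕ) : ∑ n ∈ Icc 2 (N + 2), (1 : ℝ) / (n * ((n : ℝ) - 1)) =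
    1 - 1 / ((N : ℝ) + 2) := by
  induction N with
  | zero => norm_num
  | succ N ih =>
    rw [Finset.sum_Icc_succ_top (by omega), ih]
    push_cast
    have h1 : (N : ℝ) + 2 ≠ 0 := by positivity
    have h2 : (N : ℝ) + 1 + 2 ≠ 0 := by positivity
    have h3 : (N : ℝ) + 2 + 1 - 1 = N + 2 := by ring
    have h4 : (N : ℝ) + 2 + 1 ≠ 0 := by positivity
    rw [h3]
    field_simp
    ring

theorem sa_inv (Z : ℕ) : ∑ p ∈ (Icc 1 Z).filter Nat.Prime, (1 : ℝ) / (p * ((p : ℝ) - 1)) ≤ 1 := by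
  have h1 : ∑ p ∈ (Icc 1 Z).filter Nat.Prime, (1 : ℝ) / (p * ((p : ℝ) - 1)) ≤
      ∑ n ∈ Icc 2 (Z + 2), (1 : ℝ) / (n * ((n : ℝ) - 1)) := by
    refine Finset.sum_le_sum_of_subset_of_nonneg ?_ ?_
    · intro p hp
      rw [mem_filter, mem_Icc] at hp
      rw [mem_Icc]
      have := hp.2.two_le
      omega
    · intro n hn _
      rw [mem_Icc] at hn
      have : (2 : ℝ) ≤ n := by exact_mod_cast hn.1
      apply div_nonneg one_pos.le
      nlinarith
  rw [sa_tele] at h1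
  have h2 : (0 : ℝ) ≤ 1 / ((Z : ℝ) + 2) := by positivity
  linarith

theorem prod_le : ∃ C : ℝ, 0 < C ∧ ∀ Z : ℕ, 2 ≤ Z →
    ∏ p ∈ (Icc 1 Z).filter Nat.Prime, (1 + 1 / ((p : ℝ) - 1)) ≤ C * Real.log Z := by
  obtain ⟨C, hC, hM⟩ := Pool.Agent.H75.AP.mertens_upper
  have hlog2 : 0 < Real.log 2 := Real.log_pos (by norm_num)
  refine ⟨Real.exp (C + 1) + 2 / Real.log 2, by positivity, ?_⟩
  intro Z hZ
  have hlogZ : Real.log 2 ≤ Real.log Z := Real.log_le_log (by norm_num) (by exact_mod_cast hZ)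
  rcases Nat.lt_or_ge Z 3 with h3 | h3
  · have hZ2 : Z = 2 := by omega
    subst hZ2
    have h4 : (Icc 1 2).filter Nat.Prime = {2} := by decide
    rw [h4, prod_singleton]
    have h5 : (1 : ℝ) + 1 / (((2 : ℕ) : ℝ) - 1) = 2 := by norm_num
    rw [h5]
    have h6 : 2 / Real.log 2 * Real.log ((2 : ℕ) : ℝ) = 2 := by
      push_cast
      field_simp
    have h7 : 0 ≤ Real.exp (C + 1) * Real.log ((2 : ℕ) : ℝ) := by
      push_cast
      positivity
    rw [add_mul, h6]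
    linarith
  · have hZ3 : (3 : ℝ) ≤ Z := by exact_mod_cast h3
    have h4 := hM Z hZ3
    have hset : Pool.Agent.H75.AP.PI 0 (Z : ℝ) = (Icc 1 Z).filter Nat.Prime := by
      ext p
      rw [Pool.Agent.H75.AP.MertB.mem_PI le_rfl, mem_filter, mem_Icc]
      constructor
      · rintro ⟨h5, _, h6⟩
        exact ⟨⟨h5.one_le, by exact_mod_cast h6⟩, h5⟩
      · rintro ⟨⟨_, h6⟩, h5⟩
        exact ⟨h5, by exact_mod_cast h5.pos, by exact_mod_cast h6⟩
    rw [hset] at h4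
    have hlog1 : 1 < Real.log Z := by
      rw [Real.lt_log_iff_exp_lt (by linarith)]
      exact lt_of_lt_of_le Real.exp_one_lt_three hZ3
    have h5 : ∏ p ∈ (Icc 1 Z).filter Nat.Prime, (1 + 1 / ((p : ℝ) - 1)) ≤
        Real.exp (∑ p ∈ (Icc 1 Z).filter Nat.Prime, 1 / ((p : ℝ) - 1)) := by
      rw [Real.exp_sum]
      refine Finset.prod_le_prod (fun p hp => ?_) (fun p hp => ?_)
      · have hp2 := (mem_filter.1 hp).2.two_le
        have : (2 : ℝ) ≤ p := by exact_mod_cast hp2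
        have : 0 ≤ 1 / ((p : ℝ) - 1) := div_nonneg one_pos.le (by linarith)
        linarith
      · rw [add_comm]
        exact Real.add_one_le_exp _
    have h6 : ∑ p ∈ (Icc 1 Z).filter Nat.Prime, 1 / ((p : ℝ) - 1) =
        ∑ p ∈ (Icc 1 Z).filter Nat.Prime, 1 / (p : ℝ) +
        ∑ p ∈ (Icc 1 Z).filter Nat.Prime, (1 : ℝ) / (p * ((p : ℝ) - 1)) := by
      rw [← Finset.sum_add_distrib]
      refine Finset.sum_congr rfl fun p hp => ?_
      have hp2 := (mem_filter.1 hp).2.two_le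
      have h7 : (2 : ℝ) ≤ p := by exact_mod_cast hp2
      have h8 : (p : ℝ) ≠ 0 := by positivity
      have h9 : (p : ℝ) - 1 ≠ 0 := by
        intro h
        linarith
      field_simp
      ring
    have h7 := sa_inv Z
    have h8 : ∑ p ∈ (Icc 1 Z).filter Nat.Prime, 1 / ((p : ℝ) - 1) ≤
        (C + 1) + Real.log (Real.log Z) := by
      rw [h6]
      linarith
    calc ∏ p ∈ (Icc 1 Z).filter Nat.Prime, (1 + 1 / ((p : ℝ) - 1))
        ≤ Real.exp (∑ p ∈ (Icc 1 Z).filter Nat.Prime, 1 / ((p : ℝ) - 1)) := h5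
      _ ≤ Real.exp ((C + 1) + Real.log (Real.log Z)) := Real.exp_le_exp.2 h8
      _ = Real.exp (C + 1) * Real.log Z := by
          rw [Real.exp_add, Real.exp_log (by linarith)]
      _ ≤ (Real.exp (C + 1) + 2 / Real.log 2) * Real.log Z := by
          apply mul_le_mul_of_nonneg_right _ (by linarith)
          have : 0 ≤ 2 / Real.log 2 := by positivity
          linarith

/-- the smooth part -/
theorem sa_smooth (Z : ℕ) (A : Finset ℕ)
    (hA : ∀ r ∈ A, Squarefree r ∧ ∀ p ∈ r.primeFactors, p ≤ Z) :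
    ∑ r ∈ A, 1 / (r.totient : ℝ) ≤
      ∏ p ∈ (Icc 1 Z).filter Nat.Prime, (1 + 1 / ((p : ℝ) - 1)) := by
  classical
  have h1 : ∏ p ∈ (Icc 1 Z).filter Nat.Prime, (1 + 1 / ((p : ℝ) - 1)) =
      ∑ T ∈ ((Icc 1 Z).filter Nat.Prime).powerset, ∏ p ∈ T, 1 / ((p : ℝ) - 1) := by
    rw [Finset.prod_one_add]
  have h2 : ∑ r ∈ A, 1 / (r.totient : ℝ) = ∑ T ∈ A.image Nat.primeFactors,
      ∏ p ∈ T, 1 / ((p : ℝ) - 1) := by
    rw [Finset.sum_image]
    · exact Finset.sum_congr rfl fun r hr => sel_totient (hA r hr).1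
    · intro a ha b hb hab
      rw [← Nat.prod_primeFactors_of_squarefree (hA a ha).1,
        ← Nat.prod_primeFactors_of_squarefree (hA b hb).1, hab]
  rw [h1, h2]
  refine Finset.sum_le_sum_of_subset_of_nonneg ?_ ?_
  · intro T hT
    rw [mem_image] at hT
    obtain ⟨r, hr, rfl⟩ := hT
    rw [mem_powerset]
    intro p hp
    rw [mem_filter, mem_Icc]
    exact ⟨⟨(Nat.prime_of_mem_primeFactors hp).one_le, (hA r hr).2 p hp⟩,
      Nat.prime_of_mem_primeFactors hp⟩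
  · intro T hT _
    refine Finset.prod_nonneg fun p hp => ?_
    have hp2 := (mem_filter.1 ((mem_powerset.1 hT) hp)).2.two_le
    have : (2 : ℝ) ≤ p := by exact_mod_cast hp2
    exact div_nonneg one_pos.le (by linarith)

/-- the largest prime factor -/
noncomputable def sa_P (r : ℕ) : ℕ := r.primeFactors.sup id

theorem sa_P_le (r p : ℕ) (hp : p ∈ r.primeFactors) : p ≤ sa_P r :=
  Finset.le_sup (f := id) hp

theorem sa_P_mem (r : ℕ) (hr : r.primeFactors.Nonempty) : sa_P r ∈ r.primeFactors := by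
  obtain ⟨p, hp, h⟩ := Finset.exists_mem_eq_sup _ hr id
  unfold sa_P
  rw [h]
  exact hp

theorem sum_lower : ∃ C : ℝ, 0 < C ∧ ∀ Z D : ℕ, 2 ≤ Z → Z ≤ D →
    Real.log D - C * Real.log Z ≤ SS (sv D) ((Ioc Z D).filter Nat.Prime) := by
  classical
  obtain ⟨C, hC, hprod⟩ := prod_le
  refine ⟨C, hC, ?_⟩
  intro Z D hZ hZD
  set R := (Icc 1 D).filter Squarefree with hR
  have h1 : Real.log D ≤ ∑ r ∈ R, 1 / (r.totient : ℝ) := by
    refine (sel_log D (by omega)).trans (le_of_eq ?_)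
    rw [hR, Finset.sum_filter]
    exact Finset.sum_congr rfl fun r _ => by unfold sel_g; rfl
  set A := R.filter (fun r => ∀ p ∈ r.primeFactors, p ≤ Z) with hA
  set B := R.filter (fun r => ¬ ∀ p ∈ r.primeFactors, p ≤ Z) with hB
  have h2 : ∑ r ∈ R, 1 / (r.totient : ℝ) =
      ∑ r ∈ A, 1 / (r.totient : ℝ) + ∑ r ∈ B, 1 / (r.totient : ℝ) :=
    (Finset.sum_filter_add_sum_filter_not _ _ _).symm
  have h3 : ∑ r ∈ A, 1 / (r.totient : ℝ) ≤ C * Real.log Z := by
    refine (sa_smooth Z A fun r hr => ?_).trans (hprod Z hZ)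
    rw [hA, mem_filter, hR, mem_filter] at hr
    exact ⟨hr.1.2, hr.2⟩
  -- the pairs
  let P : Finset (Σ _ : ℕ, ℕ) := ((Ioc Z D).filter Nat.Prime).sigma (fun q => MM D q)
  have h4 : SS (sv D) ((Ioc Z D).filter Nat.Prime) =
      ∑ x ∈ P, 1 / (((x.1 : ℝ) - 1) * (x.2.totient : ℝ)) := by
    unfold SS sv
    rw [Finset.sum_sigma]
    refine Finset.sum_congr rfl fun q _ => ?_
    rw [Finset.sum_div]
    refine Finset.sum_congr rfl fun m _ => ?_
    rw [div_div, mul_comm]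
  let g : ℕ → (Σ _ : ℕ, ℕ) := fun r => ⟨sa_P r, r / sa_P r⟩
  have hBp : ∀ r ∈ B, sa_P r ∈ r.primeFactors ∧ Z < sa_P r ∧ Squarefree r ∧ 1 ≤ r ∧ r ≤ D := by
    intro r hr
    rw [hB, mem_filter, hR, mem_filter, mem_Icc] at hr
    obtain ⟨⟨⟨hr1, hr2⟩, hr3⟩, hr4⟩ := hr
    push Not at hr4
    obtain ⟨p, hp, hpZ⟩ := hr4
    exact ⟨sa_P_mem r ⟨p, hp⟩, lt_of_lt_of_le hpZ (sa_P_le r p hp), hr3, hr1, hr2⟩
  have hmul : ∀ r ∈ B, sa_P r * (r / sa_P r) = r := fun r hr =>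
    Nat.mul_div_cancel' (Nat.dvd_of_mem_primeFactors (hBp r hr).1)
  have hgP : ∀ r ∈ B, g r ∈ P := by
    intro r hr
    obtain ⟨h5, h6, h7, h8, h9⟩ := hBp r hr
    have hq := Nat.prime_of_mem_primeFactors h5
    have hqr := hmul r hr
    have hm0 : r / sa_P r ≠ 0 := by
      intro h
      rw [h, mul_zero] at hqr
      omega
    have hco : Nat.Coprime (sa_P r) (r / sa_P r) := by
      rw [← hqr] at h7
      exact Nat.coprime_of_squarefree_mul h7
    rw [mem_sigma, mem_filter, mem_Ioc]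
    refine ⟨⟨⟨h6, (Nat.le_of_dvd (by omega) (Nat.dvd_of_mem_primeFactors h5)).trans h9⟩, hq⟩, ?_⟩
    unfold MM DD
    rw [mem_filter, mem_filter, mem_Icc]
    refine ⟨⟨⟨Nat.pos_of_ne_zero hm0, Nat.div_le_div_right h9⟩, fun p hp => ?_⟩, ?_⟩
    · have hp1 := Nat.prime_of_mem_primeFactors hp
      have hp2 : p ∣ r := (Nat.dvd_of_mem_primeFactors hp).trans ⟨sa_P r, by rw [mul_comm]; exact hqr.symm⟩
      have hp3 : p ∈ r.primeFactors := Nat.mem_primeFactors.2 ⟨hp1, hp2, by omega⟩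
      refine lt_of_le_of_ne (sa_P_le r p hp3) ?_
      intro hpe
      have : p ∣ Nat.gcd (sa_P r) (r / sa_P r) :=
        Nat.dvd_gcd (by rw [hpe]) (Nat.dvd_of_mem_primeFactors hp)
      rw [hco] at this
      exact hp1.one_lt.ne' (Nat.dvd_one.1 this)
    · rw [← hqr] at h7
      exact h7.of_mul_right
  have hinj : Set.InjOn g B := by
    intro a ha b hb hab
    have h5 : sa_P a = sa_P b := congrArg Sigma.fst hab
    have h6 : a / sa_P a = b / sa_P b := congrArg (fun x : (Σ _ : ℕ, ℕ) => x.2) hab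
    rw [← hmul a ha, ← hmul b hb, h5, ← h6, h5]
  have h5 : ∑ r ∈ B, 1 / (r.totient : ℝ) =
      ∑ x ∈ B.image g, 1 / (((x.1 : ℝ) - 1) * (x.2.totient : ℝ)) := by
    rw [Finset.sum_image hinj]
    refine Finset.sum_congr rfl fun r hr => ?_
    obtain ⟨h5, h6, h7, h8, h9⟩ := hBp r hr
    have hq := Nat.prime_of_mem_primeFactors h5
    have hqr := hmul r hr
    have hco : Nat.Coprime (sa_P r) (r / sa_P r) := by
      rw [← hqr] at h7
      exact Nat.coprime_of_squarefree_mul h7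
    have h10 : r.totient = (sa_P r - 1) * (r / sa_P r).totient := by
      conv_lhs => rw [← hqr]
      rw [Nat.totient_mul hco, Nat.totient_prime hq]
    rw [h10, Nat.cast_mul, Nat.cast_sub hq.one_le, Nat.cast_one]
  have h6 : ∑ r ∈ B, 1 / (r.totient : ℝ) ≤ SS (sv D) ((Ioc Z D).filter Nat.Prime) := by
    rw [h5, h4]
    refine Finset.sum_le_sum_of_subset_of_nonneg ?_ ?_
    · intro x hx
      rw [mem_image] at hx
      obtain ⟨r, hr, rfl⟩ := hx
      exact hgP r hr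
    · intro x hx _
      rw [mem_sigma, mem_filter] at hx
      have : (2 : ℝ) ≤ x.1 := by exact_mod_cast hx.1.2.two_le
      apply div_nonneg one_pos.le
      apply mul_nonneg
      · linarith
      · positivity
  linarith

end Pool.Agent.H67.VT
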