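import Pool.Agent.H67.VT.SumA
import Pool.Agent.H67.VS.Sqb

/-!
[H67 VT SUMB]  The main constant.

Proof.  From `sum_lower`: `log ⌊X^(1/2-15ε)⌋ ≥ (1/2 - 15ε) log X - 1`, `log Zv ≤ 6 ε log X`, so
`Sv ε X ≥ (1/2 - (15 + 6 C0) ε) log X - 1 ≥ (1/2 - (16 + 6 C0) ε) log X` for large `X`.
Positive lower bound, uniform in `ε ≤ 1/50`: `Zv ε X ≤ X^(12/100)`, `Dv ε X ≥ X^(1/5) - 1`.  For a prime `q` in
`(X^(12/100), X^(14/100)]` every squarefree `m ≤ X^(5/100)` lies in `MM D q` (`m ≤ D/q`, all primes `< q`), so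
`sv D q ≥ ∑_{m ≤ X^(5/100) squarefree} 1/φ(m) ≥ log ⌊X^(5/100)⌋ ≥ (4/100) log X` (`VS.sel_log`), and
`∑_{X^(12/100) < q ≤ X^(14/100)} 1/(q-1) ≥ c` (see `VS.sq_lower` in `Pool/Agent/H67/VS/Sqb.lean`: the same with
`7/100, 8/100`).  So `Sv ε X ≥ c (4/100) log X`.
-/

namespace Pool.Agent.H67.VT

open Finset Filter Pool.Agent.H67.VS

private theorem smb_log_ge (X a : ℝ) (hX : 1 ≤ X) (ha : 0 ≤ a) :
    a * Real.log X - Real.log 2 ≤ Real.log (⌊X ^ a⌋₊ : ℝ) := by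
  have hX0 : 0 < X := by linarith
  have h1 : 1 ≤ X ^ a := Real.one_le_rpow hX ha
  have h2 : X ^ a / 2 ≤ (⌊X ^ a⌋₊ : ℝ) := by
    have h3 := Nat.lt_floor_add_one (X ^ a)
    have h4 : (1 : ℝ) ≤ (⌊X ^ a⌋₊ : ℝ) := by exact_mod_cast Nat.le_floor (by simpa using h1)
    linarith
  have h4 : a * Real.log X - Real.log 2 = Real.log (X ^ a / 2) := by
    rw [Real.log_div (by positivity) (by norm_num), Real.log_rpow hX0]
  rw [h4]
  exact Real.log_le_log (by positivity) h2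

private theorem smb_log_le (X a : ℝ) (hX : 1 ≤ X) (ha : 0 ≤ a) :
    Real.log (⌊X ^ a⌋₊ : ℝ) ≤ a * Real.log X := by
  have hX0 : 0 < X := by linarith
  have h1 : 1 ≤ X ^ a := Real.one_le_rpow hX ha
  rw [← Real.log_rpow hX0]
  have h2 : (1 : ℝ) ≤ (⌊X ^ a⌋₊ : ℝ) := by exact_mod_cast Nat.le_floor (by simpa using h1)
  exact Real.log_le_log (by linarith) (Nat.floor_le (by positivity))

private theorem smb_primes (X : ℝ) (hX : Real.exp 2000 ≤ X) :
    1 / 16 ≤ ∑ q ∈ (Ioc ⌊X ^ (12 / 100 : ℝ)⌋₊ ⌊X ^ (14 / 100 : ℝ)⌋₊).filter Nat.Prime,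
      1 / ((q : ℝ) - 1) := by
  have hXpos : 0 < X := lt_of_lt_of_le (Real.exp_pos _) hX
  set L : ℝ := Real.log X with hL
  have hL1 : 2000 ≤ L := by
    rw [hL, Real.le_log_iff_exp_le hXpos]
    exact hX
  have hX1 : 1 ≤ X := by
    have := Real.add_one_le_exp (2000 : ℝ)
    linarith
  have hla := smb_log_le X (12 / 100) hX1 (by norm_num)
  have hlb := smb_log_le X (14 / 100) hX1 (by norm_num)
  have hlb' := smb_log_ge X (14 / 100) hX1 (by norm_num)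
  have hpa : 1 ≤ X ^ (12 / 100 : ℝ) := Real.one_le_rpow hX1 (by norm_num)
  have hab' : X ^ (12 / 100 : ℝ) ≤ X ^ (14 / 100 : ℝ) :=
    Real.rpow_le_rpow_of_exponent_le hX1 (by norm_num)
  have ha1 : 1 ≤ ⌊X ^ (12 / 100 : ℝ)⌋₊ := Nat.le_floor (by simpa using hpa)
  have hab : ⌊X ^ (12 / 100 : ℝ)⌋₊ ≤ ⌊X ^ (14 / 100 : ℝ)⌋₊ := Nat.floor_le_floor hab'
  have hsum := sqb_sum _ _ ha1 hab
  set a : ℕ := ⌊X ^ (12 / 100 : ℝ)⌋₊ with ha
  set b : ℕ := ⌊X ^ (14 / 100 : ℝ)⌋₊ with hb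
  have hlog2 : Real.log 2 < 1 := by
    have := Real.log_two_lt_d9
    linarith
  have hlog4 : Real.log 4 < 2 := by
    have h1 : (4 : ℝ) = 2 ^ 2 := by norm_num
    rw [h1, Real.log_pow]
    push_cast
    linarith
  have hlbpos : 0 < Real.log b := by linarith
  have hterm : ∀ q ∈ (Ioc a b).filter Nat.Prime,
      Real.log q / q / Real.log b ≤ 1 / ((q : ℝ) - 1) := by
    intro q hq
    rw [Finset.mem_filter, Finset.mem_Ioc] at hq
    have hq2 : (2 : ℝ) ≤ q := by exact_mod_cast hq.2.two_le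
    have hqb : Real.log q ≤ Real.log b :=
      Real.log_le_log (by linarith) (by exact_mod_cast hq.1.2)
    rw [div_div, div_le_div_iff₀ (by positivity) (by linarith)]
    have hlq : 0 ≤ Real.log q := Real.log_nonneg (by linarith)
    nlinarith
  have h1 : (∑ q ∈ (Ioc a b).filter Nat.Prime, Real.log q / q) / Real.log b ≤
      ∑ q ∈ (Ioc a b).filter Nat.Prime, 1 / ((q : ℝ) - 1) := by
    rw [Finset.sum_div]
    exact Finset.sum_le_sum hterm
  refine le_trans ?_ h1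
  rw [le_div_iff₀ hlbpos]
  refine le_trans ?_ hsum
  linarith

private theorem smb_sv (ε X : ℝ) (hε2 : ε ≤ 1 / 50) (hX : Real.exp 2000 ≤ X) (q : ℕ)
    (hq : q ∈ (Ioc ⌊X ^ (12 / 100 : ℝ)⌋₊ ⌊X ^ (14 / 100 : ℝ)⌋₊).filter Nat.Prime) :
    4 / 100 * Real.log X ≤ sv (Dv ε X) q := by
  have hXpos : 0 < X := lt_of_lt_of_le (Real.exp_pos _) hX
  have hL1 : 2000 ≤ Real.log X := by
    rw [Real.le_log_iff_exp_le hXpos]
    exact hX
  have hX1 : 1 ≤ X := by
    have := Real.add_one_le_exp (2000 : ℝ)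
    linarith
  have hlog2 : Real.log 2 < 1 := by
    have := Real.log_two_lt_d9
    linarith
  rw [mem_filter, mem_Ioc] at hq
  set L : ℕ := ⌊X ^ (5 / 100 : ℝ)⌋₊ with hL
  have h1 : 5 / 100 * Real.log X - Real.log 2 ≤ Real.log L := smb_log_ge X _ hX1 (by norm_num)
  have hL2 : 2 ≤ L := by
    by_contra hcon
    have h2 : (L : ℝ) ≤ 1 := by exact_mod_cast (by omega : L ≤ 1)
    have h3 : Real.log L ≤ 0 := Real.log_nonpos (by positivity) h2
    linarith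
  have h2 := sel_log L hL2
  have h3 : ∑ m ∈ Icc 1 L, sel_g m ≤ sv (Dv ε X) q := by
    unfold sv
    have h4 : ∑ m ∈ Icc 1 L, sel_g m = ∑ m ∈ (Icc 1 L).filter (fun m => Squarefree m),
        1 / (m.totient : ℝ) := by
      rw [Finset.sum_filter]
      rfl
    rw [h4]
    refine Finset.sum_le_sum_of_subset_of_nonneg (fun m hm => ?_) fun m _ _ => by positivity
    rw [mem_filter, mem_Icc] at hm
    unfold MM DD
    rw [mem_filter, mem_filter, mem_Icc]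
    have hmL : (m : ℝ) ≤ X ^ (5 / 100 : ℝ) := by
      have h5 : (m : ℝ) ≤ L := by exact_mod_cast hm.1.2
      exact h5.trans (Nat.floor_le (by positivity))
    have hqX : (q : ℝ) ≤ X ^ (14 / 100 : ℝ) := by
      have h5 : (q : ℝ) ≤ (⌊X ^ (14 / 100 : ℝ)⌋₊ : ℝ) := by exact_mod_cast hq.1.2
      exact h5.trans (Nat.floor_le (by positivity))
    refine ⟨⟨⟨hm.1.1, ?_⟩, fun p hp => ?_⟩, hm.2⟩
    · rw [Nat.le_div_iff_mul_le hq.2.pos]
      unfold Dv
      apply Nat.le_floor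
      push_cast
      calc (m : ℝ) * q ≤ X ^ (5 / 100 : ℝ) * X ^ (14 / 100 : ℝ) :=
            mul_le_mul hmL hqX (by positivity) (by positivity)
        _ = X ^ (5 / 100 + 14 / 100 : ℝ) := (Real.rpow_add hXpos _ _).symm
        _ ≤ X ^ (1 / 2 - 15 * ε) := Real.rpow_le_rpow_of_exponent_le hX1 (by linarith)
    · have h5 : p ≤ m := Nat.le_of_mem_primeFactors hp
      have h6 : L ≤ ⌊X ^ (12 / 100 : ℝ)⌋₊ :=
        Nat.floor_le_floor (Real.rpow_le_rpow_of_exponent_le hX1 (by norm_num))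
      exact lt_of_le_of_lt ((h5.trans hm.1.2).trans h6) hq.1.1
  linarith

theorem Sv_lower : ∃ c C : ℝ, 0 < c ∧ 0 < C ∧ ∀ ε : ℝ, 0 < ε → ε ≤ 1 / 50 →
    ∀ᶠ X : ℝ in atTop, max c (1 / 2 - C * ε) * Real.log X ≤ Sv ε X := by
  obtain ⟨C0, hC0, hsum⟩ := sum_lower
  refine ⟨1 / 400, 16 + 6 * C0, by norm_num, by positivity, fun ε hε hε2 => ?_⟩
  have hZt : Tendsto (fun X : ℝ => X ^ (6 * ε)) atTop atTop := tendsto_rpow_atTop (by positivity)
  filter_upwards [eventually_ge_atTop (Real.exp 2000), hZt.eventually_ge_atTop 2,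
    (Real.tendsto_log_atTop.const_mul_atTop hε).eventually_ge_atTop (Real.log 2)] with X hX hX2 hX3
  have hX0 : 0 < X := lt_of_lt_of_le (Real.exp_pos _) hX
  have hX1 : 1 ≤ X := by
    have := Real.add_one_le_exp (2000 : ℝ)
    linarith
  have hlog0 : 0 ≤ Real.log X := Real.log_nonneg hX1
  have hp1 : (1 / 2 - (16 + 6 * C0) * ε) * Real.log X ≤ Sv ε X := by
    have hZ2 : 2 ≤ Zv ε X := by
      unfold Zv
      exact Nat.le_floor (by exact_mod_cast hX2)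
    have hZD : Zv ε X ≤ Dv ε X := by
      unfold Zv Dv
      exact Nat.floor_le_floor (Real.rpow_le_rpow_of_exponent_le hX1 (by linarith))
    have h1 := hsum (Zv ε X) (Dv ε X) hZ2 hZD
    have h2 : (1 / 2 - 15 * ε) * Real.log X - Real.log 2 ≤ Real.log (Dv ε X) :=
      smb_log_ge X _ hX1 (by linarith)
    have h3 : Real.log (Zv ε X) ≤ 6 * ε * Real.log X := smb_log_le X _ hX1 (by linarith)
    have h4 : C0 * Real.log (Zv ε X) ≤ C0 * (6 * ε * Real.log X) :=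
      mul_le_mul_of_nonneg_left h3 hC0.le
    have h5 : Sv ε X = SS (sv (Dv ε X)) ((Ioc (Zv ε X) (Dv ε X)).filter Nat.Prime) := rfl
    rw [h5]
    nlinarith [h1, h2, h4, hX3]
  have hp2 : 1 / 400 * Real.log X ≤ Sv ε X := by
    have hsub : (Ioc ⌊X ^ (12 / 100 : ℝ)⌋₊ ⌊X ^ (14 / 100 : ℝ)⌋₊).filter Nat.Prime ⊆ Qv ε X := by
      intro q hq
      rw [mem_filter, mem_Ioc] at hq
      unfold Qv
      rw [mem_filter, mem_Ioc]
      refine ⟨⟨lt_of_le_of_lt ?_ hq.1.1, hq.1.2.trans ?_⟩, hq.2⟩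
      · unfold Zv
        exact Nat.floor_le_floor (Real.rpow_le_rpow_of_exponent_le hX1 (by linarith))
      · unfold Dv
        exact Nat.floor_le_floor (Real.rpow_le_rpow_of_exponent_le hX1 (by linarith))
    have hnn : ∀ q ∈ Qv ε X, 0 ≤ sv (Dv ε X) q / ((q : ℝ) - 1) := by
      intro q hq
      unfold Qv at hq
      rw [mem_filter] at hq
      have h2 : (2 : ℝ) ≤ q := by exact_mod_cast hq.2.two_le
      refine div_nonneg (Finset.sum_nonneg fun m _ => by positivity) (by linarith)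
    calc 1 / 400 * Real.log X = (4 / 100 * Real.log X) * (1 / 16) := by ring
      _ ≤ (4 / 100 * Real.log X) *
          ∑ q ∈ (Ioc ⌊X ^ (12 / 100 : ℝ)⌋₊ ⌊X ^ (14 / 100 : ℝ)⌋₊).filter Nat.Prime,
            1 / ((q : ℝ) - 1) := mul_le_mul_of_nonneg_left (smb_primes X hX) (by positivity)
      _ = ∑ q ∈ (Ioc ⌊X ^ (12 / 100 : ℝ)⌋₊ ⌊X ^ (14 / 100 : ℝ)⌋₊).filter Nat.Prime,
            (4 / 100 * Real.log X) / ((q : ℝ) - 1) := by
          rw [Finset.mul_sum]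
          exact Finset.sum_congr rfl fun q _ => by rw [mul_one_div]
      _ ≤ ∑ q ∈ (Ioc ⌊X ^ (12 / 100 : ℝ)⌋₊ ⌊X ^ (14 / 100 : ℝ)⌋₊).filter Nat.Prime,
            sv (Dv ε X) q / ((q : ℝ) - 1) := by
          refine Finset.sum_le_sum fun q hq => ?_
          have h2 : (2 : ℝ) ≤ q := by exact_mod_cast (mem_filter.1 hq).2.two_le
          exact div_le_div_of_nonneg_right (smb_sv ε X hε2 hX q hq) (by linarith)
      _ ≤ Sv ε X := Finset.sum_le_sum_of_subset_of_nonneg hsub fun q hq _ => hnn q hq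
  rcases max_choice (1 / 400 : ℝ) (1 / 2 - (16 + 6 * C0) * ε) with h | h
  · rw [h]
    exact hp2
  · rw [h]
    exact hp1

end Pool.Agent.H67.VT
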