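import Pool.Agent.H67.VS.Ty1
import Pool.Agent.H21.MT.Vau

/-!
[H67 VT VC]  Vaughan's identity for the character sums over primes, general parameters.

Proof.  As in `Pool/Agent/H67/VS/Vc.lean` (its private lemma `vc_det` is almost this statement; copy it).
`b` from `H21.MT.vaughan u`.  `ThC χ = ∑_{n ≤ B} Λ(n) w(n) χ(n)` minus the terms with `n` in `(A,B]` not
prime, which is at most `ψ(B) - θ(B) ≤ 2 √B log B`.  `vaughan` with `Y = B`, `F n = w n χ n`: the first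
sum vanishes (`w n = 0` for `n ≤ u ≤ A`), the second is `≤ u * 5 R log B` (`ty1b`), the third
`≤ u^2 * 2 log u * 4 R` (`ty1a`), the fourth is the sum in the statement.  `χ ≠ 1`, modulus `≤ R`.
-/

namespace Pool.Agent.H67.VT

open Finset Filter Pool.Agent.H21.MT Pool.Agent.H67.VS

/-- prime powers that are not primes -/
private theorem vc_nonprime (A B : ℕ) (hB : 1 ≤ B) :
    ∑ n ∈ (Ioc A B).filter (fun n => ¬ n.Prime), ArithmeticFunction.vonMangoldt n ≤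
      2 * Real.sqrt B * Real.log B := by
  have hB1 : (1 : ℝ) ≤ B := by exact_mod_cast hB
  refine le_trans ?_ (Chebyshev.psi_sub_theta_le hB1)
  rw [Chebyshev.psi_sub_theta_eq_sum_not_prime, Nat.floor_natCast]
  apply sum_le_sum_of_subset_of_nonneg
  · apply filter_subset_filter
    exact Ioc_subset_Ioc (Nat.zero_le _) le_rfl
  · intro i _ _
    exact ArithmeticFunction.vonMangoldt_nonneg

private theorem vc_norm_le {q : ℕ} (χ : DirichletCharacter ℂ q) (x : ZMod q) : ‖χ x‖ ≤ 1 :=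
  DirichletCharacter.norm_le_one χ x

private theorem vc_det {A B u q R : ℕ} [NeZero q] {w : ℕ → ℝ} (hw : Wt A B w) (hu : 1 ≤ u)
    (huA : u ≤ A) (hAB : A ≤ B) (χ : DirichletCharacter ℂ q) (hχ : χ ≠ 1) (hq : q ≤ R)
    (c b : ℕ → ℝ) (hc : ∀ m, |c m| ≤ Real.log m)
    (hV : ∀ (Y : ℕ) (F : ℕ → ℂ),
    ∑ n ∈ Icc 1 Y, ((ArithmeticFunction.vonMangoldt n : ℝ) : ℂ) * F n =
      ∑ n ∈ (Icc 1 Y).filter (fun n => n ≤ u), ((ArithmeticFunction.vonMangoldt n : ℝ) : ℂ) * F n +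
      ∑ m ∈ Icc 1 u, ((ArithmeticFunction.moebius m : ℤ) : ℂ) *
        ∑ k ∈ Icc 1 (Y / m), ((Real.log k : ℝ) : ℂ) * F (m * k) -
      ∑ m ∈ Icc 1 (u * u), ((c m : ℝ) : ℂ) * ∑ k ∈ Icc 1 (Y / m), F (m * k) +
      ∑ m ∈ Ioc u Y, ((ArithmeticFunction.moebius m : ℤ) : ℂ) *
        ∑ k ∈ Ioc u (Y / m), ((b k : ℝ) : ℂ) * F (m * k)) :
    ‖ThC A B w χ‖ ≤
      ‖∑ m ∈ Ioc u B, (((ArithmeticFunction.moebius m : ℤ) : ℝ) : ℂ) *
        ∑ k ∈ Ioc u (B / m), ((b k : ℝ) : ℂ) *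
          (((w (m * k) : ℝ) : ℂ) * χ ((m * k : ℕ) : ZMod q))‖ +
      (5 * u * R * Real.log B + 4 * (u * u) * R * Real.log (u * u) +
        2 * Real.sqrt B * Real.log B) := by
  obtain ⟨F, hF⟩ : ∃ F : ℕ → ℂ, F = fun n => ((w n : ℝ) : ℂ) * χ (n : ZMod q) := ⟨_, rfl⟩
  have hqR : (q : ℝ) ≤ R := by exact_mod_cast hq
  have hB1 : 1 ≤ B := by omega
  have hBr : (1 : ℝ) ≤ B := by exact_mod_cast hB1
  have hFm : ∀ m k : ℕ, F (m * k) = χ (m : ZMod q) * (((w (m * k) : ℝ) : ℂ) * χ (k : ZMod q)) := by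
    intro m k
    rw [hF]
    simp only
    rw [Nat.cast_mul, map_mul]
    ring
  have h1 := hV B F
  -- the terms `n ≤ u` vanish
  have h2 : ∑ n ∈ (Icc 1 B).filter (fun n => n ≤ u),
      ((ArithmeticFunction.vonMangoldt n : ℝ) : ℂ) * F n = 0 := by
    apply sum_eq_zero
    intro n hn
    rw [mem_filter] at hn
    rw [hF]
    simp only
    rw [hw.zero n (by rw [mem_Ioc]; omega)]
    simp
  -- type I, first kind
  have h3 : ‖∑ m ∈ Icc 1 u, ((ArithmeticFunction.moebius m : ℤ) : ℂ) *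
        ∑ k ∈ Icc 1 (B / m), ((Real.log k : ℝ) : ℂ) * F (m * k)‖ ≤ 5 * u * R * Real.log B := by
    have h4 : ∀ m ∈ Icc 1 u, ‖((ArithmeticFunction.moebius m : ℤ) : ℂ) *
        ∑ k ∈ Icc 1 (B / m), ((Real.log k : ℝ) : ℂ) * F (m * k)‖ ≤ 5 * R * Real.log B := by
      intro m hm
      rw [mem_Icc] at hm
      have e1 : ∑ k ∈ Icc 1 (B / m), ((Real.log k : ℝ) : ℂ) * F (m * k) =
          χ (m : ZMod q) * ∑ k ∈ Icc 1 (B / m), ((Real.log k * w (m * k) : ℝ) : ℂ) *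
            χ (k : ZMod q) := by
        rw [mul_sum]
        apply sum_congr rfl
        intro k _
        rw [hFm]
        push_cast
        ring
      rw [e1, norm_mul, norm_mul]
      have e2 := ty1b hw m (B / m) q hm.1 χ hχ
      have e3 : ‖((ArithmeticFunction.moebius m : ℤ) : ℂ)‖ ≤ 1 := by
        rw [Complex.norm_intCast]
        exact_mod_cast ArithmeticFunction.abs_moebius_le_one
      have e4 := vc_norm_le χ (m : ZMod q)
      have e5 : Real.log ((B / m : ℕ) : ℝ) ≤ Real.log B := by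
        rcases Nat.eq_zero_or_pos (B / m) with h0 | h0
        · rw [h0, Nat.cast_zero, Real.log_zero]
          exact Real.log_nonneg hBr
        · apply Real.log_le_log (by exact_mod_cast h0)
          exact_mod_cast Nat.div_le_self B m
      have e6 : 0 ≤ Real.log ((B / m : ℕ) : ℝ) := Real.log_natCast_nonneg _
      calc ‖((ArithmeticFunction.moebius m : ℤ) : ℂ)‖ * (‖χ (m : ZMod q)‖ *
            ‖∑ k ∈ Icc 1 (B / m), ((Real.log k * w (m * k) : ℝ) : ℂ) * χ (k : ZMod q)‖)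
          ≤ 1 * (1 * (5 * q * Real.log ((B / m : ℕ) : ℝ))) := by gcongr
        _ = 5 * q * Real.log ((B / m : ℕ) : ℝ) := by ring
        _ ≤ 5 * R * Real.log B := by gcongr
    refine (norm_sum_le _ _).trans ((sum_le_sum h4).trans (le_of_eq ?_))
    rw [sum_const, Nat.card_Icc, Nat.add_sub_cancel, nsmul_eq_mul]
    ring
  -- type I, second kind
  have h5 : ‖∑ m ∈ Icc 1 (u * u), ((c m : ℝ) : ℂ) * ∑ k ∈ Icc 1 (B / m), F (m * k)‖ ≤
      4 * (u * u) * R * Real.log (u * u) := by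
    have h4 : ∀ m ∈ Icc 1 (u * u), ‖((c m : ℝ) : ℂ) * ∑ k ∈ Icc 1 (B / m), F (m * k)‖ ≤
        4 * R * Real.log (u * u) := by
      intro m hm
      rw [mem_Icc] at hm
      have hm1 : (1 : ℝ) ≤ m := by exact_mod_cast hm.1
      have hm2 : (m : ℝ) ≤ u * u := by exact_mod_cast hm.2
      have e1 : ∑ k ∈ Icc 1 (B / m), F (m * k) =
          χ (m : ZMod q) * ∑ k ∈ Icc 1 (B / m), ((w (m * k) : ℝ) : ℂ) * χ (k : ZMod q) := by
        rw [mul_sum]
        apply sum_congr rfl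
        intro k _
        rw [hFm]
      rw [e1, norm_mul, norm_mul, Complex.norm_real, Real.norm_eq_abs]
      have e2 := ty1a hw m (B / m) q hm.1 χ hχ
      have e4 := vc_norm_le χ (m : ZMod q)
      have e5 : |c m| ≤ Real.log (u * u) :=
        (hc m).trans (Real.log_le_log (by linarith) hm2)
      have e6 : 0 ≤ Real.log ((u : ℝ) * u) := (abs_nonneg _).trans e5
      calc |c m| * (‖χ (m : ZMod q)‖ *
            ‖∑ k ∈ Icc 1 (B / m), ((w (m * k) : ℝ) : ℂ) * χ (k : ZMod q)‖)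
          ≤ Real.log (u * u) * (1 * (4 * q)) := by gcongr
        _ = 4 * q * Real.log (u * u) := by ring
        _ ≤ 4 * R * Real.log (u * u) := by gcongr
    refine (norm_sum_le _ _).trans ((sum_le_sum h4).trans (le_of_eq ?_))
    rw [sum_const, Nat.card_Icc, Nat.add_sub_cancel, nsmul_eq_mul]
    push_cast
    ring
  -- the sum over primes
  have h6 : ThC A B w χ = ∑ n ∈ Icc 1 B, ((ArithmeticFunction.vonMangoldt n : ℝ) : ℂ) * F n -
      ∑ n ∈ (Ioc A B).filter (fun n => ¬ n.Prime),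
        ((ArithmeticFunction.vonMangoldt n : ℝ) : ℂ) * F n := by
    have e1 : ∑ n ∈ Icc 1 B, ((ArithmeticFunction.vonMangoldt n : ℝ) : ℂ) * F n =
        ∑ n ∈ Ioc A B, ((ArithmeticFunction.vonMangoldt n : ℝ) : ℂ) * F n := by
      symm
      apply sum_subset
      · intro n hn
        rw [mem_Ioc] at hn
        rw [mem_Icc]
        omega
      · intro n _ hn
        rw [hF]
        simp only
        rw [hw.zero n hn]
        simp
    rw [e1, sum_filter, ← sum_sub_distrib]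
    unfold ThC
    apply sum_congr rfl
    intro n _
    unfold pl
    by_cases hp : n.Prime
    · rw [if_pos hp, if_neg (not_not.2 hp), sub_zero, hF,
        ArithmeticFunction.vonMangoldt_apply_prime hp]
      push_cast
      ring
    · rw [if_neg hp, if_pos hp, mul_zero]
      simp
  have h7 : ‖∑ n ∈ (Ioc A B).filter (fun n => ¬ n.Prime),
        ((ArithmeticFunction.vonMangoldt n : ℝ) : ℂ) * F n‖ ≤ 2 * Real.sqrt B * Real.log B := by
    refine (norm_sum_le _ _).trans (le_trans (sum_le_sum ?_) (vc_nonprime A B hB1))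
    intro n _
    rw [norm_mul, Complex.norm_real, Real.norm_of_nonneg ArithmeticFunction.vonMangoldt_nonneg, hF]
    simp only
    rw [norm_mul, Complex.norm_real, Real.norm_of_nonneg (hw.nonneg n)]
    have e1 : w n * ‖χ (n : ZMod q)‖ ≤ 1 * 1 :=
      mul_le_mul (hw.le_one n) (vc_norm_le χ _) (norm_nonneg _) zero_le_one
    calc ArithmeticFunction.vonMangoldt n * (w n * ‖χ (n : ZMod q)‖)
        ≤ ArithmeticFunction.vonMangoldt n * (1 * 1) :=
          mul_le_mul_of_nonneg_left e1 ArithmeticFunction.vonMangoldt_nonneg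
      _ = _ := by ring
  have h8 : ∑ m ∈ Ioc u B, ((ArithmeticFunction.moebius m : ℤ) : ℂ) *
        ∑ k ∈ Ioc u (B / m), ((b k : ℝ) : ℂ) * F (m * k) =
      ∑ m ∈ Ioc u B, (((ArithmeticFunction.moebius m : ℤ) : ℝ) : ℂ) *
        ∑ k ∈ Ioc u (B / m), ((b k : ℝ) : ℂ) *
          (((w (m * k) : ℝ) : ℂ) * χ ((m * k : ℕ) : ZMod q)) := by
    apply sum_congr rfl
    intro m _
    rw [hF]
    push_cast
    rfl
  rw [h6, h1, h2, zero_add, h8]
  obtain ⟨T1, hT1⟩ : ∃ T, T = ∑ m ∈ Icc 1 u, ((ArithmeticFunction.moebius m : ℤ) : ℂ) *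
        ∑ k ∈ Icc 1 (B / m), ((Real.log k : ℝ) : ℂ) * F (m * k) := ⟨_, rfl⟩
  obtain ⟨T2, hT2⟩ : ∃ T, T = ∑ m ∈ Icc 1 (u * u), ((c m : ℝ) : ℂ) *
    ∑ k ∈ Icc 1 (B / m), F (m * k) := ⟨_, rfl⟩
  obtain ⟨T3, hT3⟩ : ∃ T, T = ∑ m ∈ Ioc u B, (((ArithmeticFunction.moebius m : ℤ) : ℝ) : ℂ) *
        ∑ k ∈ Ioc u (B / m), ((b k : ℝ) : ℂ) *
          (((w (m * k) : ℝ) : ℂ) * χ ((m * k : ℕ) : ZMod q)) := ⟨_, rfl⟩
  obtain ⟨T4, hT4⟩ : ∃ T, T = ∑ n ∈ (Ioc A B).filter (fun n => ¬ n.Prime),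
        ((ArithmeticFunction.vonMangoldt n : ℝ) : ℂ) * F n := ⟨_, rfl⟩
  rw [← hT1] at h3 ⊢
  rw [← hT2] at h5 ⊢
  rw [← hT3]
  rw [← hT4] at h7 ⊢
  have e1 := norm_sub_le (T1 - T2 + T3) T4
  have e2 := norm_add_le (T1 - T2) T3
  have e3 := norm_sub_le T1 T2
  linarith

theorem vau2 (u : ℕ) (hu : 1 ≤ u) : ∃ b : ℕ → ℝ, (∀ k, |b k| ≤ Real.log k) ∧
    ∀ (A B R : ℕ) (w : ℕ → ℝ), Wt A B w → u ≤ A → A ≤ B → ∀ c ∈ PC R,
    ‖ThC A B w c.2‖ ≤
      ‖∑ m ∈ Ioc u B, (((ArithmeticFunction.moebius m : ℤ) : ℝ) : ℂ) *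
        ∑ k ∈ Ioc u (B / m), ((b k : ℝ) : ℂ) *
          (((w (m * k) : ℝ) : ℂ) * c.2 ((m * k : ℕ) : ZMod (c.1.val + 1)))‖ +
      (13 * (u : ℝ) ^ 2 * R * Real.log B + 2 * Real.sqrt B * Real.log B) := by
  obtain ⟨c', b, hc', hb, hV⟩ := vaughan u hu
  refine ⟨b, hb, ?_⟩
  intro A B R w hw huA hAB c hc
  have h1 := vc_det hw hu huA hAB c.2 (ch_ne_one c hc) (R := R) (by omega) c' b hc' hV
  have hu1 : (1 : ℝ) ≤ u := by exact_mod_cast hu
  have huB : (u : ℝ) ≤ B := by exact_mod_cast huA.trans hAB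
  have hlB : 0 ≤ Real.log B := Real.log_nonneg (hu1.trans huB)
  have hlu : Real.log ((u : ℝ) * u) ≤ 2 * Real.log B := by
    rw [Real.log_mul (by linarith) (by linarith)]
    have := Real.log_le_log (by linarith) huB
    linarith
  have hR : (0 : ℝ) ≤ R := Nat.cast_nonneg R
  have e1 : 5 * (u : ℝ) * R * Real.log B ≤ 5 * (u : ℝ) ^ 2 * R * Real.log B := by
    have : (u : ℝ) ≤ (u : ℝ) ^ 2 := by nlinarith
    gcongr
  have e2 : 4 * ((u : ℝ) * u) * R * Real.log ((u : ℝ) * u) ≤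
      4 * ((u : ℝ) * u) * R * (2 * Real.log B) := by gcongr
  have e3 : 4 * ((u : ℝ) * u) * R * (2 * Real.log B) = 8 * (u : ℝ) ^ 2 * R * Real.log B := by ring
  have e4 : 13 * (u : ℝ) ^ 2 * R * Real.log B =
      5 * (u : ℝ) ^ 2 * R * Real.log B + 8 * (u : ℝ) ^ 2 * R * Real.log B := by ring
  rw [e4]
  linarith

end Pool.Agent.H67.VT
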