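import Pool.Agent.H67.VS.Win
import Pool.Agent.H67.VT.Key
import Pool.Agent.H67.VT.Gsq
import Pool.Agent.H67.VT.Fp
import Pool.Agent.H67.VT.Cov
import Pool.Agent.H67.VT.SumB

/-!
[H67 VT WIN]  The inequality for one window, sharp constant.

Proof.  As in `Pool/Agent/H67/VS/Win.lean` (`win_v` there gives the variation of `v = w f`:
`|v B| + ∑ |Δ v| ≤ X^(1/10) + 3 X^(1/10) + X^(2/5)` or similar).  `A = Ax X`, `B = Bx X`, `D = Dv ε X`,
`Q = Qv ε X`, `ρ = rv D`, `s = sv D`, `K = KK D`, `S = Sv ε X ≥ c log X ≥ 1` (`Sv_lower`), `w = hat y δ`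
(`hat_wt`), `g = gg ρ D Q H`, `W = mass`, `Θ = theta`, `e = X^(1 - 5ε/2)`, `V = ∑ w (PH - f)^2`.
`Z = ∑ w (PH - f) g ≥ H S Θ - X^(1-28ε/10) - 9 H^3 K LL log(B+H) - 3 H K LL (..)`; by `LL_le`, `D ≤ X^(1/2-15ε)`
all errors together are `≤ e ≤ H S e` for large `X` (`1/2 - 15ε + ε + 2/5 < 1 - 5ε/2`), so
`Z ≥ H S (Θ - e)`.  `Z^2 ≤ V ∑ w g^2` (Cauchy-Schwarz), `g_sq2`:
`∑ w g^2 ≤ (1+2η) H S W + 100 (H K LL)^2 ≤ (1+2η) H S (W + e)` (`(H K LL)^2 ≤ X^(2ε + 1 - 30ε) * powers of log`).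
If `Θ > e`: `(H S (Θ - e))^2 ≤ V (1+2η) H S (W + e)`; divide by `H S > 0`.  If `Θ ≤ e` trivial.
-/

namespace Pool.Agent.H67.VT

open Finset Filter Pool.Agent.H67.VS

theorem win2_num (ε c : ℝ) (hε : 0 < ε) (hε2 : ε ≤ 1 / 50) (hc : 0 < c) :
    ∀ᶠ X : ℝ in atTop, 5 ≤ X ∧ 1 ≤ Real.log X ∧ Real.log (5 * X) ≤ 2 * Real.log X ∧
      3 * X ^ (1 - 28 / 10 * ε) ≤ c * X ^ (1 - 5 / 2 * ε) ∧
      2304 * Real.log X ^ 5 * (X ^ (2 * ε) * X ^ (1 / 2 - 15 * ε)) ≤ X ^ (1 - 28 / 10 * ε) ∧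
      1920 * Real.log X ^ 4 * (X ^ (1 / 2 - 15 * ε) * X ^ (2 / 5 : ℝ)) ≤
        X ^ (1 - 28 / 10 * ε) ∧
      1638400 * Real.log X ^ 8 * (X ^ ε * (X ^ (1 / 2 - 15 * ε) * X ^ (1 / 2 - 15 * ε))) ≤
        X ^ (1 - 28 / 10 * ε) := by
  have h1 := (isLittleO_log_rpow_atTop (show (0 : ℝ) < ε / 50 by positivity)).bound
    (show (0 : ℝ) < 1 / 10 by norm_num)
  have h2 := (tendsto_rpow_atTop (show (0 : ℝ) < 3 / 10 * ε by positivity)).eventually_ge_atTop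
    (3 / c)
  filter_upwards [h1, h2, eventually_ge_atTop (5 : ℝ)] with X h1 h2 hX
  have hX0 : 0 < X := by linarith
  have hX1 : 1 ≤ X := by linarith
  have hu1 : 1 ≤ Real.log X := by
    rw [Real.le_log_iff_exp_le hX0]
    have := Real.exp_one_lt_d9
    linarith
  obtain ⟨u, hu⟩ : ∃ u, u = Real.log X := ⟨_, rfl⟩
  rw [Real.norm_eq_abs, Real.norm_eq_abs, abs_of_nonneg (Real.log_nonneg hX1),
    abs_of_nonneg (Real.rpow_nonneg hX0.le _), ← hu] at h1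
  rw [← hu] at hu1 ⊢
  have hu0 : 0 ≤ u := by linarith
  obtain ⟨r, hr⟩ : ∃ r, r = X ^ (ε / 50) := ⟨_, rfl⟩
  rw [← hr] at h1
  have hr0 : 0 < r := by
    rw [hr]
    exact Real.rpow_pos_of_pos hX0 _
  have hpow : ∀ n : ℕ, u ^ n ≤ (1 / 10) ^ n * r ^ n := by
    intro n
    rw [← mul_pow]
    exact pow_le_pow_left₀ hu0 h1 n
  have hrn : ∀ n : ℕ, r ^ n = X ^ (n * (ε / 50)) := by
    intro n
    rw [hr, ← Real.rpow_natCast, ← Real.rpow_mul hX0.le, mul_comm]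
  have hmono : ∀ a b : ℝ, a ≤ b → X ^ a ≤ X ^ b := fun a b hab =>
    Real.rpow_le_rpow_of_exponent_le hX1 hab
  refine ⟨hX, hu1, ?_, ?_, ?_, ?_, ?_⟩
  · rw [Real.log_mul (by norm_num) hX0.ne', ← hu]
    have : Real.log 5 ≤ u := by
      rw [hu]
      exact Real.log_le_log (by norm_num) hX
    linarith
  · have h3 : X ^ (1 - 5 / 2 * ε) = X ^ (3 / 10 * ε) * X ^ (1 - 28 / 10 * ε) := by
      rw [← Real.rpow_add hX0]
      congr 1
      ring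
    rw [h3, ← mul_assoc]
    refine mul_le_mul_of_nonneg_right ?_ (Real.rpow_nonneg hX0.le _)
    rw [div_le_iff₀ hc] at h2
    linarith
  · have h3 := hpow 5
    have h4 : 2304 * u ^ 5 ≤ X ^ ((5 : ℕ) * (ε / 50)) := by
      rw [← hrn]
      have : 0 < r ^ 5 := by positivity
      linarith
    calc 2304 * u ^ 5 * (X ^ (2 * ε) * X ^ (1 / 2 - 15 * ε))
        ≤ X ^ ((5 : ℕ) * (ε / 50)) * (X ^ (2 * ε) * X ^ (1 / 2 - 15 * ε)) :=
          mul_le_mul_of_nonneg_right h4 (by positivity)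
      _ = X ^ (((5 : ℕ) : ℝ) * (ε / 50) + (2 * ε + (1 / 2 - 15 * ε))) := by
          rw [← Real.rpow_add hX0, ← Real.rpow_add hX0]
      _ ≤ _ := hmono _ _ (by push_cast; linarith)
  · have h3 := hpow 4
    have h4 : 1920 * u ^ 4 ≤ X ^ ((4 : ℕ) * (ε / 50)) := by
      rw [← hrn]
      have : 0 < r ^ 4 := by positivity
      linarith
    calc 1920 * u ^ 4 * (X ^ (1 / 2 - 15 * ε) * X ^ (2 / 5 : ℝ))
        ≤ X ^ ((4 : ℕ) * (ε / 50)) * (X ^ (1 / 2 - 15 * ε) * X ^ (2 / 5 : ℝ)) :=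
          mul_le_mul_of_nonneg_right h4 (by positivity)
      _ = X ^ (((4 : ℕ) : ℝ) * (ε / 50) + ((1 / 2 - 15 * ε) + 2 / 5)) := by
          rw [← Real.rpow_add hX0, ← Real.rpow_add hX0]
      _ ≤ _ := hmono _ _ (by push_cast; linarith)
  · have h3 := hpow 8
    have h4 : 1638400 * u ^ 8 ≤ X ^ ((8 : ℕ) * (ε / 50)) := by
      rw [← hrn]
      have : 0 < r ^ 8 := by positivity
      linarith
    calc 1638400 * u ^ 8 * (X ^ ε * (X ^ (1 / 2 - 15 * ε) * X ^ (1 / 2 - 15 * ε)))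
        ≤ X ^ ((8 : ℕ) * (ε / 50)) * (X ^ ε * (X ^ (1 / 2 - 15 * ε) * X ^ (1 / 2 - 15 * ε))) :=
          mul_le_mul_of_nonneg_right h4 (by positivity)
      _ = X ^ (((8 : ℕ) : ℝ) * (ε / 50) + (ε + ((1 / 2 - 15 * ε) + (1 / 2 - 15 * ε)))) := by
          rw [← Real.rpow_add hX0, ← Real.rpow_add hX0, ← Real.rpow_add hX0]
      _ ≤ _ := hmono _ _ (by push_cast; linarith)

theorem window2 (ε η : ℝ) (hε : 0 < ε) (hε2 : ε ≤ 1 / 50) (hη : 0 < η) (hη1 : η ≤ 1) :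
    ∀ᶠ X : ℝ in atTop, ∀ y δ : ℝ, X ≤ y → y ≤ 2 * X → X ^ (-2 * ε) ≤ δ → δ ≤ 1 / 2 →
    ∀ H : ℕ, 1 ≤ H → (H : ℝ) ≤ X ^ ε →
    ∀ f : ℕ → ℝ, (∀ n, |f n| ≤ X ^ (1 / 10 : ℝ)) →
    (∀ m n : ℕ, ∑ k ∈ Ico m n, |f (k + 1) - f k| ≤ X ^ (2 / 5 : ℝ)) →
    H * Sv ε X * (max 0 (theta (Ax X) (Bx X) (hat y δ) - X ^ (1 - 5 / 2 * ε))) ^ 2 ≤
      (1 + 2 * η) * (mass (Ax X) (Bx X) (hat y δ) + X ^ (1 - 5 / 2 * ε)) *
        ∑ n ∈ Ioc (Ax X) (Bx X), hat y δ n * (PH H n - f n) ^ 2 := by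
  obtain ⟨c, C, hc, -, hSv⟩ := Sv_lower
  have e1 := (tendsto_rpow_atTop (show (0 : ℝ) < 1 / 2 by norm_num)).eventually_ge_atTop 2
  have e2 := (tendsto_rpow_atTop (show (0 : ℝ) < 5 * ε by positivity)).eventually_ge_atTop
    ((2 * (1 + 1 / η) + η) / η)
  filter_upwards [key2 ε hε hε2, hSv ε hε hε2, win2_num ε c hε hε2 hc, e1, e2] with
    X hkey hSv hnum he1 he2
  intro y δ hy1 hy2 hδ hδ2 H hH hHX f hf hf2
  obtain ⟨hX5, hu1, hlog5, hn1, hn2, hn3, hn4⟩ := hnum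
  have hX0 : (0 : ℝ) < X := by linarith
  have hX1 : (1 : ℝ) ≤ X := by linarith
  have hδ0 : 0 < δ := lt_of_lt_of_le (Real.rpow_pos_of_pos hX0 _) hδ
  have hw := hat_wt X y δ (by linarith) hy1 hy2 hδ0 hδ2
  have hk := hkey y δ hy1 hy2 hδ hδ2 H hH hHX
  have hmono : ∀ a b : ℝ, a ≤ b → X ^ a ≤ X ^ b := fun a b hab =>
    Real.rpow_le_rpow_of_exponent_le hX1 hab
  obtain ⟨e, he⟩ : ∃ e : ℝ, e = X ^ (1 - 5 / 2 * ε) := ⟨_, rfl⟩
  obtain ⟨e', he'⟩ : ∃ e' : ℝ, e' = X ^ (1 - 28 / 10 * ε) := ⟨_, rfl⟩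
  rw [← he'] at hk
  rw [← he, ← he'] at hn1
  rw [← he'] at hn2 hn3 hn4
  rw [← he]
  have he0 : 0 ≤ e := by
    rw [he]
    exact Real.rpow_nonneg hX0.le _
  have he'0 : 0 ≤ e' := by
    rw [he']
    exact Real.rpow_nonneg hX0.le _
  obtain ⟨P, hP⟩ : ∃ P : ℝ, P = X ^ (1 / 2 - 15 * ε) := ⟨_, rfl⟩
  have hP0 : 0 < P := by
    rw [hP]
    exact Real.rpow_pos_of_pos hX0 _
  have hP1 : 1 ≤ P := by
    rw [hP]
    exact Real.one_le_rpow hX1 (by linarith)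
  rw [← hP] at hn2 hn3 hn4
  obtain ⟨u, hu⟩ : ∃ u, u = Real.log X := ⟨_, rfl⟩
  rw [← hu] at hu1 hlog5 hn2 hn3 hn4
  have hu0 : 0 ≤ u := by linarith
  have hS : c ≤ Sv ε X := by
    have h1 : c * 1 ≤ max c (1 / 2 - C * ε) * Real.log X := by
      rw [← hu]
      exact mul_le_mul (le_max_left _ _) hu1 zero_le_one (hc.le.trans (le_max_left _ _))
    linarith
  have hSdef : Sv ε X = SS (sv (Dv ε X)) (Qv ε X) := rfl
  obtain ⟨S, hSS⟩ : ∃ S, S = Sv ε X := ⟨_, rfl⟩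
  rw [← hSS] at hS hSdef ⊢
  have hS0 : 0 < S := hc.trans_le hS
  obtain ⟨A, hA⟩ : ∃ A, A = Ax X := ⟨_, rfl⟩
  obtain ⟨B, hB⟩ : ∃ B, B = Bx X := ⟨_, rfl⟩
  obtain ⟨D, hD⟩ : ∃ D, D = Dv ε X := ⟨_, rfl⟩
  obtain ⟨Q, hQ⟩ : ∃ Q, Q = Qv ε X := ⟨_, rfl⟩
  obtain ⟨w, hwd⟩ : ∃ w, w = hat y δ := ⟨_, rfl⟩
  rw [← hA, ← hB, ← hwd] at hw hk ⊢
  rw [← hD, ← hQ] at hk hSdef
  obtain ⟨W, hW⟩ : ∃ W, W = mass A B w := ⟨_, rfl⟩
  obtain ⟨Θ, hΘ⟩ : ∃ Θ, Θ = theta A B w := ⟨_, rfl⟩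
  have hAB : A ≤ B := by
    rw [hA, hB]
    apply Nat.floor_mono
    linarith
  have hhalf : X ^ (1 / 2 : ℝ) ≤ X / 2 := by
    have h1 : X ^ (1 / 2 : ℝ) * X ^ (1 / 2 : ℝ) = X := by
      rw [← Real.rpow_add hX0]
      norm_num
    nlinarith
  have hDP : (D : ℝ) ≤ P := by
    rw [hD, hP]
    exact Nat.floor_le (Real.rpow_nonneg hX0.le _)
  have hPh : P ≤ X ^ (1 / 2 : ℝ) := by
    rw [hP]
    exact hmono _ _ (by linarith)
  have hD1 : 1 ≤ D := by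
    rw [hD]
    apply Nat.le_floor
    rw [← hP]
    exact_mod_cast hP1
  have hA1 : 1 ≤ A := by
    rw [hA]
    apply Nat.le_floor
    push_cast
    linarith
  have hDA : D ≤ A := by
    rw [hA]
    exact Nat.le_floor (hDP.trans (hPh.trans hhalf))
  have hHA : H ≤ A := by
    rw [hA]
    exact Nat.le_floor (hHX.trans ((hmono _ _ (by linarith)).trans hhalf))
  have hQm : ∀ q ∈ Q, q.Prime ∧ X ^ (6 * ε) < q ∧ q ≤ D := by
    intro q hq
    rw [hQ, Qv, Finset.mem_filter, Finset.mem_Ioc, ← hD] at hq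
    exact ⟨hq.2, (Nat.floor_lt (Real.rpow_nonneg hX0.le _)).1 hq.1.1, hq.1.2⟩
  obtain ⟨K, hK⟩ : ∃ K, K = KK D := ⟨_, rfl⟩
  have hlogD0 : 0 ≤ Real.log D := Real.log_natCast_nonneg D
  have hlogD : Real.log D ≤ u := by
    rw [hu]
    refine Real.log_le_log (by exact_mod_cast hD1) ?_
    linarith
  have hK0 : 0 ≤ K := by
    rw [hK, KK]
    positivity
  have hKu : K ≤ 64 * u ^ 3 := by
    have h1 : K ≤ (4 * u) ^ 3 := by
      rw [hK, KK]
      exact pow_le_pow_left₀ (by linarith) (by linarith) 3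
    calc K ≤ (4 * u) ^ 3 := h1
      _ = _ := by ring
  have hρ : ∀ q ∈ Q, SV (D / q) q K (sv D q) (rv D q) := by
    intro q hq
    rw [hK]
    exact rv_SV D q (hQm q hq).1 (hQm q hq).2.2
  have hQD : ∀ q ∈ Q, q.Prime ∧ q ≤ D := fun q hq => ⟨(hQm q hq).1, (hQm q hq).2.2⟩
  obtain ⟨L, hL⟩ : ∃ L, L = LL D Q := ⟨_, rfl⟩
  have hL0 : 0 ≤ L := by
    rw [hL, LL]
    exact Finset.sum_nonneg (fun q _ => Nat.cast_nonneg _)
  have hLu : L ≤ P * (2 * u) := by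
    have h1 : L ≤ D * (1 + Real.log D) := by
      rw [hL]
      apply LL_le D hD1 Q
      intro q hq
      rw [Finset.mem_Icc]
      exact ⟨(hQm q hq).1.one_lt.le, (hQm q hq).2.2⟩
    refine h1.trans (mul_le_mul hDP (by linarith) (by linarith) hP0.le)
  have hH0 : (0 : ℝ) ≤ H := Nat.cast_nonneg H
  have hH1 : (1 : ℝ) ≤ H := by exact_mod_cast hH
  have hcov := cov_split2 (A := A) (B := B) (D := D) (H := H) (w := w) (ρ := rv D)
    (s := sv D) (K := K) (Q := Q) hw hAB hA1 hDA hHA hK0 hρ hQD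
  have hfp := f_part2 (A := A) (B := B) (D := D) (H := H) (ρ := rv D) (s := sv D) (K := K)
    (Q := Q) (fun n => w n * f n) hAB hK0 hρ (fun q hq => (hQm q hq).1)
  have hv := win_v hw (X ^ (2 / 5 : ℝ)) (fun n => (hf n).trans (hmono _ _ (by norm_num))) hf2
  have hg := g_sq2 (A := A) (B := B) (D := D) (H := H) (w := w) (ρ := rv D) (s := sv D) (K := K)
    (η := η) (Q := Q) hw hAB hH hη hη1 hρ (by
      intro q hq
      obtain ⟨h1, h2, h3⟩ := hQm q hq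
      have h4 : X ^ (6 * ε) = X ^ (5 * ε) * X ^ ε := by
        rw [← Real.rpow_add hX0]
        congr 1
        ring
      have h5 : 1 ≤ X ^ ε := Real.one_le_rpow hX1 hε.le
      refine ⟨h1, ?_, ?_⟩
      · have h6 := hmono ε (6 * ε) (by linarith)
        have : (H : ℝ) < q := by linarith
        exact_mod_cast this
      · rw [div_le_iff₀ hη] at he2
        have h6 : (2 * (1 + 1 / η) + η) * X ^ ε ≤ X ^ (5 * ε) * η * X ^ ε :=
          mul_le_mul_of_nonneg_right he2 (by linarith)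
        have h7 : η * X ^ (6 * ε) ≤ η * q := mul_le_mul_of_nonneg_left h2.le hη.le
        rw [h4] at h7
        have h8 : 2 * (1 + 1 / η) * H ≤ 2 * (1 + 1 / η) * X ^ ε :=
          mul_le_mul_of_nonneg_left hHX (by positivity)
        nlinarith)
  rw [← hSdef, ← hW] at hg
  rw [← hSdef, ← hΘ] at hcov
  rw [← hL] at hcov hfp hg
  rw [← hW, ← hΘ]
  -- sizes
  have hHsq : (H : ℝ) ^ 2 ≤ X ^ (2 * ε) := by
    calc (H : ℝ) ^ 2 ≤ (X ^ ε) ^ 2 := pow_le_pow_left₀ hH0 hHX 2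
      _ = X ^ (2 * ε) := by
          rw [sq, ← Real.rpow_add hX0]
          congr 1
          ring
  have hKL : K * L ≤ 128 * u ^ 4 * P := by
    calc K * L ≤ (64 * u ^ 3) * (P * (2 * u)) := mul_le_mul hKu hLu hL0 (by positivity)
      _ = _ := by ring
  have hlogBH : Real.log ((B : ℝ) + H) ≤ 2 * u := by
    refine le_trans ?_ hlog5
    have hB' : (B : ℝ) ≤ 4 * X := by
      rw [hB]
      exact Nat.floor_le (by linarith)
    have hHX' : (H : ℝ) ≤ X := by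
      have := hmono ε 1 (by linarith)
      rw [Real.rpow_one] at this
      linarith
    refine Real.log_le_log ?_ (by linarith)
    have : (0 : ℝ) ≤ B := Nat.cast_nonneg _
    linarith
  have herr1 : 9 * (H : ℝ) ^ 3 * K * L * Real.log (B + H) ≤ H * e' := by
    calc 9 * (H : ℝ) ^ 3 * K * L * Real.log (B + H)
        = 9 * H * ((H : ℝ) ^ 2 * (K * L)) * Real.log (B + H) := by ring
      _ ≤ 9 * H * ((H : ℝ) ^ 2 * (K * L)) * (2 * u) :=
          mul_le_mul_of_nonneg_left hlogBH (by positivity)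
      _ ≤ 9 * H * (X ^ (2 * ε) * (128 * u ^ 4 * P)) * (2 * u) := by
          refine mul_le_mul_of_nonneg_right ?_ (by positivity)
          refine mul_le_mul_of_nonneg_left ?_ (by positivity)
          exact mul_le_mul hHsq hKL (by positivity) (by positivity)
      _ = H * (2304 * u ^ 5 * (X ^ (2 * ε) * P)) := by ring
      _ ≤ _ := mul_le_mul_of_nonneg_left hn2 hH0
  have herr2 : 3 * H * K * L * (5 * X ^ (2 / 5 : ℝ)) ≤ H * e' := by
    calc 3 * H * K * L * (5 * X ^ (2 / 5 : ℝ))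
        = 15 * H * ((K * L) * X ^ (2 / 5 : ℝ)) := by ring
      _ ≤ 15 * H * ((128 * u ^ 4 * P) * X ^ (2 / 5 : ℝ)) := by
          refine mul_le_mul_of_nonneg_left ?_ (by positivity)
          exact mul_le_mul_of_nonneg_right hKL (by positivity)
      _ = H * (1920 * u ^ 4 * (P * X ^ (2 / 5 : ℝ))) := by ring
      _ ≤ _ := mul_le_mul_of_nonneg_left hn3 hH0
  have herr4 : 100 * ((H : ℝ) * K * L) ^ 2 ≤ H * e' := by
    calc 100 * ((H : ℝ) * K * L) ^ 2 = 100 * H * (H * (K * L) ^ 2) := by ring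
      _ ≤ 100 * H * (X ^ ε * (128 * u ^ 4 * P) ^ 2) := by
          refine mul_le_mul_of_nonneg_left ?_ (by positivity)
          refine mul_le_mul hHX ?_ (by positivity) (by positivity)
          exact pow_le_pow_left₀ (by positivity) hKL 2
      _ = H * (1638400 * u ^ 8 * (X ^ ε * (P * P))) := by ring
      _ ≤ _ := mul_le_mul_of_nonneg_left hn4 hH0
  have hHe : 3 * (H * e') ≤ H * S * e := by
    have h1 : 3 * e' ≤ S * e := hn1.trans (mul_le_mul_of_nonneg_right hS he0)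
    calc 3 * (H * e') = H * (3 * e') := by ring
      _ ≤ H * (S * e) := mul_le_mul_of_nonneg_left h1 hH0
      _ = _ := by ring
  have hke : e' ≤ H * e' := le_mul_of_one_le_left he'0 hH1
  have hHe0 : 0 ≤ H * e' := mul_nonneg hH0 he'0
  -- the lower bound of the correlation
  obtain ⟨Z, hZd⟩ : ∃ Z, Z = ∑ n ∈ Ioc A B, w n * (PH H n - f n) * gg (rv D) D Q H n := ⟨_, rfl⟩
  have hZ : H * S * (Θ - e) ≤ Z := by
    have hZ1 : Z = ∑ x ∈ Ioc A B, w x * (PH H x * gg (rv D) D Q H x) -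
        ∑ x ∈ Ioc A B, (w x * f x) * gg (rv D) D Q H x := by
      rw [hZd, ← Finset.sum_sub_distrib]
      refine Finset.sum_congr rfl (fun x _ => ?_)
      ring
    have h1 := (abs_le.1 hcov).1
    have h2 := (abs_le.1 hk).1
    have h3 : |∑ x ∈ Ioc A B, (w x * f x) * gg (rv D) D Q H x| ≤
        3 * H * K * L * (5 * X ^ (2 / 5 : ℝ)) := by
      refine hfp.trans ?_
      exact mul_le_mul_of_nonneg_left hv (by positivity)
    have h4 := (abs_le.1 h3).2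
    rw [hZ1]
    have h5 : H * S * (Θ - e) = H * S * Θ - H * S * e := by ring
    rw [h5]
    linarith
  obtain ⟨V, hV⟩ : ∃ V, V = ∑ n ∈ Ioc A B, w n * (PH H n - f n) ^ 2 := ⟨_, rfl⟩
  rw [← hV]
  obtain ⟨G, hG⟩ : ∃ G, G = ∑ x ∈ Ioc A B, w x * gg (rv D) D Q H x ^ 2 := ⟨_, rfl⟩
  rw [← hG] at hg
  have hV0 : 0 ≤ V := by
    rw [hV]
    exact Finset.sum_nonneg (fun n _ => mul_nonneg (hw.nonneg n) (sq_nonneg _))
  have hW0 : 0 ≤ W := by
    rw [hW, mass]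
    exact Finset.sum_nonneg (fun n _ => hw.nonneg n)
  have hCS : Z ^ 2 ≤ V * G := by
    rw [hZd, hV, hG]
    refine Finset.sum_sq_le_sum_mul_sum_of_sq_eq_mul (Ioc A B)
      (fun n _ => mul_nonneg (hw.nonneg n) (sq_nonneg _))
      (fun n _ => mul_nonneg (hw.nonneg n) (sq_nonneg _)) (fun n _ => ?_)
    ring
  -- the second moment
  have hG2 : G ≤ (1 + 2 * η) * (H * S * (W + e)) := by
    have h1 : H * S * e ≤ (1 + 2 * η) * (H * S * e) :=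
      le_mul_of_one_le_left (by positivity) (by linarith)
    have h2 : (1 + 2 * η) * (H * S * (W + e)) =
        (1 + 2 * η) * (H * S * W) + (1 + 2 * η) * (H * S * e) := by ring
    rw [h2]
    linarith
  by_cases hΘ2 : Θ - e ≤ 0
  · rw [max_eq_left hΘ2]
    have : 0 ≤ (1 + 2 * η) * (W + e) * V := by positivity
    simpa using this
  · push Not at hΘ2
    rw [max_eq_right hΘ2.le]
    obtain ⟨T, hT⟩ : ∃ T, T = Θ - e := ⟨_, rfl⟩
    rw [← hT] at hΘ2 hZ ⊢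
    have h1 : (H * S * T) ^ 2 ≤ V * ((1 + 2 * η) * (H * S * (W + e))) := by
      calc (H * S * T) ^ 2 ≤ Z ^ 2 := pow_le_pow_left₀ (by positivity) hZ 2
        _ ≤ V * G := hCS
        _ ≤ _ := mul_le_mul_of_nonneg_left hG2 hV0
    have hHS : 0 < H * S := mul_pos (by linarith) hS0
    have h2 : (H * S) * (H * S * T ^ 2) ≤ (H * S) * ((1 + 2 * η) * (W + e) * V) := by
      calc (H * S) * (H * S * T ^ 2) = (H * S * T) ^ 2 := by ring
        _ ≤ _ := h1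
        _ = _ := by ring
    exact le_of_mul_le_mul_left h2 hHS

end Pool.Agent.H67.VT
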